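import Pool.Agent.Lib.RB9.Blue
import Pool.Agent.Lib.FI.B_CON

/-! Project rb9, row MOL: a weak inequality holds up to a small error after smoothing. -/

open scoped Classical Topology ContDiff ComplexOrder Matrix ENNReal
open Set MeasureTheory Complex Metric Filter

noncomputable section

namespace Pool.Agent.Lib.RB9

open Pool.Agent.Lib.SV (E nsq)
open Pool.Agent.Lib.HS32 Pool.Agent.Lib.FI Pool.Agent.Lib.KH

namespace MOL

variable {k : ℕ}

theorem sq_le (v : E k) : ‖v‖ ^ 2 ≤ nsq v := by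
  have h0 : 0 ≤ nsq v := Finset.sum_nonneg fun _ _ => normSq_nonneg _
  have h : ‖v‖ ≤ Real.sqrt (nsq v) := by
    refine (pi_norm_le_iff_of_nonneg (Real.sqrt_nonneg _)).2 fun j => Real.le_sqrt_of_sq_le ?_
    rw [← Complex.normSq_eq_norm_sq]
    exact Finset.single_le_sum (f := fun j => normSq (v j)) (fun _ _ => normSq_nonneg _)
      (Finset.mem_univ j)
  exact (pow_le_pow_left₀ (norm_nonneg _) h 2).trans_eq (Real.sq_sqrt h0)

theorem nq_sum (A : Mat k) (ξ : E k) : nq A ξ = (∑ i, ∑ j, star (ξ i) * ξ j * A i j).re := by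
  simp only [nq, dotProduct, Matrix.mulVec, Finset.mul_sum, Pi.star_apply]
  refine congrArg _ (Finset.sum_congr rfl fun i _ => Finset.sum_congr rfl fun j _ => ?_)
  ring

theorem nq_int {Y : Type} [MeasurableSpace Y] {μ : Measure Y} {a : Y → ℝ} {A : Y → Mat k}
    (h : ∀ i j, Integrable (fun x => (a x : ℂ) * A x i j) μ) (ξ : E k) :
    nq (Matrix.of fun i j => ∫ x, (a x : ℂ) * A x i j ∂μ) ξ = ∫ x, a x * nq (A x) ξ ∂μ := by
  have e : ∀ x, a x * nq (A x) ξ = (∑ i, ∑ j, star (ξ i) * ξ j * ((a x : ℂ) * A x i j)).re := fun x => by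
    rw [nq_sum, ← re_ofReal_mul]
    simp only [Finset.mul_sum, mul_left_comm]
  have i1 : ∀ i, Integrable (fun x => ∑ j, star (ξ i) * ξ j * ((a x : ℂ) * A x i j)) μ := fun i =>
    integrable_finsetSum _ fun j _ => (h i j).const_mul _
  have e2 := integral_re (integrable_finsetSum Finset.univ fun i _ => i1 i)
  simp only [e]
  refine Eq.trans ?_ e2.symm
  rw [integral_finsetSum _ fun i _ => i1 i, nq_sum]
  simp only [Matrix.of_apply, RCLike.re_to_complex]
  refine congrArg _ (Finset.sum_congr rfl fun i _ => ?_)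
  rw [integral_finsetSum _ fun j _ => (h i j).const_mul _]
  simp only [integral_const_mul]

theorem nq_lin (T A : Mat k) (c η : ℝ) (ξ : E k) :
    nq (c • T + η • (1 : Mat k) - A) ξ = c * nq T ξ + η * nsq ξ - nq A ξ := by
  have h : (star ξ ⬝ᵥ ξ).re = nsq ξ := by
    simp [dotProduct, nsq, normSq_apply]
  simp only [nq, Matrix.sub_mulVec, Matrix.add_mulVec, Matrix.smul_mulVec, Matrix.one_mulVec,
    dotProduct_sub, dotProduct_add, dotProduct_smul, sub_re, add_re, real_smul, re_ofReal_mul, h]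

theorem nq_sub (A B : Mat k) (ξ : E k) : nq (A - B) ξ = nq A ξ - nq B ξ := by
  simp only [nq, Matrix.sub_mulVec, dotProduct_sub, sub_re]

theorem near {Ω K : Set (E k)} {A : E k → Mat k} (hΩ : IsOpen Ω) (hA : ContinuousOn A Ω)
    (hK : IsCompact K) (hs : K ⊆ Ω) {η : ℝ} (hη : 0 < η) :
    ∃ δ > 0, ∀ y ∈ K, ∀ w, ‖y - w‖ < δ → w ∈ Ω ∧ BBD.sn (A y - A w) ≤ η := by
  have h : ∀ᶠ u in 𝓝 (0 : E k), ∀ y ∈ K, y - u ∈ Ω ∧ BBD.sn (A y - A (y - u)) ≤ η := by
    refine hK.eventually_forall_of_forall_eventually fun y hy => ?_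
    have c0 : ContinuousAt A y := hA.continuousAt (hΩ.mem_nhds (hs hy))
    have c1 : ContinuousAt (fun q : E k × E k => q.2 - q.1) (0, y) := by fun_prop
    have c2 : ContinuousAt (fun q : E k × E k => A q.2 - A (q.2 - q.1)) (0, y) :=
      (c0.comp_of_eq continuousAt_snd rfl).sub (c0.comp_of_eq c1 (by simp))
    have c3 : Continuous (BBD.sn : Mat k → ℝ) :=
      continuous_finsetSum _ fun i _ => continuous_finsetSum _ fun j _ =>
        (continuous_id.matrix_elem i j).norm
    refine (c1.eventually_mem (hΩ.mem_nhds (by simpa using hs hy))).and ?_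
    refine ((c3.continuousAt.comp c2).eventually (gt_mem_nhds (a := η) ?_)).mono fun _ h => h.le
    simpa [BBD.sn] using hη
  obtain ⟨δ, d0, hd⟩ := Metric.eventually_nhds_iff.1 h
  refine ⟨δ, d0, fun y hy w hw => ?_⟩
  have := hd (y := y - w) (by rwa [dist_zero_right]) y hy
  rwa [sub_sub_cancel] at this

end MOL

theorem bMOL (hITG : St_ITG) (hBAS : St_BAS) : St_MOL := by
  intro n k M _ H p z C V r Ψ Ω A c hC hΩ hA hH hc hw K hK hs η hη
  obtain ⟨h1, -, -, h4, -⟩ := hBAS n k M H p z C hC.fb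
  have hp : ∀ x, 0 < p x → (hz H z x).PosSemidef := fun x hx =>
    (Mf.AllOn.ch h4 x (by rw [Mf.ch_symm]; exact hx)).2.1
  obtain ⟨δ, d0, hd⟩ := MOL.near hΩ hA hK hs hη
  filter_upwards [Ioo_mem_nhdsGT d0] with e he y hy
  have t := CON.tst_sub (CON.tst_sc hC.rad.tr he.1) y
  have t0 : ∀ w, 0 ≤ sc r e (y - w) := fun w => CON.sc_nn hC.rad.r0 he.1 _
  have tz : ∀ w, e < ‖y - w‖ → sc r e (y - w) = 0 := fun w h =>
    CON.sc_zero (fun y a => (hC.rad.sr y a).1) he.1 h
  have ts : tsupport (fun w => sc r e (y - w)) ⊆ Ω := by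
    have s1 : (Function.support fun w => sc r e (y - w)) ⊆ {w | ‖y - w‖ ≤ e} := fun w h =>
      not_lt.1 fun a => h (tz w a)
    exact (closure_minimal s1 (isClosed_le (by fun_prop) continuous_const)).trans fun w h =>
      (hd y hy w (lt_of_le_of_lt h he.2)).1
  have it : ∀ i j, Integrable (fun x => (sc r e (y - z x) : ℂ) * (hz H z x).adjugate i j)
      ((M.mu H).restrict {x | 0 < p x}) := fun i j => by
    have := (hITG n k M H p z C (fun _ => 1) (fun w => (sc r e (y - w) : ℂ)) hC.fb continuous_const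
      (continuous_ofReal.comp t.sm.continuous) (t.cs.comp_left (g := ((↑) : ℝ → ℂ)) rfl)).2 i j
    simp only [one_mul] at this
    exact this
  have hf : (ft H p z r e y).IsHermitian := by
    ext i j
    simp only [ft, Matrix.conjTranspose_apply, Matrix.of_apply]
    rw [star_def, ← integral_conj]
    refine setIntegral_congr_fun h1.measurableSet fun x hx => ?_
    have := (hp x hx).isHermitian.adjugate.apply i j
    simp only [map_mul, conj_ofReal]
    rw [← this, star_def]
  have hh : (c • ft H p z r e y + η • (1 : Mat k) - A y).IsHermitian :=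
    ((hf.smul (IsSelfAdjoint.all c)).add (Matrix.isHermitian_one.smul (IsSelfAdjoint.all η))).sub
      (hH y (hs hy))
  refine .of_dotProduct_mulVec_nonneg hh fun ξ =>
    Complex.le_def.2 ⟨?_, (hh.im_star_dotProduct_mulVec_self ξ).symm⟩
  change 0 ≤ nq _ ξ
  have a1 := hw _ t t0 ts ξ
  have a2 : nq (ft H p z r e y) ξ =
      ∫ x in {x | 0 < p x}, sc r e (y - z x) * nq (hz H z x).adjugate ξ ∂M.mu H := MOL.nq_int it ξ
  have i0 : Integrable fun w => sc r e (y - w) := t.sm.continuous.integrable_of_hasCompactSupport t.cs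
  have o : ∫ w, sc r e (y - w) = 1 := by
    rw [integral_sub_left_eq_self (sc r e), CON.int_sc r he.1, hC.rad.one]
  have cq : Continuous fun B : Mat k => nq B ξ := by
    simp only [MOL.nq_sum]
    exact continuous_re.comp (continuous_finsetSum _ fun i _ => continuous_finsetSum _ fun j _ =>
      continuous_const.mul (continuous_id.matrix_elem i j))
  have i1 : Integrable fun w => sc r e (y - w) * nq (A w) ξ :=
    ((t.sm.continuous.continuousOn.mul (cq.comp_continuousOn hA)).continuous_of_tsupport_subset hΩ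
      (tsupport_mul_subset_left.trans ts)).integrable_of_hasCompactSupport t.cs.mul_right
  have a3 : ∫ w, sc r e (y - w) * (nq (A y) ξ - η * nsq ξ) ≤ ∫ w, sc r e (y - w) * nq (A w) ξ := by
    refine integral_mono (i0.mul_const _) i1 fun w => ?_
    by_cases b : e < ‖y - w‖
    · simp only [tz w b, zero_mul, le_refl]
    · refine mul_le_mul_of_nonneg_left ?_ (t0 w)
      have b1 := (hd y hy w (lt_of_le_of_lt (not_lt.1 b) he.2)).2
      have b2 := (le_abs_self _).trans (BBD.nq_abs (A y - A w) ξ)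
      have b3 := mul_le_mul b1 (MOL.sq_le ξ) (by positivity) hη.le
      rw [MOL.nq_sub] at b2
      linarith
  rw [integral_mul_const, o, one_mul] at a3
  rw [MOL.nq_lin, a2]
  linarith

end Pool.Agent.Lib.RB9
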