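import Pool.Agent.Lib.RB9.Blue

/-! Project rb9, row T10: the passage to the limit. -/

open scoped Classical Topology ContDiff ENNReal
open Set MeasureTheory Complex Filter

noncomputable section

namespace Pool.Agent.Lib.RB9

open Pool.Agent.Lib.SV (E nsq nsq_nonneg)
open Pool.Agent.Lib.HS32 Pool.Agent.Lib.FI Pool.Agent.Lib.KH

namespace T10

variable {n k : ℕ} {M : Mf n}

theorem cont {F : Type} [TopologicalSpace F] {f : M.X → F} {O : Set M.X}
    (h : OnK M O fun e w => ContinuousAt (f ∘ e.symm) w) : ContinuousOn f O := fun x hx => by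
  obtain ⟨e, he, h1⟩ := M.cov x
  exact (((h e he _ (e.map_source h1) (by rwa [e.left_inv h1])).comp (e.continuousAt h1)).congr
    ((e.eventually_left_inverse h1).mono fun y hy => by simp [hy])).continuousWithinAt

theorem meas {F : Type} [TopologicalSpace F] [MeasurableSpace F] [BorelSpace F] {f : M.X → F}
    {O : Set M.X} {ν : Measure M.X} (hO : IsOpen O) (ha : ∀ᵐ x ∂ν, x ∈ O) (h : ContinuousOn f O) :
    AEMeasurable f ν := by
  rw [← Measure.restrict_eq_self_of_ae_mem ha]
  exact h.aemeasurable hO.measurableSet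

theorem c_nsq : Continuous (nsq : E k → ℝ) := by unfold nsq; fun_prop

theorem le_den {w : ℝ → ℝ} (hw : ∀ e e', 0 < e → e ≤ e' → w e ≤ w e') {e : ℝ} (he : 0 < e) :
    ENNReal.ofReal (Real.exp (-w e)) ≤
      ⨆ i : ℕ, ENNReal.ofReal (Real.exp (-w (1 / ((i : ℝ) + 1)))) := by
  obtain ⟨i, hi⟩ := exists_nat_one_div_lt he
  exact le_iSup_of_le i (ENNReal.ofReal_le_ofReal
    (Real.exp_le_exp.2 (neg_le_neg (hw _ _ (by positivity) hi.le))))

theorem to_den {w : ℝ → ℝ} (hw : ∀ e e', 0 < e → e ≤ e' → w e ≤ w e') {e : ℕ → ℝ}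
    (h0 : ∀ i, 0 < e i) (ht : Tendsto e atTop (𝓝 0)) :
    Tendsto (fun i => ENNReal.ofReal (Real.exp (-w (e i)))) atTop
      (𝓝 (⨆ i : ℕ, ENNReal.ofReal (Real.exp (-w (1 / ((i : ℝ) + 1)))))) := by
  refine tendsto_order.2 ⟨fun a ha => ?_, fun b hb => .of_forall fun i => (le_den hw (h0 i)).trans_lt hb⟩
  obtain ⟨j, hj⟩ := lt_iSup_iff.1 ha
  filter_upwards [ht.eventually (Iio_mem_nhds (show (0 : ℝ) < 1 / ((j : ℝ) + 1) by positivity))]
    with i hi
  exact hj.trans_le (ENNReal.ofReal_le_ofReal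
    (Real.exp_le_exp.2 (neg_le_neg (hw _ _ (h0 i) hi.le))))

theorem sq_le (a b : ℂ) {t : ℝ} (ht : t ∈ Icc (0 : ℝ) 1) :
    normSq b ≤ 2 * normSq (t * a - b) + 2 * normSq a := by
  have h1 : normSq (t * a) ≤ normSq a := by
    rw [map_mul, normSq_ofReal]
    exact mul_le_of_le_one_left (normSq_nonneg _) (mul_le_one₀ ht.2 ht.1 ht.2)
  generalize (t : ℂ) * a = u at h1
  have h2 := normSq_nonneg (2 * u - b)
  simp only [normSq_apply, sub_re, sub_im, mul_re, mul_im, re_ofNat, im_ofNat] at h1 h2 ⊢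
  nlinarith

end T10

open T10 in
theorem bT10 (hO : St_ONE) (hM : St_MTL) : St_T10 := by
  intro n k M _ H O ν z Ω U v c₁ κ Θ m m₁ C l c β Γ W hl hc mβ sΓ β0 dom fin
  by_cases hI : ∫⁻ x, ENNReal.ofReal (β x) * den z κ U v m l c x ∂ν = ⊤
  · exact ⟨fun _ => 0, fun e _ w _ _ => .of_forall fun _ => differentiableAt_const _, hI ▸ le_top⟩
  obtain ⟨q, ζ, A, B, cq, -, q0, -, hζ, cζ, h⟩ := hO n k M H O ν z Ω U v c₁ κ Θ m m₁ C l c W hl hc
  choose L hL h2 using fun i : ℕ =>
    ((eventually_ge_atTop ((i : ℝ) + 1)).and (h β Γ mβ sΓ β0 dom fin)).exists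
  have ev : ∀ t : ℝ, 0 < t → ∀ᶠ e in 𝓝[>] (0 : ℝ), 0 < e ∧ e ≤ t := fun t ht => Ioc_mem_nhdsGT ht
  choose e he F ph hF cph ph1 ph2 est using fun i : ℕ =>
    ((ev (1 / ((i : ℝ) + 1)) (by positivity)).and (h2 i)).exists
  have L0 : ∀ i, 0 < L i := fun i => lt_of_lt_of_le (by positivity) (hL i)
  have tL : Tendsto L atTop atTop :=
    tendsto_atTop_mono hL (tendsto_atTop_add_const_right _ _ tendsto_natCast_atTop_atTop)
  have te : Tendsto e atTop (𝓝 0) := squeeze_zero (fun i => (he i).1.le) (fun i => (he i).2)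
    tendsto_one_div_add_atTop_nhds_zero_nat
  have U0 : ∀ t y, 0 < t → t ≤ 1 → U t y ≤ 0 := fun t y h0 h1 =>
    (W.up.mono _ _ y h0 h1).trans ((W.up.up y).trans
      (neg_nonpos.2 (Real.log_nonneg (le_add_of_nonneg_right (nsq_nonneg y)))))
  have e1 : ∀ i, e i ≤ 1 := fun i => (he i).2.trans
    ((div_le_one (by positivity)).2 (le_add_of_nonneg_left (Nat.cast_nonneg i)))
  obtain ⟨m0, m1, -⟩ := W.m0
  have mw : ∀ x t t', 0 < t → t ≤ t' → wt z κ U v m l c t x ≤ wt z κ U v m l c t' x :=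
    fun x t t' h0 h1 => by
      have a := mul_le_mul_of_nonneg_left (W.vm t t' (z x) h0 h1) m0
      have b := mul_le_mul_of_nonneg_left (W.up.mono t t' (z x) h0 h1) (show 0 ≤ l by linarith)
      unfold wt
      linarith
  have aO : ∀ᵐ x ∂ν, x ∈ O := W.ae.mono fun _ h => h.1
  have aΩ : ∀ᵐ x ∂ν, x ∈ O ∩ z ⁻¹' Ω := W.ae.mono fun _ h => ⟨h.1, W.sub _ h.2⟩
  have cz : ContinuousOn z O := cont fun d hd w hw ho => (W.hz d hd w hw ho).self_of_nhds.continuousAt
  have oΩ := cz.isOpen_inter_preimage W.oO W.oΩ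
  have mz := meas W.oO aO cz
  have mκ := meas oΩ aΩ (cont (f := κ) fun d hd w hw ho => (W.sk d hd w hw ho).continuousAt)
  have mΓ := meas oΩ aΩ (cont (f := Γ) fun d hd w hw ho => (sΓ d hd w hw ho).continuousAt)
  have mN : AEMeasurable (fun x => normSq (Γ x)) ν := continuous_normSq.measurable.comp_aemeasurable mΓ
  have mU : ∀ t, 0 < t → AEMeasurable (fun x => U t (z x)) ν := fun t ht =>
    (W.up.sm t ht).continuous.measurable.comp_aemeasurable mz
  have mwt : ∀ t, 0 < t → AEMeasurable (wt z κ U v m l c t) ν := fun t ht =>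
    ((mκ.add (((W.vs t ht).1.continuous.measurable.comp_aemeasurable mz).const_mul m)).add
      ((mU t ht).const_mul l)).add
      (((c_nsq.measurable.comp_aemeasurable mz).const_add 1).log.const_mul c)
  have mD : AEMeasurable (den z κ U v m l c) ν :=
    .iSup fun i => (mwt _ (by positivity)).neg.exp.ennreal_ofReal
  have mJ : AEMeasurable (fun x => ENNReal.ofReal (normSq (Γ x)) * den z κ U v m l c x) ν :=
    mN.ennreal_ofReal.mul mD
  have t2 : (2 : ℝ≥0∞) ≠ ⊤ := ENNReal.ofNat_ne_top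
  have pt : ∀ x, Fin' U (z x) → (∀ᶠ i in atTop, -L i < U (e i) (z x)) ∧ Tendsto (fun i =>
      ENNReal.ofReal (Real.exp (-(wt z κ U v m l c (e i) x + q (U (e i) (z x) / L i))))) atTop
      (𝓝 (den z κ U v m l c x * ENNReal.ofReal (Real.exp (-q 0)))) := fun x ⟨a, ha⟩ => by
    refine ⟨(tL.eventually_gt_atTop (-a)).mono fun i hi => by linarith [ha _ (he i).1], ?_⟩
    have t1 : Tendsto (fun i => U (e i) (z x) / L i) atTop (𝓝 0) :=
      tendsto_of_tendsto_of_tendsto_of_le_of_le (tendsto_const_nhds.div_atTop tL) tendsto_const_nhds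
        (fun i => div_le_div_of_nonneg_right (ha _ (he i).1) (L0 i).le)
        fun i => div_nonpos_of_nonpos_of_nonneg (U0 _ _ (he i).1 (e1 i)) (L0 i).le
    simp only [neg_add, Real.exp_add, ENNReal.ofReal_mul (Real.exp_pos _).le]
    exact ENNReal.Tendsto.mul (to_den (mw x) (fun i => (he i).1) te) (.inr ENNReal.ofReal_ne_top)
      (ENNReal.tendsto_ofReal ((cq.tendsto 0).comp t1).neg.rexp)
      (.inl (ENNReal.ofReal_pos.2 (Real.exp_pos _)).ne')
  have dm : ∀ i x, ENNReal.ofReal ((β x + {x | U (e i) (z x) ≤ -L i}.indicator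
      (fun x => normSq (Γ x)) x) * Real.exp (-(wt z κ U v m l c (e i) x + q (U (e i) (z x) / L i)))) ≤
      ENNReal.ofReal (β x) * den z κ U v m l c x +
        ENNReal.ofReal (normSq (Γ x)) * den z κ U v m l c x := fun i x => by
    rw [ENNReal.ofReal_mul' (Real.exp_pos _).le, ← add_mul]
    refine mul_le_mul' (ENNReal.ofReal_add_le.trans (add_le_add le_rfl (ENNReal.ofReal_le_ofReal
      (indicator_le_self' (fun _ _ => normSq_nonneg _) x)))) (le_trans (ENNReal.ofReal_le_ofReal
        (Real.exp_le_exp.2 ?_)) (le_den (mw x) (he i).1))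
    linarith [q0 (U (e i) (z x) / L i)]
  have fs : ∫⁻ x, ENNReal.ofReal (β x) * den z κ U v m l c x +
      ENNReal.ofReal (normSq (Γ x)) * den z κ U v m l c x ∂ν ≠ ⊤ := by
    rw [lintegral_add_right' _ mJ]
    exact ENNReal.add_ne_top.2 ⟨hI, fin⟩
  have tR := tendsto_lintegral_of_dominated_convergence' _ (fun i => ((mβ.add (mN.indicator₀
      (nullMeasurableSet_le (mU _ (he i).1) aemeasurable_const))).mul ((mwt _ (he i).1).add
      (cq.measurable.comp_aemeasurable ((mU _ (he i).1).div_const (L i)))).neg.exp).ennreal_ofReal)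
    (fun i => .of_forall (dm i)) fs
    (f := fun x => ENNReal.ofReal (β x) * den z κ U v m l c x * ENNReal.ofReal (Real.exp (-q 0)))
    (W.ae.mono fun x hx => by
      obtain ⟨a, b⟩ := pt x hx.2
      rw [mul_assoc]
      refine (ENNReal.Tendsto.const_mul b (.inr ENNReal.ofReal_ne_top)).congr' (a.mono fun i hi => ?_)
      simp only [Pi.add_apply, Pi.mul_apply, Function.comp_apply, Pi.neg_apply]
      rw [indicator_of_notMem (by simpa using hi), add_zero, ENNReal.ofReal_mul' (Real.exp_pos _).le])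
  obtain ⟨cv, hv⟩ := W.vu
  have cl : ∀ a : ℝ, 0 < a → ContinuousOn (fun x => Real.log (a + nsq (z x))) O := fun a ha =>
    (continuousOn_const.add (c_nsq.comp_continuousOn cz)).log fun x _ =>
      (add_pos_of_pos_of_nonneg ha (nsq_nonneg _)).ne'
  obtain ⟨G, s, hs, hG, tG⟩ := hM n M H O ν F (fun x => Real.exp (-max
      (A + B * Real.log (1 + nsq (z x)))
      (C + m * (cv * Real.log (2 + nsq (z x))) + c * Real.log (1 + nsq (z x))))) _ W.met W.oO W.low
    ((continuousOn_const.add (continuousOn_const.mul (cl 1 one_pos))).sup ((continuousOn_const.add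
      (continuousOn_const.mul (continuousOn_const.mul (cl 2 two_pos)))).add
      (continuousOn_const.mul (cl 1 one_pos)))).neg.rexp (fun _ _ => Real.exp_pos _)
    (ENNReal.add_ne_top.2 ⟨ENNReal.mul_ne_top t2 fs, ENNReal.mul_ne_top t2 fin⟩) hF fun i => by
      refine (setLIntegral_le_lintegral _ _).trans (le_trans ?_ (add_le_add (mul_le_mul_right
        ((est i).trans (lintegral_mono (dm i))) 2) le_rfl))
      rw [← lintegral_const_mul' _ _ t2, ← lintegral_const_mul' _ _ t2,
        ← lintegral_add_right' _ (mJ.const_mul 2)]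
      refine lintegral_mono_ae (aΩ.mono fun x hx => ?_)
      obtain ⟨t, t1, t3⟩ := ((W.ub {z x} isCompact_singleton (singleton_subset_iff.2 hx.2)).and
        (ev 1 one_pos)).exists
      have a1 := t1 x ⟨hx.1, rfl⟩
      have a2 := mul_le_mul_of_nonneg_left ((W.vm t 1 (z x) t3.1 t3.2).trans (hv _)) m0
      have a3 := mul_nonneg (show 0 ≤ l - m₁ by linarith) (neg_nonneg.2 (U0 t (z x) t3.1 t3.2))
      have a4 : wt z κ U v m l c t x ≤ max (A + B * Real.log (1 + nsq (z x)))
          (C + m * (cv * Real.log (2 + nsq (z x))) + c * Real.log (1 + nsq (z x))) :=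
        le_max_of_le_right (by unfold wt; linarith)
      have a5 := (ph1 i x hx.1).trans (le_max_left _
        (C + m * (cv * Real.log (2 + nsq (z x))) + c * Real.log (1 + nsq (z x))))
      beta_reduce
      generalize (max _ _ : ℝ) = y at a4 a5 ⊢
      calc ENNReal.ofReal (normSq (F i x) * Real.exp (-y)) ≤ ENNReal.ofReal
            (2 * (normSq (ζ (U (e i) (z x) / L i) * Γ x - F i x) * Real.exp (-ph i x)) +
              2 * (normSq (Γ x) * Real.exp (-wt z κ U v m l c t x))) := by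
            refine ENNReal.ofReal_le_ofReal ?_
            have b1 := mul_le_mul_of_nonneg_right (sq_le (Γ x) (F i x)
              (hζ (U (e i) (z x) / L i)).1) (Real.exp_pos (-y)).le
            have b2 := mul_le_mul_of_nonneg_left (Real.exp_le_exp.2 (neg_le_neg a4))
              (normSq_nonneg (Γ x))
            have b3 := mul_le_mul_of_nonneg_left (Real.exp_le_exp.2 (neg_le_neg a5))
              (normSq_nonneg (ζ (U (e i) (z x) / L i) * Γ x - F i x))
            linarith
        _ ≤ _ := by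
            refine ENNReal.ofReal_add_le.trans ?_
            rw [ENNReal.ofReal_mul zero_le_two, ENNReal.ofReal_mul zero_le_two, ENNReal.ofReal_ofNat,
              ENNReal.ofReal_mul (normSq_nonneg (Γ x))]
            exact add_le_add le_rfl (mul_le_mul_right (mul_le_mul_right (le_den (mw x) t3.1) _) _)
  refine ⟨G, hG, (ENNReal.mul_le_mul_iff_left (ENNReal.ofReal_pos.2 (Real.exp_pos (-q 0))).ne'
    ENNReal.ofReal_ne_top).1 ?_⟩
  rw [← lintegral_mul_const' _ _ ENNReal.ofReal_ne_top,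
    ← lintegral_mul_const' _ _ ENNReal.ofReal_ne_top, ← (tR.comp hs.tendsto_atTop).liminf_eq]
  refine le_trans (le_trans (lintegral_mono_ae (W.ae.mono fun x hx => ?_)) (lintegral_liminf_le'
    fun i => ((continuous_normSq.measurable.comp_aemeasurable (((continuous_ofReal.comp
      cζ).measurable.comp_aemeasurable ((mU _ (he (s i)).1).div_const (L (s i)))).mul mΓ |>.sub
      (meas W.oO aO (cont (f := F (s i)) fun d hd w hw ho =>
        (hF _ d hd w hw ho).self_of_nhds.continuousAt)))).mul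
      (meas W.oO aO (cph (s i))).neg.exp).ennreal_ofReal))
    (liminf_le_liminf (.of_forall fun i => est (s i)))
  obtain ⟨a, b⟩ := pt x hx.2
  rcases eq_or_ne (ENNReal.ofReal (normSq (Γ x - G x))) 0 with h0 | h0
  · simp [h0]
  have t := ENNReal.Tendsto.mul (ENNReal.tendsto_ofReal ((continuous_normSq.tendsto _).comp
    ((tG x hx.1).const_sub (Γ x)))) (.inl h0) (b.comp hs.tendsto_atTop) (.inr ENNReal.ofReal_ne_top)
  rw [mul_assoc, ← t.liminf_eq]
  refine (liminf_congr ((hs.tendsto_atTop.eventually a).mono fun i hi => ?_)).le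
  have p := L0 (s i)
  simp only [Pi.sub_apply, Pi.mul_apply, Function.comp_apply, Pi.neg_apply]
  rw [ph2 _ x hx.1 (by linarith), (hζ _).2 ((le_div_iff₀ p).2 (by linarith)), ofReal_one, one_mul,
    ENNReal.ofReal_mul (normSq_nonneg _)]

end Pool.Agent.Lib.RB9
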