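import Pool.Agent.Lib.RB9.Blue

/-! Interpolation at the roots, and their growth. -/

open scoped Classical Topology ContDiff ComplexOrder Matrix ENNReal
open Set MeasureTheory Complex Metric Filter

set_option linter.unusedVariables false

noncomputable section

namespace Pool.Agent.Lib.RB9

open Pool.Agent.Lib.SV (E nsq)

namespace LGR

open Polynomial

variable {k : ℕ}

theorem ev_map (Q : Pz k) (y : E k) (s : ℂ) :
    ev Q y s = (Q.map (MvPolynomial.eval y)).eval s := eval₂_eq_eval_map _

/-- Polynomial growth on the set where `P` holds. -/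
def Gr (P : E k → ℂ → Prop) (f : E k → ℂ → ℝ) : Prop :=
  ∃ (b : ℕ) (c : ℝ), 0 ≤ c ∧ ∀ y s, P y s → f y s ≤ c * (1 + nsq y) ^ b

variable {P : E k → ℂ → Prop} {f g : E k → ℂ → ℝ}

theorem one_le (y : E k) : 1 ≤ 1 + nsq y :=
  le_add_of_nonneg_right (Finset.sum_nonneg fun _ _ => normSq_nonneg _)

theorem Gr.mono (h : Gr P g) (k : ∀ y s, P y s → f y s ≤ g y s) : Gr P f :=
  let ⟨b, c, c0, hc⟩ := h
  ⟨b, c, c0, fun y s p => (k y s p).trans (hc y s p)⟩

theorem gr_const (c : ℝ) : Gr P fun _ _ => c :=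
  ⟨0, |c|, abs_nonneg c, fun y s _ => by rw [pow_zero, mul_one]; exact le_abs_self c⟩

theorem Gr.add (hf : Gr P f) (hg : Gr P g) : Gr P fun y s => f y s + g y s := by
  obtain ⟨b, c, c0, hc⟩ := hf
  obtain ⟨b', c', c0', hc'⟩ := hg
  refine ⟨b + b', c + c', add_nonneg c0 c0', fun y s p => ?_⟩
  rw [add_mul]
  exact add_le_add ((hc y s p).trans (mul_le_mul_of_nonneg_left
    (pow_le_pow_right₀ (one_le y) (Nat.le_add_right _ _)) c0)) ((hc' y s p).trans
      (mul_le_mul_of_nonneg_left (pow_le_pow_right₀ (one_le y) (Nat.le_add_left _ _)) c0'))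

theorem Gr.mul (hf : Gr P f) (hg : Gr P g) (g0 : ∀ y s, 0 ≤ g y s) :
    Gr P fun y s => f y s * g y s := by
  obtain ⟨b, c, c0, hc⟩ := hf
  obtain ⟨b', c', c0', hc'⟩ := hg
  refine ⟨b + b', c * c', mul_nonneg c0 c0', fun y s p => ?_⟩
  rw [pow_add, mul_mul_mul_comm]
  exact mul_le_mul (hc y s p) (hc' y s p) (g0 y s)
    (mul_nonneg c0 (pow_nonneg (zero_le_one.trans (one_le y)) b))

theorem gr_sum {ι : Type} (S : Finset ι) {f : ι → E k → ℂ → ℝ} (h : ∀ i, Gr P (f i)) :
    Gr P fun y s => ∑ i ∈ S, f i y s := by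
  induction S using Finset.induction_on with
  | empty => exact (gr_const 0).mono fun y s _ => by simp
  | insert a S ha ih => exact ((h a).add ih).mono fun y s _ => (Finset.sum_insert ha).le

theorem gr_mv (a : MvPolynomial (Fin k) ℂ) : Gr P fun y _ => ‖MvPolynomial.eval y a‖ := by
  induction a using MvPolynomial.induction_on with
  | C c => exact (gr_const ‖c‖).mono fun y s _ => by rw [MvPolynomial.eval_C]
  | add p q hp hq => exact (hp.add hq).mono fun y s _ => by rw [map_add]; exact norm_add_le _ _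
  | mul_X p i hp =>
    have hi : Gr P fun y _ => ‖y i‖ := ⟨1, 1, zero_le_one, fun y s _ => by
      have h1 : normSq (y i) ≤ nsq y := Finset.single_le_sum (f := fun a => normSq (y a))
        (fun a _ => normSq_nonneg _) (Finset.mem_univ i)
      rw [normSq_eq_norm_sq] at h1
      nlinarith [sq_nonneg (‖y i‖ - 1), sq_nonneg ‖y i‖]⟩
    exact (hp.mul hi fun _ _ => norm_nonneg _).mono fun y s _ => by
      rw [map_mul, MvPolynomial.eval_X, norm_mul]

theorem gr_root {m : Pz k} (hm : m.Monic) : Gr (fun y s => ev m y s = 0) fun _ s => ‖s‖ := by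
  refine ((gr_sum (Finset.range m.natDegree) fun i => gr_mv (m.coeff i)).add (gr_const 1)).mono
    fun y s h => ?_
  have hP := hm.map (MvPolynomial.eval y)
  have h1 := IsRoot.norm_lt_cauchyBound hP.ne_zero ((ev_map m y s).symm.trans h)
  rw [cauchyBound, hP.leadingCoeff, nnnorm_one, div_one, hm.natDegree_map] at h1
  have h2 : (Finset.range m.natDegree).sup (‖(m.map (MvPolynomial.eval y)).coeff ·‖₊) ≤
      ∑ i ∈ Finset.range m.natDegree, ‖MvPolynomial.eval y (m.coeff i)‖₊ :=
    Finset.sup_le fun i hi => by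
      rw [coeff_map]
      exact Finset.single_le_sum (f := fun i => ‖MvPolynomial.eval y (m.coeff i)‖₊)
        (fun _ _ => zero_le) hi
  have h3 := NNReal.coe_le_coe.2 (h1.le.trans (add_le_add h2 le_rfl))
  simpa using h3

theorem gr_ev (hP : Gr P fun _ s => ‖s‖) (Q : Pz k) : Gr P fun y s => ‖ev Q y s‖ := by
  induction Q using Polynomial.induction_on with
  | C a => exact (gr_mv a).mono fun y s _ => by rw [ev, eval₂_C]
  | add p q hp hq =>
    refine (hp.add hq).mono fun y s _ => ?_
    rw [ev, eval₂_add]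
    exact norm_add_le _ _
  | monomial j a h =>
    refine (h.mul hP fun _ _ => norm_nonneg _).mono fun y s _ => ?_
    rw [ev, ev, pow_succ, ← mul_assoc, eval₂_mul, eval₂_X, norm_mul]

theorem df_mv (a : MvPolynomial (Fin k) ℂ) :
    Differentiable ℂ fun y : E k => MvPolynomial.eval y a := by
  induction a using MvPolynomial.induction_on with
  | C c => simp only [MvPolynomial.eval_C]; exact differentiable_const _
  | add p q hp hq => simp only [map_add]; exact hp.add hq
  | mul_X p i hp => simp only [map_mul, MvPolynomial.eval_X]; exact hp.mul (differentiable_apply i)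

theorem df_ev (Q : Pz k) : Differentiable ℂ fun w : E k × ℂ => ev Q w.1 w.2 := by
  induction Q using Polynomial.induction_on with
  | C a => simp only [ev, eval₂_C]; exact (df_mv a).comp differentiable_fst
  | add p q hp hq => simp only [ev, eval₂_add] at hp hq ⊢; exact hp.add hq
  | monomial j a h =>
    simp only [ev, pow_succ, ← mul_assoc, eval₂_mul, eval₂_X] at h ⊢
    exact h.mul differentiable_snd

theorem quo {p : ℂ[X]} {s s' : ℂ} (h : p.eval s = 0) (h' : p.eval s' = 0) :
    (p /ₘ (X - C s)).eval s' = if s' = s then p.derivative.eval s else 0 := by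
  have e := mul_divByMonic_eq_iff_isRoot.2 h
  split_ifs with c
  · have e2 := congrArg (fun q => q.derivative.eval s) e
    simpa [c] using e2
  · have e2 := (congrArg (eval s') e).trans h'
    rw [eval_mul, eval_sub, eval_X, eval_C] at e2
    exact (mul_eq_zero.1 e2).resolve_left (sub_ne_zero.2 c)

end LGR

open LGR Polynomial in
theorem bLGR : St_LGR := by
  intro k m hm
  refine ⟨⟨_, fun i : Fin (((m.map C : (Pz k)[X]) /ₘ (X - C X)).natDegree + 1) =>
    ((m.map C : (Pz k)[X]) /ₘ (X - C X)).coeff i, fun y s s' h h' => ?_⟩,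
    gr_ev (gr_root hm), fun y => ?_, df_ev, fun y₀ s₀ h h' => ?_⟩
  · have e : (m.map C : (Pz k)[X]).map (eval₂RingHom (MvPolynomial.eval y) s) =
        m.map (MvPolynomial.eval y) := by
      rw [Polynomial.map_map]
      exact congrArg (m.map ·) (RingHom.ext fun a => eval₂_C _ _)
    have e2 := eval₂_eq_sum_range (p := (m.map C : (Pz k)[X]) /ₘ (X - C X))
      (eval₂RingHom (MvPolynomial.eval y) s) s'
    rw [eval₂_eq_eval_map, map_divByMonic _ (monic_X_sub_C _), e, Polynomial.map_sub, map_X, map_C,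
      coe_eval₂RingHom, eval₂_X, quo ((ev_map m y s).symm.trans h) ((ev_map m y s').symm.trans h'),
      derivative_map, ← ev_map, Finset.sum_range] at e2
    exact e2.symm
  · simp only [ev_map]
    exact finite_setOfPred_isRoot (hm.map (MvPolynomial.eval y)).ne_zero
  · obtain ⟨q, a, e⟩ : ∃ (q : Pz k) (a : MvPolynomial (Fin k) ℂ),
        m = C a + (X - C (MvPolynomial.C s₀)) * q :=
      ⟨_, _, by rw [← modByMonic_X_sub_C_eq_C_eval, modByMonic_add_div]⟩
    have e1 : ∀ y s, ev m y s = MvPolynomial.eval y a + (s - s₀) * ev q y s := fun y s => by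
      simp only [ev, e, eval₂_add, eval₂_mul, eval₂_sub, eval₂_C, eval₂_X, MvPolynomial.eval_C]
    have a0 : MvPolynomial.eval y₀ a = 0 := by simpa [e1] using h
    have q0 : ev q y₀ s₀ ≠ 0 := fun c => h' (by
      rw [ev] at c
      simp [ev, e, c, eval₂_add, eval₂_mul, eval₂_sub])
    have n0 : 0 < ‖ev q y₀ s₀‖ / 2 := half_pos (norm_pos_iff.2 q0)
    obtain ⟨K, hK⟩ := ((df_mv a) y₀).isBigO_sub.bound
    have c1 : ∀ᶠ w : E k × ℂ in 𝓝 (y₀, s₀), ‖ev q y₀ s₀‖ / 2 < ‖ev q w.1 w.2‖ :=
      (df_ev q).continuous.norm.continuousAt.eventually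
        (lt_mem_nhds (half_lt_self (norm_pos_iff.2 q0)))
    refine ⟨K / (‖ev q y₀ s₀‖ / 2), ?_⟩
    filter_upwards [c1, (continuousAt_fst (p := (y₀, s₀))).eventually hK] with w h1 h2 h3
    rw [a0, sub_zero] at h2
    rw [e1, add_eq_zero_iff_eq_neg] at h3
    rw [h3, norm_neg, norm_mul] at h2
    rw [div_mul_eq_mul_div, le_div_iff₀ n0]
    exact (mul_le_mul_of_nonneg_left h1.le (norm_nonneg _)).trans h2

end Pool.Agent.Lib.RB9
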