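import Pool.Agent.Lib.RB9.Blue
import Pool.Agent.Lib.SV.B_ZER
import Pool.Agent.Lib.SV.B_SUB

/-! Project rb9, row DNS: almost all points have all their sheets in the open set. -/

open scoped Classical Topology
open Set MeasureTheory Complex Metric Filter

set_option linter.unusedVariables false

noncomputable section

namespace Pool.Agent.Lib.RB9

open Pool.Agent.Lib.SV (E)
open Pool.Agent.Lib.HS32 Pool.Agent.Lib.KH

namespace DNS

theorem gen {N r : ℕ} (v : Fin r → Fin N → ℂ) (h : ∀ j, ∃ i, v j i ≠ 0) :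
    ∃ lam : Fin N → ℂ, ∏ j, ∑ i, lam i * v j i ≠ 0 := by
  obtain ⟨lam, hl⟩ := Module.Dual.exists_forall_ne_zero_of_forall_exists
    (fun j => (∑ i, v j i • LinearMap.proj i : Module.Dual ℂ (Fin N → ℂ))) fun j => by
      obtain ⟨i, hi⟩ := h j
      exact ⟨Pi.single i 1, by simpa [Pi.single_apply] using hi⟩
  exact ⟨lam, Finset.prod_ne_zero_iff.2 fun j _ => by simpa [mul_comm] using hl j⟩

end DNS

theorem bDNS (hNEW : St_NEW) : St_DNS := by
  intro n k M _ H p z θ T S b L hp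
  have A : ∀ lam : Fin L.N → ℂ, DifferentiableOn ℂ
      (fun w : E b.g × E k => ∏ j, ∑ i, lam i * L.q i (b.a w.1 w.2 j)) (ball b.y0 b.R ×ˢ S) ∧
      ∀ y ∈ ball b.y0 b.R, ∀ s ∈ S, ∏ j, ∑ i, lam i * L.q i (b.a y s j) ≠ 0 →
        ∀ j, 0 < p (b.a y s j) := fun lam => by
    refine ⟨(hNEW _ _ _ (fun (w : E b.g × E k) j => ∑ i, lam i * L.q i (b.a w.1 w.2 j))
      (fun _ _ => 1) fun l l' => b.hol (fun x => (∑ i, lam i * L.q i x) ^ l * 1 ^ l')
        fun e he w hw h => ?_).1, fun y hy s hs h j => ?_⟩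
    · exact (eventually_all.2 fun i => (L.hol i).1 e he w hw h).mono fun u hu =>
        ((DifferentiableAt.fun_sum fun i _ => (hu i).const_mul (lam i)).fun_pow l).mul_const _
    · obtain ⟨i, -, hi⟩ := Finset.exists_ne_zero_of_sum_ne_zero
        (Finset.prod_ne_zero_iff.1 h j (Finset.mem_univ j))
      refine (hp _).lt_of_ne fun c => ?_
      have a := L.le i _ (b.fib y hy s hs j).1
      rw [← c, mul_zero] at a
      exact (pow_pos (normSq_pos.2 (right_ne_zero_of_mul hi)) _).not_ge a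
  refine ⟨A, fun s hs => ?_⟩
  obtain ⟨hS, y, hy, h⟩ := hs
  obtain ⟨lam, hl⟩ := DNS.gen (fun j i => L.q i (b.a y s j)) fun j =>
    L.ne _ (b.fib y hy s hS j).1 (h j)
  refine ⟨⟨lam, y, hy, hl⟩, ?_⟩
  have a := SV.stZER SV.stSUB _ (fun y => ∏ j, ∑ i, lam i * L.q i (b.a y s j)) b.y0 b.R
    ((A lam).1.comp (f := fun y : E b.g => (y, s)) (by fun_prop) fun y hy => ⟨hy, hS⟩) ⟨y, hy, hl⟩
  exact (measure_eq_zero_iff_ae_notMem.1 a).mono fun y h hy =>
    (A lam).2 y hy s hS fun c => h ⟨hy, c⟩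

end Pool.Agent.Lib.RB9
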