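import Pool.Agent.Lib.RB9.Blue
import Pool.Agent.Lib.K3E.B_LOC
import Pool.Agent.Lib.KP.B_REX
import Pool.Agent.Lib.SV.B_ZER
import Pool.Agent.Lib.SV.B_SUB

/-! Project rb9: division on a slice. -/

open scoped Classical Topology
open Set MeasureTheory Complex Metric Filter

noncomputable section

namespace Pool.Agent.Lib.RB9

open Pool.Agent.Lib.SV (E nsq)
open Pool.Agent.Lib.HS32

namespace DV1

variable {g : ℕ} {U : Set (E g)} {a f : E g → ℂ}

theorem dens {y₀ : E g} {R : ℝ} (hf : DifferentiableOn ℂ f (ball y₀ R))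
    (h0 : ∃ y ∈ ball y₀ R, f y ≠ 0) : ∀ z ∈ ball y₀ R, ∃ᶠ w in 𝓝 z, f w ≠ 0 := fun z hz h => by
  have h1 : {w | w ∈ ball y₀ R ∧ f w = 0} ∈ 𝓝 z := by
    filter_upwards [isOpen_ball.mem_nhds hz, h] with w h1 h2 using ⟨h1, not_not.1 h2⟩
  exact (Measure.measure_pos_of_mem_nhds volume h1).ne' (SV.stZER SV.stSUB g f y₀ R hf h0)

theorem glue (hU : IsOpen U) (h0 : ∀ z ∈ U, ∃ᶠ w in 𝓝 z, f w ≠ 0)
    (h : ∀ z ∈ U, ∃ u, HolN u z ∧ ∀ᶠ w in 𝓝 z, a w = u w * f w) :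
    ∃ u, DifferentiableOn ℂ u U ∧ ∀ y ∈ U, a y = u y * f y := by
  choose! u h1 h2 using h
  refine ⟨fun y => u y y, fun z hz => ?_, fun y hy => (h2 y hy).self_of_nhds⟩
  refine ((h1 z hz).self_of_nhds.congr_of_eventuallyEq ?_).differentiableWithinAt
  filter_upwards [hU.mem_nhds hz, h1 z hz, (h2 z hz).eventually_nhds] with y k1 k2 k3
  refine tendsto_nhds_unique_of_frequently_eq (h1 y k1).self_of_nhds.continuousAt k2.continuousAt
    (((h0 y k1).and_eventually (k3.and (h2 y k1))).mono fun w hw => ?_)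
  exact mul_right_cancel₀ hw.1 (hw.2.2.symm.trans hw.2.1)

end DV1

theorem bDV1 : St_DV1 := by
  intro g y₀ R f f' m hf hf' h0 h
  have d := DV1.dens hf h0
  have hol : ∀ {a : E g → ℂ}, DifferentiableOn ℂ a (ball y₀ R) → ∀ z ∈ ball y₀ R, HolN a z :=
    fun ha z hz => (isOpen_ball.eventually_mem hz).mono fun w hw =>
      ha.differentiableAt (isOpen_ball.mem_nhds hw)
  refine DV1.glue isOpen_ball d fun z hz => K3E.bLOC g _ z f' f m isOpen_ball hz hf' hf (d z hz)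
    (Set.infinite_of_forall_exists_gt fun k₀ => ?_)
  obtain ⟨j, hj, A, hA⟩ := h (k₀ + 1 + m)
  obtain ⟨k, rfl⟩ : ∃ k, j = k + m := ⟨j - m, by omega⟩
  have dk : ∀ z ∈ ball y₀ R, ∃ᶠ w in 𝓝 z, f w ^ k ≠ 0 := fun z hz =>
    (d z hz).mono fun w hw => pow_ne_zero k hw
  have b : ∀ y ∈ ball y₀ R, ‖f' y ^ (k + m)‖ ≤ A * ‖f y ^ k‖ := fun y hy => by
    refine ge_of_tendsto_of_frequently (f := fun w => A * ‖f w ^ k‖ - ‖f' w ^ (k + m)‖)
      (((((hol hf y hy).self_of_nhds.continuousAt.pow k).norm.const_mul A).sub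
        ((hol hf' y hy).self_of_nhds.continuousAt.pow (k + m)).norm))
      (((d y hy).and_eventually (isOpen_ball.eventually_mem hy)).mono fun w hw => ?_) |>
      sub_nonneg.1
    have h1 := hA w hw.2 hw.1
    rw [pow_add ‖f w‖, ← mul_assoc] at h1
    rw [sub_nonneg, norm_pow, norm_pow]
    exact le_of_mul_le_mul_right h1 (pow_pos (norm_pos_iff.2 hw.1) m)
  exact ⟨k, DV1.glue isOpen_ball dk fun z hz => KP.st_REX g _ _ z A (hol (hf'.pow _) z hz)
    (hol (hf.pow _) z hz) ((isOpen_ball.eventually_mem hz).mono b) (dk z hz), by omega⟩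

end Pool.Agent.Lib.RB9
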