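import Pool.Agent.Lib.RB9.Blue
import Pool.Agent.Lib.SV.Ext85

/-! Project rb9, row DV2: division with parameters. -/

open scoped Classical Topology ENNReal
open Set MeasureTheory Complex Metric Filter

noncomputable section

namespace Pool.Agent.Lib.RB9

open Pool.Agent.Lib.SV (E)

theorem bDV2 : St_DV2 := by
  intro g k y₀ R G f f' hG hf hf' h0 hae
  have hO : IsOpen (ball y₀ R ×ˢ G) := isOpen_ball.prod hG
  have sl : ∀ s ∈ G, DifferentiableOn ℂ (fun y => f (y, s)) (ball y₀ R) := fun s hs =>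
    hf.comp (differentiableOn_id.prodMk (differentiableOn_const s)) fun y hy => ⟨hy, hs⟩
  have n1 : ∀ x ∈ ball y₀ R ×ˢ G, ¬(fun y => f (y, x.2)) =ᶠ[𝓝 x.1] 0 := fun x hx h => by
    obtain ⟨y, hy, k⟩ := h0 x.2 hx.2
    exact k (SV.H85.eq_zero_of_convex isOpen_ball (convex_ball _ _) (sl _ hx.2) hx.1 h hy)
  have n2 : ∀ x ∈ ball y₀ R ×ˢ G, ¬f =ᶠ[𝓝 x] 0 := fun x hx h =>
    n1 x hx (((Continuous.prodMk_left x.2).tendsto x.1).eventually h)
  have hd : DifferentiableOn ℂ (fun w => f' w / f w) {w | w ∈ ball y₀ R ×ˢ G ∧ f w ≠ 0} := by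
    simp only [div_eq_mul_inv]
    exact (hf'.mono fun w hw => hw.1).mul ((hf.mono fun w hw => hw.1).inv fun w hw => hw.2)
  have : ((volume : Measure (E g)).prod (volume : Measure (E k))).IsAddHaarMeasure :=
    Measure.prod.instIsAddHaarMeasure _ _
  refine (SV.H85.ext_sq ((volume : Measure (E g)).prod (volume : Measure (E k)))
    (f := fun w => f' w / f w) hO hf n2 hd fun x hx => ?_).elim fun u ⟨u1, u2⟩ => ?_
  swap
  · refine ⟨u, u1, fun w hw => ?_⟩
    have c := fun {φ : E g × E k → ℂ} (h : DifferentiableOn ℂ φ (ball y₀ R ×ˢ G)) =>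
      h.continuousOn.continuousAt (hO.mem_nhds hw)
    refine tendsto_nhds_unique_of_frequently_eq (c hf') ((c u1).mul (c hf))
      (((not_eventually.1 (n2 w hw)).and_eventually (hO.mem_nhds hw)).mono fun v hv => ?_)
    rw [Pi.mul_apply, u2 v hv.2 hv.1, div_mul_cancel₀ _ hv.1]
  obtain ⟨v, hv⟩ := SV.H85.exists_disc isOpen_ball (sl _ hx.2) hx.1 (n1 x hx)
  have hL : Continuous fun q : (E g × E k) × ℂ => (q.1.1 + q.2 • v, q.1.2) :=
    (continuous_fst.fst.add (continuous_snd.smul continuous_const)).prodMk continuous_fst.snd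
  have ct : ∀ t ∈ sphere (0 : ℂ) 1, ∀ {φ : E g × E k → ℂ}, DifferentiableOn ℂ φ (ball y₀ R ×ˢ G) →
      ContinuousAt (fun q : (E g × E k) × ℂ => φ (q.1.1 + q.2 • v, q.1.2)) (x, t) :=
    fun t ht φ h => ContinuousAt.comp (f := fun q : (E g × E k) × ℂ => (q.1.1 + q.2 • v, q.1.2))
      (h.continuousOn.continuousAt (hO.mem_nhds
        ⟨hv.self_of_nhds.1 t (sphere_subset_closedBall ht), hx.2⟩)) hL.continuousAt
  have cq := fun t ht => ((ct t ht hf').div (ct t ht hf) (hv.self_of_nhds.2 t ht)).norm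
  obtain ⟨C, hC⟩ := (isCompact_sphere (0 : ℂ) 1).bddAbove_image
    (f := fun t => ‖f' (x.1 + t • v, x.2) / f (x.1 + t • v, x.2)‖) fun t ht =>
      (ContinuousAt.comp (f := fun t : ℂ => (x, t)) (cq t ht)
        (Continuous.prodMk_right x).continuousAt).continuousWithinAt
  have ev := (isCompact_sphere (0 : ℂ) 1).eventually_forall_of_forall_eventually (x₀ := x)
    (P := fun w t => f (w.1 + t • v, w.2) ≠ 0 ∧
      ‖f' (w.1 + t • v, w.2) / f (w.1 + t • v, w.2)‖ < C + 1) fun t ht =>
    ((ct t ht hf).eventually_ne (hv.self_of_nhds.2 t ht)).and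
      ((cq t ht).eventually_lt continuousAt_const ((hC ⟨t, ht, rfl⟩).trans_lt (lt_add_one C)))
  obtain ⟨r, r0, hr⟩ := Metric.eventually_nhds_iff_ball.1
    (ev.and ((continuous_fst.continuousAt.eventually hv).and (hO.mem_nhds hx)))
  refine ⟨ball x r, ball_mem_nhds x r0, ne_top_of_le_ne_top (ENNReal.mul_ne_top
    (ENNReal.ofReal_ne_top (r := (C + 1) ^ 2)) (measure_ball_lt_top (x := x) (r := r)
      (μ := (volume : Measure (E g)).prod (volume : Measure (E k)))).ne) ?_⟩
  have ms : MeasurableSet {w | w ∈ ball x r ∧ f w ≠ 0} :=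
    ((hf.continuousOn.mono fun w hw => (hr w hw).2.2).isOpen_inter_preimage isOpen_ball
      isOpen_compl_singleton).measurableSet
  refine le_trans ?_ (mul_le_mul_right (measure_mono (s := {w | w ∈ ball x r ∧ f w ≠ 0})
    fun w hw => hw.1) _)
  rw [← setLIntegral_const]
  refine setLIntegral_mono_ae' ms ?_
  filter_upwards [(Measure.quasiMeasurePreserving_snd (μ := (volume : Measure (E g)))).ae hae]
    with w hw hm
  obtain ⟨k1, k2, k3⟩ := hr w hm.1
  obtain ⟨U, U1, U2⟩ := hw k3.2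
  have hl : Differentiable ℂ fun t : ℂ => w.1 + t • v :=
    (differentiable_const _).add (differentiable_id.smul_const v)
  have key := norm_le_of_forall_mem_frontier_norm_le (f := fun t : ℂ => U (w.1 + t • v))
    (U := ball 0 1) isBounded_ball (DifferentiableOn.diffContOnCl (U1.comp hl.differentiableOn
      fun t ht => k2.1 t (closure_ball_subset_closedBall ht))) (C := C + 1) (fun t ht => by
      rw [frontier_ball _ one_ne_zero] at ht
      have := (k1 t ht).2
      rw [U2 _ (k2.1 t (sphere_subset_closedBall ht)), mul_div_cancel_right₀ _ (k1 t ht).1] at this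
      exact this.le) (subset_closure (mem_ball_self one_pos))
  rw [zero_smul, add_zero] at key
  have e : f' w = U w.1 * f w := U2 w.1 k3.1
  rw [e, mul_div_cancel_right₀ _ hm.2]
  exact ENNReal.ofReal_le_ofReal (pow_le_pow_left₀ (norm_nonneg _) key 2)

end Pool.Agent.Lib.RB9
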