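import Pool.Agent.Lib.RB9.Blue
import Pool.Agent.Lib.SV.B_ZER
import Pool.Agent.Lib.SV.B_SUB

/-! Project rb9, row EIL: the traces are holomorphic. -/

open scoped Classical Topology ContDiff ComplexOrder Matrix ENNReal
open Set MeasureTheory Complex Metric Filter

set_option linter.unusedVariables false

noncomputable section

namespace Pool.Agent.Lib.RB9

open Pool.Agent.Lib.SV (E nsq)
open Pool.Agent.Lib.HS32 Pool.Agent.Lib.FI Pool.Agent.Lib.KH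

namespace EIL

theorem pdiff {k : ℕ} (P : MvPolynomial (Fin k) ℂ) :
    Differentiable ℂ fun s : E k => MvPolynomial.eval s P := by
  induction P using MvPolynomial.induction_on with
  | C a => simp only [MvPolynomial.eval_C, differentiable_const]
  | add P Q h h' => simpa only [map_add] using h.fun_add h'
  | mul_X P i h =>
    simpa only [map_mul, MvPolynomial.eval_X] using h.fun_mul (differentiable_apply i)

theorem pex {k : ℕ} {P : MvPolynomial (Fin k) ℂ} (h : P ≠ 0) :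
    ∃ w : E k, MvPolynomial.eval w P ≠ 0 := by
  by_contra c
  push Not at c
  exact h (MvPolynomial.funext fun w => by rw [c w, map_zero])

theorem zae {g : ℕ} {f : E g → ℂ} {y : E g} {R : ℝ} (h : DifferentiableOn ℂ f (ball y R))
    (h0 : ∃ w ∈ ball y R, f w ≠ 0) : ∀ᵐ w, w ∈ ball y R → f w ≠ 0 :=
  measure_mono_null (fun w hw => by simpa using hw) (SV.stZER SV.stSUB g f y R h h0)

theorem pae {k : ℕ} {P : MvPolynomial (Fin k) ℂ} (h : P ≠ 0) :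
    ∀ᵐ s : E k, MvPolynomial.eval s P ≠ 0 := by
  obtain ⟨w, hw⟩ := pex h
  filter_upwards [ae_all_iff.2 fun N : ℕ => zae (y := w) (R := N + 1) (pdiff P).differentiableOn
    ⟨w, mem_ball_self (by positivity), hw⟩] with s hs
  obtain ⟨N, hN⟩ := exists_nat_gt (dist s w)
  exact hs N (mem_ball.2 (by linarith))

theorem gen {r N : ℕ} (v : Fin r → Fin N → ℂ) (h : ∀ j, ∃ i, v j i ≠ 0) :
    ∃ lam : Fin N → ℂ, ∏ j, ∑ i, lam i * v j i ≠ 0 := by
  have e : (∏ j, ∑ i, MvPolynomial.X i * MvPolynomial.C (v j i) : MvPolynomial (Fin N) ℂ) ≠ 0 :=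
    Finset.prod_ne_zero_iff.2 fun j _ c => by
      obtain ⟨i, hi⟩ := h j
      have := congrArg (MvPolynomial.eval (Pi.single i 1 : Fin N → ℂ)) c
      simp [Pi.single_apply] at this
      exact hi this
  obtain ⟨w, hw⟩ := pex e
  exact ⟨w, by simpa only [map_prod, map_sum, map_mul, MvPolynomial.eval_X, MvPolynomial.eval_C]
    using hw⟩

theorem pbd {r : ℕ} (v : Fin r → ℂ) {C : ℝ} (h : ∀ j, ‖v j‖ ≤ C) (e : ℕ) (j : Fin r) :
    ‖∏ i, v i ^ (e + 1)‖ ≤ C ^ e * (C ^ (e + 1)) ^ (r - 1) * ‖v j‖ := by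
  have c0 : 0 ≤ C := (norm_nonneg _).trans (h j)
  have e1 : ∏ i ∈ Finset.univ.erase j, ‖v i ^ (e + 1)‖ ≤ (C ^ (e + 1)) ^ (r - 1) := by
    refine (Finset.prod_le_prod (g := fun _ => C ^ (e + 1)) (fun _ _ => norm_nonneg _)
      fun i _ => ?_).trans_eq ?_
    · rw [norm_pow]
      exact pow_le_pow_left₀ (norm_nonneg _) (h i) _
    · rw [Finset.prod_const, Finset.card_erase_of_mem (Finset.mem_univ _), Finset.card_univ,
        Fintype.card_fin]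
  rw [norm_prod, ← Finset.mul_prod_erase _ _ (Finset.mem_univ j), norm_pow, pow_succ,
    mul_right_comm]
  exact mul_le_mul_of_nonneg_right (mul_le_mul (pow_le_pow_left₀ (norm_nonneg _) (h j) _) e1
    (Finset.prod_nonneg fun _ _ => norm_nonneg _) (pow_nonneg c0 _)) (norm_nonneg _)

theorem sbd {r : ℕ} (φ v : Fin r → ℂ) {f : ℂ} {C A : ℝ} {J m : ℕ} (hC : 0 ≤ C)
    (h1 : ∀ j, ‖f‖ ≤ C * ‖v j‖) (h2 : ∀ j, ‖φ j‖ ^ (J + 1) * ‖v j‖ ^ m ≤ A) :
    ‖∑ j, φ j‖ ^ (J + 1) * ‖f‖ ^ m ≤ r ^ J * (r * (C ^ m * A)) := by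
  have e1 : ‖∑ j, φ j‖ ^ (J + 1) ≤ r ^ J * ∑ j, ‖φ j‖ ^ (J + 1) := by
    have := pow_sum_le_card_mul_sum_pow (s := Finset.univ) (f := fun j => ‖φ j‖)
      (fun _ _ => norm_nonneg _) J
    rw [Finset.card_univ, Fintype.card_fin] at this
    exact (pow_le_pow_left₀ (norm_nonneg _) (norm_sum_le _ _) _).trans this
  refine (mul_le_mul_of_nonneg_right e1 (by positivity)).trans ?_
  rw [mul_assoc, Finset.sum_mul]
  refine mul_le_mul_of_nonneg_left ((Finset.sum_le_sum (g := fun _ => C ^ m * A)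
    fun j _ => ?_).trans_eq (by simp)) (by positivity)
  refine (mul_le_mul_of_nonneg_left (pow_le_pow_left₀ (norm_nonneg _) (h1 j) m)
    (by positivity)).trans ?_
  rw [mul_pow, mul_left_comm]
  exact mul_le_mul_of_nonneg_left (h2 j) (pow_nonneg hC _)

theorem glue {g k : ℕ} {B : Set (E g)} (hB : IsOpen B) {G : Set (E k)} (τ : E g → E k → ℂ)
    (P : E g → E k → Prop) (hG : ∀ s ∈ G, ∃ y ∈ B, P y s)
    (h : ∀ y ∈ B, ∀ s ∈ G, P y s → ∃ (G₀ : Set (E k)) (u : E g × E k → ℂ), (IsOpen G₀ ∧ s ∈ G₀ ∧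
      DifferentiableOn ℂ u (B ×ˢ G₀) ∧ ∀ s ∈ G₀, ∀ᵐ y, y ∈ B → u (y, s) = τ y s) ∧
      u (y, s) = τ y s) :
    ∃ u : E g × E k → ℂ, DifferentiableOn ℂ u (B ×ˢ G) ∧
      ∀ y ∈ B, ∀ s ∈ G, P y s → u (y, s) = τ y s := by
  have un : ∀ {G₀ G₁ : Set (E k)} {u v : E g × E k → ℂ} {s : E k}, s ∈ G₀ → s ∈ G₁ →
      DifferentiableOn ℂ u (B ×ˢ G₀) → DifferentiableOn ℂ v (B ×ˢ G₁) →
      (∀ᵐ y, y ∈ B → u (y, s) = τ y s) → (∀ᵐ y, y ∈ B → v (y, s) = τ y s) →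
      ∀ y ∈ B, u (y, s) = v (y, s) := fun {G₀ G₁ u v s} a a' c c' d d' =>
    Measure.eqOn_open_of_ae_eq (μ := volume) (f := fun y => u (y, s)) (g := fun y => v (y, s))
      ((ae_restrict_iff' hB.measurableSet).2
        ((d.and d').mono fun y k hy => (k.1 hy).trans (k.2 hy).symm)) hB
      (c.continuousOn.comp (Continuous.prodMk_left s).continuousOn fun y hy => ⟨hy, a⟩)
      (c'.continuousOn.comp (Continuous.prodMk_left s).continuousOn fun y hy => ⟨hy, a'⟩)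
  have ex : ∀ s, ∃ (G₀ : Set (E k)) (u : E g × E k → ℂ), s ∈ G → IsOpen G₀ ∧ s ∈ G₀ ∧
      DifferentiableOn ℂ u (B ×ˢ G₀) ∧ ∀ s ∈ G₀, ∀ᵐ y, y ∈ B → u (y, s) = τ y s := fun s => by
    by_cases hs : s ∈ G
    · obtain ⟨y, hy, hp⟩ := hG s hs
      obtain ⟨G₀, u, k, -⟩ := h y hy s hs hp
      exact ⟨G₀, u, fun _ => k⟩
    · exact ⟨∅, 0, fun c => (hs c).elim⟩
  choose G₀ u hu using ex
  refine ⟨fun w => u w.2 w, fun w hw => ?_, fun y hy s hs hp => ?_⟩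
  · obtain ⟨a1, a2, a3, a4⟩ := hu w.2 hw.2
    have nb : B ×ˢ G₀ w.2 ∈ 𝓝 w := (hB.prod a1).mem_nhds ⟨hw.1, a2⟩
    refine (a3.differentiableAt nb).differentiableWithinAt.congr_of_eventuallyEq ?_ rfl
    filter_upwards [self_mem_nhdsWithin, mem_nhdsWithin_of_mem_nhds nb] with x k k'
    obtain ⟨b1, b2, b3, b4⟩ := hu x.2 k.2
    exact un b2 k'.2 b3 a3 (b4 _ b2) (a4 _ k'.2) x.1 k.1
  · obtain ⟨G₁, v, ⟨a1, a2, a3, a4⟩, a5⟩ := h y hy s hs hp
    obtain ⟨b1, b2, b3, b4⟩ := hu s hs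
    exact (un b2 a2 b3 a3 (b4 _ b2) (a4 _ a2) y hy).trans a5

variable {n k : ℕ} {M : Mf n} {W : Set M.X}

theorem hlin {N : ℕ} {q : Fin N → M.X → ℂ} (h : ∀ i, HoK M W (q i)) (lam : Fin N → ℂ) :
    HoK M W fun x => ∑ i, lam i * q i x := fun e he z hz k => by
  filter_upwards [eventually_all.2 fun l => h l e he z hz k] with w hw
  exact DifferentiableAt.fun_sum (u := Finset.univ) fun l _ => (hw l).const_mul (lam l)

theorem hmul {f g : M.X → ℂ} (h : HoK M W f) (h' : HoK M W g) : HoK M W fun x => f x * g x :=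
  fun e he z hz k => ((h e he z hz k).and (h' e he z hz k)).mono fun w a => a.1.mul a.2

theorem hpow {f : M.X → ℂ} (h : HoK M W f) (l : ℕ) : HoK M W fun x => f x ^ l :=
  fun e he z hz k => (h e he z hz k).mono fun w a => a.pow l

theorem hcon {f : M.X → ℂ} (hf : HoK M W f) : ContinuousOn f W := fun x hx => by
  have h := (hf _ (Mf.ch_mem x) _ (Mf.ch_tgt x)
    (by rwa [Mf.ch_symm])).self_of_nhds.continuousAt
  refine ((h.comp ((M.ch x).continuousAt (Mf.mem_ch x))).congr ?_).continuousWithinAt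
  filter_upwards [(M.ch x).open_source.mem_nhds (Mf.mem_ch x)] with y hy
  exact congrArg f ((M.ch x).left_inv hy)

variable {B : Set M.X} {p T : M.X → ℝ} {θ : M.X → ℂ} {z : M.X → E k} {m : Pz k}
  {D : MvPolynomial (Fin k) ℂ}

theorem qle (L : Loc p θ T W B) (lam : Fin L.N → ℂ) {x : M.X} (hx : x ∈ B) (hp : 0 < p x) :
    (‖∑ i, lam i * L.q i x‖ ^ 2) ^ L.κ ≤ ((∑ i, ‖lam i‖) ^ 2) ^ L.κ * L.c * p x := by
  obtain ⟨i₁, -⟩ := L.ne x hx hp
  obtain ⟨i₀, -, h⟩ := Finset.exists_max_image Finset.univ (fun i => ‖L.q i x‖)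
    ⟨i₁, Finset.mem_univ _⟩
  have e : ‖∑ i, lam i * L.q i x‖ ≤ (∑ i, ‖lam i‖) * ‖L.q i₀ x‖ := by
    rw [Finset.sum_mul]
    exact (norm_sum_le _ _).trans (Finset.sum_le_sum fun i hi => by
      rw [norm_mul]
      exact mul_le_mul_of_nonneg_left (h i hi) (norm_nonneg _))
  refine (pow_le_pow_left₀ (by positivity) (pow_le_pow_left₀ (norm_nonneg _) e 2) _).trans ?_
  rw [mul_pow, mul_pow, mul_assoc, ← normSq_eq_norm_sq]
  exact mul_le_mul_of_nonneg_left (L.le i₀ x hx) (by positivity)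

theorem fib (hLGR : St_LGR) (A : Al p z θ T m D) (L : Loc p θ T W B) (lam : Fin L.N → ℂ)
    (i l : ℕ) : ∃ μ : ℕ, ∀ᵐ s : E k, ∀ j₀ : ℕ, ∃ J, j₀ ≤ J ∧ ∃ C : ℝ, ∀ x ∈ B, 0 < p x → z x = s →
      ‖θ x ^ i * L.t x ^ l‖ ^ (J + 1) * ‖∑ i, lam i * L.q i x‖ ^ μ ≤ C := by
  obtain ⟨a, ha⟩ := A.ai
  choose j hj P β c hP h using ha
  obtain ⟨β', c', -, h'⟩ := (hLGR k m A.mon).2.1 Polynomial.X
  refine ⟨2 * L.κ * a * l, (ae_all_iff.2 fun j₀ => pae (hP j₀)).mono fun s hs j₀ => ?_⟩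
  have j1 := hj (j₀ + 1)
  refine ⟨2 * j (j₀ + 1) - 1, by omega, (c' * (1 + nsq s) ^ β') ^ (i * (2 * j (j₀ + 1))) *
    (L.c ^ j (j₀ + 1) * (((∑ i, ‖lam i‖) ^ 2) ^ L.κ * L.c) ^ a *
      (c (j₀ + 1) * (1 + nsq s) ^ β (j₀ + 1) / normSq (MvPolynomial.eval s (P (j₀ + 1))))) ^ l,
    fun x hx hp hz => ?_⟩
  have e1 := h' (z x) (θ x) (A.rt x hp)
  rw [ev, Polynomial.eval₂_X, hz] at e1
  have e2 := h (j₀ + 1) x hp
  rw [hz, mul_right_comm, ← le_div_iff₀ (normSq_pos.2 (hs _))] at e2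
  have e3 := (L.cmp x hx hp).1
  rw [normSq_eq_norm_sq] at e3
  have e4 := qle L lam hx hp
  have c0 := L.c0
  have t0 := A.t0 x
  rw [show 2 * j (j₀ + 1) - 1 + 1 = 2 * j (j₀ + 1) by omega]
  generalize j (j₀ + 1) = J at *
  calc _ = ‖θ x‖ ^ (i * (2 * J)) *
        ((‖L.t x‖ ^ 2) ^ J * ((‖∑ i, lam i * L.q i x‖ ^ 2) ^ L.κ) ^ a) ^ l := by
        rw [norm_mul, norm_pow, norm_pow]
        ring
    _ ≤ (c' * (1 + nsq s) ^ β') ^ (i * (2 * J)) *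
        ((L.c * T x) ^ J * (((∑ i, ‖lam i‖) ^ 2) ^ L.κ * L.c * p x) ^ a) ^ l := by
        have := (norm_nonneg _).trans e1
        gcongr
    _ ≤ _ := by
        have := (norm_nonneg _).trans e1
        refine mul_le_mul_of_nonneg_left (pow_le_pow_left₀ (by positivity) ?_ _) (by positivity)
        rw [mul_pow, mul_pow _ (p x), mul_mul_mul_comm]
        exact mul_le_mul_of_nonneg_left e2 (by positivity)

end EIL

open EIL in
theorem bEIL (hNEW : St_NEW) (hDV1 : St_DV1) (hDV2 : St_DV2) (hDNS : St_DNS) (hLGR : St_LGR) :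
    St_EIL := by
  intro n k M _ H p z θ T m D S b L i l hp p0 A hS hG
  refine glue isOpen_ball (fun y s => ∑ j, θ (b.a y s j) ^ i * L.t (b.a y s j) ^ l)
    (fun y s => ∀ j, 0 < p (b.a y s j)) (fun s hs => hs.2) fun y₁ hy₁ s₁ hs₁ h₁ => ?_
  obtain ⟨lam, hl⟩ := gen (fun j i => L.q i (b.a y₁ s₁ j)) fun j =>
    L.ne _ (b.fib y₁ hy₁ s₁ hs₁.1 j).1 (h₁ j)
  obtain ⟨μ, hμ⟩ := fib hLGR A L lam i l
  have d0 := ((hDNS n k M H p z θ T S b L p0).1 lam).2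
  set Q : M.X → ℂ := fun x => ∑ i, lam i * L.q i x with hQ
  set g : M.X → ℂ := fun x => Q x * ((∑ i, lam i * L.qθ i x) ^ i * (∑ i, lam i * L.qt i x) ^ l)
    with hg
  have HQ : HoK M b.W Q := hlin (fun i => (L.hol i).1) lam
  have Hg : HoK M b.W g := hmul HQ (hmul (hpow (hlin (fun i => (L.hol i).2.1) lam) i)
    (hpow (hlin (fun i => (L.hol i).2.2) lam) l))
  obtain ⟨df, df'⟩ := hNEW _ (ball b.y0 b.R ×ˢ S) b.r (fun w j => Q (b.a w.1 w.2 j) ^ (i + l + 1))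
    (fun w j => g (b.a w.1 w.2 j)) fun a a' =>
      b.hol _ (hmul (hpow (hpow HQ (i + l + 1)) a) (hpow Hg a'))
  set f : E b.g × E k → ℂ := fun w => ∏ j, Q (b.a w.1 w.2 j) ^ (i + l + 1) with hf
  set f' : E b.g × E k → ℂ := fun w => ∑ j, g (b.a w.1 w.2 j) *
    ∏ j' ∈ Finset.univ.erase j, Q (b.a w.1 w.2 j') ^ (i + l + 1) with hf'
  have k1 : ∀ y ∈ ball b.y0 b.R, ∀ s ∈ S, f (y, s) ≠ 0 → ∀ j, 0 < p (b.a y s j) :=
    fun y hy s hs h => d0 y hy s hs (Finset.prod_ne_zero_iff.2 fun j hj =>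
      ne_zero_pow (Nat.succ_ne_zero _) (Finset.prod_ne_zero_iff.1 h j hj))
  have k2 : ∀ y ∈ ball b.y0 b.R, ∀ s ∈ S, f (y, s) ≠ 0 →
      f' (y, s) = (∑ j, θ (b.a y s j) ^ i * L.t (b.a y s j) ^ l) * f (y, s) := fun y hy s hs h => by
    rw [Finset.sum_mul]
    refine Finset.sum_congr rfl fun j hj => ?_
    have w := fun i => L.eq i _ (b.BW (b.fib y hy s hs j).1) (k1 y hy s hs h j)
    have e : g (b.a y s j) =
        θ (b.a y s j) ^ i * L.t (b.a y s j) ^ l * Q (b.a y s j) ^ (i + l + 1) := by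
      simp only [hg, fun i => (w i).1, fun i => (w i).2, ← mul_assoc, ← Finset.sum_mul]
      rw [show ∑ i, lam i * L.q i (b.a y s j) = Q (b.a y s j) from rfl]
      ring
    rw [e, mul_assoc]
    exact congrArg _ (Finset.mul_prod_erase _ (fun j => Q (b.a y s j) ^ (i + l + 1)) hj)
  have f1 : f (y₁, s₁) ≠ 0 := Finset.prod_ne_zero_iff.2 fun j hj =>
    pow_ne_zero _ (Finset.prod_ne_zero_iff.1 hl j hj)
  have sl : ∀ {u : E b.g × E k → ℂ}, DifferentiableOn ℂ u (ball b.y0 b.R ×ˢ S) → ∀ s ∈ S,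
      DifferentiableOn ℂ (fun y => u (y, s)) (ball b.y0 b.R) := fun h s hs =>
    h.comp (differentiable_id.prodMk (differentiable_const s)).differentiableOn fun y hy => ⟨hy, hs⟩
  have oG : IsOpen (S ∩ (fun s => f (y₁, s)) ⁻¹' {0}ᶜ) :=
    (df.continuousOn.comp (Continuous.prodMk_right y₁).continuousOn
      fun s hs => ⟨hy₁, hs⟩).isOpen_inter_preimage hS isOpen_compl_singleton
  obtain ⟨C₀, hC⟩ := b.cB.exists_bound_of_continuousOn ((hcon HQ).mono b.BW)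
  have sub : ball b.y0 b.R ×ˢ (S ∩ (fun s => f (y₁, s)) ⁻¹' {0}ᶜ) ⊆ ball b.y0 b.R ×ˢ S :=
    prod_mono subset_rfl inter_subset_left
  obtain ⟨u, du, hu⟩ := hDV2 b.g k b.y0 b.R _ f f' oG (df.mono sub) (df'.mono sub)
    (fun s hs => ⟨y₁, hy₁, hs.2⟩) (hμ.mono fun s h hs =>
      hDV1 b.g b.y0 b.R _ _ μ (sl df s hs.1) (sl df' s hs.1) ⟨y₁, hy₁, hs.2⟩ fun j₀ => by
        obtain ⟨J, hJ, C, h⟩ := h j₀
        refine ⟨J + 1, by omega, b.r ^ J * (b.r * (((max C₀ 0) ^ (i + l) *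
          ((max C₀ 0) ^ (i + l + 1)) ^ (b.r - 1)) ^ μ * C)), fun y hy h0 => ?_⟩
        rw [k2 y hy s hs.1 h0, norm_mul, mul_pow, mul_right_comm]
        refine mul_le_mul_of_nonneg_right (sbd _ (fun j => Q (b.a y s j)) (by positivity)
          (pbd _ (fun j => le_max_of_le_left (hC _ (b.fib y hy s hs.1 j).1)) (i + l))
          fun j => ?_) (by positivity)
        have p1 := k1 y hy s hs.1 h0 j
        exact h _ (b.fib y hy s hs.1 j).1 p1 ((b.fib y hy s hs.1 j).2 p1))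
  have k3 : ∀ y ∈ ball b.y0 b.R, ∀ s ∈ S ∩ (fun s => f (y₁, s)) ⁻¹' {0}ᶜ, f (y, s) ≠ 0 →
      u (y, s) = ∑ j, θ (b.a y s j) ^ i * L.t (b.a y s j) ^ l := fun y hy s hs h =>
    mul_right_cancel₀ h ((hu (y, s) ⟨hy, hs⟩).symm.trans (k2 y hy s hs.1 h))
  exact ⟨_, u, ⟨oG, ⟨hs₁.1, f1⟩, du, fun s hs => (zae (sl df s hs.1) ⟨y₁, hy₁, hs.2⟩).mono
    fun y h hy => k3 y hy s hs (h hy)⟩, k3 y₁ hy₁ s₁ ⟨hs₁.1, f1⟩ f1⟩

end Pool.Agent.Lib.RB9
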