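import Pool.Agent.Lib.RB9.Blue

/-! Project rb9, row EL: the power sums over the sheets with a given value of `θ`. -/

open scoped Classical Topology ContDiff ComplexOrder Matrix ENNReal
open Set MeasureTheory Complex Metric Filter

set_option linter.unusedVariables false

noncomputable section

namespace Pool.Agent.Lib.RB9

open Pool.Agent.Lib.SV (E nsq)
open Pool.Agent.Lib.HS32 Pool.Agent.Lib.FI Pool.Agent.Lib.KH

namespace EL

theorem le_exp {c W : ℝ} (hc : 0 ≤ c) (hW : 1 ≤ W) : c ≤ Real.exp (c * W) := by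
  have h1 := Real.add_one_le_exp (c * W)
  nlinarith

theorem sum_exp {d : ℕ} {a A : Fin d → ℝ} {W : ℝ} (hW : 1 ≤ W) (h0 : ∀ i, 0 ≤ A i)
    (h : ∀ i, a i ≤ Real.exp (A i * W)) : ∑ i, a i ≤ Real.exp ((d + ∑ i, A i) * W) := by
  have h1 : ∑ i, a i ≤ ∑ _i : Fin d, Real.exp ((∑ i, A i) * W) :=
    Finset.sum_le_sum fun i _ => (h i).trans (Real.exp_le_exp.2 (mul_le_mul_of_nonneg_right
      (Finset.single_le_sum (f := A) (fun i _ => h0 i) (Finset.mem_univ i)) (by linarith)))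
  rw [Finset.sum_const, Finset.card_univ, Fintype.card_fin, nsmul_eq_mul] at h1
  rw [add_mul, Real.exp_add]
  exact h1.trans (mul_le_mul_of_nonneg_right (le_exp (Nat.cast_nonneg d) hW) (Real.exp_pos _).le)

theorem inv_le {D : ℂ} {c e u : ℝ} (hc : 0 ≤ c) (he : 0 < e) (h1 : e ≤ normSq D) (hu : u ≤ 0)
    (h : -Real.log (normSq D + e) ≤ c - u) : ‖D⁻¹‖ ≤ Real.exp ((c + 1) * (1 - u)) := by
  have h0 : 0 < normSq D := he.trans_le h1
  have h2 : Real.exp (-(c - u)) ≤ normSq D + e :=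
    (Real.le_log_iff_exp_le (by linarith)).1 (by linarith)
  have h3 : (2 : ℝ) ≤ Real.exp 1 := by
    have := Real.add_one_le_exp 1
    linarith
  have h4 : 1 ≤ normSq D * Real.exp (1 + (c - u)) := by
    have h5 : Real.exp (-(c - u)) * Real.exp (c - u) = 1 := by
      rw [← Real.exp_add, neg_add_cancel, Real.exp_zero]
    have h6 := Real.exp_pos (c - u)
    have h7 : 2 * normSq D ≤ Real.exp 1 * normSq D := mul_le_mul_of_nonneg_right h3 h0.le
    rw [Real.exp_add]
    nlinarith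
  have h5 : Real.exp (1 + (c - u)) ≤ Real.exp ((c + 1) * (1 - u)) ^ 2 := by
    rw [sq, ← Real.exp_add]
    refine Real.exp_le_exp.2 ?_
    nlinarith [mul_nonneg hc (neg_nonneg.2 hu)]
  refine abs_le_of_sq_le_sq' ?_ (Real.exp_pos _).le |>.2
  rw [Complex.sq_norm, normSq_inv, inv_le_iff_one_le_mul₀' h0]
  exact h4.trans (mul_le_mul_of_nonneg_left h5 h0.le)

theorem cont {n : ℕ} {M : Mf n} {F : Type} [TopologicalSpace F] {f : M.X → F} {x : M.X}
    (h : ContinuousAt (f ∘ (M.ch x).symm) (M.ch x x)) : ContinuousAt f x := by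
  refine (h.comp ((M.ch x).continuousAt (Mf.mem_ch x))).congr ?_
  filter_upwards [(M.ch x).open_source.mem_nhds (Mf.mem_ch x)] with y hy
  simp only [Function.comp_apply, (M.ch x).left_inv hy]

theorem nsq0 {k : ℕ} (s : E k) : 0 ≤ nsq s := Finset.sum_nonneg fun _ _ => normSq_nonneg _

theorem sum_bd {r : ℕ} {θ t : Fin r → ℂ} {q : Fin r → ℝ} {i l a : ℕ} {c c' : ℝ}
    (hq : ∀ j, 0 < q j) (hθ : ∀ j, ‖θ j‖ ≤ c) (ht : ∀ j, ‖t j‖ * q j ^ a ≤ c')
    (h0 : ∑ j, θ j ^ i * t j ^ l ≠ 0) :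
    ∃ j, ‖∑ j, θ j ^ i * t j ^ l‖ * q j ^ (a * l) ≤ r * c ^ i * c' ^ l := by
  have hne : (Finset.univ : Finset (Fin r)).Nonempty := Finset.nonempty_of_sum_ne_zero h0
  obtain ⟨j, -, hj⟩ := Finset.exists_max_image _ (fun j => ‖t j‖) hne
  refine ⟨j, ?_⟩
  have hc : 0 ≤ c := (norm_nonneg _).trans (hθ j)
  have h1 : ‖∑ j, θ j ^ i * t j ^ l‖ ≤ ∑ _j : Fin r, c ^ i * ‖t j‖ ^ l :=
    (norm_sum_le _ _).trans (Finset.sum_le_sum fun j' hj' => by
      rw [norm_mul, norm_pow, norm_pow]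
      exact mul_le_mul (pow_le_pow_left₀ (norm_nonneg _) (hθ j') i)
        (pow_le_pow_left₀ (norm_nonneg _) (hj j' hj') l) (by positivity) (by positivity))
  rw [Finset.sum_const, Finset.card_univ, Fintype.card_fin, nsmul_eq_mul] at h1
  have h2 : (‖t j‖ * q j ^ a) ^ l ≤ c' ^ l :=
    pow_le_pow_left₀ (mul_nonneg (norm_nonneg _) (pow_pos (hq j) a).le) (ht j) l
  calc ‖∑ j, θ j ^ i * t j ^ l‖ * q j ^ (a * l) ≤ r * (c ^ i * ‖t j‖ ^ l) * q j ^ (a * l) :=
        mul_le_mul_of_nonneg_right h1 (pow_pos (hq j) _).le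
    _ = r * c ^ i * (‖t j‖ * q j ^ a) ^ l := by rw [mul_pow, pow_mul]; ring
    _ ≤ r * c ^ i * c' ^ l := mul_le_mul_of_nonneg_left h2 (by positivity)

end EL

open EL

theorem bEL (hEIL : St_EIL) (hLGR : St_LGR) (hSUB : St_SUB) : St_EL := by
  intro n k M _ H p z C V r Ψ θ T m D U c₁ c₂ S G b L l hC hA hU hD hS hbG hG hGb hD0
  obtain ⟨⟨d, Λ, hΛ⟩, hgr, -, hdf, hlip⟩ := hLGR k m hA.mon
  obtain ⟨A', B, hB⟩ := hA.bez
  have hpc : Continuous p := hC.fb.sp.continuous
  choose v hv hvv using fun i : Fin d =>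
    hEIL n k M H p z θ T m D S b L i l hpc hC.fb.p0 hA hS hbG
  have evC : ∀ s τ, ev (Polynomial.C D) s τ = MvPolynomial.eval s D := fun s τ =>
    Polynomial.eval₂_C _ _
  have evM : ∀ (P Q : Pz k) s τ, ev (P * Q) s τ = ev P s τ * ev Q s τ := fun P Q s τ =>
    Polynomial.eval₂_mul _ _
  have bz : ∀ s τ, ev m s τ = 0 →
      MvPolynomial.eval s D = ev B s τ * ev (Polynomial.derivative m) s τ := fun s τ h => by
    have h1 : ev (A' * m + B * Polynomial.derivative m) s τ =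
        ev (A' * m) s τ + ev (B * Polynomial.derivative m) s τ := Polynomial.eval₂_add _ _
    rw [← evC s τ, hB, h1, evM, evM, h, mul_zero, zero_add]
  set Φ : E b.g → E k × ℂ → ℂ := fun y w =>
    ∑ i, ev (Λ i * B) w.1 w.2 * (ev (Polynomial.C D) w.1 w.2)⁻¹ * v i (y, w.1) with hΦ
  have hΦd : ∀ y ∈ ball b.y0 b.R, ∀ w : E k × ℂ, w.1 ∈ G → DifferentiableAt ℂ (Φ y) w := by
    intro y hy w hw
    refine DifferentiableAt.fun_sum fun i _ => ?_
    refine ((hdf _ w).mul ((hdf _ w).inv (by rw [evC]; exact hD0 _ hw))).mul ?_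
    exact DifferentiableAt.comp (g := v i) (f := fun w : E k × ℂ => (y, w.1)) w
      ((hv i).differentiableAt ((isOpen_ball.prod hbG).mem_nhds ⟨hy, hGb hw⟩))
      ((differentiableAt_const y).prodMk differentiableAt_fst)
  refine ⟨fun y x => Φ y (z x, θ x), fun y hy e he w hw hx => ?_, fun x hx hxG => ?_,
    fun x hx hxG y hy hj => ?_, fun x x' h1 h2 y => by simp only [h1, h2],
    fun y hy x₀ hx hxG => ?_, ?_⟩
  · have h1 := hC.fb.hol e he w hw hx.1
    have h2 := hA.hol e he w hw hx.1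
    filter_upwards [h1, h2, h1.self_of_nhds.continuousAt.eventually (hG.mem_nhds hx.2)]
      with w' a1 a2 a3
    exact DifferentiableAt.comp (g := Φ y) (f := fun w => ((z ∘ e.symm) w, (θ ∘ e.symm) w)) w'
      (hΦd y hy _ a3) (a1.prodMk a2)
  · refine DifferentiableOn.fun_sum fun i _ => DifferentiableOn.const_mul ?_ _
    exact DifferentiableOn.comp (g := v i) (f := fun y : E b.g => (y, z x)) (hv i)
      (differentiable_id.prodMk (differentiable_const _)).differentiableOn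
      fun y hy => ⟨hy, hGb hxG⟩
  · have h1 : ∀ j, ev m (z x) (θ (b.a y (z x) j)) = 0 := fun j => by
      have h2 := hA.rt _ (hj j)
      rwa [(b.fib y hy (z x) (hGb hxG).1 j).2 (hj j)] at h2
    simp only [hΦ, hvv _ y hy _ (hGb hxG) hj, Finset.mul_sum]
    rw [Finset.sum_comm]
    refine Finset.sum_congr rfl fun j _ => ?_
    have h2 := hΛ (z x) (θ x) _ (hA.rt x hx) (h1 j)
    have h3 := bz _ _ (hA.rt x hx)
    have h4 := hD0 _ hxG
    calc _ = (∑ i, ev (Λ i) (z x) (θ x) * θ (b.a y (z x) j) ^ (i : ℕ)) *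
          (ev B (z x) (θ x) * (MvPolynomial.eval (z x) D)⁻¹ * L.t (b.a y (z x) j) ^ l) := by
          rw [Finset.sum_mul]
          refine Finset.sum_congr rfl fun i _ => ?_
          rw [evM, evC]
          ring
      _ = _ := by
          rw [h2]
          split_ifs
          · rw [← mul_assoc, ← mul_assoc, mul_comm _ (ev B _ _), ← h3, mul_inv_cancel₀ h4, one_mul]
          · exact zero_mul _
  · have c1 : ContinuousAt z x₀ := cont (hC.fb.hol _ (Mf.ch_mem x₀) _ (Mf.ch_tgt x₀)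
      (by rw [Mf.ch_symm]; exact hx)).self_of_nhds.continuousAt
    have c2 : ContinuousAt θ x₀ := cont (hA.hol _ (Mf.ch_mem x₀) _ (Mf.ch_tgt x₀)
      (by rw [Mf.ch_symm]; exact hx)).self_of_nhds.continuousAt
    have c3 : Tendsto (fun x => (z x, θ x)) (𝓝 x₀) (𝓝 (z x₀, θ x₀)) := c1.prodMk c2
    obtain ⟨A, hA1⟩ := hlip (z x₀) (θ x₀) (hA.rt x₀ hx) fun h => hD0 _ hxG (by
      rw [bz _ _ (hA.rt x₀ hx), h, mul_zero])
    obtain ⟨c, hc0, hc⟩ := (hΦd y hy (z x₀, θ x₀) hxG).isBigO_sub.exists_pos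
    refine ⟨c * max 1 A, ?_⟩
    filter_upwards [c3.eventually hA1, c3.eventually hc.bound,
      hpc.continuousAt.eventually (lt_mem_nhds hx)] with x a1 a2 a3
    refine a2.trans ?_
    rw [mul_assoc]
    refine mul_le_mul_of_nonneg_left ?_ hc0.le
    rw [Prod.mk_sub_mk, Prod.norm_mk]
    refine max_le (le_mul_of_one_le_left (norm_nonneg _) (le_max_left _ _)) ?_
    exact (a1 (hA.rt x a3)).trans (mul_le_mul_of_nonneg_right (le_max_right _ _) (norm_nonneg _))
  · obtain ⟨-, -, -, hsub⟩ := hSUB n k M H p z C V r Ψ D U c₁ c₂ θ T S b L hC hU hD hS hbG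
    obtain ⟨a, cT, hT⟩ := hA.tb
    obtain ⟨P, hP0, hP⟩ := hC.fb.sp.exists_bound
    obtain ⟨β, cθ, hθ0, hθ⟩ := hgr Polynomial.X
    have ht : ∀ x ∈ b.B, 0 < p x → ‖L.t x‖ * p x ^ a ≤ 1 + L.c * cT * P ^ a := fun x hxB hx => by
      have h1 := (L.cmp x hxB hx).1
      have h2 := hT x hx
      have h3 : p x ^ a ≤ P ^ a := pow_le_pow_left₀ hx.le ((le_abs_self _).trans (hP x)) a
      have h4 : 0 < p x ^ a := pow_pos hx a
      have h5 : 0 ≤ cT := (mul_nonneg (hA.t0 x) h4.le).trans h2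
      have h6 : (‖L.t x‖ * p x ^ a) ^ 2 ≤ L.c * cT * P ^ a := by
        rw [mul_pow, Complex.sq_norm]
        calc normSq (L.t x) * (p x ^ a) ^ 2 ≤ L.c * T x * (p x ^ a) ^ 2 :=
              mul_le_mul_of_nonneg_right h1 (sq_nonneg _)
          _ = L.c * (T x * p x ^ a) * p x ^ a := by ring
          _ ≤ L.c * cT * P ^ a := mul_le_mul (mul_le_mul_of_nonneg_left h2 L.c0) h3 h4.le
              (mul_nonneg L.c0 h5)
      nlinarith [sq_nonneg (‖L.t x‖ * p x ^ a - 1)]
    choose A₁ hA₁ hA₂ using fun i : Fin d => hsub (v i) (a * l) (β * i)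
      (max 1 (b.r * cθ ^ (i : ℕ) * (1 + L.c * cT * P ^ a) ^ l)) (hv i) (le_max_left _ _)
      fun y hy s hs hj h0 => by
        rw [hvv i y hy s hs hj] at h0 ⊢
        obtain ⟨j, h1⟩ := sum_bd (q := fun j => p (b.a y s j)) (c := cθ * (1 + nsq s) ^ β) hj
          (fun j => by
            have h2 := hA.rt _ (hj j)
            rw [(b.fib y hy s hs.1 j).2 (hj j)] at h2
            have h3 := hθ _ _ h2
            rwa [show ev Polynomial.X s (θ (b.a y s j)) = θ (b.a y s j) from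
              Polynomial.eval₂_X _ _] at h3)
          (fun j => ht _ (b.fib y hy s hs.1 j).1 (hj j)) h0
        refine ⟨j, h1.trans ?_⟩
        have h2 := nsq0 s
        calc _ = b.r * cθ ^ (i : ℕ) * (1 + L.c * cT * P ^ a) ^ l * (1 + nsq s) ^ (β * i) := by
              rw [mul_pow, pow_mul]; ring
          _ ≤ _ := mul_le_mul_of_nonneg_right (le_max_right _ _) (by positivity)
    choose β' c' hc0 hc' using fun i : Fin d => hgr (Λ i * B)
    have hA0 : ∀ i, 0 ≤ c' i + β' i + (c₂ + 1) + A₁ i := fun i => by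
      have := hc0 i
      have := hA₁ i
      have := hD.c0
      positivity
    refine ⟨d + ∑ i, (c' i + β' i + (c₂ + 1) + A₁ i),
      add_nonneg (Nat.cast_nonneg d) (Finset.sum_nonneg fun i _ => hA0 i), fun K hK hKG => ?_⟩
    obtain ⟨δ, hδ0, hδ⟩ := hK.exists_forall_le' (f := fun s => normSq (MvPolynomial.eval s D))
      (continuous_normSq.comp (MvPolynomial.continuous_eval D)).continuousOn
      (a := 0) fun s hs => normSq_pos.2 (hD0 s (hKG hs))
    filter_upwards [eventually_all.2 fun i => hA₂ i K hK (hKG.trans hGb),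
      Ioc_mem_nhdsGT (lt_min one_pos hδ0)] with e h1 he x hx hxK y hy
    have he1 : e ∈ Ioc (0 : ℝ) 1 := ⟨he.1, he.2.trans (min_le_left _ _)⟩
    have h2 := nsq0 (z x)
    have h3 : U e (z x) ≤ -Real.log (1 + nsq (z x)) := (hU.mono e 1 _ he1.1 he1.2).trans (hU.up _)
    have h4 : 0 ≤ Real.log (1 + nsq (z x)) := Real.log_nonneg (by linarith)
    have hW : 1 ≤ 1 - U e (z x) := by linarith
    have h5 : 1 + nsq (z x) ≤ Real.exp (1 - U e (z x)) :=
      (Real.log_le_iff_le_exp (by linarith)).1 (by linarith)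
    refine (norm_sum_le _ _).trans (sum_exp hW hA0 fun i => ?_)
    have h6 : ‖ev (Λ i * B) (z x) (θ x)‖ ≤ Real.exp ((c' i + β' i) * (1 - U e (z x))) := by
      refine (hc' i _ _ (hA.rt x hx)).trans ?_
      rw [add_mul, Real.exp_add, Real.exp_nat_mul]
      exact mul_le_mul (le_exp (hc0 i) hW) (pow_le_pow_left₀ (by linarith) h5 _) (by positivity)
        (Real.exp_pos _).le
    have h7 := inv_le hD.c0 he.1 ((he.2.trans (min_le_right _ _)).trans (hδ _ hxK)) (by linarith)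
      (hD.dis e he1 (z x))
    rw [norm_mul, norm_mul, evC, add_mul, add_mul, Real.exp_add, Real.exp_add]
    exact mul_le_mul (mul_le_mul h6 h7 (norm_nonneg _) (Real.exp_pos _).le) (h1 i _ hxK y hy)
      (norm_nonneg _) (by positivity)

end Pool.Agent.Lib.RB9
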