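import Pool.Agent.Lib.RB9.Blue

/-! Project rb9: the family on the fibres. -/

open scoped Classical Topology ContDiff ComplexOrder Matrix ENNReal
open Set MeasureTheory Complex Metric Filter

noncomputable section

namespace Pool.Agent.Lib.RB9

open Pool.Agent.Lib.SV (E nsq)
open Pool.Agent.Lib.HS32 Pool.Agent.Lib.FI Pool.Agent.Lib.KH

namespace FAM

theorem root {A : ℝ} (hA : 0 ≤ A) {N : ℕ} (hN : 0 < N) : ∃ a : ℝ, 0 ≤ a ∧ a ^ (2 * N) = A :=
  ⟨A ^ ((2 * N : ℕ) : ℝ)⁻¹, by positivity, Real.rpow_inv_natCast_pow hA (by omega)⟩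

theorem nsq0 {ι : Type} [Fintype ι] (v : ι → ℂ) : 0 ≤ nsq v :=
  Finset.sum_nonneg fun _ _ => normSq_nonneg _

theorem nsq_le {ι : Type} [Fintype ι] {v : ι → ℂ} {B : ℝ} (h : ∀ a, normSq (v a) ≤ B) :
    nsq v ≤ Fintype.card ι * B := by
  simpa [nsq] using Finset.sum_le_card_nsmul Finset.univ _ B fun a _ => h a

theorem nsq_top {ι : Type} [Fintype ι] (v : ι → ℂ) :
    nsq v = 0 ∨ ∃ a, nsq v ≤ Fintype.card ι * normSq (v a) := by
  rcases isEmpty_or_nonempty ι with h | h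
  · exact Or.inl (by simp [nsq])
  obtain ⟨a, ha⟩ := Finite.exists_max fun a => normSq (v a)
  exact Or.inr ⟨a, nsq_le ha⟩

theorem nsq_pow (u : ℂ) (q : ℕ) : normSq (u ^ q) = ‖u‖ ^ (2 * q) := by
  rw [map_pow, normSq_eq_norm_sq, ← pow_mul]

variable {n k : ℕ} {M : Mf n} {H : M.Fam (Mat n)} {p : M.X → ℝ} {z : M.X → E k} {θ : M.X → ℂ}
  {T : M.X → ℝ} {U : ℝ → E k → ℝ} {G S : Set (E k)} {N : ℕ}

theorem trans {ι : Type} [Fintype ι] {F : M.X → ι → ℂ} {A : ℝ} (h : Fm p z θ T U G N F A)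
    (h' : Fa H p z θ T G N F A) : ∃ (d : ℕ) (F : M.X → Fin d → ℂ) (A : ℝ),
      Fm p z θ T U G N F A ∧ Fa H p z θ T G N F A := by
  let e := (Fintype.equivFin ι).symm
  have hn : ∀ x, nsq (F x ∘ e) = nsq (F x) := fun x => e.sum_comp fun a => normSq (F x a)
  refine ⟨_, fun x => F x ∘ e, A, ⟨h.c0, fun i => h.hol (e i),
    fun x a b x' c => by rw [h.fn x a b x' c], ?_, ?_, fun x₀ a b => ?_, ?_, ?_⟩, ?_⟩
  · simpa only [hn] using h.lo
  · simpa only [hn] using h.up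
  · obtain ⟨B, hB⟩ := h.lip x₀ a b
    exact ⟨B, hB.mono fun x hx => ((pi_norm_le_iff_of_nonneg (norm_nonneg _)).2 fun a =>
      norm_le_pi_norm (F x - F x₀) (e a)).trans hx⟩
  · simpa only [hn] using h.bd
  · simpa only [hn] using h.r2
  · simpa only [Fa, hn] using h'

theorem zc {C : ℝ} (h : Fb H p z C) {x : M.X} (hx : 0 < p x) : ContinuousAt z x := by
  obtain ⟨he, hs⟩ := (mTR n M).1 x
  have h1 := (h.hol _ he _ ((M.ch x).map_source hs)
    (by rwa [(M.ch x).left_inv hs])).self_of_nhds.continuousAt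
  refine (h1.comp ((M.ch x).continuousAt hs)).congr ?_
  filter_upwards [(M.ch x).eventually_left_inverse hs] with y hy
  simp only [Function.comp, hy]

theorem lip_pow {Y : Type} [TopologicalSpace Y] {u : Y → ℂ} {z : Y → E k} {x₀ : Y} {A : ℝ}
    (hz : ContinuousAt z x₀) (h : ∀ᶠ x in 𝓝 x₀, ‖u x - u x₀‖ ≤ A * ‖z x - z x₀‖) (q : ℕ) :
    ∃ B : ℝ, ∀ᶠ x in 𝓝 x₀, ‖u x ^ q - u x₀ ^ q‖ ≤ B * ‖z x - z x₀‖ := by
  have h1 : Tendsto u (𝓝 x₀) (𝓝 (u x₀)) := by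
    rw [tendsto_iff_norm_sub_tendsto_zero]
    refine squeeze_zero' (Eventually.of_forall fun _ => norm_nonneg _) h ?_
    simpa using (tendsto_iff_norm_sub_tendsto_zero.1 hz.tendsto).const_mul A
  obtain ⟨K, s, hs, hK⟩ := (hasStrictDerivAt_pow q (u x₀)).hasStrictFDerivAt.exists_lipschitzOnWith
  refine ⟨K * A, ?_⟩
  filter_upwards [h, h1.eventually hs] with x a b
  have := hK.norm_sub_le b (mem_of_mem_nhds hs)
  exact this.trans (by rw [mul_assoc]; exact mul_le_mul_of_nonneg_left a K.2)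

/-- The bound on a sheet for the multiples of the power sums. -/
theorem sheet (b : Box H p z S) (L : Loc p θ T b.W b.B) {l q Q s : ℕ} {u : E b.g → M.X → ℂ}
    (hu : Ps b θ L.t U G l u) (hG : G ⊆ S) (hq : l * q = N) (q0 : 0 < q) (Q0 : 0 < Q)
    {γ : M.X → ℂ} {A₀ : ℝ} (hγ : ∀ x, 0 < p x → normSq (γ x) * T x ^ (N * Q) * p x ^ s ≤ A₀)
    {x : M.X} (hx : 0 < p x) (hz : z x ∈ G) (hc : ∀ x' ∈ Fi p z θ x, γ x' = γ x) {y : E b.g}
    (hy : y ∈ ball b.y0 b.R) (hp : ∀ j, 0 < p (b.a y (z x) j))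
    (h0 : (γ x * (u y x ^ q) ^ Q) ^ 2 ≠ 0) : ∃ j, ‖(γ x * (u y x ^ q) ^ Q) ^ 2‖ *
      p (b.a y (z x) j) ^ s ≤ max (((b.r : ℝ) ^ (2 * q) * L.c ^ N) ^ Q * A₀) 1 := by
  have h1 : u y x ≠ 0 := fun h => h0 (by simp [h, q0.ne', Q0.ne'])
  have hv := hu.val x hx hz y hy hp
  obtain ⟨j, hj, hm⟩ := (Finset.univ.filter fun j => θ (b.a y (z x) j) = θ x).exists_max_image
    (fun j => ‖L.t (b.a y (z x) j)‖) (by
      by_contra hn
      refine h1 (hv.trans (Finset.sum_eq_zero fun j _ => if_neg fun h => hn ⟨j, by simpa using h⟩)))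
  obtain ⟨f1, f2⟩ := b.fib y hy _ (hG hz) j
  have h2 : ‖u y x‖ ≤ b.r * ‖L.t (b.a y (z x) j)‖ ^ l := by
    rw [hv]
    refine (norm_sum_le _ _).trans ((Finset.sum_le_card_nsmul _ _ (‖L.t (b.a y (z x) j)‖ ^ l)
      fun i _ => ?_).trans_eq (by simp))
    split_ifs with h
    · rw [norm_pow]
      exact pow_le_pow_left₀ (norm_nonneg _) (hm i (by simpa using h)) l
    · rw [norm_zero]
      positivity
  have h3 : normSq (u y x ^ q) ≤ (b.r : ℝ) ^ (2 * q) * L.c ^ N * T (b.a y (z x) j) ^ N := by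
    rw [nsq_pow, mul_assoc, ← mul_pow]
    refine (pow_le_pow_left₀ (norm_nonneg _) h2 _).trans ?_
    rw [mul_pow, ← pow_mul, show l * (2 * q) = 2 * N by rw [← hq]; ring, pow_mul _ 2 N,
      ← normSq_eq_norm_sq]
    exact mul_le_mul_of_nonneg_left
      (pow_le_pow_left₀ (normSq_nonneg _) (L.cmp _ f1 (hp j)).1 N) (by positivity)
  refine ⟨j, le_max_of_le_left ?_⟩
  have h4 := hγ _ (hp j)
  rw [hc _ ⟨hp j, f2 (hp j), by simpa using hj⟩] at h4
  have c0 := L.c0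
  have h5 := mul_le_mul_of_nonneg_left h4 (show 0 ≤ ((b.r : ℝ) ^ (2 * q) * L.c ^ N) ^ Q by positivity)
  have h6 := mul_le_mul_of_nonneg_left (pow_le_pow_left₀ (normSq_nonneg _) h3 Q)
    (mul_nonneg (normSq_nonneg (γ x)) (pow_nonneg (hp j).le s))
  rw [norm_pow, ← normSq_eq_norm_sq, map_mul, map_pow]
  rw [mul_pow _ (T _ ^ N), ← pow_mul (T _)] at h6
  linarith

end FAM

open FAM in
theorem bFAM (hGDO : St_GDO) (hNUL : St_NUL) (hEL : St_EL) (hSHT : St_SHT) (hNET : St_NET)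
    (hSUB : St_SUB) : St_FAM := by
  intro n k M _ H p z C V r Ψ θ T m D U c₁ c₂ S c L N cx al up dm N0 hd
  obtain ⟨g1, g2⟩ := hGDO n k M H p z C V r Ψ cx
  obtain ⟨n1, n2⟩ := hNUL n k M H p z C V r Ψ cx
  have oG := fun i => (g2 S (c.b i) c.oV).1
  obtain ⟨G, Go, GS, Gb, GD, Gg⟩ : ∃ G : Set (E k), IsOpen G ∧ G ⊆ S ∧ (∀ i, G ⊆ (c.b i).G) ∧
      (∀ s ∈ G, MvPolynomial.eval s D ≠ 0) ∧ ∀ s ∈ S, Good H p z r p V s → s ∈ G := by
    refine ⟨(S ∩ ⋂ i, (c.b i).G) ∩ {s | MvPolynomial.eval s D ≠ 0},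
      (c.oV.inter (isOpen_iInter_of_finite oG)).inter
        (isOpen_ne_fun (MvPolynomial.continuous_eval D) continuous_const),
      fun s hs => hs.1.1, fun i s hs => mem_iInter.1 hs.1.2 i, fun s hs => hs.2,
      fun s hs hg => ⟨⟨hs, mem_iInter.2 fun i => (g2 S (c.b i) c.oV).2 s hs hg⟩, ?_⟩⟩
    obtain ⟨x, hx, rfl⟩ := g1 s hg
    exact al.d0 x hx
  refine ⟨G, Go, GS, Gg, ?_⟩
  choose u hu using fun i l => hEL n k M H p z C V r Ψ θ T m D U c₁ c₂ S G (c.b i) (L i) l cx al up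
    dm c.oV (oG i) Go (Gb i) GD
  choose a a1 ha using fun i => hSHT n k M H p z θ T m D U S G (c.b i) (L i) (u i)
    (((mTR n M).2.2.2.1 ℝ p).1 cx.fb.sp) cx.fb.p0 al (Gb i) (hu i)
  choose cs cs0 hs using fun i => hSUB n k M H p z C V r Ψ D U c₁ c₂ θ T S (c.b i) (L i) cx up dm
    c.oV (oG i)
  obtain ⟨a₀, a01, a0⟩ : ∃ a₀ : ℝ, 1 ≤ a₀ ∧ ∀ i, a i ≤ a₀ := by
    obtain ⟨B, hB⟩ := Finite.exists_le a
    exact ⟨max B 1, le_max_right _ _, fun i => le_max_of_le_left (hB i)⟩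
  have δ0 : 0 < (2 * a₀ ^ 2)⁻¹ := by positivity
  have δ1 : (2 * a₀ ^ 2)⁻¹ ≤ 1 := inv_le_one_of_one_le₀ (by nlinarith)
  choose Nn yn hyn hnet using fun i => hNET (c.b i).g (c.b i).y0 (c.b i).R
    ((2 * a₀ ^ 2)⁻¹ ^ (c.b i).r) (c.b i).R0 (by positivity)
  have half : ∀ i, ball (c.b i).y0 ((c.b i).R / 2) ⊆ ball (c.b i).y0 (c.b i).R := fun i =>
    ball_subset_ball (half_le_self (c.b i).R0.le)
  let ι : Type := Σ i : Fin c.N, Fin (c.b i).r × Fin (Nn i)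
  let q : ι → ℕ := fun j => N / (j.2.1 + 1)
  have hq : ∀ j : ι, (j.2.1 + 1) * q j = N := fun j =>
    Nat.mul_div_cancel' (hd j.1 _ (by omega) j.2.1.2)
  have q0 : ∀ j, 0 < q j := fun j => Nat.pos_of_ne_zero fun h => by
    have := hq j
    rw [h] at this
    omega
  let F : M.X → ι → ℂ := fun x j => u j.1 (j.2.1 + 1) (yn j.1 j.2.2) x ^ q j
  choose β β0 hβ using fun j : ι => (hu j.1 (j.2.1 + 1)).bd
  obtain ⟨b₀, b0⟩ := Finite.exists_le fun j => β j * (2 * q j : ℕ)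
  obtain ⟨s₀, s0⟩ := Finite.exists_le cs
  obtain ⟨A, A0, A1, A2, A3, A4, A5⟩ : ∃ A : ℝ, 0 ≤ A ∧ (2 * a₀) ^ (2 * N) ≤ A ∧
      Fintype.card ι * a₀ ^ (2 * N) ≤ A ∧ b₀ ≤ A ∧ Fintype.card ι * Real.exp b₀ ≤ A ∧ s₀ ≤ A :=
    ⟨max (max (max 0 ((2 * a₀) ^ (2 * N))) (max (Fintype.card ι * a₀ ^ (2 * N)) b₀))
      (max (Fintype.card ι * Real.exp b₀) s₀), by simp, by simp, by simp, by simp, by simp, by simp⟩
  have U0 : ∀ e, 0 < e → e ≤ 1 → ∀ s, U e s ≤ 0 := fun e e0 e1 s =>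
    ((up.mono e 1 s e0 e1).trans (up.up s)).trans
      (neg_nonpos.2 (Real.log_nonneg (by linarith [nsq0 s])))
  have upZ : ∀ x, 0 < p x → z x ∈ G → ∀ Z : Set M.X, (∀ i, ∀ᵐ y, y ∈ ball (c.b i).y0 (c.b i).R →
      ∀ j, (c.b i).a y (z x) j ∉ Z) → ∀ B : ℝ, 0 ≤ B → (∀ x' ∈ Fi p z θ x, x' ∉ Z → T x' ^ N ≤ B) →
      nsq (F x) ≤ A * B := fun x hx hz Z hZ B B0 hB => by
    obtain ⟨ρ, ρ0, rfl⟩ := root B0 N0
    refine (nsq_le (B := a₀ ^ (2 * N) * ρ ^ (2 * N)) fun j => ?_).trans (by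
      rw [← mul_assoc]
      exact mul_le_mul_of_nonneg_right A2 B0)
    have := (ha j.1 x hx hz ρ ρ0).1 Z (hZ _) (fun x' h1 h2 => le_of_pow_le_pow_left₀ N0.ne'
      (sq_nonneg _) (by rw [← pow_mul]; exact hB x' h1 h2)) (j.2.1 + 1) (by omega) _
      (half _ (hyn j.1 j.2.2))
    rw [nsq_pow, ← mul_pow]
    refine (pow_le_pow_left₀ (norm_nonneg _) this _).trans ?_
    rw [← pow_mul, show (j.2.1 + 1) * (2 * q j) = 2 * N by rw [← hq j]; ring]
    exact pow_le_pow_left₀ (mul_nonneg (by linarith [a1 j.1]) ρ0)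
      (mul_le_mul_of_nonneg_right (a0 _) ρ0) _
  have low : ∀ x, 0 < p x → z x ∈ G → ∀ B : ℝ, 0 ≤ B → (∀ i, ∀ y ∈ ball (c.b i).y0 ((c.b i).R / 2),
      ∀ l, 1 ≤ l → l ≤ (c.b i).r → ‖u i l y x‖ ≤ B ^ l) → ∀ x' ∈ Fi p z θ x, √(T x') ≤ a₀ * B :=
    fun x hx hz B B0 hB x' h' => by
      obtain ⟨i, y, hy, j, e⟩ := c.cov x' h'.1 (by rw [h'.2.1]; exact GS hz)
      rw [h'.2.1] at e
      have := (ha i x hx hz B B0).2 y (half i hy) (hB i y hy) j (by rwa [e])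
      rw [e] at this
      exact (Real.sqrt_le_iff.2 ⟨mul_nonneg (by linarith [a1 i]) B0, this⟩).trans
        (mul_le_mul_of_nonneg_right (a0 i) B0)
  refine trans (F := F) (A := A) ⟨A0, fun j e he w hw h => ?_, fun x _ _ x' h' => ?_,
    fun x hx hz => ?_, fun x hx hz B hB => ?_, fun x₀ hx hz => ?_, fun K hK KG => ?_,
    fun γ Q s A₀ Q0 hγ => ?_⟩ fun Z hZ => ?_
  · exact ((hu j.1 _).hx _ (half _ (hyn j.1 j.2.2)) e he w hw h).mono fun v hv => hv.pow (q j)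
  · exact funext fun j => congrArg (· ^ q j) ((hu j.1 _).fn x x' h'.2.1 h'.2.2 _)
  · have bd : BddAbove ((fun x' => √(T x')) '' Fi p z θ x) := by
      have h1 : ∀ j : Σ i : Fin c.N, Fin (c.b i).r, ∃ B : ℝ,
          ∀ y ∈ closedBall (c.b j.1).y0 ((c.b j.1).R / 2), ‖u j.1 (j.2 + 1) y x‖ ≤ B := fun j =>
        (isCompact_closedBall _ _).exists_bound_of_continuousOn
          (((hu j.1 _).hy x hx hz).continuousOn.mono
            (closedBall_subset_ball (half_lt_self (c.b j.1).R0)))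
      choose B hB using h1
      obtain ⟨B₀, hB₀⟩ := Finite.exists_le B
      refine ⟨a₀ * max B₀ 1, forall_mem_image.2 (low x hx hz _ (by positivity) fun i y hy l l1 l2 => ?_)⟩
      obtain ⟨l, rfl⟩ := Nat.exists_eq_add_of_le' l1
      exact ((hB ⟨i, ⟨l, l2⟩⟩ y (ball_subset_closedBall hy)).trans
        ((hB₀ _).trans (le_max_left _ 1))).trans (le_self_pow₀ (le_max_right _ _) (by omega))
    obtain ⟨ρ, h1, h2⟩ : ∃ ρ, (∀ x' ∈ Fi p z θ x, √(T x') ≤ ρ) ∧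
        ∀ B, (∀ x' ∈ Fi p z θ x, √(T x') ≤ B) → ρ ≤ B :=
      ⟨_, fun x' h' => le_csSup bd ⟨x', h', rfl⟩, fun B hB =>
        csSup_le ⟨_, x, ⟨hx, rfl, rfl⟩, rfl⟩ (forall_mem_image.2 hB)⟩
    have ρ0 : 0 ≤ ρ := (Real.sqrt_nonneg _).trans (h1 x ⟨hx, rfl, rfl⟩)
    have h3 : ∀ x' ∈ Fi p z θ x, T x' ≤ ρ ^ 2 := fun x' h' => (Real.sqrt_le_iff.1 (h1 x' h')).2
    obtain ⟨B, B0, hB⟩ := root (nsq0 (F x)) N0
    have h4 := h2 _ (low x hx hz (B + (2 * a₀ ^ 2)⁻¹ * (a₀ * ρ)) (by positivity)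
      fun i y hy l l1 l2 => by
        obtain ⟨ν, hν⟩ := hnet i (fun y => u i l y x) _ ((hu i l).hy x hx hz)
          ((ha i x hx hz ρ ρ0).1 ∅ (Eventually.of_forall fun _ _ _ => notMem_empty _)
            (fun x' h' _ => h3 x' h') l l1) y hy
        obtain ⟨l, rfl⟩ := Nat.exists_eq_add_of_le' l1
        have e1 : ‖u i (l + 1) (yn i ν) x‖ ≤ B ^ (l + 1) := by
          have := Finset.single_le_sum (f := fun j => normSq (F x j)) (fun j _ => normSq_nonneg _)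
            (Finset.mem_univ (⟨i, ⟨l, l2⟩, ν⟩ : ι))
          refine le_of_pow_le_pow_left₀ (n := 2 * q ⟨i, ⟨l, l2⟩, ν⟩)
            (by have := q0 ⟨i, ⟨l, l2⟩, ν⟩; omega) (by positivity) ?_
          rw [← nsq_pow, ← pow_mul, show (l + 1) * (2 * q ⟨i, ⟨l, l2⟩, ν⟩) = 2 * N by
            rw [← hq ⟨i, ⟨l, l2⟩, ν⟩]; ring, hB]
          exact this
        have e2 : (2 * a₀ ^ 2)⁻¹ ^ (c.b i).r * (a i * ρ) ^ (l + 1) ≤
            ((2 * a₀ ^ 2)⁻¹ * (a₀ * ρ)) ^ (l + 1) := by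
          have := a1 i
          rw [mul_pow _ (a₀ * ρ)]
          exact mul_le_mul (pow_le_pow_of_le_one δ0.le δ1 l2) (pow_le_pow_left₀ (by positivity)
            (mul_le_mul_of_nonneg_right (a0 i) ρ0) _) (by positivity) (by positivity)
        refine le_trans ?_ (pow_add_pow_le B0 (by positivity) (by omega))
        linarith [norm_le_insert' (u i (l + 1) y x) (u i (l + 1) (yn i ν) x)])
    have h5 : ρ ≤ 2 * a₀ * B := by
      have : a₀ * ((2 * a₀ ^ 2)⁻¹ * (a₀ * ρ)) = ρ / 2 := by field_simp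
      rw [mul_add, this] at h4
      linarith
    intro x' h'
    calc T x' ^ N ≤ (ρ ^ 2) ^ N := pow_le_pow_left₀ (al.t0 _) (h3 x' h') N
      _ ≤ (2 * a₀ * B) ^ (2 * N) := by
          rw [← pow_mul]
          exact pow_le_pow_left₀ ρ0 h5 _
      _ ≤ _ := by
          rw [mul_pow, hB]
          exact mul_le_mul_of_nonneg_right A1 (nsq0 _)
  · exact upZ x hx hz ∅ (fun i => Eventually.of_forall fun _ _ _ => notMem_empty _) B
      ((pow_nonneg (al.t0 x) N).trans (hB x ⟨hx, rfl, rfl⟩)) fun x' h' _ => hB x' h'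
  · choose B hB using fun j : ι => ((hu j.1 (j.2.1 + 1)).lip _ (half _ (hyn j.1 j.2.2)) x₀ hx hz).elim
      fun _ h => lip_pow (zc cx.fb hx) h (q j)
    obtain ⟨B₀, hB₀⟩ := Finite.exists_le B
    refine ⟨max B₀ 0, (eventually_all.2 hB).mono fun x h => ?_⟩
    exact (pi_norm_le_iff_of_nonneg (by positivity)).2 fun j => (h j).trans
      (mul_le_mul_of_nonneg_right (le_max_of_le_left (hB₀ j)) (norm_nonneg _))
  · filter_upwards [eventually_all.2 fun j => hβ j K hK KG, Ioc_mem_nhdsGT (zero_lt_one' ℝ)]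
      with e he e1 x hx hz
    have h0 := U0 e e1.1 e1.2 (z x)
    have h1 : nsq (F x) ≤ Fintype.card ι * Real.exp (b₀ * (1 - U e (z x))) := nsq_le fun j => by
      rw [nsq_pow]
      refine (pow_le_pow_left₀ (norm_nonneg _) (he j x hx hz _ (hyn j.1 j.2.2)) _).trans ?_
      rw [← Real.exp_nat_mul, ← mul_assoc, mul_comm _ (β j)]
      exact Real.exp_le_exp.2 (mul_le_mul_of_nonneg_right (b0 j) (by linarith))
    refine (mul_le_mul_of_nonneg_right h1 (Real.exp_nonneg _)).trans (le_trans ?_ A4)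
    rw [mul_assoc, ← Real.exp_add]
    exact mul_le_mul_of_nonneg_left (Real.exp_le_exp.2 (by nlinarith)) (Nat.cast_nonneg _)
  · obtain ⟨B, hB⟩ := Finite.exists_le fun j : ι =>
      max ((((c.b j.1).r : ℝ) ^ (2 * q j) * (L j.1).c ^ N) ^ Q * A₀) 1
    refine ⟨(Fintype.card ι : ℝ) ^ Q * (max B 0 * Real.exp (s * A)), fun x hx hz hc A' hA => ?_⟩
    have h0 : A' ≤ 0 := (hA 1 one_pos).trans (U0 1 one_pos le_rfl _)
    rcases nsq_top (F x) with h | ⟨j, h⟩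
    · rw [h, zero_pow Q0.ne', mul_zero, zero_mul]
      positivity
    have h1 := (hs j.1).1 _ (Gb _ hz) (fun y => (γ x * (u j.1 (j.2.1 + 1) y x ^ q j) ^ Q) ^ 2) s _ A'
      (((((hu j.1 _).hy x hx hz).fun_pow _).fun_pow _).const_mul _ |>.fun_pow _) (le_max_right _ _)
      (fun y hy hp h0 => sheet (c.b j.1) (L j.1) (hu j.1 _) GS (hq j) (q0 j) Q0 hγ hx hz hc hy hp h0)
      hA _ (hyn j.1 j.2.2)
    rw [norm_pow, ← normSq_eq_norm_sq, map_mul, map_pow] at h1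
    have h2 := h1.trans (mul_le_mul_of_nonneg_right ((hB j).trans (le_max_left B 0)) (Real.exp_nonneg _))
    have h3 : Real.exp (s * cs j.1 * (1 - A')) * Real.exp (s * A * A') ≤ Real.exp (s * A) := by
      rw [← Real.exp_add]
      have := mul_le_mul_of_nonneg_right ((s0 j.1).trans A5) (show 0 ≤ s * (1 - A') by
        have : 0 ≤ 1 - A' := by linarith
        positivity)
      exact Real.exp_le_exp.2 (by linarith)
    calc normSq (γ x) * nsq (F x) ^ Q * Real.exp (s * A * A')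
        ≤ normSq (γ x) * (Fintype.card ι * normSq (F x j)) ^ Q * Real.exp (s * A * A') := by
          have := normSq_nonneg (γ x)
          have := nsq0 (F x)
          gcongr
      _ = (Fintype.card ι : ℝ) ^ Q * (normSq (γ x) * normSq (F x j) ^ Q * Real.exp (s * A * A')) := by
          ring
      _ ≤ _ := by
          refine mul_le_mul_of_nonneg_left ((mul_le_mul_of_nonneg_right h2 (Real.exp_nonneg _)).trans ?_)
            (by positivity)
          rw [mul_assoc]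
          exact mul_le_mul_of_nonneg_left h3 (le_max_right _ _)
  · filter_upwards [n1 _ (ae_all_iff.2 fun i => n2 S (c.b i) Z c.oV hZ)] with x h hx hz B B0 hB
    exact upZ x hx hz Z (fun i => h hx i (GS hz)) B B0 hB

end Pool.Agent.Lib.RB9
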