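import Pool.Agent.Lib.RB9.Blue
import Pool.Agent.Lib.FI.B_CON

/-! Project rb9, row GDO: good points. -/

open scoped Classical Topology ContDiff ComplexOrder Matrix ENNReal
open Set MeasureTheory Complex Metric Filter

set_option linter.unusedVariables false

noncomputable section

namespace Pool.Agent.Lib.RB9

open Pool.Agent.Lib.SV (E nsq)
open Pool.Agent.Lib.HS32 Pool.Agent.Lib.FI Pool.Agent.Lib.KH

namespace GDO

theorem dia {k : ℕ} {s : E k} {P : ℝ × E k → Prop} (h : ∀ᶠ a in nb s, P a) {δ : ℝ} (hδ : 0 < δ) :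
    ∃ e, 0 < e ∧ e < δ ∧ P (e, s) := by
  have h1 : Tendsto (fun e : ℝ => (e, s)) (𝓝[>] 0) (nb s) :=
    tendsto_id.prodMk tendsto_const_nhds
  obtain ⟨e, h2, h3⟩ := ((h1.eventually h).and (Ioo_mem_nhdsGT hδ)).exists
  exact ⟨e, h3.1, h3.2, h2⟩

end GDO

theorem bGDO (hSMO : FI.St_SMO) (hBAS : FI.St_BAS) : St_GDO := by
  intro n k M _ H p z C V r Ψ hC
  obtain ⟨hO, hz0, hh, -, -⟩ := hBAS n k M H p z C hC.fb
  have sm : ∀ f : M.X → ℝ, M.Sm f → Continuous f := fun f h => ((mTR n M).2.2.2.1 ℝ f).1 h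
  have cp := sm p hC.fb.sp
  have r1 : ∀ y, 1 ≤ nsq y → r y = 0 := fun y h => (hC.rad.sr y h).1
  refine ⟨fun s hs => ?_, fun S b hS => ⟨isOpen_iff_mem_nhds.2 ?_, fun s hsS hs => ?_⟩⟩
  · obtain ⟨φ, h1, h2, h3, h4⟩ := hs (V / 2) (half_pos hC.v0)
    by_contra hn
    have hK : IsCompact (z '' tsupport φ) :=
      (isClosed_tsupport φ).isCompact.image_of_continuousOn (hz0.mono h3)
    have hs' : s ∉ z '' tsupport φ := fun ⟨x, hx, e⟩ => hn ⟨x, h3 hx, e⟩
    obtain ⟨δ, hδ, hb⟩ := Metric.mem_nhds_iff.1 (hK.isClosed.isOpen_compl.mem_nhds hs')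
    obtain ⟨e, e0, e1, e2⟩ := GDO.dia h4 hδ
    have h5 : fi H p z r φ e s = 0 := by
      refine (integral_congr_ae (Eventually.of_forall fun x => ?_)).trans (integral_zero _ _)
      by_cases hx : x ∈ tsupport φ
      · have h6 : δ ≤ ‖s - z x‖ := by
          by_contra! h
          exact hb (mem_ball_iff_norm'.2 h) ⟨x, hx, rfl⟩
        simp only [CON.sc_zero r1 e0 (e1.trans_le h6), mul_zero, zero_mul]
      · simp only [image_eq_zero_of_notMem_tsupport hx, zero_mul]
    rw [h5] at e2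
    linarith [hC.v0]
  · rintro s ⟨hsS, y, hy, hp⟩
    have d2 : ∀ᶠ d in 𝓝[>] (0 : ℝ), ∀ j, d ≤ p (b.a y s j) :=
      eventually_all.2 fun j => mem_nhdsWithin_of_mem_nhds (Iic_mem_nhds (hp j))
    obtain ⟨d, d1, d0⟩ := (d2.and self_mem_nhdsWithin).exists
    have d0 : 0 < d := d0
    have h1 := (b.con (fun x => max 0 (1 - p x / d)) (by fun_prop)).continuousAt
      ((isOpen_ball.prod hS).mem_nhds (show (y, s) ∈ _ from ⟨hy, hsS⟩))
    have h2 : ContinuousAt (fun s' => ∑ j, max 0 (1 - p (b.a y s' j) / d)) s :=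
      h1.comp (f := fun s' => (y, s')) (by fun_prop)
    have h3 : ∑ j, max 0 (1 - p (b.a y s j) / d) < 1 := by
      rw [Finset.sum_eq_zero fun j _ => max_eq_left (sub_nonpos.2 ((one_le_div d0).2 (d1 j)))]
      exact one_pos
    filter_upwards [h2.eventually_lt_const h3, hS.mem_nhds hsS] with s' h4 h5
    refine ⟨h5, y, hy, fun j => ?_⟩
    have h6 := (le_max_right _ _).trans_lt ((Finset.single_le_sum
      (f := fun j => max 0 (1 - p (b.a y s' j) / d)) (fun j _ => le_max_left _ _)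
      (Finset.mem_univ j)).trans_lt h4)
    exact (div_pos_iff_of_pos_right d0).1 (by linarith)
  · by_contra hn
    have hn' : ∀ y ∈ ball b.y0 b.R, ∃ j, ¬0 < p (b.a y s j) := fun y hy =>
      not_forall.1 fun h => hn ⟨hsS, y, hy, h⟩
    have R2 := half_pos b.R0
    set v := (volume (ball b.y0 (b.R / 2))).toReal with hv
    have v0 : 0 < v := ENNReal.toReal_pos (measure_ball_pos _ _ R2).ne' measure_ball_lt_top.ne
    have c1 : 0 < b.c + 1 := by linarith [b.c0]
    obtain ⟨φ, h1, h2, h3, h4⟩ := hs (v / 2 / (b.c + 1)) (by positivity)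
    have cφ := sm φ h1
    have cψ : Continuous fun x => 1 + -1 * φ x := by fun_prop
    have ψ0 : ∀ x, 0 ≤ 1 + -1 * φ x := fun x => by linarith [(h2 x).2]
    have sb : closedBall b.y0 (b.R / 2) ⊆ ball b.y0 b.R := closedBall_subset_ball (half_lt_self b.R0)
    have h5 : ∀ᶠ s' in 𝓝 s, ∀ y ∈ closedBall b.y0 (b.R / 2),
        1 / 2 < ∑ j, (1 + -1 * φ (b.a y s' j)) := by
      refine (isCompact_closedBall _ _).eventually_forall_of_forall_eventually fun y hy => ?_
      have h6 := (b.con _ cψ).continuousAt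
        ((isOpen_ball.prod hS).mem_nhds (show (y, s) ∈ _ from ⟨sb hy, hsS⟩))
      have h7 : ContinuousAt (fun w : E k × E b.g => ∑ j, (1 + -1 * φ (b.a w.2 w.1 j))) (s, y) :=
        h6.comp_of_eq (f := Prod.swap) continuous_swap.continuousAt rfl
      refine h7.eventually_const_lt ?_
      obtain ⟨j, hj⟩ := hn' y (sb hy)
      have h8 := Finset.single_le_sum (f := fun j => 1 + -1 * φ (b.a y s j)) (fun j _ => ψ0 _)
        (Finset.mem_univ j)
      rw [image_eq_zero_of_notMem_tsupport fun h => hj (h3 h)] at h8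
      exact lt_of_lt_of_le (by norm_num) h8
    obtain ⟨δ, hδ, hb⟩ := Metric.mem_nhds_iff.1 (h5.and (hS.mem_nhds hsS))
    obtain ⟨e, e0, e1, e2⟩ := GDO.dia h4 hδ
    have tϑ := CON.tst_sub (CON.tst_sc hC.rad.tr e0) s
    have cϑ := tϑ.sm.continuous
    have ϑ0 : ∀ w, 0 ≤ sc r e (s - w) := fun w => CON.sc_nn hC.rad.r0 e0 _
    have ϑ1 : ∫⁻ w, ENNReal.ofReal (sc r e (s - w)) = 1 := by
      rw [← ofReal_integral_eq_lintegral_ofReal (cϑ.integrable_of_hasCompactSupport tϑ.cs)
        (Eventually.of_forall ϑ0), integral_sub_left_eq_self (sc r e) volume s, CON.int_sc r e0,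
        hC.rad.one, ENNReal.ofReal_one]
    have dn0 : ∀ x, 0 < p x → 0 ≤ dn H z x := fun x h => ((hC.jc.pos x).1 h).2.le
    have cd : ContinuousOn (dn H z) {x | 0 < p x} :=
      (continuous_re.comp continuous_id.matrix_det).comp_continuousOn
        (continuousOn_pi.2 fun i => continuousOn_pi.2 fun j => hh i j)
    have f0 : ∀ᵐ x ∂(M.mu H).restrict {x | 0 < p x},
        0 ≤ sc r e (s - z x) * (1 + -1 * φ x) * dn H z x :=
      (ae_restrict_iff' hO.measurableSet).2 (Eventually.of_forall fun x hx =>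
        mul_nonneg (mul_nonneg (ϑ0 _) (ψ0 _)) (dn0 x hx))
    have fi1 : Integrable (fun x => sc r e (s - z x) * (1 + -1 * φ x) * dn H z x)
        ((M.mu H).restrict {x | 0 < p x}) := by
      refine ⟨((((cϑ.comp_continuousOn hz0).mul cψ.continuousOn).mul cd).aemeasurable
        hO.measurableSet).aestronglyMeasurable, (hasFiniteIntegral_iff_ofReal f0).2 ?_⟩
      refine lt_of_le_of_lt (lintegral_mono fun x => ?_) ((hC.vol.2
        (fun w => ENNReal.ofReal (sc r e (s - w))) cϑ.measurable.ennreal_ofReal).trans_lt ?_)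
      · rw [ENNReal.ofReal_mul (mul_nonneg (ϑ0 _) (ψ0 _))]
        exact mul_le_mul' (ENNReal.ofReal_le_ofReal
          (mul_le_of_le_one_right (ϑ0 _) (by linarith [(h2 x).1]))) le_rfl
      · rw [ϑ1, mul_one]
        exact ENNReal.ofReal_lt_top
    have up := b.up _ _ cψ ψ0 cϑ ϑ0
    obtain ⟨s1, s2⟩ := (hSMO n k M H p z C V r Ψ hC.fb hC.vol hC.rad).1 e s e0
    have s3 := (s2 (fun _ => 1) φ continuous_const cφ).1 (-1)
    have s4 : ∫ x in {x | 0 < p x}, sc r e (s - z x) * (1 + -1 * φ x) * dn H z x ∂M.mu H =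
        V - fi H p z r φ e s := by
      rw [s1] at s3
      refine Eq.trans (integral_congr_ae (Eventually.of_forall fun x => ?_)) (s3.trans (by ring))
      exact congrArg (· * dn H z x) (mul_comm _ _)
    rw [← ofReal_integral_eq_lintegral_ofReal fi1 f0, s4, ← ENNReal.ofReal_mul b.c0] at up
    have lo : ENNReal.ofReal (v / 2) ≤ ∫⁻ w in ball b.y0 b.R ×ˢ S,
        ENNReal.ofReal (sc r e (s - w.2) * ∑ j, (1 + -1 * φ (b.a w.1 w.2 j))) := by
      have m1 : Measurable fun w => ENNReal.ofReal (sc r e (s - w)) := cϑ.measurable.ennreal_ofReal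
      have e3 : ∫⁻ w : E b.g × E k, (ball b.y0 (b.R / 2)).indicator (fun _ => ENNReal.ofReal (1 / 2)) w.1 *
          ENNReal.ofReal (sc r e (s - w.2)) = ENNReal.ofReal (v / 2) := by
        rw [Measure.volume_eq_prod, lintegral_prod_mul
          (measurable_const.indicator measurableSet_ball).aemeasurable m1.aemeasurable, ϑ1, mul_one,
          lintegral_indicator_const measurableSet_ball, ← ENNReal.ofReal_toReal
            (measure_ball_lt_top (μ := volume) (x := b.y0) (r := b.R / 2)).ne,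
          ← ENNReal.ofReal_mul (by norm_num), ← hv]
        exact congrArg _ (by ring)
      rw [← e3, ← lintegral_indicator (measurableSet_ball.prod hS.measurableSet)]
      refine lintegral_mono fun w => ?_
      by_cases a1 : w.1 ∈ ball b.y0 (b.R / 2)
      · by_cases a2 : w.2 ∈ ball s δ
        · have a3 : w ∈ ball b.y0 b.R ×ˢ S := ⟨sb (ball_subset_closedBall a1), (hb a2).2⟩
          simp only [indicator_of_mem a1, indicator_of_mem a3]
          rw [← ENNReal.ofReal_mul (by norm_num), mul_comm]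
          exact ENNReal.ofReal_le_ofReal (mul_le_mul_of_nonneg_left
            ((hb a2).1 _ (ball_subset_closedBall a1)).le (ϑ0 _))
        · rw [mem_ball_iff_norm', not_lt] at a2
          simp only [CON.sc_zero r1 e0 (e1.trans_le a2), ENNReal.ofReal_zero, mul_zero, zero_le]
      · simp only [indicator_of_notMem a1, zero_mul, zero_le]
    have fin := (ENNReal.ofReal_le_ofReal_iff'.1 (lo.trans up)).resolve_right
      (not_le.2 (half_pos v0))
    have h9 : b.c * (V - fi H p z r φ e s) ≤ b.c * (v / 2 / (b.c + 1)) :=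
      mul_le_mul_of_nonneg_left (by linarith) b.c0
    have h10 : b.c * (v / 2 / (b.c + 1)) < v / 2 := by
      rw [← mul_div_assoc, div_lt_iff₀ c1]
      nlinarith
    linarith

end Pool.Agent.Lib.RB9
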