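import Pool.Agent.Lib.RB9.Blue
import Pool.Agent.Lib.FI.B_CON
import Pool.Agent.Lib.FI.B_CNV
import Pool.Agent.Lib.FI.B_SMO

/-! Project rb9, row GLO: integrability over all balls. -/

open scoped Classical Topology ContDiff ComplexOrder Matrix ENNReal
open Set MeasureTheory Complex Metric Filter

noncomputable section

namespace Pool.Agent.Lib.RB9

open Pool.Agent.Lib.SV (E nsq)
open Pool.Agent.Lib.HS32 Pool.Agent.Lib.FI Pool.Agent.Lib.KH

namespace GLO

theorem ton {k : ℕ} {X : Type} [MeasurableSpace X] (μ : Measure X) [SFinite μ] {z : X → E k}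
    {a b : X → ℝ} {κ : E k → ℝ} (zm : AEMeasurable z μ) (am : AEMeasurable a μ)
    (bm : AEMeasurable b μ) (h0 : ∀ᵐ x ∂μ, 0 ≤ a x * b x) (t : Tst κ) (k0 : ∀ w, 0 ≤ κ w)
    (k1 : ∫ w, κ w = 1) {K : Set (E k)} {T : Set X} (hT : MeasurableSet T)
    (h : ∀ x ∈ T, ∀ y, κ (y - z x) ≠ 0 → y ∈ K)
    (ib : ∀ y, Integrable (fun x => a x * κ (y - z x) * b x) μ)
    (iK : IntegrableOn (fun y => ∫ x, a x * κ (y - z x) * b x ∂μ) K) :
    ∫⁻ x in T, ENNReal.ofReal (a x * b x) ∂μ ≤
      ENNReal.ofReal (∫ y in K, ∫ x, a x * κ (y - z x) * b x ∂μ) := by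
  have n0 : ∀ y, 0 ≤ᵐ[μ] fun x => a x * κ (y - z x) * b x := fun y => h0.mono fun x hx => by
    beta_reduce
    rw [mul_right_comm]
    exact mul_nonneg hx (k0 _)
  have m : AEMeasurable (Function.uncurry fun y x => ENNReal.ofReal (a x * κ (y - z x) * b x))
      ((volume.restrict K).prod μ) :=
    ((am.comp_snd.mul (t.sm.continuous.measurable.comp_aemeasurable
      (measurable_fst.aemeasurable.sub zm.comp_snd))).mul bm.comp_snd).ennreal_ofReal
  rw [ofReal_integral_eq_lintegral_ofReal iK (.of_forall fun y => integral_nonneg_of_ae (n0 y)),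
    lintegral_congr fun y => ofReal_integral_eq_lintegral_ofReal (ib y) (n0 y),
    lintegral_lintegral_swap m]
  refine le_trans (lintegral_mono_ae ?_) (setLIntegral_le_lintegral T _)
  filter_upwards [ae_restrict_mem hT, ae_restrict_of_ae h0] with x hx x0
  rw [setLIntegral_eq_of_support_subset fun y hy => h x hx y fun c => hy (by simp [c]),
    lintegral_congr fun y => by rw [mul_right_comm, ENNReal.ofReal_mul x0],
    lintegral_const_mul' _ _ ENNReal.ofReal_ne_top, ← ofReal_integral_eq_lintegral_ofReal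
      ((t.sm.continuous.integrable_of_hasCompactSupport t.cs).comp_sub_right _)
      (.of_forall fun y => k0 _), integral_sub_right_eq_self κ, k1, ENNReal.ofReal_one, mul_one]

end GLO

theorem bGLO (hPSM : St_PSM) (hUPS : FI.St_UPS) (_hSMO : FI.St_SMO) (hITG : FI.St_ITG)
    (hBAS : FI.St_BAS) : St_GLO := by
  intro n k M _ H p z C V r Ψ s₀ ε ⟨hF, hV, hR, hJ, _⟩ ε0 hI R
  have := (mMU n M H hF.kae.toMet).2.1
  obtain ⟨hO, zc, -⟩ := hBAS n k M H p z C hF
  have dc := (CON.co_det hBAS hF).1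
  have d0 : ∀ x, 0 < p x → 0 ≤ dn H z x := fun x hx => ((hJ.pos x).1 hx).2.le
  have pc := hF.sp.continuous
  have lc : ∀ {d : ℝ}, 0 < d → Continuous fun x => Real.log (p x + d) := fun h =>
    (pc.add continuous_const).log fun x => (add_pos_of_nonneg_of_pos (hF.p0 x) h).ne'
  obtain ⟨v, c, U, hv, c0, hU, sU, mU, -⟩ := hUPS n k M H p z C V r Ψ p hF hV hR hJ
  obtain ⟨e, e0, he⟩ : ∃ e : ℝ, 0 < e ∧ ε = 2 * e := ⟨ε / 2, by positivity, by ring⟩
  have t := CON.tst_sc hR.tr e0
  have k0 := CON.sc_nn hR.r0 e0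
  have kz : ∀ {w}, e < ‖w‖ → sc r e w = 0 := CON.sc_zero (fun y a => (hR.sr y a).1) e0
  have iR : ∀ {φ : M.X → ℝ} (y : E k), Continuous φ →
      Integrable (fun x => φ x * sc r e (y - z x) * dn H z x) ((M.mu H).restrict {x | 0 < p x}) :=
    fun {φ} y hφ => by
      have t' := CON.tst_sub t y
      refine ((hITG n k M H p z C (fun x => φ x) (fun w => (sc r e (y - w) : ℂ)) hF (by fun_prop)
        (continuous_ofReal.comp t'.sm.continuous)
        (t'.cs.comp_left (g := fun t : ℝ => (t : ℂ)) rfl)).1).re.congr (.of_forall fun x => ?_)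
      simp only [← ofReal_mul, RCLike.re_to_complex, ofReal_re]
  obtain ⟨Q, hQ⟩ := t.sm.continuous.bounded_above_of_compact_support t.cs
  obtain ⟨I, eI⟩ : ∃ I, I = ∫⁻ x in {x | 0 < p x ∧ z x ∈ ball s₀ ε},
    ENNReal.ofReal (-Real.log (p x) * dn H z x) ∂M.mu H := ⟨_, rfl⟩
  rw [← eI] at hI
  have oB : IsOpen {x | 0 < p x ∧ z x ∈ ball s₀ ε} := zc.isOpen_inter_preimage hO isOpen_ball
  have lo : ∀ d, 0 < d → ∀ y ∈ ball s₀ e, -(ENNReal.ofReal Q * I).toReal ≤
      fi H p z r (fun x => Real.log (p x + d)) e y := fun d hd y hy => by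
    rw [fi, integral_eq_lintegral_pos_part_sub_lintegral_neg_part (iR y (lc hd))]
    refine (neg_le_neg (ENNReal.toReal_mono (ENNReal.mul_ne_top ENNReal.ofReal_ne_top hI) ?_)).trans
      (le_sub_iff_add_le.2 ((neg_add_cancel _).trans_le ENNReal.toReal_nonneg))
    rw [eI, ← lintegral_const_mul' _ _ ENNReal.ofReal_ne_top, ← lintegral_indicator oB.measurableSet,
      ← lintegral_indicator hO.measurableSet]
    refine lintegral_mono fun x => ?_
    by_cases hx : 0 < p x
    · rw [indicator_of_mem (s := {x | 0 < p x}) hx]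
      by_cases hb : z x ∈ ball s₀ ε
      · rw [indicator_of_mem (s := {x | 0 < p x ∧ z x ∈ ball s₀ ε}) ⟨hx, hb⟩]
        refine le_trans ?_ (mul_le_mul_left (ENNReal.ofReal_le_ofReal
          ((le_abs_self _).trans (hQ (y - z x)))) _)
        rw [← ENNReal.ofReal_mul (k0 _)]
        refine ENNReal.ofReal_le_ofReal ?_
        have := mul_le_mul_of_nonneg_right (Real.log_le_log hx (le_add_of_nonneg_right hd.le))
          (mul_nonneg (k0 (y - z x)) (d0 x hx))
        linarith
      · rw [kz (by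
          have h1 := dist_triangle (z x) y s₀
          rw [dist_comm (z x) y, dist_eq_norm y] at h1
          rw [mem_ball] at hb hy
          linarith)]
        simp
    · rw [indicator_of_notMem (s := {x | 0 < p x}) hx]
      exact bot_le
  obtain ⟨Bv, hBv⟩ := (isCompact_closedBall s₀ e).exists_bound_of_continuousOn
    (hv.sm e e0).1.continuous.continuousOn
  obtain ⟨A, A0, hA⟩ : ∃ A : ℝ, 0 ≤ A ∧ ∀ d, 0 < d → -A ≤ ∫ y in ball s₀ e, U d e y := by
    refine ⟨((ENNReal.ofReal Q * I).toReal + c * |Bv|) * volume.real (ball s₀ e), by positivity,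
      fun d hd => ?_⟩
    rw [← neg_mul]
    refine setIntegral_ge_of_const_le_real measurableSet_ball measure_ball_lt_top.ne (fun y hy => ?_)
      (((sU d e hd e0).1.continuous.continuousOn.integrableOn_compact
        (isCompact_closedBall s₀ e)).mono_set ball_subset_closedBall)
    have := mul_le_mul_of_nonneg_left (abs_le.1 ((hBv y (ball_subset_closedBall hy)).trans
      (le_abs_self Bv))).1 c0
    rw [hU]
    linarith [lo d hd y hy]
  obtain ⟨R', hR'⟩ : ∃ R', R' = k * (|R| + 1 + e) ^ 2 := ⟨_, rfl⟩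
  have cK : IsCompact {y : E k | nsq y ≤ R'} :=
    (isCompact_closedBall 0 (|R'| + 1)).of_isClosed_subset (isClosed_le CNV.cont_nsq continuous_const)
      fun y hy => mem_closedBall_zero_iff.2 (CNV.le_nsq hy)
  obtain ⟨c', ρ, -, hP⟩ := hPSM k s₀ e R' e0
  obtain ⟨B, hB⟩ := (isCompact_closedBall s₀ ρ).exists_bound_of_continuousOn
    (sU 1 e one_pos e0).1.continuous.continuousOn
  have mT : MeasurableSet {x | 0 < p x ∧ nsq (z x) ≤ R} := by
    have o := (CNV.cont_nsq.comp_continuousOn zc).isOpen_inter_preimage hO (isOpen_Ioi (a := R))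
    refine (congrArg MeasurableSet (Set.ext fun y => ?_)).mp (hO.measurableSet.diff o.measurableSet)
    exact ⟨fun h => ⟨h.1, le_of_not_gt (b := R) fun k => h.2 ⟨h.1, k⟩⟩,
      fun h => ⟨h.1, fun k => lt_irrefl R (lt_of_lt_of_le k.2 h.2)⟩⟩
  have sT : {x | 0 < p x ∧ nsq (z x) ≤ R} ⊆ {x | 0 < p x} := fun x hx => hx.1
  have key : ∀ d ∈ Ioc (0 : ℝ) 1, ∫⁻ x in {x | 0 < p x ∧ nsq (z x) ≤ R}, ENNReal.ofReal
      ((Real.log (p x + 1) - Real.log (p x + d)) * dn H z x) ∂M.mu H ≤
      ENNReal.ofReal ((∫ y in {y | nsq y ≤ R'}, U 1 e y) + c' * (A + |B|)) := fun d hd => by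
    have gc : Continuous fun x => Real.log (p x + 1) - Real.log (p x + d) :=
      (lc one_pos).sub (lc hd.1)
    have eq : ∀ y, ∫ x in {x | 0 < p x}, (Real.log (p x + 1) - Real.log (p x + d)) *
        sc r e (y - z x) * dn H z x ∂M.mu H = U 1 e y - U d e y := fun y => by
      rw [hU, hU, add_sub_add_right_eq_sub, fi, fi, ← integral_sub (iR y (lc one_pos)) (iR y (lc hd.1))]
      exact integral_congr_ae (.of_forall fun x => by ring)
    have i1 := (sU 1 e one_pos e0).1.continuous.continuousOn.integrableOn_compact (μ := volume) cK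
    have i2 := (sU d e hd.1 e0).1.continuous.continuousOn.integrableOn_compact (μ := volume) cK
    have h1 := GLO.ton ((M.mu H).restrict {x | 0 < p x}) (K := {y | nsq y ≤ R'})
      (zc.aemeasurable hO.measurableSet) gc.measurable.aemeasurable (dc.aemeasurable hO.measurableSet)
      ((ae_restrict_mem hO.measurableSet).mono fun x hx => mul_nonneg (sub_nonneg.2
        (Real.log_le_log (add_pos hx hd.1) (add_le_add_right hd.2 _))) (d0 x hx)) t k0
      ((CON.int_sc r e0).trans hR.one) mT (fun x hx y hy => by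
        have h2 : ‖y - z x‖ ≤ e := le_of_not_gt fun c => hy (kz c)
        have h3 := norm_add_le (y - z x) (z x)
        rw [sub_add_cancel] at h3
        rw [hR']
        exact (CNV.nsq_le y).trans (mul_le_mul_of_nonneg_left (pow_le_pow_left₀ (norm_nonneg _)
          (by linarith [CNV.le_nsq hx.2]) 2) (Nat.cast_nonneg k))) (fun y => iR y gc)
      (by simp only [eq]; exact i1.sub i2)
    rw [Measure.restrict_restrict_of_subset sT] at h1
    refine h1.trans (ENNReal.ofReal_le_ofReal ?_)
    simp only [eq]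
    rw [integral_sub i1 i2]
    have := hP (U d e) A |B| (sU d e hd.1 e0).1 (sU d e hd.1 e0).2 A0 (abs_nonneg _) (fun y hy =>
      (mU d 1 e e y hd.1 hd.2 e0 le_rfl).trans ((le_abs_self _).trans
        ((hB y (ball_subset_closedBall hy)).trans (le_abs_self B)))) (hA d hd.1)
    linarith
  have dm := (dc.mono sT).aemeasurable (μ := M.mu H) mT
  have j1 : IntegrableOn (fun x => (Real.log (p x + 1) - Real.log (p x)) * dn H z x)
      {x | 0 < p x ∧ nsq (z x) ≤ R} (M.mu H) := by
    refine ⟨((((lc one_pos).measurable.sub pc.measurable.log).aemeasurable).mul dm).aestronglyMeasurable,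
      (hasFiniteIntegral_iff_ofReal ((ae_restrict_mem mT).mono fun x hx => mul_nonneg (sub_nonneg.2
        (Real.log_le_log hx.1 (le_add_of_nonneg_right zero_le_one))) (d0 x hx.1))).2 ?_⟩
    refine lt_of_le_of_lt (le_trans (le_of_eq (lintegral_congr_ae ((ae_restrict_mem mT).mono
      fun x hx => ?_))) ((lintegral_liminf_le' (u := 𝓝[>] (0 : ℝ)) (f := fun d x => ENNReal.ofReal
        ((Real.log (p x + 1) - Real.log (p x + d)) * dn H z x)) fun d =>
      ((((lc one_pos).measurable.sub (pc.measurable.add_const d).log).aemeasurable).mul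
        dm).ennreal_ofReal).trans (liminf_le_of_frequently_le'
          (Eventually.frequently (mem_of_superset (Ioc_mem_nhdsGT one_pos) key)))))
      ENNReal.ofReal_lt_top
    refine (Tendsto.liminf_eq (ENNReal.tendsto_ofReal ?_)).symm
    have h4 : ContinuousAt (fun d : ℝ => (Real.log (p x + 1) - Real.log (p x + d)) * dn H z x) 0 :=
      (continuousAt_const.sub ((continuousAt_const.add continuousAt_id).log
        (by simpa using hx.1.ne'))).mul continuousAt_const
    simpa only [add_zero] using h4.tendsto.mono_left nhdsWithin_le_nhds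
  obtain ⟨θ, θ1, θ2, θ3⟩ := SMO.bump (k := k) R
  have j2 : IntegrableOn (fun x => Real.log (p x + 1) * dn H z x)
      {x | 0 < p x ∧ nsq (z x) ≤ R} (M.mu H) := by
    refine (((hITG n k M H p z C (fun x => (Real.log (p x + 1) : ℝ)) θ hF
      (continuous_ofReal.comp (lc one_pos)) θ1 θ2).1.mono_set sT).re).congr
      ((ae_restrict_mem mT).mono fun x hx => ?_)
    simp only [θ3 _ hx.2, mul_one, ← ofReal_mul, RCLike.re_to_complex, ofReal_re]
  exact (j2.sub j1).congr (.of_forall fun x => by simp only [Pi.sub_apply]; ring)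

end Pool.Agent.Lib.RB9
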