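import Pool.Agent.Lib.RB9.Blue
import Pool.Agent.Lib.FI.B_CON

/-! Project rb9, row HB: the mean of `-log p` over the sheets. -/

open scoped Classical Topology ContDiff ComplexOrder Matrix ENNReal
open Set MeasureTheory Complex Metric Filter

noncomputable section

namespace Pool.Agent.Lib.RB9

open Pool.Agent.Lib.SV (E nsq)
open Pool.Agent.Lib.HS32 Pool.Agent.Lib.FI Pool.Agent.Lib.KH

namespace HB

/-- A bound for the smoothed integrals bounds the integral over the slice. -/
theorem slice {g k : ℕ} {Y : Set (E g)} (hY : MeasurableSet Y) {S : Set (E k)} (hS : IsOpen S)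
    {f : E g × E k → ℝ} (hf : ContinuousOn f (Y ×ˢ S)) {r Ψ : E k → ℝ} (h : Rad r Ψ) {s : E k}
    (hs : s ∈ S) {A : ℝ≥0∞} (hA : ∀ e ∈ Ioc (0 : ℝ) 1,
      ∫⁻ w in Y ×ˢ S, ENNReal.ofReal (sc r e (s - w.2) * f w) ≤ A) :
    ∫⁻ y in Y, ENNReal.ofReal (f (y, s)) ≤ A := by
  have hm : ∀ s' ∈ S, AEMeasurable (fun y => ENNReal.ofReal (f (y, s'))) (volume.restrict Y) :=
    fun s' h' => ((hf.comp (Continuous.prodMk_left s').continuousOn
      fun y hy => ⟨hy, h'⟩).aemeasurable hY).ennreal_ofReal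
  refine le_of_forall_lt_imp_le_of_dense fun t ht => ?_
  have F := lintegral_liminf_le' (μ := volume.restrict Y) (u := 𝓝 (⟨s, hs⟩ : S))
    fun s' : S => hm s' s'.2
  have F' : ∫⁻ y in Y, ENNReal.ofReal (f (y, s)) ≤ _ := le_trans (le_of_eq
    (setLIntegral_congr_fun hY (g := fun y => liminf (fun s' : S => ENNReal.ofReal (f (y, s')))
      (𝓝 ⟨s, hs⟩)) fun y hy => (Tendsto.liminf_eq
      ((ENNReal.continuous_ofReal.comp (hf.comp_continuous
        ((Continuous.prodMk_right y).comp continuous_subtype_val)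
        fun s' => ⟨hy, s'.2⟩)).tendsto (⟨s, hs⟩ : S))).symm)) F
  obtain ⟨δ, d0, hd⟩ := Metric.eventually_nhds_iff.1 (eventually_lt_of_lt_liminf (ht.trans_le F'))
  obtain ⟨δ', d0', hd'⟩ := Metric.isOpen_iff.1 hS s hs
  obtain ⟨e, e0, e1, e2, e3⟩ : ∃ e : ℝ, 0 < e ∧ e ≤ 1 ∧ e < δ ∧ e < δ' :=
    ⟨min 1 (min δ δ') / 2, by positivity, by linarith [min_le_left 1 (min δ δ')],
      by linarith [min_le_right 1 (min δ δ'), min_le_left δ δ'],
      by linarith [min_le_right 1 (min δ δ'), min_le_right δ δ']⟩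
  refine le_trans ?_ (hA e ⟨e0, e1⟩)
  have T := CON.tst_sub (CON.tst_sc h.tr e0) s
  have o : ∫⁻ s', ENNReal.ofReal (sc r e (s - s')) = 1 := by
    rw [← ofReal_integral_eq_lintegral_ofReal
      (T.sm.continuous.integrable_of_hasCompactSupport T.cs)
      (Eventually.of_forall fun y => CON.sc_nn h.r0 e0 _), integral_sub_left_eq_self (sc r e),
      CON.int_sc r e0, h.one, ENNReal.ofReal_one]
  rw [Measure.volume_eq_prod, ← Measure.prod_restrict, lintegral_prod_symm, ← mul_one t, ← o,
    ← lintegral_const_mul _ T.sm.continuous.measurable.ennreal_ofReal,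
    ← lintegral_indicator hS.measurableSet]
  · refine lintegral_mono fun s' => ?_
    by_cases c : e < ‖s - s'‖
    · simp [CON.sc_zero (fun y hy => (h.sr y hy).1) e0 c]
    rw [not_lt, ← dist_eq_norm, dist_comm] at c
    have h' : s' ∈ S := hd' (c.trans_lt e3)
    simp only [indicator_of_mem h', ENNReal.ofReal_mul (CON.sc_nn h.r0 e0 _)]
    rw [lintegral_const_mul'' _ (hm s' h'), mul_comm]
    exact mul_le_mul_right (hd (y := ⟨s', h'⟩) (c.trans_lt e2)).le _
  · rw [Measure.prod_restrict]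
    exact (((T.sm.continuous.comp continuous_snd).continuousOn.mul hf).aemeasurable
      (hY.prod hS.measurableSet)).ennreal_ofReal

/-- The truncated logarithm. -/
def tl (i : ℕ) (t : ℝ) : ℝ := max 0 (-Real.log (t + 1 / ((i : ℝ) + 1)))

theorem tl_mono {t : ℝ} (ht : 0 ≤ t) : Monotone fun i => tl i t := fun i j hij =>
  max_le_max le_rfl (neg_le_neg (Real.log_le_log (by positivity)
    (add_le_add_right (Nat.one_div_le_one_div hij) t)))

theorem le_sup {ι : Type} [Fintype ι] {t : ι → ℝ} (ht : ∀ j, 0 ≤ t j) {a : ℝ} (ha : 0 ≤ a) :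
    ENNReal.ofReal a * ∑ j, ENNReal.ofReal (-Real.log (t j)) ≤
      ⨆ i, ENNReal.ofReal (a * ∑ j, tl i (t j)) := by
  simp only [ENNReal.ofReal_mul ha, ← ENNReal.mul_iSup]
  refine mul_le_mul_right ?_ _
  have e : ∀ i, ENNReal.ofReal (∑ j, tl i (t j)) = ∑ j, ENNReal.ofReal (tl i (t j)) := fun i =>
    ENNReal.ofReal_sum_of_nonneg fun j _ => le_max_left _ _
  simp only [e]
  rw [← ENNReal.finsetSum_iSup_of_monotone
    fun j i i' h => ENNReal.ofReal_le_ofReal (tl_mono (ht j) h)]
  refine Finset.sum_le_sum fun j _ => ?_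
  rcases (ht j).eq_or_lt with h | h
  · simp [← h]
  have T : Tendsto (fun i : ℕ => ENNReal.ofReal (-Real.log (t j + 1 / ((i : ℝ) + 1)))) atTop
      (𝓝 (ENNReal.ofReal (-Real.log (t j + 0)))) :=
    ENNReal.tendsto_ofReal ((tendsto_const_nhds.add
      tendsto_one_div_add_atTop_nhds_zero_nat).log (by simpa using h.ne')).neg
  rw [add_zero] at T
  exact le_of_tendsto' T fun i =>
    le_iSup_of_le i (ENNReal.ofReal_le_ofReal (le_max_right _ _))

end HB

open HB in
theorem bHB : St_HB := by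
  intro n k M _ H p z C V r Ψ D U c₁ c₂ S b hC hU hD hS
  have p0 := hC.fb.p0
  have hc : ∀ i, Continuous fun x => tl i (p x) := fun i => continuous_const.max
    ((hC.fb.sp.continuous.add continuous_const).log fun x =>
      (add_pos_of_nonneg_of_pos (p0 x) Nat.one_div_pos_of_nat).ne').neg
  have U0 : ∀ e ∈ Ioc (0 : ℝ) 1, ∀ s, U e s ≤ 0 := fun e he s =>
    (hU.mono e 1 s he.1 he.2).trans ((hU.up s).trans (neg_nonpos.2 (Real.log_nonneg
      (le_add_of_nonneg_right (Finset.sum_nonneg fun _ _ => normSq_nonneg _)))))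
  have key : ∀ i, ∀ e ∈ Ioc (0 : ℝ) 1, ∀ s A, A ≤ U e s → ∫⁻ w in ball b.y0 b.R ×ˢ S,
      ENNReal.ofReal (sc r e (s - w.2) * ∑ j, tl i (p (b.a w.1 w.2 j))) ≤
      ENNReal.ofReal (b.c * (c₂ + 1) * (1 - A)) := fun i e he s A hA => by
    refine (b.up _ (fun s' => sc r e (s - s')) (hc i) (fun x => le_max_left _ _)
      (CON.tst_sub (CON.tst_sc hC.rad.tr he.1) s).sm.continuous
      fun _ => CON.sc_nn hC.rad.r0 he.1 _).trans ?_
    rw [mul_assoc, ENNReal.ofReal_mul b.c0]
    refine mul_le_mul_right (le_trans (setLIntegral_mono' ?_ fun x hx => ?_)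
      ((hD.fib e he s).trans (ENNReal.ofReal_le_ofReal ?_))) _
    · exact (isOpen_lt continuous_const hC.fb.sp.continuous).measurableSet
    · have s0 := CON.sc_nn hC.rad.r0 he.1 (s - z x)
      rcases le_total 0 (dn H z x) with d0 | d0
      · rcases le_total 0 (-Real.log (p x + 1 / ((i : ℝ) + 1))) with c | c
        · refine ENNReal.ofReal_le_ofReal (mul_le_mul_of_nonneg_right
            (mul_le_mul_of_nonneg_left ?_ s0) d0)
          exact (max_eq_right c).trans_le (neg_le_neg (Real.log_le_log hx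
            (le_add_of_nonneg_right (by positivity))))
        · rw [tl, max_eq_left c, mul_zero, zero_mul, ENNReal.ofReal_zero]
          exact zero_le
      · exact (ENNReal.ofReal_of_nonpos (mul_nonpos_of_nonneg_of_nonpos
          (mul_nonneg s0 (le_max_left _ _)) d0)).trans_le zero_le
    · nlinarith [U0 e he s, hD.c0, mul_nonneg hD.c0 (neg_nonneg.2 (hA.trans (U0 e he s)))]
  have hm : MeasurableSet (ball b.y0 b.R ×ˢ S) := measurableSet_ball.prod hS.measurableSet
  refine ⟨b.c * (c₂ + 1), mul_nonneg b.c0 (by linarith [hD.c0]), fun s hs A hA => ?_,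
    fun e he s => ?_⟩
  · refine le_trans (lintegral_mono fun y => (one_mul _).symm.trans_le (ENNReal.ofReal_one ▸
      le_sup (fun j => p0 (b.a y s j)) zero_le_one)) ?_
    simp only [one_mul]
    refine (lintegral_iSup' (fun i => (((b.con _ (hc i)).comp
      (Continuous.prodMk_left s).continuousOn
      fun y hy => ⟨hy, hs⟩).aemeasurable measurableSet_ball).ennreal_ofReal)
      (Eventually.of_forall fun y i i' h => ENNReal.ofReal_le_ofReal
        (Finset.sum_le_sum fun j _ => tl_mono (p0 _) h))).trans_le ?_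
    exact iSup_le fun i => slice measurableSet_ball hS (b.con _ (hc i)) hC.rad hs
      fun e he => key i e he s A (hA e he.1)
  · have s0 := CON.sc_nn hC.rad.r0 he.1
    refine le_trans (lintegral_mono fun w => le_sup (fun j => p0 (b.a w.1 w.2 j)) (s0 _)) ?_
    refine (lintegral_iSup' (fun i => ((((CON.tst_sub (CON.tst_sc hC.rad.tr he.1)
      s).sm.continuous.comp
      continuous_snd).continuousOn.mul (b.con _ (hc i))).aemeasurable hm).ennreal_ofReal)
      (Eventually.of_forall fun y i i' h => ENNReal.ofReal_le_ofReal (mul_le_mul_of_nonneg_left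
        (Finset.sum_le_sum fun j _ => tl_mono (p0 _) h) (s0 _)))).trans_le ?_
    exact iSup_le fun i => key i e he s _ le_rfl

end Pool.Agent.Lib.RB9
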