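import Pool.Agent.Lib.RB9.Blue
import Pool.Agent.Lib.SV.B_SUB
import Pool.Agent.Lib.SV.B_ZER

/-! Row LI: the logarithm of the modulus of a holomorphic function is locally integrable. -/

open scoped Topology ENNReal
open Set MeasureTheory Metric Filter

noncomputable section

namespace Pool.Agent.Lib.RB9

open Pool.Agent.Lib.SV (E nsq)

namespace LI

variable {F : Type} [NormedAddCommGroup F] [NormedSpace ℂ F] [FiniteDimensional ℂ F]
  [MeasurableSpace F] [BorelSpace F] (μ : Measure F) [μ.IsAddHaarMeasure]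

theorem one_sub {g : F → ℂ} {p : F} {r e : ℝ} (hr : 0 < r) (he : 0 < e)
    (hg : DifferentiableOn ℂ g (ball p r)) (h1 : ∀ w ∈ ball p r, ‖g w‖ ≤ 1) :
    ∫⁻ w in ball p r, ENNReal.ofReal (1 - ‖g w‖ ^ e) ∂μ ≤
      ENNReal.ofReal (1 - ‖g p‖ ^ e) * μ (ball p r) := by
  have hs := SV.stSUB F μ g p r e hr he hg
  have hadd : ∀ w ∈ ball p r,
      ENNReal.ofReal (1 - ‖g w‖ ^ e) + ENNReal.ofReal (‖g w‖ ^ e) = 1 := fun w hw => by
    rw [← ENNReal.ofReal_add (sub_nonneg.2 (Real.rpow_le_one (norm_nonneg _) (h1 w hw) he.le))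
      (by positivity), sub_add_cancel, ENNReal.ofReal_one]
  have hm : AEMeasurable (fun w => ENNReal.ofReal (‖g w‖ ^ e)) (μ.restrict (ball p r)) :=
    ((hg.continuousOn.aemeasurable measurableSet_ball).norm.pow_const e).ennreal_ofReal
  have hfin : μ (ball p r) ≠ ⊤ := by
    have : ProperSpace F := FiniteDimensional.proper ℂ F
    exact measure_ball_lt_top.ne
  have hsum : ∫⁻ w in ball p r, ENNReal.ofReal (1 - ‖g w‖ ^ e) ∂μ +
      ∫⁻ w in ball p r, ENNReal.ofReal (‖g w‖ ^ e) ∂μ = μ (ball p r) := by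
    rw [← lintegral_add_right' _ hm, setLIntegral_congr_fun measurableSet_ball hadd]
    simp
  refine (ENNReal.add_le_add_iff_right (a := ENNReal.ofReal (‖g p‖ ^ e) * μ (ball p r))
    (ENNReal.mul_ne_top ENNReal.ofReal_ne_top hfin)).1 ?_
  rw [← add_mul, hadd p (mem_ball_self hr), one_mul]
  exact (add_le_add le_rfl hs).trans hsum.le

theorem small {g : F → ℂ} {p : F} {r : ℝ} (hr : 0 < r) (hg : DifferentiableOn ℂ g (ball p r))
    (h1 : ∀ w ∈ ball p r, ‖g w‖ ≤ 1) (hp : g p ≠ 0) :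
    ∫⁻ w in ball p r, ENNReal.ofReal (-Real.log ‖g w‖) ∂μ ≤
      ENNReal.ofReal (-Real.log ‖g p‖) * μ (ball p r) := by
  have hm : ∀ e : ℝ, AEMeasurable (fun w => ENNReal.ofReal (e⁻¹ * (1 - ‖g w‖ ^ e)))
      (μ.restrict (ball p r)) := fun e =>
    ((((hg.continuousOn.aemeasurable measurableSet_ball).norm.pow_const e).const_sub 1).const_mul
      e⁻¹).ennreal_ofReal
  calc ∫⁻ w in ball p r, ENNReal.ofReal (-Real.log ‖g w‖) ∂μ
      ≤ ∫⁻ w in ball p r,
          liminf (fun e : ℝ => ENNReal.ofReal (e⁻¹ * (1 - ‖g w‖ ^ e))) (𝓝[>] 0) ∂μ := by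
        refine lintegral_mono fun w => ?_
        by_cases hw : g w = 0
        · simp [hw]
        · have ht := ENNReal.tendsto_ofReal (tendsto_rpow_sub_one_log (norm_pos_iff.2 hw)).neg
          have he : (fun e : ℝ => ENNReal.ofReal (e⁻¹ * (1 - ‖g w‖ ^ e))) =
              fun e : ℝ => ENNReal.ofReal (-(e⁻¹ * (‖g w‖ ^ e - 1))) := by
            funext e
            rw [← mul_neg, neg_sub]
          simp only []
          rw [he, ht.liminf_eq]
    _ ≤ liminf (fun e : ℝ => ∫⁻ w in ball p r, ENNReal.ofReal (e⁻¹ * (1 - ‖g w‖ ^ e)) ∂μ)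
          (𝓝[>] 0) := lintegral_liminf_le' hm
    _ ≤ _ := by
        refine liminf_le_of_frequently_le' (Eventually.frequently ?_)
        filter_upwards [self_mem_nhdsWithin] with e he
        have he0 : (0 : ℝ) < e := he
        have hi : 0 ≤ e⁻¹ := (inv_pos.2 he0).le
        simp only [ENNReal.ofReal_mul hi]
        rw [lintegral_const_mul' _ _ ENNReal.ofReal_ne_top]
        refine (mul_le_mul' le_rfl (one_sub μ hr he0 hg h1)).trans ?_
        rw [← mul_assoc, ← ENNReal.ofReal_mul hi]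
        refine mul_le_mul' (ENNReal.ofReal_le_ofReal ?_) le_rfl
        have hx := norm_pos_iff.2 hp
        have := Real.add_one_le_exp (Real.log ‖g p‖ * e)
        rw [← Real.rpow_def_of_pos hx] at this
        rw [inv_mul_le_iff₀ he0]
        linarith

theorem core {f : F → ℂ} {p : F} {r C : ℝ} (hr : 0 < r) (hf : DifferentiableOn ℂ f (ball p r))
    (hC : ∀ w ∈ ball p r, ‖f w‖ ≤ C) (hp : f p ≠ 0) :
    ∫⁻ w in ball p r, ENNReal.ofReal (-Real.log ‖f w‖) ∂μ ≠ ⊤ := by
  have hfin : μ (ball p r) ≠ ⊤ := by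
    have : ProperSpace F := FiniteDimensional.proper ℂ F
    exact measure_ball_lt_top.ne
  obtain ⟨c, hc1, hc⟩ : ∃ c : ℝ, 1 ≤ c ∧ C ≤ c := ⟨max 1 C, le_max_left _ _, le_max_right _ _⟩
  have hc0 : 0 < c := one_pos.trans_le hc1
  have hn : ∀ w, ‖f w / (c : ℂ)‖ = ‖f w‖ / c := fun w => by
    rw [norm_div, Complex.norm_real, Real.norm_of_nonneg hc0.le]
  have h := small μ (g := fun w => f w / (c : ℂ)) hr
    (by simpa only [div_eq_mul_inv] using hf.mul_const _)
    (fun w hw => by rw [hn, div_le_one hc0]; exact (hC w hw).trans hc)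
    (div_ne_zero hp (Complex.ofReal_ne_zero.2 hc0.ne'))
  refine ne_top_of_le_ne_top (ENNReal.mul_ne_top ENNReal.ofReal_ne_top hfin)
    (le_trans (lintegral_mono fun w => ENNReal.ofReal_le_ofReal ?_) h)
  by_cases hw : f w = 0
  · simp [hw]
  · rw [hn, Real.log_div (norm_ne_zero_iff.2 hw) hc0.ne']
    linarith [Real.log_nonneg hc1]

end LI

theorem bLI : St_LI := by
  intro g k y₀ R G f s₀ hG hs hf ⟨y₁, hy₁, hne⟩
  have hR : 0 < R := pos_of_mem_ball hy₁
  obtain ⟨ρ, hρ, hρG⟩ := Metric.isOpen_iff.1 hG s₀ hs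
  obtain ⟨δ, hδ, hδR, hδρ⟩ : ∃ δ > 0, δ ≤ R / 8 ∧ δ ≤ ρ / 4 :=
    ⟨min (R / 8) (ρ / 4), by positivity, min_le_left _ _, min_le_right _ _⟩
  have hz := SV.stZER SV.stSUB g (fun y => f (y, s₀)) y₀ R
    (hf.comp (by fun_prop) fun y hy => ⟨hy, hs⟩) ⟨y₁, hy₁, hne⟩
  have hK : closedBall y₀ (7 * R / 8) ×ˢ closedBall s₀ (ρ / 2) ⊆ ball y₀ R ×ˢ G :=
    prod_mono (closedBall_subset_ball (by linarith))
      ((closedBall_subset_ball (by linarith)).trans hρG)
  obtain ⟨C, hC⟩ := ((isCompact_closedBall y₀ (7 * R / 8)).prod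
    (isCompact_closedBall s₀ (ρ / 2))).exists_bound_of_continuousOn (hf.continuousOn.mono hK)
  have hloc : ∀ y ∈ closedBall y₀ (R / 2),
      ∫⁻ w in ball y δ ×ˢ ball s₀ δ, ENNReal.ofReal (-Real.log ‖f w‖) ≠ ⊤ := by
    intro y hy
    rw [mem_closedBall] at hy
    obtain ⟨y', hy', hne'⟩ : ∃ y' ∈ ball y δ, f (y', s₀) ≠ 0 := by
      by_contra hcon
      push Not at hcon
      refine (measure_ball_pos volume y hδ).ne' (measure_mono_null (fun w hw => ?_) hz)
      exact ⟨ball_subset_ball' (by linarith) hw, hcon w hw⟩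
    rw [mem_ball] at hy'
    have hsub : ball (y', s₀) (2 * δ) ⊆ closedBall y₀ (7 * R / 8) ×ˢ closedBall s₀ (ρ / 2) := by
      rw [← ball_prod_same]
      refine prod_mono (ball_subset_closedBall.trans (closedBall_subset_closedBall' ?_))
        (ball_subset_closedBall.trans (closedBall_subset_closedBall (by linarith)))
      linarith [dist_triangle y' y y₀]
    have : (volume : Measure (E g × E k)).IsAddHaarMeasure :=
      Measure.prod.instIsAddHaarMeasure _ _
    have h := LI.core (volume : Measure (E g × E k)) (by linarith : 0 < 2 * δ)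
      (hf.mono (hsub.trans hK)) (fun w hw => hC w (hsub hw)) hne'
    refine ne_top_of_le_ne_top h (lintegral_mono_set ?_)
    rw [← ball_prod_same]
    refine prod_mono (ball_subset_ball' ?_) (ball_subset_ball (by linarith))
    rw [dist_comm]
    linarith
  obtain ⟨t, ht, hcov⟩ := (isCompact_closedBall y₀ (R / 2)).elim_nhds_subcover
    (fun y => ball y δ) fun y _ => ball_mem_nhds y hδ
  refine ⟨δ, hδ, (ball_subset_ball (by linarith)).trans hρG, ?_⟩
  have hU : ball y₀ (R / 2) ×ˢ ball s₀ δ ⊆ ⋃ y : t, ball (y : E g) δ ×ˢ ball s₀ δ := by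
    rintro ⟨y, s⟩ ⟨hy, hs'⟩
    obtain ⟨y', hy', h⟩ := mem_iUnion₂.1 (hcov (ball_subset_closedBall hy))
    exact mem_iUnion.2 ⟨⟨y', hy'⟩, h, hs'⟩
  refine ne_top_of_le_ne_top ?_ ((lintegral_mono_set hU).trans (lintegral_iUnion_le _ _))
  rw [tsum_fintype]
  exact ENNReal.sum_ne_top.2 fun y _ => hloc y (ht y y.2)

end Pool.Agent.Lib.RB9
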