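import Pool.Agent.Lib.RB9.Blue
import Pool.Agent.Lib.SV.B_ZER
import Pool.Agent.Lib.SV.B_SUB

/-! Integrability near one point. -/

open scoped Classical Topology ContDiff ComplexOrder Matrix ENNReal
open Set MeasureTheory Complex Metric Filter

noncomputable section

namespace Pool.Agent.Lib.RB9

open Pool.Agent.Lib.SV (E nsq)
open Pool.Agent.Lib.HS32 Pool.Agent.Lib.HS32.Mf Pool.Agent.Lib.FI

namespace LOG

theorem nul90 {g k : ℕ} {y₀ : E g} {R : ℝ} {G : Set (E k)} {f : E g × E k → ℂ} (hG : IsOpen G)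
    (hf : DifferentiableOn ℂ f (ball y₀ R ×ˢ G)) (h : ∀ s ∈ G, ∃ y ∈ ball y₀ R, f (y, s) ≠ 0) :
    ∀ᵐ w, w ∈ ball y₀ R ×ˢ G → f w ≠ 0 := by
  have o := isOpen_ball (x := y₀) (ε := R) |>.prod hG
  have m : MeasurableSet {w | w ∈ ball y₀ R ×ˢ G → f w ≠ 0} := by
    have : {w | w ∈ ball y₀ R ×ˢ G → f w ≠ 0} = (ball y₀ R ×ˢ G)ᶜ ∪ (ball y₀ R ×ˢ G ∩ f ⁻¹' {0}ᶜ) :=
      Set.ext fun w => ⟨fun a => (em _).elim (fun b => Or.inr ⟨b, a b⟩) Or.inl,
        fun a b => a.elim (fun c => (c b).elim) fun c => c.2⟩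
    rw [this]
    exact o.measurableSet.compl.union
      (hf.continuousOn.isOpen_inter_preimage o isOpen_compl_singleton).measurableSet
  refine (Measure.ae_prod_iff_ae_ae m).2 ((Measure.ae_ae_comm
    (p := fun y s => (y, s) ∈ ball y₀ R ×ˢ G → f (y, s) ≠ 0) m).2 (Eventually.of_forall fun s => ?_))
  by_cases hs : s ∈ G
  · refine measure_mono_null (fun y hy => ?_) (SV.stZER SV.stSUB g (fun y => f (y, s)) y₀ R
      (hf.comp (by fun_prop) fun y hy => ⟨hy, hs⟩) (h s hs))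
    obtain ⟨a, b⟩ := Classical.not_imp.1 hy
    exact ⟨a.1, not_not.1 b⟩
  · exact Eventually.of_forall fun y hy => (hs hy.2).elim

theorem pt90 {N κ : ℕ} {lam q : Fin N → ℂ} {c p P d : ℝ} (hc : 0 ≤ c) (hp : 0 ≤ p) (hP : p ≤ P)
    (hd : 0 < d) (h : ∀ i, normSq (q i) ^ κ ≤ c * p) (hg : ∑ i, lam i * q i ≠ 0) :
    max 0 (-Real.log (p + d)) ≤ Real.log ((∑ i, ‖lam i‖) ^ (2 * κ) * c * (P + 1)) -
      (2 * κ : ℕ) * Real.log ‖∑ i, lam i * q i‖ := by
  obtain ⟨i, -, hi⟩ := Finset.exists_max_image Finset.univ (fun i => ‖q i‖)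
    (Finset.nonempty_of_sum_ne_zero hg)
  have L0 : 0 ≤ ∑ i, ‖lam i‖ := Finset.sum_nonneg fun _ _ => norm_nonneg _
  have a : ‖∑ i, lam i * q i‖ ≤ (∑ i, ‖lam i‖) * ‖q i‖ := (norm_sum_le _ _).trans (by
    rw [Finset.sum_mul]
    exact Finset.sum_le_sum fun l hl => (norm_mul_le _ _).trans
      (mul_le_mul_of_nonneg_left (hi l hl) (norm_nonneg _)))
  have b : ‖∑ i, lam i * q i‖ ^ (2 * κ) ≤ (∑ i, ‖lam i‖) ^ (2 * κ) * c * p := by
    refine (pow_le_pow_left₀ (norm_nonneg _) a _).trans ?_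
    rw [mul_pow, mul_assoc, pow_mul ‖q i‖, ← normSq_eq_norm_sq]
    exact mul_le_mul_of_nonneg_left (h i) (pow_nonneg L0 _)
  have K0 : 0 ≤ (∑ i, ‖lam i‖) ^ (2 * κ) * c := mul_nonneg (pow_nonneg L0 _) hc
  have g0 : 0 < ‖∑ i, lam i * q i‖ ^ (2 * κ) := pow_pos (norm_pos_iff.2 hg) _
  generalize (∑ i, ‖lam i‖) ^ (2 * κ) * c = K at b K0 ⊢
  have b1 : K * p ≤ K * (P + 1) := mul_le_mul_of_nonneg_left (by linarith) K0
  have b2 : K * p ≤ K * (P + 1) * (p + d) := by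
    rw [mul_assoc]
    exact mul_le_mul_of_nonneg_left (by nlinarith) K0
  have e1 := Real.log_le_log g0 (b.trans b1)
  have e2 := Real.log_le_log g0 (b.trans b2)
  rw [Real.log_mul (g0.trans_le (b.trans b1)).ne' (by linarith : 0 < p + d).ne'] at e2
  rw [Real.log_pow] at e1 e2
  exact max_le (by linarith) (by linarith)

theorem box90 {n k : ℕ} {M : Mf n} [M.Cpt] {H : M.Fam (Mat n)} {p : M.X → ℝ} {z : M.X → E k}
    {θ : M.X → ℂ} {T : M.X → ℝ} {S : Set (E k)} {s₀ : E k} {P : ℝ} (hDNS : St_DNS) (hLI : St_LI)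
    (b : Box H p z S) (L : Loc p θ T b.W b.B) (hS : IsOpen S) (hp : ∀ x, 0 ≤ p x)
    (hP : ∀ x, p x ≤ P) (hs : s₀ ∈ b.G) : ∃ ε > 0, ∃ A : ℝ≥0∞, A ≠ ⊤ ∧ ∀ d > 0,
      ∫⁻ w in ball b.y0 (b.R / 2) ×ˢ ball s₀ ε,
        ENNReal.ofReal (∑ j, max 0 (-Real.log (p (b.a w.1 w.2 j) + d))) ≤ A := by
  obtain ⟨h1, h2⟩ := hDNS n k M H p z θ T S b L hp
  obtain ⟨⟨lam, y, hy, h0⟩, -⟩ := h2 s₀ hs
  have hf := (h1 lam).1
  have ev : ∀ᶠ s in 𝓝 s₀, s ∈ S ∧ ∏ j, ∑ i, lam i * L.q i (b.a y s j) ≠ 0 := by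
    refine Eventually.and (hS.mem_nhds hs.1) (ContinuousAt.eventually_ne ?_ h0)
    exact (hf.continuousOn.continuousAt ((isOpen_ball.prod hS).mem_nhds
      (mk_mem_prod hy hs.1))).comp (f := fun s => (y, s)) (by fun_prop)
  obtain ⟨G, hG, oG, sG⟩ := _root_.eventually_nhds_iff.1 ev
  have hf' := hf.mono (prod_mono_right fun s h => (hG s h).1)
  obtain ⟨ε, ε0, hε, hI⟩ := hLI _ k b.y0 b.R G _ s₀ oG sG hf' ⟨y, hy, h0⟩
  have sub : ball b.y0 (b.R / 2) ×ˢ ball s₀ ε ⊆ ball b.y0 b.R ×ˢ G :=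
    prod_mono (ball_subset_ball (half_le_self b.R0.le)) hε
  set K := Real.log ((∑ i, ‖lam i‖) ^ (2 * L.κ) * L.c * (P + 1))
  refine ⟨ε, ε0, _, ?_, fun d hd => lintegral_mono_ae
    (g := fun w : E b.g × E k => ENNReal.ofReal (b.r * K) +
    ENNReal.ofReal (2 * L.κ : ℕ) * ENNReal.ofReal
      (-Real.log ‖∏ j, ∑ i, lam i * L.q i (b.a w.1 w.2 j)‖)) ?_⟩
  · rw [lintegral_add_left measurable_const, lintegral_const_mul' _ _ ENNReal.ofReal_ne_top,
      setLIntegral_const]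
    exact ENNReal.add_ne_top.2 ⟨ENNReal.mul_ne_top ENNReal.ofReal_ne_top
      (isBounded_ball.prod isBounded_ball).measure_lt_top.ne,
      ENNReal.mul_ne_top ENNReal.ofReal_ne_top hI⟩
  · refine (ae_restrict_iff' (measurableSet_ball.prod measurableSet_ball)).2
      ((nul90 oG hf' fun s h => ⟨y, hy, (hG s h).2⟩).mono fun w hw h => ?_)
    have ne := Finset.prod_ne_zero_iff.1 (hw (sub h))
    rw [← ENNReal.ofReal_mul (Nat.cast_nonneg _)]
    refine (ENNReal.ofReal_le_ofReal ?_).trans ENNReal.ofReal_add_le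
    refine (Finset.sum_le_sum fun j hj => pt90 (lam := lam) L.c0 (hp _) (hP _) hd (fun i => L.le i
      (b.a w.1 w.2 j) (b.fib _ (sub h).1 _ (hG _ (sub h).2).1 j).1) (ne j hj)).trans_eq ?_
    rw [Finset.sum_sub_distrib, ← Finset.mul_sum, norm_prod,
      Real.log_prod fun j hj => norm_ne_zero_iff.2 (ne j hj), Finset.sum_const, Finset.card_univ,
      Fintype.card_fin, nsmul_eq_mul]
    ring

end LOG

open LOG in
theorem bLOG (hDNS : St_DNS) (hLI : St_LI) (hBAS : FI.St_BAS) : St_LOG := by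
  intro n k M _ H p z C V r Ψ θ T S c L s₀ X hs hG
  obtain ⟨P, -, hP⟩ := X.fb.sp.exists_bound
  choose ε ε0 A hA hI using fun i => box90 hDNS hLI (c.b i) (L i) c.oV X.fb.p0
    (fun x => (le_abs_self _).trans (hP x)) (hG i)
  obtain ⟨ρ, ρ0, hρ⟩ := Metric.isOpen_iff.1 c.oV s₀ hs
  obtain ⟨e, he, e0, eρ⟩ := ((eventually_all.2 fun i => Ioc_mem_nhdsGT (ε0 i)).and
    (Ioc_mem_nhdsGT ρ0)).exists
  obtain ⟨oO, cz, ch, ps, -⟩ := hBAS n k M H p z C X.fb
  have o : IsOpen {x | 0 < p x ∧ z x ∈ ball s₀ e} := cz.isOpen_inter_preimage oO isOpen_ball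
  have cd : ContinuousOn (dn H z) {x | 0 < p x} := (continuous_re.comp continuous_id.matrix_det).comp_continuousOn
    (continuousOn_pi.2 fun i => continuousOn_pi.2 fun j => ch i j)
  have cφ : ∀ d > 0, Continuous fun x => max 0 (-Real.log (p x + d)) := fun d hd =>
    continuous_const.max ((X.fb.sp.continuous.add continuous_const).log
      fun x => (add_pos_of_nonneg_of_pos (X.fb.p0 x) hd).ne').neg
  have t : Tendsto (fun m : ℕ => 1 / ((m : ℝ) + 1)) atTop (𝓝 0) :=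
    tendsto_one_div_add_atTop_nhds_zero_nat
  refine ⟨e, e0, ne_top_of_le_ne_top (ENNReal.mul_ne_top (ENNReal.ofReal_ne_top (r := c.c))
    (ENNReal.sum_ne_top.2 fun i (_ : i ∈ Finset.univ) => hA i)) ?_⟩
  calc _ ≤ ∫⁻ x in {x | 0 < p x ∧ z x ∈ ball s₀ e}, liminf (fun m : ℕ => ENNReal.ofReal
        (max 0 (-Real.log (p x + 1 / ((m : ℝ) + 1))) * dn H z x)) atTop ∂M.mu H := by
        refine setLIntegral_mono' o.measurableSet fun x hx => ?_
        have d0 : 0 ≤ dn H z x :=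
          (Complex.nonneg_iff.1 (AllOn.ch ps x (by rw [ch_symm]; exact hx.1)).2.1.det_nonneg).1
        have u : Tendsto (fun m : ℕ => Real.log (p x + 1 / ((m : ℝ) + 1))) atTop
            (𝓝 (Real.log (p x + 0))) := (t.const_add _).log (by rw [add_zero]; exact hx.1.ne')
        rw [(ENNReal.tendsto_ofReal ((tendsto_const_nhds.max u.neg).mul_const _)).liminf_eq, add_zero]
        exact ENNReal.ofReal_le_ofReal (mul_le_mul_of_nonneg_right (le_max_right _ _) d0)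
    _ ≤ _ := lintegral_liminf_le' fun m => ENNReal.measurable_ofReal.comp_aemeasurable
        (((cφ _ Nat.one_div_pos_of_nat).continuousOn.mul (cd.mono fun x hx => hx.1)).aemeasurable
          o.measurableSet)
    _ ≤ _ := liminf_le_of_frequently_le' (Frequently.of_forall fun m =>
        (c.lo _ _ (cφ _ Nat.one_div_pos_of_nat) (fun x => le_max_left _ _) isOpen_ball
          ((ball_subset_ball eρ).trans hρ)).trans (mul_le_mul_right (Finset.sum_le_sum fun i _ =>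
            (lintegral_mono_set (prod_mono_right (ball_subset_ball (he i).2))).trans
              (hI i _ Nat.one_div_pos_of_nat)) _))

end Pool.Agent.Lib.RB9
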