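import Pool.Agent.Lib.RB9.Blue
import Pool.Agent.Lib.SV.B_MON
import Pool.Agent.Lib.SV.B_SUB

/-! Project rb9, row MTL: the theorem of Montel on an open set. -/

open scoped Classical Topology ContDiff ComplexOrder Matrix ENNReal
open Set MeasureTheory Complex Metric Filter

noncomputable section

namespace Pool.Agent.Lib.RB9

open Pool.Agent.Lib.SV (E nsq)
open Pool.Agent.Lib.HS32 Pool.Agent.Lib.KH

namespace MTL

variable {n : ℕ} {M : Mf n}

theorem loc [M.Cpt] {H : M.Fam (Mat n)} {O : Set M.X} {ν : Measure M.X} {F : ℕ → M.X → ℂ}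
    {w : M.X → ℝ} {B : ℝ≥0∞} (hH : M.Met H) (hO : IsOpen O)
    (hν : ∀ x ∈ O, ∃ c : ℝ≥0∞, c ≠ ⊤ ∧ ∃ N ∈ 𝓝 x, (M.mu H).restrict N ≤ c • ν)
    (hw : ContinuousOn w O) (w0 : ∀ x ∈ O, 0 < w x) (hB : B ≠ ⊤) (hF : ∀ i, HoK M O (F i))
    (hi : ∀ i, ∫⁻ x in O, ENNReal.ofReal (normSq (F i x) * w x) ∂ν ≤ B) {e : M.Ch}
    (he : e ∈ M.C) {z : E n} (hz : z ∈ e.target) (ho : e.symm z ∈ O) :
    ∃ r > (0 : ℝ), ∃ A : ℝ, (∀ v ∈ ball z r, e.symm v ∈ O) ∧ ∀ k,
      DifferentiableOn ℂ (F k ∘ e.symm) (ball z r) ∧ ∀ v ∈ ball z r, ‖(F k ∘ e.symm) v‖ ≤ A := by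
  obtain ⟨c, c1, N, n1, n2⟩ := hν _ ho
  have cs := e.continuousAt_symm hz
  have a0 : 0 < (H e z).det.re := Mf.pd_det_re (hH.pos e he z hz)
  have b0 := w0 _ ho
  have t1 : ContinuousAt (fun v => (H e v).det.re) z := (cd_re (hH.sm e he z hz).det).continuousAt
  have t2 : ContinuousAt (fun v => w (e.symm v)) z :=
    ContinuousAt.comp (g := w) ((hw _ ho).continuousAt (hO.mem_nhds ho)) cs
  obtain ⟨R, R0, hR⟩ := Metric.eventually_nhds_iff_ball.1 ((e.open_target.eventually_mem hz).and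
    ((cs.eventually (hO.eventually_mem ho)).and ((cs.eventually n1).and
      ((t1.eventually (eventually_gt_nhds (half_lt_self a0))).and
        (t2.eventually (eventually_gt_nhds (half_lt_self b0)))))))
  have k0 : ENNReal.ofReal ((H e z).det.re / 2 * (w (e.symm z) / 2)) ≠ 0 :=
    (ENNReal.ofReal_pos.2 (by positivity)).ne'
  obtain ⟨A, hA⟩ := SV.MON.bound SV.stSUB (n := n) (half_pos R0) (ENNReal.mul_ne_top
    (ENNReal.inv_ne_top.2 k0) (ENNReal.mul_ne_top c1 hB))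
  have h2 : 2 * (R / 2) = R := by ring
  have hs : ball z (R / 2) ⊆ ball z R := ball_subset_ball (half_le_self R0.le)
  refine ⟨R / 2, half_pos R0, A, fun v hv => (hR v (hs hv)).2.1, fun k => ?_⟩
  have hd : DifferentiableOn ℂ (F k ∘ e.symm) (ball z R) := fun v hv =>
    (hF k e he v (hR v hv).1 (hR v hv).2.1).self_of_nhds.differentiableWithinAt
  refine ⟨hd.mono hs, hA z _ (by rwa [h2]) ?_⟩
  obtain ⟨m1, m2, -⟩ := (mMU n M H hH).2.2.2.2.2.1 e he (ball z R) measurableSet_ball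
    fun v hv => (hR v hv).1
  have s1 : e.symm '' ball z R ⊆ N := by
    rintro _ ⟨v, hv, rfl⟩
    exact (hR v hv).2.2.1
  have s2 : e.symm '' ball z R ⊆ O := by
    rintro _ ⟨v, hv, rfl⟩
    exact (hR v hv).2.1
  have l1 : (M.mu H).restrict (e.symm '' ball z R) ≤ c • ν.restrict O := by
    rw [← inter_eq_self_of_subset_left s1, ← Measure.restrict_restrict m1, ← Measure.restrict_smul]
    exact Measure.restrict_mono s2 n2
  have l2 := (lintegral_mono' l1 (le_refl fun x => ENNReal.ofReal (normSq (F k x) * w x))).trans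
    ((lintegral_smul_measure _ _).le.trans (mul_le_mul_right (hi k) c))
  rw [h2, ← ENNReal.mul_le_mul_iff_right k0 ENNReal.ofReal_ne_top, ← mul_assoc,
    ENNReal.mul_inv_cancel k0 ENNReal.ofReal_ne_top, one_mul,
    ← lintegral_const_mul' _ _ ENNReal.ofReal_ne_top]
  refine le_trans (setLIntegral_mono' measurableSet_ball fun v hv => ?_) ((m2 _).symm.trans_le l2)
  obtain ⟨-, -, -, q1, q2⟩ := hR v hv
  rw [← ENNReal.ofReal_mul (by positivity), ← ENNReal.ofReal_mul ((half_pos a0).trans q1).le,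
    normSq_eq_norm_sq, mul_comm _ (w (e.symm v)), ← mul_assoc]
  exact ENNReal.ofReal_le_ofReal (mul_le_mul_of_nonneg_right
    (mul_le_mul q1.le q2.le (half_pos b0).le ((half_pos a0).trans q1).le) (sq_nonneg _))

end MTL

theorem bMTL : St_MTL := by
  intro n M _ H O ν F w B hH hO hν hw w0 hB hF hi
  have := (mCOV n M).1
  have key := fun x (hx : x ∈ O) => MTL.loc hH hO hν hw w0 hB hF hi (Mf.ch_mem x) (Mf.ch_tgt x)
    (by rwa [Mf.ch_symm])
  obtain ⟨s, hs, G, hG⟩ := SV.MON.ascoli (f := F) (W := O) (fun x hx ε hε => by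
    obtain ⟨r, hr, A, -, hk⟩ := key x hx
    have hc : ContinuousAt (M.ch x) x := (M.ch x).continuousAt (Mf.mem_ch x)
    have h1 : Tendsto (fun y => 2 * A / r * ‖M.ch x y - M.ch x x‖) (𝓝 x)
        (𝓝 (2 * A / r * ‖M.ch x x - M.ch x x‖)) :=
      ((hc.tendsto.sub tendsto_const_nhds).norm).const_mul _
    have h2 : ∀ᶠ y in 𝓝 x, y ∈ (M.ch x).source ∧ M.ch x y ∈ ball (M.ch x x) r ∧
        2 * A / r * ‖M.ch x y - M.ch x x‖ < ε :=
      ((M.ch x).open_source.eventually_mem (Mf.mem_ch x)).and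
        ((hc.eventually (ball_mem_nhds _ hr)).and
          (h1.eventually (gt_mem_nhds (by simpa using hε))))
    refine ⟨_, h2, Eventually.of_forall fun k y hy => ?_⟩
    have h3 := SV.H85.norm_sub_le_of_bound (hk k).1 (hk k).2 hy.2.1
    simp only [Function.comp_apply, (M.ch x).left_inv hy.1, Mf.ch_symm] at h3
    rw [dist_comm, dist_eq_norm]
    exact h3.trans_lt hy.2.2) fun x hx => by
    obtain ⟨r, hr, A, -, hk⟩ := key x hx
    refine ⟨A, Eventually.of_forall fun k => ?_⟩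
    simpa only [Function.comp_apply, Mf.ch_symm] using (hk k).2 _ (mem_ball_self hr)
  refine ⟨G, s, hs, fun e he z hz ho => ?_, hG⟩
  obtain ⟨r, hr, A, h1, hk⟩ := MTL.loc hH hO hν hw w0 hB hF hi he hz ho
  have hd := (SV.H85.differentiableOn_of_tendsto (l := atTop) (f := fun k => F (s k) ∘ e.symm)
    (g := G ∘ e.symm) (O := ball z r) isOpen_ball (Eventually.of_forall fun k => (hk _).1)
    (fun x hx => ⟨A, _, isOpen_ball.mem_nhds hx, Eventually.of_forall fun k => (hk _).2⟩)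
    fun v hv => hG _ (h1 v hv)).1
  filter_upwards [ball_mem_nhds z hr] with v hv using hd.differentiableAt (isOpen_ball.mem_nhds hv)

end Pool.Agent.Lib.RB9
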