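import Pool.Agent.Lib.RB9.Blue

/-! Project rb9, row NET: a finite net for bounded holomorphic functions. -/

open Set Metric

namespace Pool.Agent.Lib.RB9

theorem bNET : St_NET := by
  intro g y₀ R η R0 η0
  obtain ⟨t, t1, t2, t3⟩ := Metric.finite_approx_of_totallyBounded
    ((isCompact_closedBall y₀ (R / 2)).totallyBounded.subset ball_subset_closedBall)
    (min (R / 2) (η * R / 4)) (by positivity)
  have := t2.fintype
  refine ⟨_, fun i => ((Fintype.equivFin t).symm i).1, fun i => t1 (Subtype.prop _),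
    fun f A hf hA w hw => ?_⟩
  obtain ⟨y, hy, h⟩ := mem_iUnion₂.1 (t3 hw)
  refine ⟨Fintype.equivFin t ⟨y, hy⟩, ?_⟩
  simp only [Equiv.symm_apply_apply]
  have s : ball y (R / 2) ⊆ ball y₀ R := ball_subset_ball' (by linarith [mem_ball.1 (t1 hy)])
  have a := hA y (s (mem_ball_self (half_pos R0)))
  have A0 := (norm_nonneg _).trans a
  have k := Complex.dist_le_div_mul_dist_of_mapsTo_ball (R₂ := 2 * A) (hf.mono s)
    (fun x hx => mem_closedBall_iff_norm.2 ((norm_sub_le _ _).trans (by linarith [hA x (s hx)])))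
    (ball_subset_ball (min_le_left _ _) h)
  rw [dist_eq_norm] at k
  refine k.trans ((mul_le_mul_of_nonneg_left ((mem_ball.1 h).le.trans (min_le_right _ _))
    (by positivity)).trans_eq ?_)
  field_simp
  ring

end Pool.Agent.Lib.RB9
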