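import Pool.Agent.Lib.RB9.Blue

/-! Project rb9, row NEW: symmetric functions. -/

open Polynomial Finset

noncomputable section

namespace Pool.Agent.Lib.RB9

namespace NEW

variable {r : ℕ}

/-- The generating polynomial of the elementary symmetric functions. -/
def Q (f : Fin r → ℂ) (s : Finset (Fin r)) : ℂ[X] := ∏ i ∈ s, (1 + C (f i) * X)

theorem top (f : Fin r → ℂ) (s : Finset (Fin r)) : (Q f s).coeff s.card = ∏ i ∈ s, f i := by
  have := coeff_prod_of_natDegree_le s (fun i => (1 + C (f i) * X : ℂ[X])) 1 fun i _ => by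
    compute_degree
  rw [mul_one] at this
  rw [Q, this]
  exact prod_congr rfl fun i _ => by simp [coeff_one]

theorem zero (f : Fin r → ℂ) (s : Finset (Fin r)) : (Q f s).coeff 0 = 1 := by
  simp [Q, coeff_zero_prod]

theorem step (f : Fin r → ℂ) (j : Fin r) (k : ℕ) : (Q f (univ.erase j)).coeff (k + 1) =
    (Q f univ).coeff (k + 1) - f j * (Q f (univ.erase j)).coeff k := by
  have : Q f univ = Q f (univ.erase j) + C (f j) * (Q f (univ.erase j) * X) := by
    rw [Q, ← mul_prod_erase _ _ (mem_univ j), Q]
    ring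
  rw [this, coeff_add, coeff_C_mul, coeff_mul_X]
  ring

theorem der (f : Fin r → ℂ) (k : ℕ) : (Q f univ).coeff (k + 1) =
    ((k : ℂ) + 1)⁻¹ * ∑ j, f j ^ 1 * (1 : ℂ) * (Q f (univ.erase j)).coeff k := by
  have h : derivative (Q f univ) = ∑ j, Q f (univ.erase j) * C (f j) := by
    rw [Q, derivative_prod_finset]
    exact sum_congr rfl fun j _ => by simp [Q]
  have := congrArg (coeff · k) h
  simp only [coeff_derivative, finsetSum_coeff, coeff_mul_C] at this
  rw [eq_inv_mul_iff_mul_eq₀ (Nat.cast_add_one_ne_zero k), mul_comm, this]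
  exact sum_congr rfl fun j _ => by ring

end NEW

open NEW in
theorem bNEW : St_NEW := by
  intro W _ _ S r f g h
  have key : ∀ k, DifferentiableOn ℂ (fun w => (Q (f w) univ).coeff k) S ∧ ∀ l l' : ℕ,
      DifferentiableOn ℂ (fun w => ∑ j, f w j ^ l * g w j ^ l' *
        (Q (f w) (univ.erase j)).coeff k) S := by
    intro k
    induction k with
    | zero =>
      simp only [zero, mul_one]
      exact ⟨differentiableOn_const _, h⟩
    | succ k ih =>
      have h1 : DifferentiableOn ℂ (fun w => (Q (f w) univ).coeff (k + 1)) S :=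
        ((ih.2 1 0).const_mul ((k : ℂ) + 1)⁻¹).congr fun w _ => by
          simp only [der, pow_zero]
      refine ⟨h1, fun l l' => (((h l l').mul h1).sub (ih.2 (l + 1) l')).congr fun w _ => ?_⟩
      simp only [step, Pi.sub_apply, Pi.mul_apply, sum_mul, ← sum_sub_distrib]
      exact sum_congr rfl fun j _ => by ring
  refine ⟨(key r).1.congr fun w _ => ?_, ((key (r - 1)).2 0 1).congr fun w _ => ?_⟩
  · rw [← top, card_univ, Fintype.card_fin]
  · refine sum_congr rfl fun j _ => ?_
    rw [← top, card_erase_of_mem (mem_univ j), card_univ, Fintype.card_fin, pow_zero, pow_one,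
      one_mul]

end Pool.Agent.Lib.RB9
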