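import Pool.Agent.Lib.RB9.Blue

/-! Project rb9: null sets upstairs and downstairs. -/

open scoped Classical Topology ContDiff ComplexOrder Matrix ENNReal
open Set MeasureTheory Complex Metric Filter

set_option linter.unusedVariables false

noncomputable section

namespace Pool.Agent.Lib.RB9

open Pool.Agent.Lib.SV (E nsq)
open Pool.Agent.Lib.HS32 Pool.Agent.Lib.FI Pool.Agent.Lib.KH

namespace NUL

theorem core {X W : Type} [TopologicalSpace X] [TopologicalSpace.PseudoMetrizableSpace X]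
    [MeasurableSpace X] [BorelSpace X] [MeasurableSpace W] (lam : Measure X) [IsFiniteMeasure lam]
    (ν : Measure W) {r : ℕ} (a : W → Fin r → X) (c : ℝ≥0∞) (hc : c ≠ ⊤)
    (hm : ∀ φ : X → ℝ, Continuous φ → AEMeasurable (fun w => ∑ j, φ (a w j)) ν)
    (hup : ∀ φ : X → ℝ, Continuous φ → (∀ x, 0 ≤ φ x) →
      ∫⁻ w, ENNReal.ofReal (∑ j, φ (a w j)) ∂ν ≤ c * ∫⁻ x, ENNReal.ofReal (φ x) ∂lam)
    (Z : Set X) (hZ : lam Z = 0) : ν {w | ∃ j, a w j ∈ Z} = 0 := by
  by_contra h0
  obtain ⟨ε, hε, hlt⟩ := ENNReal.exists_pos_mul_lt hc h0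
  obtain ⟨U, hZU, hU, hUε⟩ := Z.exists_isOpen_lt_of_lt (μ := lam) ε (by rw [hZ]; exact hε)
  have hF : IsClosed Uᶜ := hU.isClosed_compl
  obtain ⟨φ, φc, φ0, φ1, φz, φt⟩ : ∃ φ : ℕ → X → ℝ, (∀ i, Continuous (φ i)) ∧
      (∀ i x, 0 ≤ φ i x) ∧ (∀ i x, φ i x ≤ 1) ∧ (∀ i x, x ∉ U → φ i x = 0) ∧
      ∀ x ∈ U, Tendsto (fun i => φ i x) atTop (𝓝 1) := by
    refine ⟨fun i x => 1 - (hF.apprSeq i x : ℝ), fun i => continuous_const.sub
      (NNReal.continuous_coe.comp (hF.apprSeq i).continuous), fun i x => sub_nonneg.2 ?_,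
      fun i x => sub_le_self _ (NNReal.coe_nonneg _), fun i x hx => ?_, fun x hx => ?_⟩
    · exact_mod_cast HasOuterApproxClosed.apprSeq_apply_le_one hF i x
    · simp only [HasOuterApproxClosed.apprSeq_apply_eq_one hF i (show x ∈ Uᶜ from hx),
        NNReal.coe_one, sub_self]
    · have h1 := tendsto_pi_nhds.1 (HasOuterApproxClosed.tendsto_apprSeq hF) x
      rw [indicator_of_notMem (show x ∉ Uᶜ from fun h => h hx)] at h1
      have h2 := (NNReal.tendsto_coe.2 h1).const_sub (1 : ℝ)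
      rwa [NNReal.coe_zero, sub_zero] at h2
  have hf : ∀ i, AEMeasurable (fun w => ENNReal.ofReal (∑ j, φ i (a w j))) ν := fun i =>
    (hm _ (φc i)).ennreal_ofReal
  have h1 : ∀ i, ∫⁻ w, ENNReal.ofReal (∑ j, φ i (a w j)) ∂ν ≤ ε * c := fun i => by
    refine (hup _ (φc i) (φ0 i)).trans ?_
    rw [mul_comm]
    refine mul_le_mul' (le_trans ?_ hUε.le) le_rfl
    rw [← lintegral_indicator_one hU.measurableSet]
    refine lintegral_mono fun x => ?_
    by_cases hx : x ∈ U
    · rw [indicator_of_mem hx]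
      exact ENNReal.ofReal_le_one.2 (φ1 i x)
    · simp [φz i x hx]
  have h2 : {w | ∃ j, a w j ∈ Z} ⊆
      {w | 1 ≤ liminf (fun i => ENNReal.ofReal (∑ j, φ i (a w j))) atTop} := by
    rintro w ⟨j, hj⟩
    have k1 := (ENNReal.tendsto_ofReal (φt _ (hZU hj))).liminf_eq
    rw [ENNReal.ofReal_one] at k1
    rw [mem_ofPred_eq, ← k1]
    exact liminf_le_liminf (Eventually.of_forall fun i => ENNReal.ofReal_le_ofReal
      (Finset.single_le_sum (f := fun j => φ i (a w j)) (fun j _ => φ0 i _) (Finset.mem_univ j)))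
  have hl : AEMeasurable
      (fun w => liminf (fun i => ENNReal.ofReal (∑ j, φ i (a w j))) atTop) ν :=
    ⟨fun w => liminf (fun i => (hf i).mk _ w) atTop, Measurable.liminf fun i => (hf i).measurable_mk,
      (ae_all_iff.2 fun i => (hf i).ae_eq_mk).mono fun w hw =>
        congrArg (fun u : ℕ → ℝ≥0∞ => liminf u atTop) (funext hw)⟩
  have h3 := mul_meas_ge_le_lintegral₀ hl 1
  rw [one_mul] at h3
  refine absurd (((measure_mono h2).trans h3).trans ((lintegral_liminf_le' hf).trans ?_)) hlt.not_ge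
  exact liminf_le_of_frequently_le' (Frequently.of_forall h1)

end NUL

theorem bNUL (hBAS : FI.St_BAS) : St_NUL := by
  intro n k M _ H p z C V r Ψ hx
  obtain ⟨hO, hz', hh, -⟩ := hBAS n k M H p z C hx.fb
  have hOm := hO.measurableSet
  have hzm : AEMeasurable z ((M.mu H).restrict {x | 0 < p x}) := hz'.aemeasurable hOm
  have hdc : ContinuousOn (dn H z) {x | 0 < p x} := by
    have h1 : ContinuousOn (fun x => hz H z x) {x | 0 < p x} :=
      continuousOn_pi.2 fun i => continuousOn_pi.2 fun j => hh i j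
    exact continuous_re.comp_continuousOn
      ((continuous_id.matrix_det (A := fun A : Mat k => A)).comp_continuousOn h1)
  have hdm : AEMeasurable (dn H z) ((M.mu H).restrict {x | 0 < p x}) := hdc.aemeasurable hOm
  have hdp : ∀ x, 0 < p x → 0 < dn H z x := fun x h => ((hx.jc.pos x).1 h).2
  refine ⟨fun P hP => ?_, fun S b Z hS hZ => ?_⟩
  · obtain ⟨N, hN, hNm, hN0⟩ := exists_measurable_superset_of_null (ae_iff.1 hP)
    have hi : Measurable (N.indicator (1 : E k → ℝ≥0∞)) := measurable_one.indicator hNm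
    have h1 := hx.vol.2 _ hi
    rw [lintegral_indicator_one hNm, hN0, mul_zero] at h1
    have h1' := (lintegral_eq_zero_iff' ((hi.comp_aemeasurable hzm).mul hdm.ennreal_ofReal)).1 h1
    filter_upwards [(ae_restrict_iff' hOm).1 h1'] with x h2 h3
    by_contra h4
    have h5 : N.indicator (1 : E k → ℝ≥0∞) (z x) * ENNReal.ofReal (dn H z x) = 0 := h2 h3
    rw [indicator_of_mem (hN h4), Pi.one_apply, one_mul, ENNReal.ofReal_eq_zero] at h5
    exact absurd (hdp x h3) h5.not_gt
  · have : SecondCountableTopology M.X := BCOV.sec_ct M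
    obtain ⟨ϑ, ϑc, ϑp, ϑi⟩ : ∃ ϑ : E k → ℝ, Continuous ϑ ∧ (∀ s, 0 < ϑ s) ∧
        ∫⁻ s, ENNReal.ofReal (ϑ s) ≠ ⊤ := by
      refine ⟨fun s => (1 + ‖s‖) ^ (-((Module.finrank ℝ (E k) : ℝ) + 1)), ?_,
        fun s => Real.rpow_pos_of_pos (by positivity) _,
        (finite_integral_one_add_norm (lt_add_one _)).ne⟩
      exact (continuous_const.add continuous_norm).rpow_const fun s =>
        Or.inl (add_pos_of_pos_of_nonneg one_pos (norm_nonneg s)).ne'
    have hB : MeasurableSet (ball b.y0 b.R ×ˢ S) := (isOpen_ball.prod hS).measurableSet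
    have hw : AEMeasurable (fun x => ENNReal.ofReal (ϑ (z x) * dn H z x))
        ((M.mu H).restrict {x | 0 < p x}) :=
      ((ϑc.measurable.comp_aemeasurable hzm).mul hdm).ennreal_ofReal
    have hv : Measurable fun w : E b.g × E k => ENNReal.ofReal (ϑ w.2) :=
      (ϑc.comp continuous_snd).measurable.ennreal_ofReal
    have : IsFiniteMeasure (((M.mu H).restrict {x | 0 < p x}).withDensity
        fun x => ENNReal.ofReal (ϑ (z x) * dn H z x)) := by
      refine isFiniteMeasure_withDensity ?_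
      simp only [ENNReal.ofReal_mul (ϑp _).le]
      rw [hx.vol.2 (fun s => ENNReal.ofReal (ϑ s)) ϑc.measurable.ennreal_ofReal]
      exact ENNReal.mul_ne_top ENNReal.ofReal_ne_top ϑi
    have hm : ∀ φ : M.X → ℝ, Continuous φ → AEMeasurable
        (fun w : E b.g × E k => ∑ j, φ (b.a w.1 w.2 j)) (volume.restrict (ball b.y0 b.R ×ˢ S)) :=
      fun φ hφ => (b.con φ hφ).aemeasurable hB
    have h1 := NUL.core (((M.mu H).restrict {x | 0 < p x}).withDensity
        fun x => ENNReal.ofReal (ϑ (z x) * dn H z x))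
      ((volume.restrict (ball b.y0 b.R ×ˢ S)).withDensity fun w => ENNReal.ofReal (ϑ w.2))
      (fun w => b.a w.1 w.2) (ENNReal.ofReal b.c) ENNReal.ofReal_ne_top
      (fun φ hφ => (hm φ hφ).mono_ac (withDensity_absolutelyContinuous _ _))
      (fun φ hφ h0 => by
        rw [lintegral_withDensity_eq_lintegral_mul₀ hv.aemeasurable (hm φ hφ).ennreal_ofReal,
          lintegral_withDensity_eq_lintegral_mul₀ hw hφ.measurable.ennreal_ofReal.aemeasurable]
        have h2 := b.up φ ϑ hφ h0 ϑc fun s => (ϑp s).le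
        refine le_trans (le_of_eq (lintegral_congr fun w => ?_))
          (h2.trans (le_of_eq (congrArg _ (lintegral_congr fun x => ?_))))
        · rw [Pi.mul_apply, ENNReal.ofReal_mul (ϑp _).le]
        · rw [Pi.mul_apply, ← ENNReal.ofReal_mul' (h0 x), mul_right_comm])
      Z (withDensity_absolutelyContinuous _ _
        (Measure.absolutelyContinuous_restrict hZ))
    have h2 := withDensity_absolutelyContinuous' hv.aemeasurable (Eventually.of_forall fun w =>
      (ENNReal.ofReal_pos.2 (ϑp w.2)).ne') h1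
    have h3 : ∀ᵐ w : E b.g × E k ∂(volume.prod volume),
        w ∈ ball b.y0 b.R ×ˢ S → ∀ j, b.a w.1 w.2 j ∉ Z := by
      rw [← Measure.volume_eq_prod, ← ae_restrict_iff' hB, ae_iff]
      simpa only [not_forall, not_not] using h2
    have h4 := Measure.ae_ae_of_ae_prod
      (Measure.measurePreserving_swap.quasiMeasurePreserving.ae h3)
    filter_upwards [h4] with s h5 hs
    filter_upwards [h5] with y h6 hy
    exact h6 ⟨hy, hs⟩

end Pool.Agent.Lib.RB9
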