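import Pool.Agent.Lib.RB9.Blue
import Pool.Agent.Lib.KH.B_MAX

/-! Project rb9, row ONE: the solution for the data with a cut-off. -/

open scoped Classical Topology ContDiff ComplexOrder Matrix ENNReal
open Set MeasureTheory Complex Metric Filter

noncomputable section

namespace Pool.Agent.Lib.RB9

open Pool.Agent.Lib.SV (E nsq)
open Pool.Agent.Lib.HS32 Pool.Agent.Lib.FI Pool.Agent.Lib.KH

namespace ONE

theorem cs {x y : ℂ} {β γ a b : ℝ} (hβ : 0 ≤ β) (hγ : 0 ≤ γ) (ha : 0 ≤ a) (hb : 0 ≤ b)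
    (hx : normSq x ≤ β * a) (hy : normSq y ≤ γ * b) : normSq (x + y) ≤ (β + γ) * (a + b) := by
  have h1 := re_sq_le_normSq (x * (starRingEnd ℂ) y)
  rw [normSq_mul, normSq_conj] at h1
  have h2 := mul_le_mul hx hy (normSq_nonneg y) (mul_nonneg hβ ha)
  have h3 : |2 * (x * (starRingEnd ℂ) y).re| ≤ β * b + γ * a :=
    abs_le_of_sq_le_sq (by nlinarith [sq_nonneg (β * b - γ * a)]) (by positivity)
  rw [normSq_add]
  linarith [le_abs_self (2 * (x * (starRingEnd ℂ) y).re)]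

theorem loc {n : ℕ} {u : E n → ℝ} {G : E n → ℂ} {w ξ : E n} {ζ : ℝ → ℝ} {L β γ s : ℝ}
    {P Θ : Mat n} (hu : ContDiffAt ℝ ∞ u w) (hG : ContDiffAt ℝ ∞ G w) (hζ : ContDiff ℝ ∞ ζ)
    (hβ : 0 ≤ β) (hγ : 0 ≤ γ) (h1 : ζ (u w / L) ∈ Icc (0 : ℝ) 1) (hΘ : Θ.PosSemidef)
    (hd : normSq (dbv G w ξ) ≤ β * nq Θ ξ) (s0 : 0 ≤ s)
    (hs : deriv ζ (u w / L) ^ 2 * normSq (G w) ≤ γ * s)
    (hP : (P - Θ - (s / L ^ 2) • dd (fun x => (u x : ℂ)) (fun x => (u x : ℂ)) w).PosSemidef) :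
    normSq (dbv (fun x => (ζ (u x / L) : ℂ) * G x) w ξ) ≤ (β + γ) * nq P ξ := by
  have h := fun j : Fin n => star_dz_ofReal (j := j) (cd_diff (cd_ofReal hu))
  have hD : HasDerivAt (fun t => ζ (t / L)) (deriv ζ (u w / L) * (1 / L)) (u w) :=
    (hζ.differentiable (by simp) (u w / L)).hasDerivAt.comp (u w) ((hasDerivAt_id _).div_const L)
  have hc : ContDiffAt ℝ ∞ (fun x => ζ (u x / L)) w := hζ.contDiffAt.comp w (hu.div_const L)
  have e : dbv (fun x => (ζ (u x / L) : ℂ) * G x) w ξ = ζ (u w / L) * dbv G w ξ +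
      (deriv ζ (u w / L) * (1 / L) : ℝ) * G w * star (MAX.dw u w ξ) := by
    simp only [dbv, MAX.dw, dzb_mul (cd_diff (cd_ofReal hc)) (cd_diff hG),
      dzb_comp_real hD (cd_diff hu), star_sum, star_mul', h, Finset.mul_sum,
      ← Finset.sum_add_distrib]
    exact Finset.sum_congr rfl fun i _ => by ring
  have t0 : 0 ≤ nq Θ ξ := (Complex.nonneg_iff.1 (hΘ.dotProduct_mulVec_nonneg ξ)).1
  have b0 := normSq_nonneg (MAX.dw u w ξ)
  have p0 : nq Θ ξ + s / L ^ 2 * normSq (MAX.dw u w ξ) ≤ nq P ξ := by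
    have k := (Complex.nonneg_iff.1 (hP.dotProduct_mulVec_nonneg ξ)).1
    rw [← MAX.q_dd hu]
    simp only [Matrix.sub_mulVec, Matrix.smul_mulVec, dotProduct_sub, dotProduct_smul, sub_re,
      smul_re, smul_eq_mul] at k
    simp only [nq]
    linarith
  rw [e]
  refine (cs hβ hγ t0 (by positivity) ?_ ?_).trans
    (mul_le_mul_of_nonneg_left p0 (add_nonneg hβ hγ))
  · rw [normSq_mul, normSq_ofReal]
    exact (mul_le_of_le_one_left (normSq_nonneg _) (mul_le_one₀ h1.2 h1.1 h1.2)).trans hd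
  · rw [normSq_mul, normSq_mul, normSq_ofReal, star_def, normSq_conj]
    refine le_trans (le_of_eq ?_) ((mul_le_mul_of_nonneg_right hs
      (mul_nonneg (sq_nonneg (1 / L)) b0)).trans (le_of_eq ?_)) <;> ring

end ONE

theorem bONE (hWGT : St_WGT) (hCVX : St_CVX) (hKIT : KH.St_KIT) (hCHR : FI.St_CHR) : St_ONE := by
  intro n k M _ H O ν z Ω U v c₁ κ Θ m m₁ C l c hW hl hc
  obtain ⟨g, q, χ, ζ, S, -, -, hq, -, hζ, h⟩ := hCVX
  obtain ⟨A, B, hB, hE⟩ := hWGT n k M H O ν z Ω U v c₁ κ Θ m m₁ C l c q S hW hl hc hq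
    fun t => ⟨(h t).2.2.2.2.1, (sq_nonneg _).trans (h t).2.2.2.2.2⟩
  refine ⟨q, ζ, A, B, hq.continuous, monotone_of_deriv_nonneg (hq.differentiable (by simp))
    fun t => (h t).2.2.2.2.1.1, fun t => (h t).2.2.2.1, hB, fun t => ⟨(h t).2.2.1.2.2,
    fun ht => (h t).2.2.1.2.1 (by linarith)⟩, hζ.continuous, fun β Γ hβ hΓ b0 hd hf => ?_⟩
  filter_upwards [hE, eventually_gt_atTop 0] with L hL L0
  filter_upwards [hL, self_mem_nhdsWithin] with e ⟨hΩ, ph, p1, p2, p3, p4, p5⟩ e0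
  have sz : SmK M O z := fun d hd w hw ho => (hCHR n k _ w (hW.hz d hd w hw ho)).1
  have su : SmK M O fun x => U e (z x) := fun d hd w hw ho =>
    (hW.up.sm e e0).contDiffAt.comp w (sz d hd w hw ho)
  have k1 := (hKIT n M H O hW.met hW.oO).1
  have oO : IsOpen (O ∩ z ⁻¹' Ω) := (k1 _ z sz).1.isOpen_inter_preimage hW.oO hW.oΩ
  have ae : ∀ᵐ x ∂ν, x ∈ O ∩ z ⁻¹' Ω := hW.ae.mono fun x hx => ⟨hx.1, hW.sub _ hx.2⟩
  have ms : ∀ f : M.X → ℝ, ContinuousOn f (O ∩ z ⁻¹' Ω) → AEMeasurable f ν := fun f hf => by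
    rw [← Measure.restrict_eq_self_of_ae_mem ae]
    exact hf.aemeasurable oO.measurableSet
  have mu := ms _ ((k1 _ _ su).1.mono inter_subset_left)
  have mΓ := ms _ (continuous_normSq.comp_continuousOn
    ((hKIT n M H _ hW.met oO).1 _ _ hΓ).1)
  have lt : ∀ x, -7 / 4 ≤ U e (z x) / L → -(2 * L) < U e (z x) := fun x hx => by
    rw [le_div_iff₀ L0] at hx
    linarith
  have i0 : ∀ x, 0 ≤ {x | U e (z x) ≤ -L}.indicator (fun x => normSq (Γ x)) x :=
    indicator_nonneg fun _ _ => normSq_nonneg _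
  have z0 : ∀ d ∈ M.C, ∀ w ∈ d.target, d.symm w ∈ O → ¬-7 / 4 ≤ U e (z (d.symm w)) / L →
      (fun x => (ζ (U e (z x) / L) : ℂ) * Γ x) ∘ d.symm =ᶠ[𝓝 w] fun _ => 0 :=
    fun d hd w hw ho hx => by
      filter_upwards [((su d hd w hw ho).continuousAt.div_const L).eventually
        (gt_mem_nhds (not_le.1 hx))] with y hy
      exact mul_eq_zero_of_left (ofReal_eq_zero.2 ((h _).2.2.1.1 (le_of_lt hy))) _
  obtain ⟨F, hF, hle⟩ := hW.hq ph ({x | -7 / 4 ≤ U e (z x) / L}.indicator fun x =>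
      β x + {x | U e (z x) ≤ -L}.indicator (fun x => normSq (Γ x)) x)
    (fun x => (ζ (U e (z x) / L) : ℂ) * Γ x)
    ((hβ.add (mΓ.indicator₀ (nullMeasurableSet_le mu aemeasurable_const))).indicator₀
      (nullMeasurableSet_le aemeasurable_const (mu.div_const L)))
    ⟨p1, fun d hd w hw ho => by
      by_cases hx : -7 / 4 ≤ U e (z (d.symm w)) / L
      · exact (cd_ofReal (hζ.contDiffAt.comp w ((su d hd w hw ho).div_const L))).mul
          (hΓ d hd w hw ⟨ho, hΩ (lt _ hx).le⟩)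
      · exact contDiffAt_const.congr_of_eventuallyEq (z0 d hd w hw ho hx),
    fun x hx => indicator_apply_nonneg fun h' => add_nonneg (b0 x ⟨hx, hΩ (lt x h').le⟩) (i0 x),
    p2, fun d hD w hw ho ξ => by
      by_cases hx : -7 / 4 ≤ U e (z (d.symm w)) / L
      · have h' : d.symm w ∈ O ∩ z ⁻¹' Ω := ⟨ho, hΩ (lt _ hx).le⟩
        have h2 := (h (U e (z (d.symm w)) / L)).2.2.2.2.2
        rw [indicator_of_mem (s := {x | -7 / 4 ≤ U e (z x) / L}) hx]
        refine ONE.loc (su d hD w hw ho) (hΓ d hD w hw h') hζ (b0 _ h') (i0 _) (h _).2.2.1.2.2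
          (hW.pos d hD w hw h') (hd d hD w hw h' ξ) ((sq_nonneg _).trans h2) ?_
          (p5 d hD w hw ⟨ho, lt _ hx⟩)
        by_cases hy : U e (z (d.symm w)) ≤ -L
        · rw [indicator_of_mem (s := {x | U e (z x) ≤ -L}) hy, mul_comm]
          exact mul_le_mul_of_nonneg_left h2 (normSq_nonneg _)
        · have h3 : -5 / 4 < U e (z (d.symm w)) / L := by
            rw [lt_div_iff₀ L0]
            linarith [not_le.1 hy]
          have h4 : ζ =ᶠ[𝓝 (U e (z (d.symm w)) / L)] fun _ => 1 :=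
            (lt_mem_nhds h3).mono fun t ht => (h t).2.2.1.2.1 ht.le
          refine le_trans (le_of_eq ?_) (mul_nonneg (i0 _) ((sq_nonneg _).trans h2))
          exact mul_eq_zero_of_left (pow_eq_zero_iff two_ne_zero |>.2
            (h4.deriv_eq.trans (deriv_const _ _))) _
      · rw [indicator_of_notMem (s := {x | -7 / 4 ≤ U e (z x) / L}) hx, zero_mul]
        simp only [dbv, dzb_congr (z0 d hD w hw ho hx), dzb_const, mul_zero, Finset.sum_const_zero,
          map_zero, le_refl]⟩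
    (ne_top_of_le_ne_top hf (lintegral_mono_ae (ae.mono fun x hx => by
      by_cases hy : -7 / 4 ≤ U e (z x) / L
      · obtain ⟨i, hi⟩ := exists_nat_one_div_lt (show 0 < e from e0)
        have h1 := (h (U e (z x) / L)).2.2.1.2.2
        have h2 := mul_le_mul_of_nonneg_left (hW.vm _ e (z x) Nat.one_div_pos_of_nat hi.le) hW.m0.1
        have h3 := mul_le_mul_of_nonneg_left (hW.up.mono _ e (z x) Nat.one_div_pos_of_nat hi.le)
          (show 0 ≤ l by linarith [hW.m0.2.1])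
        rw [ENNReal.ofReal_mul (normSq_nonneg _), normSq_mul, normSq_ofReal, p4 x hx.1 (lt x hy).le]
        refine mul_le_mul' (ENNReal.ofReal_le_ofReal (mul_le_of_le_one_left (normSq_nonneg _)
          (mul_le_one₀ h1.2 h1.1 h1.2))) (le_iSup_of_le i (ENNReal.ofReal_le_ofReal
            (Real.exp_le_exp.2 ?_)))
        simp only [wt]
        linarith [(h (U e (z x) / L)).2.2.2.1]
      · simp only [(h _).2.2.1.1 (not_le.1 hy).le, ofReal_zero, zero_mul, map_zero,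
          ENNReal.ofReal_zero, zero_le])))
  refine ⟨F, ph, hF, (k1 _ _ p1).1, p3, p4, hle.trans (lintegral_mono_ae (ae.mono fun x hx => ?_))⟩
  by_cases hy : -7 / 4 ≤ U e (z x) / L
  · rw [indicator_of_mem (s := {x | -7 / 4 ≤ U e (z x) / L}) hy, p4 x hx.1 (lt x hy).le]
  · rw [indicator_of_notMem (s := {x | -7 / 4 ≤ U e (z x) / L}) hy, zero_mul, ENNReal.ofReal_zero]
    exact zero_le

end Pool.Agent.Lib.RB9
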