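import Pool.Agent.Lib.RB9.Blue

/-! Project rb9, row PSM: from a small ball to a large ball. -/

open scoped Topology ContDiff ComplexOrder Matrix
open Set MeasureTheory Complex Metric Filter

noncomputable section

namespace Pool.Agent.Lib.RB9

open Pool.Agent.Lib.SV (E nsq)
open Pool.Agent.Lib.HS32 Pool.Agent.Lib.FI Pool.Agent.Lib.HS66

namespace PSM

variable {k : ℕ}

theorem ker {r : ℝ} (hr : 0 < r) :
    ∃ (g : E k → ℝ) (c : ℝ), 0 < c ∧ Ker g r ∧ ∀ t, ‖t‖ ≤ r - 1 → c⁻¹ ≤ g t := by
  set q : E k → ℝ := fun t => max 0 (r - ‖t‖) with hq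
  have hs : Continuous q := by fun_prop
  have hsupp : ∀ t, q t ≠ 0 → ‖t‖ ≤ r := fun t ht => by
    by_contra h
    exact ht (max_eq_left (by linarith [not_le.1 h]))
  have hc : HasCompactSupport q := HasCompactSupport.intro (isCompact_closedBall 0 r) fun t ht => by
    by_contra h
    exact ht (mem_closedBall_zero_iff.2 (hsupp t h))
  have hpos : 0 < ∫ t, q t :=
    hs.integral_pos_of_hasCompactSupport_nonneg_nonzero hc (fun t => le_max_left _ _) (x := 0)
      (by simpa [hq] using hr)
  refine ⟨fun t => q t / ∫ t, q t, ∫ t, q t, hpos, ⟨hs.div_const _,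
    fun t => div_nonneg (le_max_left _ _) hpos.le,
    fun t ht => hsupp t fun h => ht (by rw [h, zero_div]), fun u t hu => ?_, ?_⟩, fun t ht => ?_⟩
  · simp [hq, norm_smul, hu]
  · rw [integral_div, div_self hpos.ne']
  · rw [← one_div]
    exact div_le_div_of_nonneg_right (le_max_of_le_right (by linarith)) hpos.le

theorem norm_le {y : E k} {R : ℝ} (h : nsq y ≤ R) : ‖y‖ ≤ |R| + 1 :=
  (pi_norm_le_iff_of_nonneg (by positivity)).2 fun i => by
    have h1 : normSq (y i) ≤ nsq y :=
      Finset.single_le_sum (f := fun j => normSq (y j)) (fun j _ => normSq_nonneg _)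
        (Finset.mem_univ i)
    rw [normSq_eq_norm_sq] at h1
    nlinarith [le_abs_self R, sq_nonneg (‖y i‖ - 1), abs_nonneg R]

end PSM

open PSM in
theorem bPSM : St_PSM := by
  intro k y₀ ε R hε
  obtain ⟨r, hr⟩ : ∃ r, r = ‖y₀‖ + ε + |R| + 2 := ⟨_, rfl⟩
  have r0 : 0 < r := by rw [hr]; positivity
  obtain ⟨g, c, c0, hg, hc⟩ := ker (k := k) r0
  have v0 := (measure_ball_pos volume y₀ hε).ne'
  have v1 : volume (ball y₀ ε) ≠ ⊤ := measure_ball_lt_top.ne
  have v2 : 0 < volume.real (ball y₀ ε) := ENNReal.toReal_pos v0 v1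
  refine ⟨c * (1 + (volume.real (ball y₀ ε))⁻¹), ε + r, by positivity,
    fun u A B hu hp hA hB hub hl => ?_⟩
  have u0 := hu.continuous
  obtain ⟨y, hy, h1⟩ := exists_setAverage_le v0 v1
    ((u0.continuousOn.integrableOn_compact (isCompact_closedBall y₀ ε)).mono_set
      ball_subset_closedBall)
  rw [setAverage_eq, smul_eq_mul] at h1
  have h2 : -((volume.real (ball y₀ ε))⁻¹ * A) ≤ u y := by
    refine le_trans ?_ h1
    rw [← mul_neg]
    gcongr
  generalize (volume.real (ball y₀ ε)) = v at v2 h2 ⊢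
  have h3 := hg.submean (w := u) (x := y) le_rfl r0 fun z _ => ⟨cd_le hu.contDiffAt 2, fun t => by
    have := (Complex.le_def.1 ((hp z).dotProduct_mulVec_nonneg t)).1
    rw [FI.hr, BPSH.hess_lv hu.contDiffAt, ofReal_re, zero_re] at this
    linarith⟩
  have i1 : Integrable fun t => g t • (B - u (y - t)) := hg.int_smul (by fun_prop)
  have h4 : ∫ t, g t • (B - u (y - t)) ≤ B - u y := by
    simp only [smul_sub]
    rw [integral_sub (hg.int_smul continuous_const) (hg.int_smul (by fun_prop)), integral_smul_const,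
      hg.int, one_smul]
    linarith
  have i2 : Integrable (fun z => g (y - z) * (B - u z)) volume :=
    (i1.comp_sub_left y).congr (.of_forall fun z => by simp only [sub_sub_cancel, smul_eq_mul])
  rw [← integral_sub_left_eq_self _ volume y] at h4
  simp only [sub_sub_cancel, smul_eq_mul] at h4
  have hy' := mem_ball_iff_norm.1 hy
  have n0 : ∀ z, ‖y - z‖ ≤ r → 0 ≤ B - u z := fun z hz => sub_nonneg.2 (hub z (by
    rw [mem_ball_iff_norm, show z - y₀ = y - y₀ - (y - z) by abel]
    linarith [norm_sub_le (y - y₀) (y - z)]))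
  have hS : ∀ z ∈ {y : E k | nsq y ≤ R}, ‖y - z‖ ≤ r - 1 := fun z hz => by
    linarith [norm_le hz, norm_sub_le y z, norm_le_norm_add_norm_sub' y y₀]
  have hK : IsCompact {y : E k | nsq y ≤ R} := (isCompact_closedBall 0 (|R| + 1)).of_isClosed_subset
    (isClosed_le (by unfold nsq; fun_prop) continuous_const)
    fun z hz => mem_closedBall_zero_iff.2 (norm_le hz)
  have i3 := u0.continuousOn.integrableOn_compact (μ := volume) hK
  have h5 : ∫ z in {y : E k | nsq y ≤ R}, c⁻¹ * -u z ≤ B - u y := by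
    refine le_trans (setIntegral_mono_on (i3.neg.const_mul _) i2.integrableOn hK.measurableSet
      fun z hz => ?_) ((setIntegral_le_integral i2 (.of_forall fun z => ?_)).trans h4)
    · exact (mul_le_mul_of_nonneg_left (by linarith) (by positivity)).trans
        (mul_le_mul_of_nonneg_right (hc _ (hS z hz)) (n0 z (by linarith [hS z hz])))
    · by_cases h : g (y - z) = 0
      · simp [h]
      · exact mul_nonneg (hg.nn _) (n0 z (hg.supp _ h))
  rw [integral_const_mul, integral_neg, inv_mul_le_iff₀ c0] at h5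
  have h6 : c * (B - u y) ≤ c * ((1 + v⁻¹) * (A + B)) := by
    gcongr
    nlinarith [mul_nonneg (inv_pos.2 v2).le hB]
  linarith [mul_assoc c (1 + v⁻¹) (A + B)]

end Pool.Agent.Lib.RB9
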