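import Pool.Agent.Lib.RB9.Blue

/-! Project rb9, row PWR: the power sums bound the numbers. -/

open Finset

namespace Pool.Agent.Lib.RB9

/-- The identities of Newton bound the elementary symmetric functions. -/
theorem pwr_esymm {r : ℕ} (t : Fin r → ℂ) (A : ℝ) (hA : 0 ≤ A)
    (h : ∀ l, 1 ≤ l → l ≤ r → ‖∑ j, t j ^ l‖ ≤ A ^ l) (k : ℕ) :
    k ≤ r → ‖(univ.val.map t).esymm k‖ ≤ A ^ k := by
  induction k using Nat.strong_induction_on with
  | _ k ih =>
  intro hk
  rcases Nat.eq_zero_or_pos k with rfl | k0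
  · simp [Multiset.esymm]
  have e := congrArg (MvPolynomial.aeval t) (MvPolynomial.mul_esymm_eq_sum (Fin r) ℂ k)
  simp only [map_mul, map_natCast, map_pow, map_neg, map_one, map_sum,
    MvPolynomial.aeval_esymm_eq_multiset_esymm, MvPolynomial.psum, MvPolynomial.aeval_X] at e
  have e2 := congrArg norm e
  rw [norm_mul, norm_mul, norm_pow, norm_neg, norm_one, one_pow, one_mul, Complex.norm_natCast]
    at e2
  have c : ((antidiagonal k).filter fun a : ℕ × ℕ => a.1 < k).card ≤ k := by
    refine (card_le_card_of_injOn (t := range k) Prod.fst (fun a ha => ?_)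
      (fun a ha b hb hab => ?_)).trans_eq (card_range k)
    · simpa using (mem_filter.1 ha).2
    · have h1 := mem_antidiagonal.1 (mem_filter.1 ha).1
      have h2 := mem_antidiagonal.1 (mem_filter.1 hb).1
      exact Prod.ext hab (by omega)
  have b : (k : ℝ) * ‖(univ.val.map t).esymm k‖ ≤ k * A ^ k := by
    rw [e2]
    refine (norm_sum_le _ _).trans ((sum_le_card_nsmul _ _ (A ^ k) fun a ha => ?_).trans ?_)
    · have h1 := mem_antidiagonal.1 (mem_filter.1 ha).1
      have h2 := (mem_filter.1 ha).2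
      rw [norm_mul, norm_mul, norm_pow, norm_neg, norm_one, one_pow, one_mul, ← h1, pow_add]
      exact mul_le_mul (ih _ h2 (by omega)) (h _ (by omega) (by omega)) (norm_nonneg _)
        (pow_nonneg hA _)
    · rw [nsmul_eq_mul]
      exact mul_le_mul_of_nonneg_right (by exact_mod_cast c) (pow_nonneg hA _)
  exact le_of_mul_le_mul_left b (by exact_mod_cast k0)

theorem bPWR : St_PWR := by
  intro r
  refine ⟨r, by positivity, fun t A hA h j => ?_⟩
  obtain ⟨n, rfl⟩ : ∃ n, r = n + 1 := ⟨r - 1, by have := j.2; omega⟩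
  have n0 : (0 : ℝ) ≤ n := by positivity
  rcases le_or_gt ‖t j‖ A with hx | hx
  · push_cast
    nlinarith
  have x0 : 0 < ‖t j‖ := hA.trans_lt hx
  have e := congrArg (Polynomial.eval (t j))
    (Multiset.prod_X_sub_X_eq_sum_esymm (univ.val.map t))
  have z : Polynomial.eval (t j) ((univ.val.map t).map fun s => Polynomial.X - Polynomial.C s).prod
      = 0 := by
    rw [Polynomial.eval_multiset_prod, Multiset.prod_eq_zero_iff]
    simp only [Multiset.map_map, Multiset.mem_map]
    exact ⟨j, by simp, by simp⟩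
  rw [z, Multiset.card_map, card_val, card_univ, Fintype.card_fin, sum_range_succ'] at e
  simp only [Polynomial.eval_add, Polynomial.eval_finsetSum, Polynomial.eval_mul,
    Polynomial.eval_pow, Polynomial.eval_neg, Polynomial.eval_one, Polynomial.eval_C,
    Polynomial.eval_X, pow_zero, one_mul, Nat.sub_zero] at e
  have e0 : (univ.val.map t).esymm 0 = 1 := by simp [Multiset.esymm]
  rw [e0, one_mul] at e
  have b : ‖t j‖ ^ n * ‖t j‖ ≤ ‖t j‖ ^ n * (((n + 1 : ℕ) : ℝ) * A) := by
    rw [← pow_succ, ← norm_pow, eq_neg_of_add_eq_zero_right e.symm, norm_neg]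
    refine (norm_sum_le _ _).trans ((sum_le_card_nsmul _ _ (‖t j‖ ^ n * A) fun i hi => ?_).trans_eq
      (by rw [card_range, nsmul_eq_mul]; ring))
    have hi' := mem_range.1 hi
    rw [norm_mul, norm_mul, norm_pow, norm_neg, norm_one, one_pow, one_mul, norm_pow]
    calc _ ≤ A ^ (i + 1) * ‖t j‖ ^ (n + 1 - (i + 1)) :=
          mul_le_mul_of_nonneg_right (pwr_esymm t A hA h _ (by omega)) (by positivity)
      _ ≤ ‖t j‖ ^ i * A * ‖t j‖ ^ (n + 1 - (i + 1)) := by
          rw [pow_succ]
          gcongr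
      _ = ‖t j‖ ^ (i + (n + 1 - (i + 1))) * A := by rw [pow_add]; ring
      _ = _ := by rw [show i + (n + 1 - (i + 1)) = n by omega]
  exact le_of_mul_le_mul_left b (by positivity)

end Pool.Agent.Lib.RB9
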