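import Pool.Agent.Lib.RB9.Blue

/-! Project rb9, row SHT: a sheet and the power sums bound each other. -/

open scoped Classical Topology ContDiff ComplexOrder Matrix ENNReal
open Set MeasureTheory Complex Metric Filter

noncomputable section

namespace Pool.Agent.Lib.RB9

open Pool.Agent.Lib.SV (E nsq)
open Pool.Agent.Lib.HS32 Pool.Agent.Lib.FI Pool.Agent.Lib.KH

namespace SHT

variable {n k g : ℕ} {M : Mf n}

theorem fr80 {y₀ y : E g} {R : ℝ} {P : E g → Prop} (h : ∀ᵐ w, w ∈ ball y₀ R → P w)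
    (hy : y ∈ ball y₀ R) : ∃ᶠ w in 𝓝 y, w ∈ ball y₀ R ∧ P w :=
  ((mem_closure_iff_frequently.1 (Measure.dense_of_ae h y)).and_eventually
    (isOpen_ball.mem_nhds hy)).mono fun _ hw => ⟨hw.2, hw.1 hw.2⟩

theorem ca80 {O : Set M.X} {θ : M.X → ℂ} (h : HoK M O θ) {x : M.X} (hx : x ∈ O) :
    ContinuousAt θ x := by
  have a := (h _ (Mf.ch_mem x) _ (Mf.ch_tgt x) (by rwa [Mf.ch_symm])).self_of_nhds.continuousAt
  refine (a.comp ((M.ch x).continuousAt (Mf.mem_ch x))).congr ?_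
  filter_upwards [(M.ch x).open_source.mem_nhds (Mf.mem_ch x)] with w hw
  exact congrArg θ ((M.ch x).left_inv hw)

theorem near80 [M.Cpt] {H : M.Fam (Mat n)} {p : M.X → ℝ} {z : M.X → E k} {S : Set (E k)}
    (b : Box H p z S) {y : E b.g} {s : E k} (hy : y ∈ ball b.y0 b.R) (hs : s ∈ S) (j : Fin b.r)
    {N : Set M.X} (hN : N ∈ 𝓝 (b.a y s j)) :
    ∀ᶠ w in 𝓝 y, w ∈ ball b.y0 b.R → ∃ i, b.a w s i ∈ N := by
  obtain ⟨φ, h0, h1, h2⟩ := exists_continuous_zero_one_of_isClosed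
    (isOpen_interior (s := N)).isClosed_compl (isClosed_singleton (x := b.a y s j))
    (disjoint_singleton_right.2 fun h => h (mem_interior_iff_mem_nhds.2 hN))
  have c : ContinuousWithinAt (fun w => ∑ i, φ (b.a w s i)) (ball b.y0 b.R) y :=
    ContinuousWithinAt.comp (f := fun w : E b.g => (w, s)) (b.con φ φ.continuous (y, s) ⟨hy, hs⟩)
      (by fun_prop) fun w hw => ⟨hw, hs⟩
  have p0 : 0 < ∑ i, φ (b.a y s i) := Finset.sum_pos' (fun i _ => (h2 _).1)
    ⟨j, Finset.mem_univ _, by rw [h1 rfl]; exact one_pos⟩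
  refine (eventually_nhdsWithin_iff.1 (c.eventually (lt_mem_nhds p0))).mono fun w hw h => ?_
  obtain ⟨i, -, hi⟩ := Finset.exists_ne_zero_of_sum_ne_zero (hw h).ne'
  exact ⟨i, interior_subset (not_not.1 fun a => hi (h0 a))⟩

end SHT

open SHT in
theorem bSHT (hPWR : St_PWR) (hDNS : St_DNS) (hLGR : St_LGR) : St_SHT := by
  intro n k M _ H p z θ T m D U S G b L u hp p0 hA hG hu
  obtain ⟨c₀, c0, hc⟩ := hPWR b.r
  have q0 := Real.sqrt_nonneg L.c
  have q2 := Real.sq_sqrt L.c0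
  generalize Real.sqrt L.c = q at q0 q2
  have r0 : (0 : ℝ) ≤ b.r := Nat.cast_nonneg _
  have k0 := mul_nonneg q0 c0
  have k1 := mul_nonneg r0 q0
  refine ⟨1 + (b.r + 1) * q + q * c₀, by nlinarith, fun x hx hz A A0 => ?_⟩
  have hS := (hG hz).1
  have gd := ((hDNS n k M H p z θ T S b L p0).2 _ (hG hz)).2
  have ct := fun l y (hy : y ∈ ball b.y0 b.R) =>
    (((hu l).hy x hx hz).continuousOn.continuousAt (isOpen_ball.mem_nhds hy)).norm
  refine ⟨fun Z hZ hT l l1 y hy => ?_, fun y hy hl j hj => ?_⟩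
  · refine isClosed_Iic.mem_of_frequently_of_tendsto ?_ (ct l y hy)
    refine (fr80 (P := fun w => (∀ j, 0 < p (b.a w (z x) j)) ∧ ∀ j, b.a w (z x) j ∉ Z)
      ((gd.and hZ).mono fun w h hw => ⟨h.1 hw, h.2 hw⟩) hy).mono fun w ⟨hw, h1, h2⟩ => ?_
    have t1 : ∀ j, ‖if θ (b.a w (z x) j) = θ x then L.t (b.a w (z x) j) ^ l else 0‖ ≤
        (q * A) ^ l := fun j => by
      split_ifs with h
      · obtain ⟨f1, f2⟩ := b.fib w hw _ hS j
        rw [norm_pow]
        refine pow_le_pow_left₀ (norm_nonneg _) (abs_le_of_sq_le_sq' ?_ (by positivity)).2 l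
        rw [Complex.sq_norm, mul_pow, q2]
        exact (L.cmp _ f1 (h1 j)).1.trans
          (mul_le_mul_of_nonneg_left (hT _ ⟨h1 j, f2 (h1 j), h⟩ (h2 j)) L.c0)
      · rw [norm_zero]
        positivity
    rw [mem_Iic, (hu l).val x hx hz w hw h1]
    refine (norm_sum_le_of_le _ fun j _ => t1 j).trans ?_
    rw [Finset.sum_const, Finset.card_univ, Fintype.card_fin, nsmul_eq_mul]
    have t2 : (b.r : ℝ) ≤ (b.r + 1) ^ l :=
      (le_add_of_nonneg_right zero_le_one).trans (le_self_pow₀ (by linarith) (by omega))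
    refine le_trans (mul_le_mul_of_nonneg_right t2 (by positivity)) ?_
    rw [← mul_pow, ← mul_assoc]
    exact pow_le_pow_left₀ (by positivity) (mul_le_mul_of_nonneg_right (by linarith) A0) l
  · by_contra hT
    have h1 : (q * c₀ * A) ^ 2 < T (b.a y (z x) j) :=
      lt_of_le_of_lt (pow_le_pow_left₀ (by positivity)
        (mul_le_mul_of_nonneg_right (by nlinarith) A0) 2) (not_le.1 hT)
    have h2 : ContinuousAt (fun t : ℝ => (q * c₀ * t) ^ 2) A := by fun_prop
    obtain ⟨A', a1, a2⟩ := (((h2.eventually (gt_mem_nhds h1)).filter_mono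
      (nhdsWithin_le_nhds (s := Ioi A))).and self_mem_nhdsWithin).exists
    have o1 : {x | 0 < p x} ∈ 𝓝 (b.a y (z x) j) :=
      (isOpen_lt continuous_const hp).mem_nhds hj.1
    have o2 := (hA.tc.continuousAt o1).eventually (lt_mem_nhds a1)
    have o3 := (ca80 hA.hol hj.1).eventually ((((hLGR k m hA.mon).2.2.1 (z x)).subset
      (sdiff_subset (t := {θ x}))).isClosed.isOpen_compl.mem_nhds fun h => h.2 hj.2.2)
    have e1 := near80 b hy hS j (o2.and o3)
    have e2 : ∀ᶠ w in 𝓝 y, ∀ l ∈ Finset.Icc 1 b.r, ‖u l w x‖ < A' ^ l :=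
      (eventually_all_finset _).2 fun l hl' => (ct l y hy).eventually (gt_mem_nhds
        ((hl l (Finset.mem_Icc.1 hl').1 (Finset.mem_Icc.1 hl').2).trans_lt
          (pow_lt_pow_left₀ a2 A0 (by have := (Finset.mem_Icc.1 hl').1; omega))))
    obtain ⟨w, ⟨hw, g1⟩, g2, g3⟩ := ((fr80 gd hy).and_eventually (e1.and e2)).exists
    obtain ⟨i, i1, i2⟩ := g2 hw
    obtain ⟨f1, f2⟩ := b.fib w hw _ hS i
    have i3 : θ (b.a w (z x) i) = θ x := not_not.1 fun h =>
      i2 ⟨by have := hA.rt _ (g1 i); rwa [f2 (g1 i)] at this, h⟩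
    have i4 := hc (fun j => if θ (b.a w (z x) j) = θ x then L.t (b.a w (z x) j) else 0) A'
      (A0.trans a2.le) (fun l l1 l2 => by
        refine le_trans (le_of_eq ?_) (g3 l (Finset.mem_Icc.2 ⟨l1, l2⟩)).le
        rw [(hu l).val x hx hz w hw g1]
        refine congrArg _ (Finset.sum_congr rfl fun j _ => ?_)
        split_ifs
        · rfl
        · exact zero_pow (by omega)) i
    rw [if_pos i3] at i4
    have i5 := (L.cmp _ f1 (g1 i)).2
    rw [← Complex.sq_norm, ← q2, ← mul_pow] at i5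
    refine absurd (i1.trans_le i5) (not_lt.2 (pow_le_pow_left₀ (by positivity) ?_ 2))
    rw [mul_assoc]
    exact mul_le_mul_of_nonneg_left i4 q0

end Pool.Agent.Lib.RB9
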