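import Pool.Agent.Lib.RB9.Blue
import Pool.Agent.Lib.FI.B_CON

/-! Project rb9, row SUB: the bound from the sheets. -/

open scoped Classical Topology ContDiff ComplexOrder Matrix ENNReal
open Set MeasureTheory Complex Metric Filter

set_option linter.unusedVariables false

noncomputable section

namespace Pool.Agent.Lib.RB9

open Pool.Agent.Lib.SV (E nsq)
open Pool.Agent.Lib.HS32 Pool.Agent.Lib.FI Pool.Agent.Lib.KH

namespace SUB

/-- The mean over the large ball bounds the values on the small ball. -/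
theorem core (hM : St_MEAN) {g : ℕ} {y0 : E g} {R : ℝ} {f : E g → ℂ} {φ : E g → ℝ≥0∞}
    (hf : DifferentiableOn ℂ f (ball y0 R))
    (hφ : ∀ᵐ y, y ∈ ball y0 R → ENNReal.ofReal (Real.log ‖f y‖) ≤ φ y) {y : E g}
    (hy : y ∈ ball y0 (R / 2)) :
    ENNReal.ofReal (Real.log ‖f y‖) * volume (ball (0 : E g) (R / 2)) ≤ ∫⁻ w in ball y0 R, φ w := by
  have hin : ∀ w ∈ ball (0 : E g) (R / 2), ∀ u : ℂ, ‖u‖ ≤ 1 → y + u • w ∈ ball y0 R := by
    intro w hw u hu
    rw [mem_ball_zero_iff] at hw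
    rw [mem_ball, dist_eq_norm] at hy ⊢
    have h1 : y + u • w - y0 = (y - y0) + u • w := by abel
    have h2 : ‖u • w‖ ≤ ‖w‖ := by
      rw [norm_smul]
      exact mul_le_of_le_one_left (norm_nonneg _) hu
    rw [h1]
    linarith [norm_add_le (y - y0) (u • w)]
  have h := hM g (ball y0 R) f y ((ball (0 : E g) (R / 2)).indicator 1) isOpen_ball hf
    (measurable_one.indicator measurableSet_ball) (fun u w hu => by
      have : u • w ∈ ball (0 : E g) (R / 2) ↔ w ∈ ball (0 : E g) (R / 2) := by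
        rw [mem_ball_zero_iff, mem_ball_zero_iff, norm_smul, hu, one_mul]
      by_cases hw : w ∈ ball (0 : E g) (R / 2)
      · rw [indicator_of_mem hw, indicator_of_mem (this.2 hw)]
        rfl
      · rw [indicator_of_notMem hw, indicator_of_notMem fun h => hw (this.1 h)])
    (fun w hw u hu => hin w (by
      by_contra h
      exact hw (indicator_of_notMem h _)) u hu)
  rw [lintegral_indicator_one measurableSet_ball] at h
  refine h.trans ?_
  have h2 : ∫⁻ w, (ball (0 : E g) (R / 2)).indicator 1 w * ENNReal.ofReal (Real.log ‖f (y + w)‖) ≤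
      ∫⁻ w, (ball y0 R).indicator (fun w => ENNReal.ofReal (Real.log ‖f w‖)) (y + w) := by
    refine lintegral_mono fun w => ?_
    by_cases hw : w ∈ ball (0 : E g) (R / 2)
    · have := hin w hw 1 (by simp)
      rw [one_smul] at this
      simp only [indicator_of_mem hw, indicator_of_mem this, Pi.one_apply, one_mul, le_refl]
    · simp only [indicator_of_notMem hw, zero_mul, zero_le]
  refine h2.trans ?_
  rw [lintegral_add_left_eq_self
    (fun w => (ball y0 R).indicator (fun w => ENNReal.ofReal (Real.log ‖f w‖)) w) y,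
    lintegral_indicator measurableSet_ball]
  refine lintegral_mono_ae ?_
  rw [ae_restrict_iff' measurableSet_ball]
  exact hφ

theorem one {r : ℕ} {t : ℂ} {P : Fin r → ℝ} {a : ℕ} {A : ℝ} (hA : 0 < A) (hP : ∀ j, 0 < P j)
    (h : t ≠ 0 → ∃ j, ‖t‖ * P j ^ a ≤ A) :
    ENNReal.ofReal (Real.log ‖t / A‖) ≤ a * ∑ j, ENNReal.ofReal (-Real.log (P j)) := by
  by_cases ht : t = 0
  · simp [ht]
  obtain ⟨j, hj⟩ := h ht
  have h0 : 0 < ‖t‖ := norm_pos_iff.2 ht
  have h1 := Real.log_le_log (mul_pos h0 (pow_pos (hP j) a)) hj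
  rw [Real.log_mul h0.ne' (pow_pos (hP j) a).ne', Real.log_pow] at h1
  have h2 : Real.log ‖t / A‖ ≤ a * -Real.log (P j) := by
    rw [norm_div, Complex.norm_real, Real.norm_of_nonneg hA.le, Real.log_div h0.ne' hA.ne']
    linarith
  refine (ENNReal.ofReal_le_ofReal h2).trans ?_
  rw [ENNReal.ofReal_mul (Nat.cast_nonneg a), ENNReal.ofReal_natCast]
  exact mul_le_mul_right (Finset.single_le_sum
    (f := fun j => ENNReal.ofReal (-Real.log (P j))) (fun _ _ => zero_le) (Finset.mem_univ j)) _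

theorem fin {t : ℂ} {A B : ℝ} {a : ℕ} {v : ℝ≥0∞} (hA : 0 < A) (hB : 0 ≤ B) (v0 : v ≠ 0)
    (v1 : v ≠ ⊤) (h : ENNReal.ofReal (Real.log ‖t / A‖) * v ≤ a * ENNReal.ofReal B) :
    ‖t‖ ≤ A * Real.exp (a * B / v.toReal) := by
  have hv : 0 < v.toReal := ENNReal.toReal_pos v0 v1
  have h1 : (a : ℝ≥0∞) * ENNReal.ofReal B ≠ ⊤ :=
    ENNReal.mul_ne_top (ENNReal.natCast_ne_top a) ENNReal.ofReal_ne_top
  have h2 := ENNReal.toReal_mono h1 h
  rw [ENNReal.toReal_mul, ENNReal.toReal_mul, ENNReal.toReal_natCast, ENNReal.toReal_ofReal hB,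
    ENNReal.toReal_ofReal'] at h2
  have h3 : Real.log ‖t / A‖ ≤ a * B / v.toReal := by
    rw [le_div_iff₀ hv]
    exact (mul_le_mul_of_nonneg_right (le_max_left _ _) hv.le).trans h2
  have h4 := (Real.le_exp_log ‖t / A‖).trans (Real.exp_le_exp.2 h3)
  rw [norm_div, Complex.norm_real, Real.norm_of_nonneg hA.le, div_le_iff₀ hA] at h4
  rwa [mul_comm]

theorem meas {n k : ℕ} {M : Mf n} {H : M.Fam (Mat n)} {p : M.X → ℝ} {z : M.X → E k}
    {S : Set (E k)} (b : Box H p z S) (hp : Continuous p) (p0 : ∀ x, 0 ≤ p x) (hS : IsOpen S) :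
    AEMeasurable (fun w : E b.g × E k => ∑ j, ENNReal.ofReal (-Real.log (p (b.a w.1 w.2 j))))
      (volume.restrict (ball b.y0 b.R ×ˢ S)) := by
  have hm : MeasurableSet (ball b.y0 b.R ×ˢ S) := (isOpen_ball.prod hS).measurableSet
  have h1 : AEMeasurable (fun w : E b.g × E k => ∑ j, max 0 (-Real.log (p (b.a w.1 w.2 j))))
      (volume.restrict (ball b.y0 b.R ×ˢ S)) := by
    refine aemeasurable_of_tendsto_metrizable_ae' (f := fun (i : ℕ) (w : E b.g × E k) =>
      ∑ j, max 0 (Real.negMulLog (p (b.a w.1 w.2 j)) / (p (b.a w.1 w.2 j) + 1 / ((i : ℝ) + 1))))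
      (fun i => ?_) (Eventually.of_forall fun w => ?_)
    · refine (b.con (fun x => max 0 (Real.negMulLog (p x) / (p x + 1 / ((i : ℝ) + 1))))
        ?_).aemeasurable hm
      refine continuous_const.max ((Real.continuous_negMulLog.comp hp).div
        (hp.add continuous_const) fun x => ?_)
      have := p0 x
      positivity
    · refine tendsto_finsetSum _ fun j _ => tendsto_const_nhds.max ?_
      rcases (p0 (b.a w.1 w.2 j)).eq_or_lt with h | h
      · rw [← h]
        simp
      · have h2 : Tendsto (fun i : ℕ => p (b.a w.1 w.2 j) + 1 / ((i : ℝ) + 1)) atTop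
            (𝓝 (p (b.a w.1 w.2 j) + 0)) :=
          tendsto_const_nhds.add tendsto_one_div_add_atTop_nhds_zero_nat
        rw [add_zero] at h2
        have h3 := (tendsto_const_nhds (x := Real.negMulLog (p (b.a w.1 w.2 j)))).div h2 h.ne'
        have h4 : Real.negMulLog (p (b.a w.1 w.2 j)) / p (b.a w.1 w.2 j) =
            -Real.log (p (b.a w.1 w.2 j)) := by
          rw [Real.negMulLog]
          field_simp
        rwa [h4] at h3
  refine (ENNReal.measurable_ofReal.comp_aemeasurable h1).congr (Eventually.of_forall fun w => ?_)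
  simp only [Function.comp_apply]
  rw [ENNReal.ofReal_sum_of_nonneg fun j _ => le_max_left _ _]
  refine Finset.sum_congr rfl fun j _ => ?_
  rw [ENNReal.ofReal_max]
  simp

theorem dvc {k : ℕ} {f : E k → ℂ} {S : Set (E k)} (h : DifferentiableOn ℂ f S) (c : ℂ) :
    DifferentiableOn ℂ (fun y => f y / c) S := by
  simp only [div_eq_mul_inv]
  exact h.mul_const _

theorem nsq_smul {k : ℕ} (u : ℂ) (w : E k) : nsq (u • w) = normSq u * nsq w := by
  unfold nsq
  rw [Finset.mul_sum]
  exact Finset.sum_congr rfl fun j _ => by rw [Pi.smul_apply, smul_eq_mul, map_mul]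

theorem sc_rad {k : ℕ} {r Ψ : E k → ℝ} (h : Rad r Ψ) (e : ℝ) (u : ℂ) (w : E k) (hu : ‖u‖ = 1) :
    sc r e (u • w) = sc r e w := by
  unfold sc
  rw [(h.rad (((e⁻¹ : ℝ) : ℂ) • u • w) (((e⁻¹ : ℝ) : ℂ) • w) ?_).1]
  rw [nsq_smul, nsq_smul, nsq_smul, Complex.normSq_eq_norm_sq u, hu]
  ring

theorem nsq_near {k : ℕ} (s w : E k) (hw : ‖w‖ ≤ 1) :
    1 + nsq (s + w) ≤ (2 * k + 2) * (1 + nsq s) := by
  have h0 : 0 ≤ nsq s := Finset.sum_nonneg fun i _ => normSq_nonneg _
  have h1 : nsq (s + w) ≤ ∑ j : Fin k, (2 * normSq (s j) + 2) := by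
    refine Finset.sum_le_sum fun j _ => ?_
    have h2 : ‖w j‖ ≤ 1 := (norm_le_pi_norm w j).trans hw
    rw [Pi.add_apply, Complex.normSq_eq_norm_sq, Complex.normSq_eq_norm_sq]
    have h3 := pow_le_pow_left₀ (norm_nonneg _) (norm_add_le (s j) (w j)) 2
    nlinarith [norm_nonneg (w j), sq_nonneg (‖s j‖ - ‖w j‖)]
  rw [Finset.sum_add_distrib, ← Finset.mul_sum] at h1
  simp only [Finset.sum_const, Finset.card_univ, Fintype.card_fin, nsmul_eq_mul] at h1
  have h4 : ∑ j, normSq (s j) = nsq s := rfl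
  rw [h4] at h1
  have h5 : (0 : ℝ) ≤ k := Nat.cast_nonneg k
  nlinarith [mul_nonneg h5 h0]

end SUB

open SUB in
theorem bSUB (hM : St_MEAN) (hH : St_HB) (hD : St_DNS) : St_SUB := by
  intro n k M _ H p z C V r Ψ D U c₁ c₂ θ T S b L hC hU hDm hS hG
  obtain ⟨c, c0, hb1, hb2⟩ := hH n k M H p z C V r Ψ D U c₁ c₂ S b hC hU hDm hS
  have hd := (hD n k M H p z θ T S b L hC.fb.p0).2
  have v0 : volume (ball (0 : E b.g) (b.R / 2)) ≠ 0 :=
    (measure_ball_pos volume _ (half_pos b.R0)).ne'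
  have v1 : volume (ball (0 : E b.g) (b.R / 2)) ≠ ⊤ := measure_ball_lt_top.ne
  set v := volume (ball (0 : E b.g) (b.R / 2)) with hv
  have vp : 0 < v.toReal := ENNReal.toReal_pos v0 v1
  have nn : ∀ s : E k, 0 ≤ nsq s := fun s => Finset.sum_nonneg fun i _ => normSq_nonneg _
  have lg : ∀ s : E k, 0 ≤ Real.log (1 + nsq s) := fun s => Real.log_nonneg (by linarith [nn s])
  have key : ∀ s ∈ b.G, ∀ (f : E b.g → ℂ) (a : ℕ) (A₀ : ℝ), DifferentiableOn ℂ f (ball b.y0 b.R) →
      0 < A₀ → (∀ y ∈ ball b.y0 b.R, (∀ j, 0 < p (b.a y s j)) → f y ≠ 0 →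
        ∃ j, ‖f y‖ * p (b.a y s j) ^ a ≤ A₀) → ∀ y ∈ ball b.y0 (b.R / 2),
      ENNReal.ofReal (Real.log ‖f y / A₀‖) * v ≤
        a * ∫⁻ y in ball b.y0 b.R, ∑ j, ENNReal.ofReal (-Real.log (p (b.a y s j))) := by
    intro s hs f a A₀ hf hA h y hy
    rw [← lintegral_const_mul' _ _ (ENNReal.natCast_ne_top a)]
    refine core hM (f := fun y => f y / A₀) (dvc hf _) ?_ hy
    filter_upwards [(hd s hs).2] with w hw hw'
    exact one hA (hw hw') (h w hw' (hw hw'))
  refine ⟨c / v.toReal, by positivity, ?_, ?_⟩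
  · intro s hs f a A₀ A hf hA h hAU y hy
    have hA0 : 0 < A₀ := one_pos.trans_le hA
    have h1 : 0 ≤ 1 - A := by linarith [hAU 1 one_pos, hU.up s, lg s]
    have h2 := (key s hs f a A₀ hf hA0 h y hy).trans (mul_le_mul_right (hb1 s hs.1 A hAU) _)
    have h3 := fin hA0 (mul_nonneg c0 h1) v0 v1 h2
    have h4 : a * (c * (1 - A)) / v.toReal = a * (c / v.toReal) * (1 - A) := by ring
    rwa [h4] at h3
  · intro u a β A₀ hu hA h
    have hA0 : 0 < A₀ := one_pos.trans_le hA
    have lA : 0 ≤ Real.log A₀ := Real.log_nonneg hA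
    have k2 : (1 : ℝ) ≤ 2 * k + 2 := by linarith [Nat.cast_nonneg (α := ℝ) k]
    have lk : 0 ≤ Real.log (2 * k + 2) := Real.log_nonneg k2
    refine ⟨Real.log A₀ + β * (Real.log (2 * k + 2) + 1) + a * c / v.toReal, by positivity, ?_⟩
    intro K hK hKG
    obtain ⟨δ, δ0, hδ⟩ := hK.exists_cthickening_subset_open hG hKG
    filter_upwards [Ioc_mem_nhdsGT (lt_min δ0 one_pos)] with e he s hs y hy
    have e0 : 0 < e := he.1
    have e1 : e ≤ 1 := he.2.trans (min_le_right _ _)
    have eδ : e ≤ δ := he.2.trans (min_le_left _ _)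
    have hin : ∀ w : E k, ‖w‖ ≤ e → s + w ∈ b.G := fun w hw =>
      hδ (mem_cthickening_of_dist_le _ s δ K hs (by
        rw [dist_eq_norm, add_sub_cancel_left]
        exact hw.trans eδ))
    have hsup : ∀ w : E k, ENNReal.ofReal (sc r e w) ≠ 0 → ‖w‖ ≤ e := fun w hw => by
      by_contra h'
      rw [CON.sc_zero (fun y hy => (hC.rad.sr y hy).1) e0 (not_le.1 h')] at hw
      exact hw ENNReal.ofReal_zero
    have hy' : y ∈ ball b.y0 b.R := ball_subset_ball (by linarith [b.R0]) hy
    set A' : ℝ := A₀ * ((2 * k + 2) * (1 + nsq s)) ^ β with hA'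
    have q0 : 0 < 1 + nsq s := by linarith [nn s]
    have A'0 : 0 < A' := by positivity
    have tsc := CON.tst_sc hC.rad.tr e0
    have m1 : Measurable fun w => ENNReal.ofReal (sc r e w) :=
      ENNReal.measurable_ofReal.comp tsc.sm.continuous.measurable
    have i1 : ∫⁻ w, ENNReal.ofReal (sc r e w) = 1 := by
      rw [← ofReal_integral_eq_lintegral_ofReal
        (tsc.sm.continuous.integrable_of_hasCompactSupport tsc.cs)
        (Eventually.of_forall (CON.sc_nn hC.rad.r0 e0)), CON.int_sc r e0, hC.rad.one,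
        ENNReal.ofReal_one]
    have hd1 : DifferentiableOn ℂ (fun s' => u (y, s') / A') b.G :=
      dvc (f := fun s' => u (y, s')) (hu.comp ((differentiableOn_const y).prodMk differentiableOn_id)
        fun s' hs' => ⟨hy', hs'⟩) _
    have h1 := hM k b.G (fun s' => u (y, s') / A') s (fun w => ENNReal.ofReal (sc r e w)) hG hd1 m1
      (fun u w hu => by rw [sc_rad hC.rad e u w hu]) (fun w hw u hu => hin _ (by
        rw [norm_smul]
        exact (mul_le_of_le_one_left (norm_nonneg _) hu).trans (hsup w hw)))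
    rw [i1, mul_one] at h1
    set I : E k → ℝ≥0∞ := fun s' =>
      ∫⁻ y in ball b.y0 b.R, ∑ j, ENNReal.ofReal (-Real.log (p (b.a y s' j))) with hI
    have h2 : (∫⁻ w, ENNReal.ofReal (sc r e w) * ENNReal.ofReal (Real.log ‖u (y, s + w) / A'‖)) * v ≤
        a * ∫⁻ w, S.indicator (fun s' => ENNReal.ofReal (sc r e (s - s')) * I s') (s + w) := by
      rw [← lintegral_mul_const' _ _ v1, ← lintegral_const_mul' _ _ (ENNReal.natCast_ne_top a)]
      refine lintegral_mono fun w => ?_
      by_cases hw : ENNReal.ofReal (sc r e w) = 0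
      · simp only [hw, zero_mul, zero_le]
      have hw1 := hsup w hw
      have hw2 := hin w hw1
      have h3 := key (s + w) hw2 (fun y => u (y, s + w)) a A'
        (hu.comp (differentiableOn_id.prodMk (differentiableOn_const _))
          fun y' hy' => ⟨hy', hw2⟩) A'0 (fun y' hy' hp hne => by
            obtain ⟨j, hj⟩ := h y' hy' (s + w) hw2 hp hne
            refine ⟨j, hj.trans (mul_le_mul_of_nonneg_left ?_ hA0.le)⟩
            exact pow_le_pow_left₀ (by linarith [nn (s + w)]) (nsq_near s w (hw1.trans e1)) β) y hy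
      have h4 : s - (s + w) = (-1 : ℂ) • w := by
        rw [neg_one_smul]
        abel
      simp only [indicator_of_mem hw2.1]
      rw [h4, sc_rad hC.rad e (-1) w (by simp), mul_assoc, mul_left_comm (a : ℝ≥0∞)]
      exact mul_le_mul_right h3 _
    rw [lintegral_add_left_eq_self
      (fun w => S.indicator (fun s' => ENNReal.ofReal (sc r e (s - s')) * I s') w) s,
      lintegral_indicator hS.measurableSet] at h2
    have m2 : AEMeasurable (fun w : E b.g × E k => ENNReal.ofReal (sc r e (s - w.2)) *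
        ∑ j, ENNReal.ofReal (-Real.log (p (b.a w.1 w.2 j))))
        ((volume.restrict (ball b.y0 b.R)).prod (volume.restrict S)) := by
      rw [Measure.prod_restrict]
      exact (m1.comp (measurable_const.sub measurable_snd)).aemeasurable.mul
        (meas b hC.fb.sp.continuous hC.fb.p0 hS)
    have h5 : ∫⁻ s' in S, ENNReal.ofReal (sc r e (s - s')) * I s' ≤
        ENNReal.ofReal (c * (1 - U e s)) := by
      refine le_trans (le_of_eq ?_) (hb2 e ⟨e0, e1⟩ s)
      rw [Measure.volume_eq_prod, ← Measure.prod_restrict, lintegral_prod_symm _ m2]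
      refine lintegral_congr fun s' => ?_
      simp only [hI]
      rw [lintegral_const_mul' _ _ ENNReal.ofReal_ne_top]
    have u1 : Real.log (1 + nsq s) ≤ -U e s := by linarith [hU.up s, hU.mono e 1 s e0 e1]
    have u0 : 0 ≤ -U e s := (lg s).trans u1
    have h6 := fin A'0 (mul_nonneg c0 (by linarith : 0 ≤ 1 - U e s)) v0 v1
      (((mul_le_mul_left h1 v).trans h2).trans (mul_le_mul_right h5 _))
    refine h6.trans ?_
    rw [← Real.exp_log A'0, ← Real.exp_add, Real.exp_le_exp, hA', Real.log_mul hA0.ne' (by positivity),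
      Real.log_pow, Real.log_mul (by positivity) q0.ne']
    have b0 : (0 : ℝ) ≤ β := Nat.cast_nonneg β
    have h7 : a * (c * (1 - U e s)) / v.toReal = a * c / v.toReal * (1 - U e s) := by ring
    rw [h7]
    nlinarith [mul_nonneg lA u0, mul_nonneg (mul_nonneg b0 lk) u0, mul_le_mul_of_nonneg_left u1 b0]

end Pool.Agent.Lib.RB9
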