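import Pool.Agent.Lib.RB9.Blue

/-! Project rb9, row T9U: the potential exists. -/

noncomputable section

namespace Pool.Agent.Lib.RB9

theorem bT9U (hGDO : St_GDO) (hLOG : St_LOG) (hGLO : St_GLO) (hUP : St_UP) : St_T9U := by
  intro n k M _ H p z C V r Ψ θ T m D S c L s₀ h hA hs hg
  obtain ⟨g1, g2⟩ := hGDO n k M H p z C V r Ψ h
  obtain ⟨x, hx, -⟩ := g1 s₀ hg
  obtain ⟨ε, e0, hε⟩ := hLOG n k M H p z C V r Ψ θ T S c L s₀ h hs
    fun i => (g2 S (c.b i) c.oV).2 s₀ hs hg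
  refine hUP n k M H p z C V r Ψ D h (fun e => hA.d0 x hx ?_)
    (hGLO n k M H p z C V r Ψ s₀ ε h e0 hε)
  rw [e, map_zero]

end Pool.Agent.Lib.RB9
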