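import Pool.Agent.Lib.RB9.Blue
import Pool.Agent.Lib.FI.B_CNV
import Pool.Agent.Lib.FI.B_SMO
import Pool.Agent.Lib.FI.B_CON

/-! Project rb9, row U0: the potential without regularisation. -/

open scoped Classical Topology ContDiff ComplexOrder Matrix ENNReal
open Set MeasureTheory Complex Metric Filter

noncomputable section

namespace Pool.Agent.Lib.RB9

open Pool.Agent.Lib.SV (E nsq)
open Pool.Agent.Lib.HS32 Pool.Agent.Lib.FI Pool.Agent.Lib.FI.CNV

namespace U0

variable {k : ℕ} {Ω : Type} [MeasurableSpace Ω] {m : Measure Ω} {z : Ω → E k} {p w : Ω → ℝ}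
  {P : ℝ}

theorem lgb {x P d : ℝ} (hx : 0 < x) (hP : x ≤ P) (h0 : 0 ≤ d) (h1 : d ≤ 1) :
    |Real.log (x + d)| ≤ |Real.log x| + Real.log (P + 1) := by
  have a1 : Real.log x ≤ Real.log (x + d) := Real.log_le_log hx (by linarith)
  have a2 : Real.log (x + d) ≤ Real.log (P + 1) := Real.log_le_log (by linarith) (by linarith)
  have a3 : 0 ≤ Real.log (P + 1) := Real.log_nonneg (by linarith)
  exact abs_le.2 ⟨by linarith [neg_abs_le (Real.log x)], by linarith [abs_nonneg (Real.log x)]⟩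

/-- The densities. -/
def lw (p w : Ω → ℝ) (d : ℝ) (x : Ω) : ℂ := ((Real.log (p x + d) * w x : ℝ) : ℂ)

/-- The hypotheses. -/
structure Hp (m : Measure Ω) (z : Ω → E k) (p w : Ω → ℝ) (P : ℝ) : Prop where
  h1 : Hy m z fun x => (w x : ℂ)
  h0 : Hy m z (lw p w 0)
  mp : AEMeasurable p m
  ae : ∀ᵐ x ∂m, 0 < p x ∧ p x ≤ P ∧ 0 ≤ w x

theorem Hp.ms (h : Hp m z p w P) (d : ℝ) : AEStronglyMeasurable (lw p w d) m :=
  ((continuous_ofReal.comp_aestronglyMeasurable
    (h.mp.add_const d).log.aestronglyMeasurable).mul h.h1.ms).congr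
    (.of_forall fun x => by simp [lw])

theorem Hp.nb (h : Hp m z p w P) {d : ℝ} (h0 : 0 ≤ d) (h1 : d ≤ 1) :
    ∀ᵐ x ∂m, ‖lw p w d x‖ ≤ ‖lw p w 0 x‖ + Real.log (P + 1) * ‖(w x : ℂ)‖ :=
  h.ae.mono fun x hx => by
    simp only [lw, norm_real, norm_mul, Real.norm_eq_abs, add_zero, ← add_mul]
    exact mul_le_mul_of_nonneg_right (lgb hx.1 hx.2.1 h0 h1) (abs_nonneg _)

theorem Hp.hy (h : Hp m z p w P) {d : ℝ} (h0 : 0 ≤ d) (h1 : d ≤ 1) : Hy m z (lw p w d) :=
  ⟨h.h1.hz, fun R => ((h.h0.ha R).norm.add ((h.h1.ha R).norm.const_mul _)).mono'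
    (h.ms d).restrict (ae_restrict_of_ae (h.nb h0 h1))⟩

theorem sqn (i : ℕ) : (0 : ℝ) < 1 / (i + 1) ∧ 1 / ((i : ℝ) + 1) ≤ 1 :=
  ⟨Nat.one_div_pos_of_nat, (div_le_one (by positivity)).2 (le_add_of_nonneg_left i.cast_nonneg)⟩

theorem Hp.lim (h : Hp m z p w P) {K : E k → ℂ} (hK : Continuous K) (hc : HasCompactSupport K)
    (y : E k) : Tendsto (fun i : ℕ => cv m z (lw p w (1 / (i + 1))) K y) atTop
      (𝓝 (cv m z (lw p w 0) K y)) := by
  refine tendsto_integral_of_dominated_convergence _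
    (fun i => (h.hy (sqn i).1.le (sqn i).2).am hK y)
    ((h.h0.itg hK hc y).norm.add ((h.h1.itg hK hc y).norm.const_mul (Real.log (P + 1))))
    (fun i => (h.nb (sqn i).1.le (sqn i).2).mono fun x hx => ?_) (h.ae.mono fun x hx => ?_)
  · simp only [norm_smul, Pi.add_apply, ← mul_assoc, ← add_mul]
    exact mul_le_mul_of_nonneg_right hx (norm_nonneg _)
  · have c : ContinuousAt (fun d : ℝ => lw p w d x • K (y - z x)) 0 :=
      (continuous_ofReal.continuousAt.comp (((continuousAt_const.add continuousAt_id).log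
        (by simpa using hx.1.ne')).mul continuousAt_const)).smul continuousAt_const
    exact c.tendsto.comp tendsto_one_div_add_atTop_nhds_zero_nat

theorem ton [SFinite m] {a : Ω → ℂ} (h : Hy m z a) (ρ : ℝ) : ∃ T : ℝ≥0∞, T ≠ ⊤ ∧
    ∀ (s : E k → ℝ) (B : Set (E k)), Tst s → (∀ w, 0 ≤ s w) → ∫ w, s w = 1 →
      (∀ w, 1 < ‖w‖ → s w = 0) → MeasurableSet B → (∀ y ∈ B, ‖y‖ ≤ ρ) →
      ∫⁻ y in B, ‖cv m z a (fun w => (s w : ℂ)) y‖ₑ ≤ T := by
  refine ⟨_, (h.ball 0 (ρ + 1)).2.ne, fun s B hs s0 s1 sz hB hρ => ?_⟩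
  have c := hs.sm.continuous
  calc _ ≤ ∫⁻ y in B, ∫⁻ x, ‖a x‖ₑ * ENNReal.ofReal (s (y - z x)) ∂m :=
        lintegral_mono fun y => (enorm_integral_le_lintegral_enorm _).trans
          (lintegral_mono fun x => by
            rw [enorm_smul, ← Real.enorm_of_nonneg (s0 _), ← ofReal_norm (s _),
              ← ofReal_norm (s _ : ℂ), norm_real])
    _ = ∫⁻ x, (∫⁻ y in B, ‖a x‖ₑ * ENNReal.ofReal (s (y - z x))) ∂m :=
        lintegral_lintegral_swap (h.ms.enorm.comp_snd.mul (c.measurable.comp_aemeasurable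
          (measurable_fst.aemeasurable.sub h.hz.comp_snd)).ennreal_ofReal)
    _ ≤ ∫⁻ x, indicator {x | ‖0 - z x‖ ≤ ρ + 1} (fun x => ‖a x‖ₑ) x ∂m :=
        lintegral_mono fun x => by
          rw [lintegral_const_mul' _ _ enorm_ne_top]
          by_cases hx : x ∈ {x | ‖0 - z x‖ ≤ ρ + 1}
          · rw [indicator_of_mem hx]
            refine mul_le_of_le_one_right' ((setLIntegral_le_lintegral _ _).trans_eq ?_)
            rw [lintegral_sub_right_eq_self (fun y => ENNReal.ofReal (s y)),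
              ← ofReal_integral_eq_lintegral_ofReal (c.integrable_of_hasCompactSupport hs.cs)
                (.of_forall s0), s1, ENNReal.ofReal_one]
          · rw [setLIntegral_congr_fun hB (g := fun _ => 0) fun y hy => ?_, lintegral_zero, mul_zero]
            · exact zero_le
            · have h1 : ρ + 1 < ‖0 - z x‖ := not_le.1 hx
              have h2 := norm_sub_le (y - z x) y
              rw [sub_sub_cancel_left, ← zero_sub] at h2
              rw [sz _ (by linarith [hρ y hy]), ENNReal.ofReal_zero]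
    _ ≤ _ := lintegral_indicator_le _ _

theorem psd {A : ℕ → Mat k} {B : Mat k} (hA : ∀ i, (A i).PosSemidef) (hB : B.IsHermitian)
    (h : ∀ a b, Tendsto (fun i => A i a b) atTop (𝓝 (B a b))) : B.PosSemidef := by
  refine .of_dotProduct_mulVec_nonneg hB fun x => ?_
  have c : Continuous fun T : Mat k => star x ⬝ᵥ T *ᵥ x := by fun_prop
  exact ge_of_tendsto' ((c.tendsto B).comp (tendsto_pi_nhds.2 fun a => tendsto_pi_nhds.2 (h a)))
    fun i => (hA i).dotProduct_mulVec_nonneg x

theorem fin {U : ℝ → E k → ℝ} (hc : ∀ e, 0 < e → Continuous (U e))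
    (hm : ∀ e e' y, 0 < e → e ≤ e' → U e y ≤ U e' y)
    (h : ∀ R : ℕ, ∃ T : ℝ≥0∞, T ≠ ⊤ ∧ ∀ e, 0 < e → e ≤ 1 →
      ∫⁻ y in {y | nsq y ≤ R}, ENNReal.ofReal (U 1 y - U e y) ≤ T) : ∀ᵐ y, Fin' U y := by
  have ms := fun i : ℕ => ((hc 1 one_pos).sub (hc _ (sqn i).1)).measurable.ennreal_ofReal
  have h1 : ∀ R : ℕ, ∀ᵐ y, y ∈ {y : E k | nsq y ≤ R} → Fin' U y := fun R => by
    obtain ⟨T, t1, t2⟩ := h R
    refine (ae_restrict_iff' (isClosed_le cont_nsq continuous_const).measurableSet).1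
      ((ae_lt_top (.iSup ms) (ne_top_of_le_ne_top t1 ?_)).mono fun y hy => ?_)
    · rw [lintegral_iSup ms fun i j ij y => ENNReal.ofReal_le_ofReal (sub_le_sub_left
        (hm _ _ y (sqn j).1 (Nat.one_div_le_one_div ij)) _)]
      exact iSup_le fun i => t2 _ (sqn i).1 (sqn i).2
    · refine ⟨_, fun e he => (exists_nat_one_div_lt he).elim fun i hi =>
        (sub_le_comm.1 ((ENNReal.ofReal_le_iff_le_toReal hy.ne).1 (le_iSup
          (fun i : ℕ => ENNReal.ofReal (U 1 y - U (1 / (i + 1)) y)) i))).trans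
          (hm _ _ y (sqn i).1 hi.le)⟩
  exact (ae_all_iff.2 h1).mono fun y hy => (exists_nat_ge (nsq y)).elim hy

end U0

open U0 in
theorem bU0 (hC : FI.St_CNV) (hU : FI.St_UPS) (hB : FI.St_BAS) (hI : FI.St_ITG) : St_U0 := by
  intro n k M _ H p z C V r Ψ ⟨hF, hV, hR, hJ, v0⟩ hL
  have := (mMU n M H hF.kae.toMet).2.1
  obtain ⟨hO, hz0, -⟩ := hB n k M H p z C hF
  obtain ⟨v, c, U, hv, c0, eU, sU, mU, ⟨c', bU⟩, gU⟩ := hU n k M H p z C V r Ψ p hF hV hR hJ
  obtain ⟨x0, hx0⟩ := hF.sp.exists_max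
  set m := (M.mu H).restrict {x | 0 < p x}
  have zm : AEMeasurable z m := hz0.aemeasurable hO.measurableSet
  have nm : ∀ R : ℝ, NullMeasurableSet {x | nsq (z x) ≤ R} m := fun R =>
    nullMeasurableSet_le (cont_nsq.measurable.comp_aemeasurable zm) aemeasurable_const
  have h : Hp m z p (dn H z) (p x0) := ⟨⟨zm, fun R => ?_⟩, ⟨zm, fun R => ?_⟩,
    hF.sp.continuous.aemeasurable, (ae_restrict_mem hO.measurableSet).mono fun x hx =>
      ⟨hx, hx0 x, ((hJ.pos x).1 hx).2.le⟩⟩
  rotate_left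
  · obtain ⟨θ, t1, t2, t3⟩ := SMO.bump (k := k) R
    refine Integrable.congr (Integrable.restrict
      (hI n k M H p z C (fun _ => 1) θ hF continuous_const t1 t2).1)
      ((ae_restrict_mem₀ (nm R)).mono fun x hx => ?_)
    simp only [t3 _ hx, one_mul]
  · rw [IntegrableOn, Measure.restrict_restrict₀ (nm R), inter_comm]
    refine (hL R).ofReal.congr (.of_forall fun x => ?_)
    simp only [lw, add_zero]
    rfl
  have tK : ∀ {e : ℝ}, 0 < e → Ts fun w => (sc r e w : ℂ) := fun he =>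
    ⟨ofRealCLM.contDiff.comp (SMO.tst_sc hR.tr he).sm,
      (SMO.tst_sc hR.tr he).cs.comp_left ofReal_zero⟩
  have eF : ∀ d e y, (fi H p z r (fun x => Real.log (p x + d)) e y : ℂ) =
      cv m z (lw p (dn H z) d) (fun w => (sc r e w : ℂ)) y := fun d e y => by
    rw [fi, ← integral_complex_ofReal]
    exact integral_congr_ae (.of_forall fun x => by simp only [lw, smul_eq_mul]; push_cast; ring)
  have eC : ∀ d e, (fun y => (U d e y : ℂ)) = fun y =>
      cv m z (lw p (dn H z) d) (fun w => (sc r e w : ℂ)) y + c * v e y := fun d e =>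
    funext fun y => by rw [eU, ofReal_add, ofReal_mul, eF]
  have lim : ∀ {e : ℝ}, 0 < e → ∀ y,
      Tendsto (fun i : ℕ => U (1 / (i + 1)) e y) atTop (𝓝 (U 0 e y)) := fun {e} he y => by
    have := (continuous_re.tendsto _).comp ((h.lim (tK he).1.continuous (tK he).2 y).add_const
      ((c : ℂ) * v e y))
    simp only [Function.comp_def, ← congrFun (eC _ e) y, ofReal_re] at this
    exact this
  have le : ∀ {d e e' : ℝ} (y), 0 < d → 0 < e → e ≤ e' → U 0 e y ≤ U d e' y :=
    fun {d e e'} y hd he ee => le_of_tendsto (lim he y)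
      ((tendsto_one_div_add_atTop_nhds_zero_nat.eventually_le_const hd).mono fun i hi =>
        mU _ _ _ _ y (sqn i).1 hi he ee)
  have sm : ∀ e, 0 < e → ContDiff ℝ ∞ (U 0 e) := fun e he => by
    have : ContDiff ℝ ∞ fun y => (U 0 e y : ℂ) := eC 0 e ▸ (h.h0.sm (tK he)).add
      (contDiff_const.mul (ofRealCLM.contDiff.comp (hv.sm e he).1))
    exact reCLM.contDiff.comp this
  have mo : ∀ e e' y, 0 < e → e ≤ e' → U 0 e y ≤ U 0 e' y := fun e e' y he ee =>
    ge_of_tendsto' (lim (he.trans_le ee) y) fun i => le y (sqn i).1 he ee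
  have eH : ∀ {d e : ℝ}, 0 ≤ d → d ≤ 1 → 0 < e → ∀ y a b, hr (U d e) y a b =
      cv m z (lw p (dn H z) d) (fun w => hess (fun w => (sc r e w : ℂ)) w a b) y +
        c * hr (v e) y a b := fun {d e} h0 h1 he y a b => by
    have t := cd_ofReal (z := y) (hv.sm e he).1.contDiffAt
    rw [hr, eC, hess_add ((h.hy h0 h1).sm (tK he)).contDiffAt (contDiffAt_const.mul t),
      hess_const_mul _ t, Matrix.add_apply, (h.hy h0 h1).hs (tK he)]
    rfl
  obtain ⟨cv', uv⟩ := hv.up
  have l2 : 0 < Real.log 2 := Real.log_pos one_lt_two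
  have lg : ∀ y : E k, Real.log 2 ≤ Real.log (2 + nsq y) := fun y => Real.log_le_log two_pos
    (le_add_of_nonneg_right (Finset.sum_nonneg fun _ _ => normSq_nonneg _))
  have L0 : 0 ≤ Real.log (p x0 + 1) := Real.log_nonneg (le_add_of_nonneg_left (hF.p0 x0))
  have q0 : 0 ≤ Real.log (p x0 + 1) * V / Real.log 2 + c * |cv'| := by positivity
  refine ⟨U 0, |c'| + (Real.log (p x0 + 1) * V / Real.log 2 + c * |cv'|), by positivity,
    fun e he => ⟨sm e he, fun y => psd (fun i => (sU _ e (sqn i).1 he).2 y)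
      (hess_herm (sm e he).contDiffAt) fun a b => ?_⟩, mo, fun y => ?_,
    fin (fun e he => (sm e he).continuous) mo fun R => ?_, fun y ⟨A, hA⟩ => ?_,
    fun e ⟨he, e1⟩ y => ?_⟩
  · simp only [eH (sqn _).1.le (sqn _).2 he, eH le_rfl zero_le_one he]
    exact (h.lim (continuous_iff_continuousAt.2 fun w =>
      (smM_hess (tK he).1.contDiffAt a b).continuousAt) (SMO.cs_hess (tK he).2 a b) y).add_const _
  · exact ((le y one_pos one_pos le_rfl).trans (bU y)).trans (mul_le_mul_of_nonneg_right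
      ((le_abs_self _).trans (le_add_of_nonneg_right q0)) (l2.le.trans (lg y)))
  · obtain ⟨T, t1, t2⟩ := ton h.h0 (|(R : ℝ)| + 1)
    obtain ⟨cR, lo⟩ := hv.lo R
    have cl : IsClosed {y : E k | nsq y ≤ R} := isClosed_le cont_nsq continuous_const
    have cp : IsCompact {y : E k | nsq y ≤ R} := (isCompact_closedBall 0 _).of_isClosed_subset cl
      fun y hy => mem_closedBall_zero_iff.2 (le_nsq hy)
    have iv : ∀ {e : ℝ}, 0 < e → IntegrableOn (v e) {y | nsq y ≤ R} := fun he =>
      (hv.sm _ he).1.continuous.continuousOn.integrableOn_compact cp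
    have t3 := fun {e : ℝ} (he : 0 < e) (e1 : e ≤ 1) => t2 _ _ (SMO.tst_sc hR.tr he)
      (CON.sc_nn hR.r0 he) ((SMO.int_sc he).trans hR.one) (fun w hw => CON.sc_zero
        (fun y hy => (hR.sr y hy).1) he (e1.trans_lt hw)) cl.measurableSet fun y hy => le_nsq hy
    refine ⟨T + T + ENNReal.ofReal (c * ((∫ y in {y | nsq y ≤ R}, v 1 y) + cR)), by finiteness,
      fun e he e1 => ?_⟩
    calc _ ≤ ∫⁻ y in {y | nsq y ≤ R},
          ‖cv m z (lw p (dn H z) 0) (fun w => (sc r 1 w : ℂ)) y‖ₑ +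
          ‖cv m z (lw p (dn H z) 0) (fun w => (sc r e w : ℂ)) y‖ₑ +
          ENNReal.ofReal (c * (v 1 y - v e y)) := lintegral_mono fun y => by
          simp only [← eF, ← ofReal_norm, norm_real, Real.norm_eq_abs, eU]
          rw [← ENNReal.ofReal_add (abs_nonneg _) (abs_nonneg _)]
          refine (ENNReal.ofReal_le_ofReal ?_).trans ENNReal.ofReal_add_le
          linarith [le_abs_self (fi H p z r (fun x => Real.log (p x + 0)) 1 y),
            neg_abs_le (fi H p z r (fun x => Real.log (p x + 0)) e y)]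
      _ ≤ _ := by
          have i1 : IntegrableOn (fun y => c * (v 1 y - v e y)) {y | nsq y ≤ R} :=
            ((iv one_pos).sub (iv he)).const_mul c
          rw [lintegral_add_right' _ i1.aemeasurable.ennreal_ofReal, lintegral_add_left
            (h.h0.sm (tK one_pos)).continuous.measurable.enorm,
            ← ofReal_integral_eq_lintegral_ofReal i1 (.of_forall fun y =>
              mul_nonneg c0 (sub_nonneg.2 (hv.mono _ _ y he e1))), integral_const_mul,
            integral_sub (iv one_pos) (iv he)]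
          exact add_le_add (add_le_add (t3 one_pos le_rfl) (t3 he e1)) (ENNReal.ofReal_le_ofReal
            (mul_le_mul_of_nonneg_left (by linarith [lo e he e1]) c0))
  · by_contra hy
    obtain ⟨d, e, hd, he, h1⟩ := gU y hy (A - 1)
    linarith [hA e he, le y hd he le_rfl]
  · have i0 := ((h.h0.itg (tK he).1.continuous (tK he).2 y).re).congr
      (g := fun x => Real.log (p x + 0) * sc r e (y - z x) * dn H z x) (.of_forall fun x => by
        simp only [lw, smul_eq_mul, ← ofReal_mul, RCLike.re_to_complex, ofReal_re]; ring)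
    have i1 := ((h.h1.itg (tK he).1.continuous (tK he).2 y).re).congr
      (g := fun x => 1 * sc r e (y - z x) * dn H z x) (.of_forall fun x => by
        simp only [smul_eq_mul, ← ofReal_mul, RCLike.re_to_complex, ofReal_re]; ring)
    have e2 := ((bSMO hB hI hC n k M H p z C V r Ψ hF hV hR).1 e y he).1
    have i2 := (i1.const_mul (Real.log (p x0 + 1))).sub i0
    have a1 : ∀ᵐ x ∂m, 0 ≤ Real.log (p x0 + 1) * (1 * sc r e (y - z x) * dn H z x) ∧
        Real.log (p x + 0) * sc r e (y - z x) * dn H z x ≤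
          Real.log (p x0 + 1) * (1 * sc r e (y - z x) * dn H z x) := h.ae.mono fun x hx => by
      have s := mul_nonneg (CON.sc_nn hR.r0 he (y - z x)) hx.2.2
      rw [one_mul, mul_assoc]
      exact ⟨mul_nonneg L0 s, mul_le_mul_of_nonneg_right
        (Real.log_le_log (by linarith [hx.1]) (by linarith [hx.2.1])) s⟩
    refine (lintegral_mono_ae (a1.mono fun x hx => ENNReal.ofReal_le_ofReal ?_)).trans
      ((ofReal_integral_eq_lintegral_ofReal i2 (a1.mono fun x hx => sub_nonneg.2 hx.2)).symm.trans_le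
        (ENNReal.ofReal_le_ofReal ?_))
    · simp only [Pi.sub_apply, add_zero] at hx ⊢
      linarith [hx.1]
    · rw [integral_sub' (i1.const_mul _) i0, integral_const_mul, eU]
      change _ * fi H p z r (fun _ => 1) e y - fi H p z r (fun x => Real.log (p x + 0)) e y ≤ _
      have b1 := mul_le_mul_of_nonneg_left (lg y)
        (show 0 ≤ Real.log (p x0 + 1) * V / Real.log 2 by positivity)
      have b2 := mul_le_mul_of_nonneg_left (((hv.mono _ _ y he e1).trans (uv y)).trans
        (mul_le_mul_of_nonneg_right (le_abs_self cv') (l2.le.trans (lg y)))) c0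
      rw [div_mul_cancel₀ _ l2.ne'] at b1
      rw [e2]
      nlinarith [mul_nonneg (abs_nonneg c') (l2.le.trans (lg y))]

end Pool.Agent.Lib.RB9
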