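import Pool.Agent.Lib.RB9.Blue
import Pool.Agent.Lib.HS32.EKit
import Pool.Agent.Lib.HS32.B_LAP

/-! The global weight. -/

open scoped Classical Topology ContDiff ComplexOrder Matrix ENNReal
open Set MeasureTheory Complex Metric Filter

set_option linter.unusedVariables false

noncomputable section

namespace Pool.Agent.Lib.RB9

open Pool.Agent.Lib.SV (E nsq)
open Pool.Agent.Lib.HS32 Pool.Agent.Lib.FI Pool.Agent.Lib.KH

namespace WGT

variable {n k : ℕ} {f g : E n → ℝ} {w : E n}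

/-- The square of the gradient. -/
def dr (f : E n → ℝ) (w : E n) : Mat n := dd (fun x => (f x : ℂ)) (fun x => (f x : ℂ)) w

theorem rs (a : ℝ) (A : Mat n) : (a : ℂ) • A = a • A := by
  ext i j; simp

theorem hr_add (hf : ContDiffAt ℝ ∞ f w) (hg : ContDiffAt ℝ ∞ g w) :
    hr (fun x => f x + g x) w = hr f w + hr g w := by
  simp only [hr, ofReal_add]
  exact hess_add (cd_ofReal hf) (cd_ofReal hg)

theorem hr_mul (a : ℝ) (hf : ContDiffAt ℝ ∞ f w) : hr (fun x => a * f x) w = a • hr f w := by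
  simp only [hr, ofReal_mul]
  rw [hess_const_mul _ (cd_ofReal hf), rs]

theorem hr_const (a : ℝ) : hr (fun _ : E n => a) w = 0 := hess_const _

theorem hr_congr (e : f =ᶠ[𝓝 w] g) : hr f w = hr g w :=
  hess_congr (e.mono fun x h => by simp only [h])

theorem hr_comp {φ : ℝ → ℝ} (hf : ContDiffAt ℝ ∞ f w) (hφ : ContDiff ℝ ∞ φ) :
    hr (fun x => φ (f x)) w = deriv φ (f w) • hr f w + deriv (deriv φ) (f w) • dr f w := by
  have := BLAP.hess_comp hf fun x => hφ.contDiffAt (x := f x)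
  rw [rs, rs] at this
  exact this

theorem dr_psd (hf : ContDiffAt ℝ ∞ f w) : (dr f w).PosSemidef := by
  have : dr f w = Matrix.vecMulVec (star fun j => dz j (fun x => (f x : ℂ)) w)
      fun j => dz j (fun x => (f x : ℂ)) w := by
    ext i j
    have b := star_dz_ofReal (j := i) (u := f) (cd_diff (cd_ofReal hf))
    change dzb i (fun x => (f x : ℂ)) w * _ = star (dz i (fun x => (f x : ℂ)) w) * _
    rw [b]
  rw [this]
  exact Matrix.posSemidef_vecMulVec_star_self _

theorem der_sc {φ : ℝ → ℝ} (hφ : Differentiable ℝ φ) (L : ℝ) :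
    deriv (fun t => φ (t / L)) = fun t => deriv φ (t / L) / L := by
  funext t
  have := ((hφ (t / L)).hasDerivAt.comp t ((hasDerivAt_id t).div_const L)).deriv
  rw [show (fun t => φ (t / L)) = φ ∘ fun x => id x / L from rfl, this]
  ring

theorem hr_sc {φ : ℝ → ℝ} (hf : ContDiffAt ℝ ∞ f w) (hφ : ContDiff ℝ ∞ φ) (L : ℝ) :
    hr (fun x => φ (f x / L)) w = (deriv φ (f w / L) / L) • hr f w +
      (deriv (deriv φ) (f w / L) / L ^ 2) • dr f w := by
  have d1 : Differentiable ℝ φ := hφ.differentiable (by simp)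
  have d2 : Differentiable ℝ (deriv φ) := fun t => BLAP.diff_deriv hφ.contDiffAt
  have := hr_comp (φ := fun t => φ (t / L)) hf (hφ.comp (contDiff_id.div_const L))
  rw [this, der_sc d1, deriv_div_const, der_sc d2]
  simp only [div_div, sq]

theorem far {Hv Hu Hl Du : Mat n} {m a b c c₁ : ℝ} (h1 : Hv.PosSemidef)
    (h2 : (Hu + c₁ • Hl).PosSemidef) (h3 : Hl.PosSemidef) (h4 : Du.PosSemidef) (hm : 0 ≤ m)
    (ha : 0 ≤ a) (hb : 0 ≤ b) (hc : a * c₁ ≤ c) :
    (m • Hv + (a • Hu + b • Du) + c • Hl).PosSemidef := by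
  have : m • Hv + (a • Hu + b • Du) + c • Hl =
      m • Hv + a • (Hu + c₁ • Hl) + b • Du + (c - a * c₁) • Hl := by module
  rw [this]
  exact (((h1.smul hm).add (h2.smul ha)).add (h4.smul hb)).add (h3.smul (by linarith))

theorem near {Hv Hu Hl Du Hk DA H1 Θ : Mat n} {m a b c c₁ t s η a' b' : ℝ} (h1 : Hv.PosSemidef)
    (h2 : (Hu + c₁ • Hl).PosSemidef) (h3 : Hl.PosSemidef) (h4 : Du.PosSemidef)
    (h5 : DA.PosSemidef) (h6 : (Hk + (m • Hv + η • H1) - Θ).PosSemidef)
    (h7 : (Hl - η • H1).PosSemidef) (hm : 0 ≤ m) (ha : 0 ≤ a) (ht : 0 ≤ t) (ht1 : t ≤ 1)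
    (hs : 0 ≤ s) (ha' : 0 ≤ a') (hb' : 0 ≤ b') (hc : (t * a' + a) * c₁ + t ≤ c) :
    (m • Hv + (a • Hu + b • Du) + c • Hl + (t • (Hk + a' • Hu + b' • Du) + s • DA) - t • Θ -
      b • Du).PosSemidef := by
  have : m • Hv + (a • Hu + b • Du) + c • Hl + (t • (Hk + a' • Hu + b' • Du) + s • DA) - t • Θ -
      b • Du = t • (Hk + (m • Hv + η • H1) - Θ) + ((1 - t) * m) • Hv + s • DA + (t * b') • Du +
      (t * a' + a) • (Hu + c₁ • Hl) + (c - ((t * a' + a) * c₁ + t)) • Hl +
      t • (Hl - η • H1) := by module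
  rw [this]
  exact ((((((h6.smul ht).add (h1.smul (mul_nonneg (by linarith) hm))).add (h5.smul hs)).add
    (h4.smul (mul_nonneg ht hb'))).add (h2.smul (by positivity))).add
    (h3.smul (by linarith))).add (h7.smul ht)

theorem nsq0 (y : E k) : 0 ≤ nsq y := Finset.sum_nonneg fun i _ => normSq_nonneg _

theorem norm_le (y : E k) {R : ℝ} (h : nsq y ≤ R) : ‖y‖ ≤ √R := by
  refine (pi_norm_le_iff_of_nonneg (Real.sqrt_nonneg _)).2 fun i => Real.le_sqrt_of_sq_le ?_
  rw [← Complex.normSq_eq_norm_sq]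
  exact (Finset.single_le_sum (f := fun j => normSq (y j)) (fun j _ => normSq_nonneg _)
    (Finset.mem_univ i)).trans h

theorem lev {U : ℝ → E k → ℝ} {c₁ e A : ℝ} (h : Up U c₁) (he : 0 < e) (he1 : e ≤ 1) {y : E k}
    (hy : -A ≤ U e y) : 1 + nsq y ≤ Real.exp A := by
  have := (hy.trans (h.mono e 1 y he he1)).trans (h.up y)
  have h0 := nsq0 y
  rw [← Real.log_le_iff_le_exp (by linarith)]
  linarith

theorem cpt {U : ℝ → E k → ℝ} {c₁ : ℝ} {Ω : Set (E k)} (h : Up U c₁) (hΩ : IsOpen Ω)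
    (hs : ∀ y, Fin' U y → y ∈ Ω) (A : ℝ) : ∃ K, IsCompact K ∧ K ⊆ Ω ∧
      ∀ᶠ e in 𝓝[>] (0 : ℝ), {y | -A ≤ U e y} ⊆ K := by
  have cl : ∀ e, 0 < e → IsClosed {y | -A ≤ U e y} := fun e he =>
    isClosed_le continuous_const (h.sm e he).continuous
  have cp : ∀ e, 0 < e → e ≤ 1 → IsCompact {y | -A ≤ U e y} := fun e he he1 =>
    (isCompact_closedBall (0 : E k) (√(Real.exp A))).of_isClosed_subset (cl e he) fun y hy => by
      rw [mem_closedBall_zero_iff]
      exact norm_le y (by linarith [lev h he he1 hy])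
  have p : ∀ i : ℕ, (0 : ℝ) < 1 / (i + 1) := fun i => by positivity
  have p1 : ∀ i : ℕ, (1 : ℝ) / (i + 1) ≤ 1 := fun i => by
    rw [div_le_one (by positivity)]; linarith [Nat.cast_nonneg (α := ℝ) i]
  have an : Antitone fun i : ℕ => {y | -A ≤ U (1 / (i + 1)) y} := fun i j hij y hy =>
    le_trans hy (h.mono _ _ y (p j) (Nat.one_div_le_one_div hij))
  obtain ⟨i, hi⟩ := exists_subset_nhds_of_isCompact' (V := fun i : ℕ => {y | -A ≤ U (1 / (i + 1)) y})
    (directed_of_isDirected_le an) (fun i => cp _ (p i) (p1 i)) (fun i => cl _ (p i)) (U := Ω)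
    (fun y hy => hΩ.mem_nhds (hs y ⟨-A, fun e he => by
      obtain ⟨j, hj⟩ := exists_nat_one_div_lt he
      exact le_trans (mem_iInter.1 hy j) (h.mono _ _ y (p j) hj.le)⟩))
  refine ⟨_, cp _ (p i) (p1 i), hi, ?_⟩
  filter_upwards [Ioc_mem_nhdsGT (p i)] with e he y hy
  exact le_trans hy (h.mono _ _ y he.1 he.2)

/-- The logarithmic weight. -/
def lam (y : E k) : ℝ := Real.log (1 + nsq y)

theorem lam_fs (hFS : St_FS) (y : E k) : ContDiffAt ℝ ∞ lam y ∧ (hr lam y).PosSemidef ∧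
    ∀ η : ℝ, η * (1 + nsq y) ^ 2 ≤ 1 → (hr lam y - η • (1 : Mat k)).PosSemidef := by
  obtain ⟨a, b, -, c, -⟩ := hFS k 1 0 y one_pos
  simp only [sub_zero] at a b c
  refine ⟨a, b.posSemidef, fun η h => ?_⟩
  have h0 := nsq0 y
  have : hr lam y - η • (1 : Mat k) = hr lam y - (1 / (1 + nsq y) ^ 2) • (1 : Mat k) +
      (1 / (1 + nsq y) ^ 2 - η) • (1 : Mat k) := by module
  rw [this]
  exact c.add (Matrix.PosSemidef.one.smul (by
    rw [sub_nonneg, le_div_iff₀ (by positivity)]; exact h))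

theorem pull (hC : St_CHR) {ψ : E n → E k} (h : HolN ψ w) {F : E k → ℝ}
    (hF : ContDiffAt ℝ ∞ F (ψ w)) : ContDiffAt ℝ ∞ (fun x => F (ψ x)) w ∧
      hr (fun x => F (ψ x)) w = (jr ψ w)ᴴ * hr F (ψ w) * jr ψ w :=
  ⟨hF.comp w (hC n k ψ w h).1, (hC n k ψ w h).2.2.2.2.2 (fun y => (F y : ℂ)) (cd_ofReal hF)⟩

/-- The computation in a chart. -/
theorem loc (hC : St_CHR) (hFS : St_FS) {ψ : E n → E k} (h : HolN ψ w) {U v : E k → ℝ}
    {q : ℝ → ℝ} {m c c₁ L A : ℝ} (hU : ContDiff ℝ ∞ U) (hv : ContDiff ℝ ∞ v) (hq : ContDiff ℝ ∞ q)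
    (pU : (hr (fun y => U y + c₁ * lam y) (ψ w)).PosSemidef) (pv : (hr v (ψ w)).PosSemidef) :
    ContDiffAt ℝ ∞ (fun x => m * v (ψ x) + q (U (ψ x) / L) + c * lam (ψ x) + A) w ∧
    hr (fun x => m * v (ψ x) + q (U (ψ x) / L) + c * lam (ψ x) + A) w =
      m • hr (fun x => v (ψ x)) w + ((deriv q (U (ψ w) / L) / L) • hr (fun x => U (ψ x)) w +
        (deriv (deriv q) (U (ψ w) / L) / L ^ 2) • dr (fun x => U (ψ x)) w) +
        c • hr (fun x => lam (ψ x)) w ∧
    (hr (fun x => v (ψ x)) w).PosSemidef ∧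
    (hr (fun x => U (ψ x)) w + c₁ • hr (fun x => lam (ψ x)) w).PosSemidef ∧
    (hr (fun x => lam (ψ x)) w).PosSemidef ∧ (dr (fun x => U (ψ x)) w).PosSemidef ∧
    ∀ η : ℝ, η * (1 + nsq (ψ w)) ^ 2 ≤ 1 →
      (hr (fun x => lam (ψ x)) w - η • ((jr ψ w)ᴴ * (1 : Mat k) * jr ψ w)).PosSemidef := by
  obtain ⟨l1, l2, l3⟩ := lam_fs hFS (ψ w)
  obtain ⟨u1, u2⟩ := pull hC h hU.contDiffAt
  obtain ⟨v1, v2⟩ := pull hC h hv.contDiffAt
  obtain ⟨a1, a2⟩ := pull hC h l1
  have q1 : ContDiffAt ℝ ∞ (fun x => q (U (ψ x) / L)) w := hq.contDiffAt.comp w (u1.div_const L)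
  have s1 := (contDiffAt_const (c := m)).mul v1
  have s2 := (contDiffAt_const (c := c)).mul a1
  refine ⟨((s1.add q1).add s2).add contDiffAt_const, ?_, ?_, ?_, ?_, dr_psd u1, fun η hη => ?_⟩
  · rw [hr_add ((s1.add q1).add s2) contDiffAt_const, hr_const, add_zero, hr_add (s1.add q1) s2,
      hr_add s1 q1, hr_mul _ v1, hr_mul _ a1, hr_sc u1 hq]
  · rw [v2]; exact pv.conjTranspose_mul_mul_same _
  · rw [hr_add hU.contDiffAt (contDiffAt_const.mul l1), hr_mul _ l1] at pU
    have := pU.conjTranspose_mul_mul_same (jr ψ w)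
    rw [Matrix.mul_add, Matrix.add_mul, Matrix.mul_smul, Matrix.smul_mul] at this
    rw [u2, a2]; exact this
  · rw [a2]; exact l2.conjTranspose_mul_mul_same _
  · have := (l3 η hη).conjTranspose_mul_mul_same (jr ψ w)
    rw [Matrix.mul_sub, Matrix.sub_mul, Matrix.mul_smul, Matrix.smul_mul] at this
    rw [a2]; exact this

theorem inner {κ u : E n → ℝ} {g χ : ℝ → ℝ} {m₁ μ L A : ℝ} (hL : L ≠ 0) (hκ : ContDiffAt ℝ ∞ κ w)
    (hu : ContDiffAt ℝ ∞ u w) (hg : ContDiff ℝ ∞ g) (hχ : ContDiff ℝ ∞ χ) :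
    ContDiffAt ℝ ∞ (fun x => κ x + m₁ * u x + μ * L * g (u x / L) + A) w ∧
    hr (fun x => χ (κ x + m₁ * u x + μ * L * g (u x / L) + A)) w =
      deriv χ (κ w + m₁ * u w + μ * L * g (u w / L) + A) • (hr κ w +
        (m₁ + μ * deriv g (u w / L)) • hr u w + (μ * deriv (deriv g) (u w / L) / L) • dr u w) +
      deriv (deriv χ) (κ w + m₁ * u w + μ * L * g (u w / L) + A) •
        dr (fun x => κ x + m₁ * u x + μ * L * g (u x / L) + A) w := by
  have g1 : ContDiffAt ℝ ∞ (fun x => g (u x / L)) w := hg.contDiffAt.comp w (hu.div_const L)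
  have s1 := (contDiffAt_const (c := m₁)).mul hu
  have s2 := (contDiffAt_const (c := μ * L)).mul g1
  have s := ((hκ.add s1).add s2).add (contDiffAt_const (c := A))
  refine ⟨s, ?_⟩
  rw [hr_comp s hχ, hr_add ((hκ.add s1).add s2) contDiffAt_const, hr_const, add_zero,
    hr_add (hκ.add s1) s2, hr_add hκ s1, hr_mul _ hu, hr_mul _ g1, hr_sc hu hg, smul_add (μ * L),
    smul_smul, smul_smul, show μ * L * (deriv g (u w / L) / L) = μ * deriv g (u w / L) by
      field_simp, show μ * L * (deriv (deriv g) (u w / L) / L ^ 2) =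
      μ * deriv (deriv g) (u w / L) / L by field_simp, add_smul]
  simp only [add_assoc]

end WGT

open WGT in
theorem bWGT (hCVX : St_CVX) (hC : St_CHR) (hFS : St_FS) : St_WGT := by
  intro n k M _ H O ν z Ω U v c₁ κ Θ m m₁ C l c q S W hl hc hq hq'
  obtain ⟨g, q', χ, ζ, S', -, sg, -, sχ, -, hx⟩ := hCVX
  obtain ⟨m0, m1, C0⟩ := W.m0
  obtain ⟨cv, hcv⟩ := W.vu
  have c1 := W.up.c0
  have S0 : 0 ≤ S := (hq' 0).1.1.trans (hq' 0).1.2
  have mq : Monotone q := monotone_of_deriv_nonneg (hq.differentiable (by simp)) fun t => (hq' t).1.1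
  have mg : Monotone g :=
    monotone_of_deriv_nonneg (sg.differentiable (by simp)) fun t => (hx t).1.2.2.1.1
  have lc1 : 0 ≤ l * c₁ := mul_nonneg (by linarith) c1
  refine ⟨C + 3 + q 0 + m * |cv| * Real.log 2, m * |cv| + c,
    add_nonneg (by positivity) (by linarith), ?_⟩
  filter_upwards [eventually_ge_atTop (4 * C + 7), eventually_ge_atTop (S * c₁)] with L hL hLS
  have L0 : 0 < L := by linarith
  obtain ⟨K, cK, sK, eK⟩ := cpt W.up W.oΩ W.sub (4 * L)
  filter_upwards [eK, W.cur K cK sK (Real.exp (-(8 * L))) (Real.exp_pos _), W.ub K cK sK,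
    Ioc_mem_nhdsGT one_pos] with e eK cur ub he
  have sU := W.up.sm e he.1
  have inK : ∀ y, -(4 * L) ≤ U e y → y ∈ K := fun y hy => eK hy
  set μ := l - m₁ with hμ
  have μ1 : 4 * m₁ + 1 ≤ μ := by linarith
  set a : M.X → ℝ := fun x => κ x + m₁ * U e (z x) + μ * L * g (U e (z x) / L) + -(C + 2) with ha
  set b : M.X → ℝ := fun x => m * v e (z x) + q (U e (z x) / L) + c * lam (z x) +
    (C + 2 - 5 / 2 * μ * L) with hb
  set cu : M.X → ℝ := fun x => if -(4 * L) < U e (z x) then χ (a x) else 0 with hcu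
  have big : ∀ x ∈ O, -(2 * L) ≤ U e (z x) → a x = κ x + l * U e (z x) + 5 / 2 * μ * L - (C + 2) ∧
      1 < a x := fun x hx0 h => by
    have e1 : a x = κ x + l * U e (z x) + 5 / 2 * μ * L - (C + 2) := by
      simp only [ha]
      rw [(hx _).1.2.1 (by rw [le_div_iff₀ L0]; linarith), hμ]
      field_simp
      ring
    refine ⟨e1, ?_⟩
    have := W.lb x ⟨hx0, sK (inK _ (by linarith))⟩
    have h1 : l * -(2 * L) ≤ l * U e (z x) := mul_le_mul_of_nonneg_left h (by linarith)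
    have h2 : (4 * m₁ + 1) * L ≤ μ * L := mul_le_mul_of_nonneg_right μ1 L0.le
    have h3 : l * L = μ * L + m₁ * L := by rw [hμ]; ring
    rw [e1]; nlinarith
  have key : OnK M O fun d w => ContDiffAt ℝ ∞ ((fun x => b x + cu x) ∘ d.symm) w ∧
      (M.hs (fun x => b x + cu x) d w).PosSemidef ∧ (-(2 * L) < U e (z (d.symm w)) →
        (M.hs (fun x => b x + cu x) d w - Θ d w -
          (deriv (deriv q) (U e (z (d.symm w)) / L) / L ^ 2) •
            M.ds (fun x => U e (z x)) (fun x => U e (z x)) d w).PosSemidef) := by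
    intro d hd w hw hO
    have hψ := W.hz d hd w hw hO
    obtain ⟨b1, b2, p1, p2, p3, p4, p5⟩ := loc (m := m) (c := c) (L := L)
      (A := C + 2 - 5 / 2 * μ * L) hC hFS hψ sU (W.vs e he.1).1 hq (W.up.psh e he.1 _)
      ((W.vs e he.1).2 _)
    obtain ⟨u1, -⟩ := pull hC hψ sU.contDiffAt
    have eO : ∀ᶠ x in 𝓝 w, d.symm x ∈ O := (d.continuousAt_symm hw).eventually (W.oO.mem_nhds hO)
    have a0 : 0 ≤ deriv q (U e (z (d.symm w)) / L) / L := div_nonneg (hq' _).1.1 L0.le
    have a1 : deriv q (U e (z (d.symm w)) / L) / L * c₁ ≤ 1 := by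
      rw [div_mul_eq_mul_div, div_le_one L0]
      exact (mul_le_mul_of_nonneg_right (hq' _).1.2 c1).trans hLS
    have b0 : 0 ≤ deriv (deriv q) (U e (z (d.symm w)) / L) / L ^ 2 :=
      div_nonneg (hq' _).2 (sq_nonneg _)
    by_cases h4 : -(4 * L) < U e (z (d.symm w))
    · have zK := inK _ h4.le
      have hκ := W.sk d hd w hw ⟨hO, sK zK⟩
      obtain ⟨i1, i2⟩ := inner (m₁ := m₁) (μ := μ) (A := -(C + 2)) L0.ne' hκ u1 sg sχ
      have ev : ((fun x => b x + cu x) ∘ d.symm) =ᶠ[𝓝 w] fun x => b (d.symm x) + χ (a (d.symm x)) := by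
        filter_upwards [u1.continuousAt.eventually (lt_mem_nhds h4)] with x hx1
        simp only [Function.comp, hcu] at hx1 ⊢
        rw [if_pos hx1]
      have c2 : ContDiffAt ℝ ∞ (fun x => χ (a (d.symm x))) w := sχ.contDiffAt.comp w i1
      have hh : M.hs (fun x => b x + cu x) d w = _ + _ := (hr_congr ev).trans
        ((hr_add b1 c2).trans (congrArg₂ (· + ·) b2 i2))
      have h6 := cur d hd w hw ⟨hO, zK⟩
      simp only [pb] at h6
      have v2 : hr (fun x => v e ((z ∘ d.symm) x)) w = (jr (z ∘ d.symm) w)ᴴ *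
        hr (v e) (z (d.symm w)) * jr (z ∘ d.symm) w := (pull hC hψ (W.vs e he.1).1.contDiffAt).2
      rw [Matrix.mul_add, Matrix.add_mul, Matrix.mul_smul, Matrix.smul_mul, Matrix.mul_smul,
        Matrix.smul_mul, ← v2] at h6
      have h7 := p5 (Real.exp (-(8 * L))) (by
        have t1 := lev W.up he.1 he.2 h4.le
        have t0 := nsq0 (z (d.symm w))
        have t2 : (1 + nsq (z (d.symm w))) ^ 2 ≤ Real.exp (4 * L) ^ 2 := by gcongr
        have t3 : Real.exp (-(8 * L)) * Real.exp (4 * L) ^ 2 = 1 := by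
          rw [sq, ← Real.exp_add, ← Real.exp_add]; ring_nf; exact Real.exp_zero
        exact (mul_le_mul_of_nonneg_left t2 (Real.exp_pos _).le).trans t3.le)
      obtain ⟨⟨-, -, ⟨g0, g1⟩, g2⟩, -⟩ := hx (U e (z (d.symm w)) / L)
      obtain ⟨-, ⟨-, -, -, ⟨t0, t1⟩, t2⟩, -⟩ := hx (a (d.symm w))
      have μ0 : 0 ≤ μ := by linarith
      have n1 := near (b := deriv (deriv q) (U e (z (d.symm w)) / L) / L ^ 2) (c := c)
        p1 p2 p3 p4 (dr_psd i1) h6 h7 m0 a0 t0 t1 t2 (add_nonneg m1 (mul_nonneg μ0 g0))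
        (div_nonneg (mul_nonneg μ0 g2) L0.le) (by
          have r1 : m₁ + μ * deriv g (U e (z (d.symm w)) / L) ≤ l := by nlinarith
          have r0 := add_nonneg m1 (mul_nonneg μ0 g0)
          have r2 : deriv χ (a (d.symm w)) * (m₁ + μ * deriv g (U e (z (d.symm w)) / L)) ≤ l := by
            nlinarith
          have r3 := mul_le_mul_of_nonneg_right r2 c1
          rw [add_mul]; linarith)
      replace n1 : (M.hs (fun x => b x + cu x) d w - deriv χ (a (d.symm w)) • Θ d w -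
          (deriv (deriv q) (U e (z (d.symm w)) / L) / L ^ 2) •
            M.ds (fun x => U e (z x)) (fun x => U e (z x)) d w).PosSemidef := by
        rw [hh]; exact n1
      refine ⟨(b1.add c2).congr_of_eventuallyEq ev, ?_, fun h2 => ?_⟩
      · have := (n1.add (p4.smul b0)).add ((W.pos d hd w hw ⟨hO, sK zK⟩).smul t0)
        rw [show M.ds (fun x => U e (z x)) (fun x => U e (z x)) d w =
          dr (fun x => U e ((z ∘ d.symm) x)) w from rfl, sub_add_cancel, sub_add_cancel] at this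
        exact this
      · have : deriv χ (a (d.symm w)) = 1 := by
          have e2 : χ =ᶠ[𝓝 (a (d.symm w))] id := by
            filter_upwards [lt_mem_nhds (big _ hO h2.le).2] with t ht
            exact (hx t).2.1.2.1 ht.le
          rw [e2.deriv_eq, deriv_id]
        rw [this, one_smul] at n1
        exact n1
    · have h3 : U e (z (d.symm w)) < -(3 * L) := by linarith [not_lt.1 h4]
      have ev : ((fun x => b x + cu x) ∘ d.symm) =ᶠ[𝓝 w] fun x => b (d.symm x) := by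
        filter_upwards [u1.continuousAt.eventually (gt_mem_nhds h3), eO] with x hx1 hx2
        simp only [Function.comp, hcu] at hx1 ⊢
        split_ifs with h5
        · have := ub _ ⟨hx2, inK _ h5.le⟩
          rw [(hx _).2.1.1, add_zero]
          simp only [ha]
          rw [(hx _).1.1 (by rw [div_le_iff₀ L0]; linarith)]
          linarith
        · exact add_zero _
      have hh : M.hs (fun x => b x + cu x) d w = _ := (hr_congr ev).trans b2
      refine ⟨b1.congr_of_eventuallyEq ev, ?_, fun h2 => absurd h2 (by linarith)⟩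
      rw [hh]
      exact far p1 p2 p3 p4 m0 a0 b0 (a1.trans (by linarith))
  refine ⟨fun y hy => sK (inK y (by have : -(2 * L) ≤ U e y := hy; linarith)),
    fun x => b x + cu x, fun d hd w hw h => (key d hd w hw h).1,
    fun d hd w hw h => (key d hd w hw h).2.1, fun x hO => ?_, fun x hO h => ?_,
    fun d hd w hw h => (key d hd w hw h.1).2.2 h.2⟩
  · have n0 := nsq0 (z x)
    have l0 : 0 ≤ Real.log (1 + nsq (z x)) := Real.log_nonneg (by linarith)
    have u0 : U e (z x) / L ≤ 0 := div_nonpos_of_nonpos_of_nonneg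
      (by linarith [W.up.mono e 1 (z x) he.1 he.2, W.up.up (z x)]) L0.le
    have μL : 0 ≤ μ * L := mul_nonneg (by linarith) L0.le
    have e1 : cu x ≤ 5 / 2 * μ * L + 1 := by
      simp only [hcu]
      split_ifs with h5
      · refine (hx _).2.1.2.2.1.trans (add_le_add_left (max_le ?_ (by linarith)) _)
        have := ub _ ⟨hO, inK _ h5.le⟩
        have g1 : g (U e (z x) / L) ≤ 5 / 2 := (mg u0).trans (by rw [(hx 0).1.2.1 (by norm_num)]; norm_num)
        have := mul_le_mul_of_nonneg_left g1 μL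
        simp only [ha]; linarith
      · linarith
    have e2 : v e (z x) ≤ |cv| * (Real.log 2 + Real.log (1 + nsq (z x))) := by
      refine ((W.vm e 1 _ he.1 he.2).trans (hcv _)).trans ?_
      rw [← Real.log_mul two_ne_zero (by linarith)]
      exact mul_le_mul (le_abs_self _) (Real.log_le_log (by linarith) (by linarith))
        (Real.log_nonneg (by linarith)) (abs_nonneg _)
    have e3 := mul_le_mul_of_nonneg_left e2 m0
    have e4 := mq u0
    simp only [hb, lam]; linarith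
  · obtain ⟨e1, e2⟩ := big x hO h
    simp only [hb, hcu, wt, lam]
    rw [if_pos (by linarith), (hx _).2.1.2.1 e2.le, e1]
    ring

end Pool.Agent.Lib.RB9
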