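import Pool.Agent.Lib.RB9.B_CVX
import Pool.Agent.Lib.RB9.B_DNS
import Pool.Agent.Lib.RB9.B_DV1
import Pool.Agent.Lib.RB9.B_DV2
import Pool.Agent.Lib.RB9.B_EIL
import Pool.Agent.Lib.RB9.B_EL
import Pool.Agent.Lib.RB9.B_FAM
import Pool.Agent.Lib.RB9.B_GDO
import Pool.Agent.Lib.RB9.B_GLO
import Pool.Agent.Lib.RB9.B_HB
import Pool.Agent.Lib.RB9.B_LGR
import Pool.Agent.Lib.RB9.B_LI
import Pool.Agent.Lib.RB9.B_LOG
import Pool.Agent.Lib.RB9.B_MEAN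
import Pool.Agent.Lib.RB9.B_MOL
import Pool.Agent.Lib.RB9.B_MTL
import Pool.Agent.Lib.RB9.B_NET
import Pool.Agent.Lib.RB9.B_NEW
import Pool.Agent.Lib.RB9.B_NUL
import Pool.Agent.Lib.RB9.B_ONE
import Pool.Agent.Lib.RB9.B_PSM
import Pool.Agent.Lib.RB9.B_PWR
import Pool.Agent.Lib.RB9.B_SHT
import Pool.Agent.Lib.RB9.B_SUB
import Pool.Agent.Lib.RB9.B_T10
import Pool.Agent.Lib.RB9.B_T9U
import Pool.Agent.Lib.RB9.B_U0
import Pool.Agent.Lib.RB9.B_UP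
import Pool.Agent.Lib.RB9.B_WGT
import Pool.Agent.Lib.FI.B_BAS
import Pool.Agent.Lib.FI.B_CHR
import Pool.Agent.Lib.FI.B_FS
import Pool.Agent.Lib.FI.B_BAL
import Pool.Agent.Lib.FI.B_SYL
import Pool.Agent.Lib.FI.B_MAS
import Pool.Agent.Lib.FI.B_ITG
import Pool.Agent.Lib.FI.B_CNV
import Pool.Agent.Lib.FI.B_SMO
import Pool.Agent.Lib.KH.B_KIT

/-! Project rb9: assembly. -/

namespace Pool.Agent.Lib.RB9

theorem fBAS : FI.St_BAS := FI.bBAS FI.bCHR FI.bFS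

theorem fITG : FI.St_ITG := FI.bITG fBAS (FI.bBAL FI.bSYL FI.bCHR FI.bFS fBAS FI.bMAS)

theorem fSMO : FI.St_SMO := FI.bSMO fBAS fITG FI.bCNV

theorem aGDO : St_GDO := bGDO fSMO fBAS

theorem aNUL : St_NUL := bNUL fBAS

theorem aDNS : St_DNS := bDNS bNEW

theorem aSUB : St_SUB := bSUB bMEAN bHB aDNS

theorem aEL : St_EL := bEL (bEIL bNEW bDV1 bDV2 aDNS bLGR) bLGR aSUB

theorem aFAM : St_FAM := bFAM aGDO aNUL aEL (bSHT bPWR aDNS bLGR) bNET aSUB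

theorem aT9U (h : FI.St_UPS) : St_T9U :=
  bT9U aGDO (bLOG aDNS bLI fBAS) (bGLO bPSM h fSMO fITG fBAS)
    (bUP (bU0 FI.bCNV h fBAS fITG) FI.bFS)

theorem aMOL : St_MOL := bMOL fITG fBAS

theorem aT10 : St_T10 := bT10 (bONE (bWGT bCVX FI.bCHR FI.bFS) bCVX KH.bKIT FI.bCHR) bMTL

end Pool.Agent.Lib.RB9
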