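import Pool.Agent.Lib.RB9.Blue

/-! Row CVX: convex functions of one variable from the primitive of a smooth step. -/

open scoped Topology ContDiff
open Set Filter

noncomputable section

namespace Pool.Agent.Lib.RB9

namespace CVX

open Real

/-- The primitive of the smooth step. -/
def P (t : ℝ) : ℝ := ∫ s in (0 : ℝ)..t, smoothTransition s

lemma hd (t : ℝ) : HasDerivAt P (smoothTransition t) t :=
  (smoothTransition.continuous.integral_hasStrictDerivAt 0 t).hasDerivAt

lemma dP : deriv P = smoothTransition := funext fun t => (hd t).deriv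

lemma sm : ContDiff ℝ ∞ P :=
  contDiff_infty_iff_deriv.2 ⟨fun t => (hd t).differentiableAt, dP ▸ smoothTransition.contDiff⟩

lemma sym (t : ℝ) : smoothTransition (1 - t) = 1 - smoothTransition t := by
  have h := (smoothTransition.pos_denom t).ne'
  unfold smoothTransition
  rw [sub_sub_cancel, add_comm (expNegInvGlue (1 - t)), eq_sub_iff_add_eq, ← add_div, add_comm,
    div_self h]

lemma P0 {t : ℝ} (ht : t ≤ 0) : P t = 0 := by
  have : ∀ s ∈ uIcc (0 : ℝ) t, smoothTransition s = (fun _ => (0 : ℝ)) s := fun s hs =>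
    smoothTransition.zero_of_nonpos (by rw [uIcc_of_ge ht] at hs; exact hs.2)
  rw [P, intervalIntegral.integral_congr this]
  simp

/-- The reflection formula. -/
lemma refl (t : ℝ) : P t - P (1 - t) = t - 1 / 2 := by
  have h : ∀ s, HasDerivAt (fun s => P s - P (1 - s) - s) 0 s := fun s => by
    have h1 := ((hd s).sub ((hd (1 - s)).comp s ((hasDerivAt_id s).const_sub 1))).sub
      (hasDerivAt_id s)
    rw [sym] at h1
    exact h1.congr_deriv (by ring)
  have h2 := is_const_of_deriv_eq_zero (fun s => (h s).differentiableAt) (fun s => (h s).deriv) t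
    (1 / 2)
  norm_num at h2
  linarith

lemma P1 {t : ℝ} (ht : 1 ≤ t) : P t = t - 1 / 2 := by
  have := refl t
  rw [P0 (by linarith : 1 - t ≤ 0)] at this
  linarith

lemma mono : Monotone P :=
  monotone_of_deriv_nonneg (fun t => (hd t).differentiableAt) fun t => by
    rw [dP]
    exact smoothTransition.nonneg t

lemma nn (t : ℝ) : 0 ≤ P t := by
  rcases le_total t 0 with h | h
  · exact (P0 h).ge
  · exact (P0 le_rfl).ge.trans (mono h)

lemma up (t : ℝ) : P t ≤ max t 0 := by
  rcases le_total t 1 with h | h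
  · rcases le_total t 0 with h0 | h0
    · rw [P0 h0]
      exact le_max_right _ _
    · have h1 := refl t
      have h2 := mono (show 1 - t ≤ 1 by linarith)
      rw [P1 le_rfl] at h2
      exact le_max_of_le_left (by linarith)
  · rw [P1 h]
    exact le_max_of_le_left (by linarith)

lemma hs (t : ℝ) : HasDerivAt smoothTransition (deriv smoothTransition t) t :=
  ((smoothTransition.contDiff (n := 1)).differentiable one_ne_zero t).hasDerivAt

lemma bd : ∃ K : ℝ, 0 ≤ K ∧ ∀ t, deriv smoothTransition t ∈ Icc 0 K := by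
  have hc : Continuous (deriv smoothTransition) :=
    (smoothTransition.contDiff (n := 1)).continuous_deriv le_rfl
  obtain ⟨K, hK⟩ := (isCompact_Icc (a := (0 : ℝ)) (b := 1)).bddAbove_image hc.continuousOn
  refine ⟨max K 0, le_max_right _ _, fun t => ⟨smoothTransition.monotone.deriv_nonneg, ?_⟩⟩
  rcases lt_or_ge t 0 with h | h
  · have : smoothTransition =ᶠ[𝓝 t] fun _ => 0 :=
      (eventually_lt_nhds h).mono fun s hs => smoothTransition.zero_of_nonpos hs.le
    rw [this.deriv_eq, deriv_const]
    exact le_max_right _ _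
  · rcases lt_or_ge 1 t with h1 | h1
    · have : smoothTransition =ᶠ[𝓝 t] fun _ => 1 :=
        (eventually_gt_nhds h1).mono fun s hs => smoothTransition.one_of_one_le hs.le
      rw [this.deriv_eq, deriv_const]
      exact le_max_right _ _
    · exact le_max_of_le_left (hK ⟨t, ⟨h, h1⟩, rfl⟩)

lemma aff (a b t : ℝ) : HasDerivAt (fun s => a * s + b) a t := by
  simpa using ((hasDerivAt_id t).const_mul a).add_const b

lemma d1 (c a b : ℝ) : deriv (fun s => c * P (a * s + b)) =
    fun s => c * a * smoothTransition (a * s + b) := funext fun t => by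
  have h := ((hd (a * t + b)).comp t (aff a b t)).const_mul c
  exact h.deriv.trans (by ring)

lemma d2 (c a b t : ℝ) : deriv (fun s => c * smoothTransition (a * s + b)) t =
    c * a * deriv smoothTransition (a * t + b) := by
  have h := ((hs (a * t + b)).comp t (aff a b t)).const_mul c
  exact h.deriv.trans (by ring)

lemma s1 (c a b : ℝ) : ContDiff ℝ ∞ fun s => c * P (a * s + b) :=
  contDiff_const.mul (sm.comp (by fun_prop))

end CVX

open CVX Real in
theorem bCVX : St_CVX := by
  obtain ⟨K, k0, hK⟩ := bd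
  refine ⟨fun s => 1 * P (1 * s + 3), fun s => K * P (2 * s + 7 / 2),
    fun s => 2 * P (1 / 2 * s + 1 / 2), fun s => 1 * smoothTransition (2 * s + 7 / 2), K * 2,
    by positivity, s1 _ _ _, s1 _ _ _, s1 _ _ _,
    contDiff_const.mul (smoothTransition.contDiff.comp (by fun_prop)), fun t => ?_⟩
  have n0 := smoothTransition.nonneg
  have n1 := smoothTransition.le_one
  simp only [d1, d2]
  refine ⟨⟨fun h => ?_, fun h => ?_, ⟨?_, ?_⟩, ?_⟩, ⟨fun h => ?_, fun h => ?_, ?_, ⟨?_, ?_⟩, ?_⟩,
    ⟨fun h => ?_, fun h => ?_, ?_, ?_⟩, mul_nonneg k0 (nn _), ⟨?_, ?_⟩, ?_⟩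
  · rw [P0 (by linarith), mul_zero]
  · rw [P1 (by linarith)]
    ring
  · linarith [n0 (1 * t + 3)]
  · linarith [n1 (1 * t + 3)]
  · linarith [(hK (1 * t + 3)).1]
  · rw [P0 (by linarith), mul_zero]
  · rw [P1 (by linarith)]
    ring
  · have h1 := up (1 / 2 * t + 1 / 2)
    have h2 : max (1 / 2 * t + 1 / 2) 0 ≤ (max t 0 + 1) / 2 :=
      max_le (by linarith [le_max_left t 0]) (by linarith [le_max_right t 0])
    linarith
  · linarith [n0 (1 / 2 * t + 1 / 2)]
  · linarith [n1 (1 / 2 * t + 1 / 2)]
  · linarith [(hK (1 / 2 * t + 1 / 2)).1]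
  · rw [smoothTransition.zero_of_nonpos (by linarith), mul_zero]
  · rw [smoothTransition.one_of_one_le (by linarith), mul_one]
  · linarith [n0 (2 * t + 7 / 2)]
  · linarith [n1 (2 * t + 7 / 2)]
  · exact mul_nonneg (by positivity) (n0 _)
  · exact mul_le_of_le_one_right (by positivity) (n1 _)
  · obtain ⟨h1, h2⟩ := hK (2 * t + 7 / 2)
    have := mul_le_mul_of_nonneg_right h2 h1
    linarith

end Pool.Agent.Lib.RB9
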