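import Pool.Agent.Lib.RB9.Blue
import Pool.Agent.Lib.SV.Sub85

/-! Project rb9: the mean value inequality for the positive part of the logarithm. -/

open scoped Classical Topology ENNReal Real
open Set MeasureTheory Metric Filter

noncomputable section

namespace Pool.Agent.Lib.RB9

open Pool.Agent.Lib.SV (E nsq)

namespace MEAN

theorem circ {f : ℂ → ℂ} (hf : AnalyticOnNhd ℂ f (closedBall 0 1)) :
    ENNReal.ofReal (Real.log ‖f 0‖) * ENNReal.ofReal (2 * π) ≤
      ∫⁻ θ in Ioc 0 (2 * π), ENNReal.ofReal (Real.log ‖f (circleMap 0 1 θ)‖) := by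
  by_cases h0 : f 0 = 0
  · simp [h0]
  have h1 := SV.H85.log_le_circleAverage one_pos hf h0
  have hf' : AnalyticOnNhd ℂ f (closedBall 0 |(1 : ℝ)|) := by rwa [abs_one]
  have hlog : CircleIntegrable (fun z => Real.log ‖f z‖) 0 1 :=
    (hf'.mono sphere_subset_closedBall).meromorphicOn.circleIntegrable_log_norm
  rw [Real.circleAverage_def, intervalIntegral.integral_of_le Real.two_pi_pos.le, smul_eq_mul,
    le_inv_mul_iff₀ Real.two_pi_pos,
    integral_eq_lintegral_pos_part_sub_lintegral_neg_part hlog.1] at h1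
  rw [← ENNReal.ofReal_mul' Real.two_pi_pos.le, mul_comm]
  refine le_trans (ENNReal.ofReal_le_ofReal (h1.trans (sub_le_self _ ENNReal.toReal_nonneg))) ?_
  exact ENNReal.ofReal_toReal_le

end MEAN

open MEAN in
theorem bMEAN : St_MEAN := by
  intro g S f y κ hS hf hκ hrot hin
  set f0 : E g → ℂ := S.indicator f with hf0
  have hm0 : Measurable f0 := by
    rw [hf0, ← Set.piecewise_eq_indicator]
    exact ContinuousOn.measurable_piecewise hf.continuousOn continuousOn_const hS.measurableSet
  set G : E g → ℝ≥0∞ := fun w => κ w * ENNReal.ofReal (Real.log ‖f0 (y + w)‖) with hG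
  have hGm : Measurable G :=
    hκ.mul (ENNReal.measurable_ofReal.comp
      (Real.measurable_log.comp (hm0.comp (measurable_const_add y)).norm))
  have hGe : ∀ w, G w = κ w * ENNReal.ofReal (Real.log ‖f (y + w)‖) := by
    intro w
    by_cases hw : κ w = 0
    · simp [hG, hw]
    · have h := hin w hw 1 (by simp)
      rw [one_smul] at h
      simp only [hG, hf0, indicator_of_mem h]
  have hTm : Measurable (Function.uncurry fun (x : E g) (θ : ℝ) => G (circleMap 0 1 θ • x)) := by
    refine hGm.comp (Continuous.measurable ?_)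
    have : Continuous fun p : E g × ℝ => circleMap 0 1 p.2 :=
      (continuous_circleMap 0 1).comp continuous_snd
    exact this.smul continuous_fst
  have h1 : ∀ x, κ x * (ENNReal.ofReal (Real.log ‖f y‖) * ENNReal.ofReal (2 * π)) ≤
      ∫⁻ θ in Ioc 0 (2 * π), G (circleMap 0 1 θ • x) := by
    intro x
    by_cases hx : κ x = 0
    · simp [hx]
    set L : ℂ → E g := fun t => y + t • x with hL
    have hLd : Differentiable ℂ L := by fun_prop
    have hmem : ∀ t ∈ closedBall (0 : ℂ) 1, L t ∈ S := fun t ht =>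
      hin x hx t (mem_closedBall_zero_iff.1 ht)
    have ha : AnalyticOnNhd ℂ (f ∘ L) (closedBall 0 1) :=
      ((hf.comp hLd.differentiableOn (mapsTo_preimage L _)).analyticOnNhd
        (hS.preimage hLd.continuous)).mono hmem
    have h2 := circ ha
    have h3 : (f ∘ L) 0 = f y := by simp [hL]
    rw [h3] at h2
    refine (mul_le_mul_right h2 _).trans ((lintegral_const_mul_le _ _).trans_eq
      (lintegral_congr fun θ => ?_))
    rw [hGe, hrot _ _ (by simp)]
    rfl
  have h2 : ENNReal.ofReal (Real.log ‖f y‖) * (∫⁻ w, κ w) * ENNReal.ofReal (2 * π) ≤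
      (∫⁻ w, G w) * ENNReal.ofReal (2 * π) := by
    calc ENNReal.ofReal (Real.log ‖f y‖) * (∫⁻ w, κ w) * ENNReal.ofReal (2 * π)
        = ∫⁻ w, κ w * (ENNReal.ofReal (Real.log ‖f y‖) * ENNReal.ofReal (2 * π)) := by
          rw [lintegral_mul_const _ hκ]
          ring
      _ ≤ ∫⁻ x, ∫⁻ θ in Ioc 0 (2 * π), G (circleMap 0 1 θ • x) := lintegral_mono h1
      _ = ∫⁻ θ in Ioc 0 (2 * π), ∫⁻ x, G (circleMap 0 1 θ • x) :=
          lintegral_lintegral_swap hTm.aemeasurable
      _ = ∫⁻ _ in Ioc 0 (2 * π), ∫⁻ x, G x := by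
          refine lintegral_congr fun θ => ?_
          exact (SV.H85.measurePreserving_smul volume (by simp)).lintegral_comp hGm
      _ = (∫⁻ w, G w) * ENNReal.ofReal (2 * π) := by
          rw [setLIntegral_const, Real.volume_Ioc, sub_zero]
  have h3 := (ENNReal.mul_le_mul_iff_left (by simpa using Real.pi_pos) ENNReal.ofReal_ne_top).1 h2
  exact h3.trans_eq (lintegral_congr hGe)

end Pool.Agent.Lib.RB9
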