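import Pool.Agent.Lib.RB9.Blue
import Pool.Agent.Lib.KB47.Loc
import Pool.Agent.Lib.SV.B_ZER
import Pool.Agent.Lib.SV.B_SUB

/-! Project rb9, row UP: the normalised potential. -/

open scoped Classical Topology ContDiff ComplexOrder Matrix ENNReal
open Set MeasureTheory Complex Metric Filter

noncomputable section

namespace Pool.Agent.Lib.RB9

open Pool.Agent.Lib.SV (E nsq nsq_nonneg)
open Pool.Agent.Lib.HS32 Pool.Agent.Lib.FI Pool.Agent.Lib.KH

namespace UP

variable {k : ℕ}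

theorem grow (D : MvPolynomial (Fin k) ℂ) : ∃ (b : ℕ) (c : ℝ), 0 ≤ c ∧
    ∀ y : E k, ‖MvPolynomial.eval y D‖ ≤ c * (1 + nsq y) ^ b := by
  have o : ∀ y : E k, 1 ≤ 1 + nsq y := fun y => le_add_of_nonneg_right (nsq_nonneg y)
  induction D using MvPolynomial.induction_on with
  | C a => exact ⟨0, ‖a‖, norm_nonneg _, fun y => by simp⟩
  | add P Q hP hQ =>
    obtain ⟨b, c, c0, h⟩ := hP
    obtain ⟨b', c', c0', h'⟩ := hQ
    refine ⟨b + b', c + c', add_nonneg c0 c0', fun y => ?_⟩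
    rw [map_add, add_mul]
    exact (norm_add_le _ _).trans (add_le_add
      ((h y).trans (mul_le_mul_of_nonneg_left (pow_le_pow_right₀ (o y) (Nat.le_add_right _ _)) c0))
      ((h' y).trans (mul_le_mul_of_nonneg_left (pow_le_pow_right₀ (o y) (Nat.le_add_left _ _)) c0')))
  | mul_X P i hP =>
    obtain ⟨b, c, c0, h⟩ := hP
    refine ⟨b + 1, c, c0, fun y => ?_⟩
    have a1 : normSq (y i) ≤ nsq y := Finset.single_le_sum (f := fun j => normSq (y j))
      (fun _ _ => normSq_nonneg _) (Finset.mem_univ i)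
    rw [normSq_eq_norm_sq] at a1
    rw [map_mul, MvPolynomial.eval_X, norm_mul, pow_succ, ← mul_assoc]
    exact mul_le_mul (h y) (by nlinarith [sq_nonneg (‖y i‖ - 1)]) (norm_nonneg _)
      ((norm_nonneg _).trans (h y))

theorem lgrow (D : MvPolynomial (Fin k) ℂ) : ∃ b c : ℝ, 0 ≤ b ∧ 0 ≤ c ∧ ∀ y : E k,
    Real.log (normSq (MvPolynomial.eval y D) + 1) ≤ c + b * Real.log (1 + nsq y) := by
  obtain ⟨b, c, -, h⟩ := grow D
  refine ⟨(2 * b : ℕ), Real.log (c ^ 2 + 1), Nat.cast_nonneg _,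
    Real.log_nonneg (le_add_of_nonneg_left (sq_nonneg c)), fun y => ?_⟩
  have o : 1 ≤ (1 + nsq y) ^ (2 * b) := one_le_pow₀ (le_add_of_nonneg_right (nsq_nonneg y))
  have a1 := pow_le_pow_left₀ (norm_nonneg _) (h y) 2
  rw [← normSq_eq_norm_sq, mul_pow, ← pow_mul, mul_comm b] at a1
  rw [← Real.log_pow, ← Real.log_mul (by positivity) (by positivity)]
  exact Real.log_le_log (add_pos_of_nonneg_of_pos (normSq_nonneg _) one_pos) (by linarith)

theorem dif (D : MvPolynomial (Fin k) ℂ) : Differentiable ℂ fun y : E k => MvPolynomial.eval y D :=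
  fun y => (AnalyticOnNhd.eval_mvPolynomial D y trivial).differentiableAt

theorem ae_ne {D : MvPolynomial (Fin k) ℂ} (h : D ≠ 0) :
    ∀ᵐ y : E k, MvPolynomial.eval y D ≠ 0 := by
  obtain ⟨w, hw⟩ : ∃ w : E k, MvPolynomial.eval w D ≠ 0 := by
    by_contra! h0
    exact h (MvPolynomial.funext fun w => (h0 w).trans (map_zero _).symm)
  have := fun m : ℕ => measure_eq_zero_iff_ae_notMem.1 (SV.stZER SV.stSUB k _ w (m + 1)
    (dif D).differentiableOn ⟨w, mem_ball_self (by positivity), hw⟩)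
  filter_upwards [ae_all_iff.2 this] with y hy h0
  obtain ⟨m, hm⟩ := exists_nat_gt (dist y w)
  exact hy m ⟨hm.trans (lt_add_one _), h0⟩

theorem ps (D : MvPolynomial (Fin k) ℂ) {e : ℝ} (e0 : 0 < e) (y : E k) :
    KB47.Ps (fun w => Real.log (normSq (MvPolynomial.eval w D) + e)) y := by
  simpa using (KB47.ps_lsq (f := fun (_ : Unit) w => MvPolynomial.eval w D) (z := y)
    (fun _ => .of_forall (dif D)) e0.le (add_pos_of_nonneg_of_pos
      (Finset.sum_nonneg fun _ _ => normSq_nonneg _) e0)).1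

end UP

open UP in
theorem bUP (hU0 : St_U0) (hFS : St_FS) : St_UP := by
  intro n k M _ H p z C V r Ψ D hx D0 hi
  obtain ⟨U, c, c0, u1, u2, u3, u4, u5, u6⟩ := hU0 n k M H p z C V r Ψ hx hi
  obtain ⟨b, c', b0, c0', hb⟩ := lgrow D
  have L0 : ∀ y : E k, 0 ≤ Real.log (1 + nsq y) := fun y =>
    Real.log_nonneg (le_add_of_nonneg_right (nsq_nonneg y))
  have L2 : ∀ y : E k, c * Real.log (2 + nsq y) ≤ c + c * Real.log (1 + nsq y) := fun y => by
    have a0 := nsq_nonneg y
    have a1 : Real.log (2 + nsq y) ≤ Real.log (2 * (1 + nsq y)) :=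
      Real.log_le_log (by linarith) (by linarith)
    rw [Real.log_mul two_ne_zero (by linarith)] at a1
    have a2 := Real.log_le_sub_one_of_pos two_pos
    nlinarith [mul_le_mul_of_nonneg_left a1 c0, mul_le_mul_of_nonneg_left a2 c0]
  have Dm' : ∀ {e e' : ℝ} (y : E k), 0 < e → e ≤ e' → Real.log (normSq (MvPolynomial.eval y D) + e) ≤
      Real.log (normSq (MvPolynomial.eval y D) + e') := fun y h h' =>
    Real.log_le_log (add_pos_of_nonneg_of_pos (normSq_nonneg _) h) (by linarith)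
  have sL : ∀ y : E k, ContDiffAt ℝ ∞ (fun w : E k => Real.log (1 + nsq w)) y := fun y => by
    simpa using (hFS k 1 0 y one_pos).1
  refine ⟨fun e y => U e y + Real.log (normSq (MvPolynomial.eval y D) + e) -
    (c + b + 1) * Real.log (1 + nsq y) - (c + c'), c + b + 1, 0,
    ⟨by linarith, fun e e0 => contDiff_iff_contDiffAt.2 fun y => ?_, fun e e0 y => ?_,
      fun e e' y h h' => ?_, fun y => ?_, ?_⟩,
    ⟨le_rfl, fun e he y => (u6 e he y).trans (ENNReal.ofReal_le_ofReal ?_), fun e he y => ?_,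
      fun y ⟨A, hA⟩ => u5 y ⟨A - Real.log (normSq (MvPolynomial.eval y D) + 1), fun e e0 => ?_⟩⟩⟩
  · exact (((u1 e e0).1.contDiffAt.add (ps D e0 y).1).sub
      (contDiffAt_const.mul (sL y))).sub contDiffAt_const
  · have a1 : KB47.Ps (U e) y := ⟨(u1 e e0).1.contDiffAt, fun v =>
      (Complex.nonneg_iff.1 (((u1 e e0).2 y).dotProduct_mulVec_nonneg v)).1⟩
    have a2 := ((a1.add (ps D e0 y)).add (KB47.ps_const (-(c + c')))).congr
      (w := fun w => U e w + Real.log (normSq (MvPolynomial.eval w D) + e) -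
        (c + b + 1) * Real.log (1 + nsq w) - (c + c') + (c + b + 1) * Real.log (1 + nsq w))
      (.of_forall fun w => by ring)
    exact MAX.psd (hess_herm a2.1) a2.2
  · linarith [u2 e e' y h h', Dm' y h h']
  · linarith [u3 y, L2 y, hb y]
  · filter_upwards [u4, ae_ne D0] with y ⟨A, hA⟩ h0
    refine ⟨A + Real.log (normSq (MvPolynomial.eval y D)) - (c + b + 1) * Real.log (1 + nsq y) -
      (c + c'), fun e e0 => ?_⟩
    linarith [hA e e0, Real.log_le_log (normSq_pos.2 h0) (le_add_of_nonneg_right e0.le)]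
  · linarith [L2 y, hb y, Dm' y he.1 he.2, L0 y]
  · linarith [L2 y, u3 y, u2 e 1 y he.1 he.2, L0 y, mul_nonneg b0 (L0 y)]
  · have a0 : 0 ≤ (c + b + 1) * Real.log (1 + nsq y) := mul_nonneg (by linarith) (L0 y)
    rcases le_total e 1 with h | h
    · linarith [hA e e0, Dm' y e0 h]
    · linarith [hA 1 one_pos, u2 1 e y one_pos h]

end Pool.Agent.Lib.RB9
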