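import Pool.Agent.Lib.RB9.Defs

/-! Project rb9: families on the fibres and the theorem of Hörmander over the good open set.
Blueprint. -/

open scoped Classical Topology ContDiff ComplexOrder Matrix ENNReal
open Set MeasureTheory Complex Metric Filter

set_option linter.unusedVariables false

noncomputable section

namespace Pool.Agent.Lib.RB9

open Pool.Agent.Lib.SV (E nsq)
open Pool.Agent.Lib.HS32 Pool.Agent.Lib.FI Pool.Agent.Lib.KH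

/-! ### Model spaces -/

/-- Symmetric functions. -/
def St_NEW : Prop := ∀ (W : Type) [NormedAddCommGroup W] [NormedSpace ℂ W] (S : Set W) (r : ℕ)
  (f g : W → Fin r → ℂ),
  (∀ l l' : ℕ, DifferentiableOn ℂ (fun w => ∑ j, f w j ^ l * g w j ^ l') S) →
  DifferentiableOn ℂ (fun w => ∏ j, f w j) S ∧
  DifferentiableOn ℂ (fun w => ∑ j, g w j * ∏ i ∈ Finset.univ.erase j, f w i) S

/-- The power sums bound the numbers. -/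
def St_PWR : Prop := ∀ r : ℕ, ∃ c : ℝ, 0 ≤ c ∧ ∀ (t : Fin r → ℂ) (A : ℝ), 0 ≤ A →
  (∀ l, 1 ≤ l → l ≤ r → ‖∑ j, t j ^ l‖ ≤ A ^ l) → ∀ j, ‖t j‖ ≤ c * A

/-- The mean value inequality for the positive part of the logarithm. -/
def St_MEAN : Prop := ∀ (g : ℕ) (S : Set (E g)) (f : E g → ℂ) (y : E g) (κ : E g → ℝ≥0∞),
  IsOpen S → DifferentiableOn ℂ f S → Measurable κ → (∀ (u : ℂ) w, ‖u‖ = 1 → κ (u • w) = κ w) →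
  (∀ w, κ w ≠ 0 → ∀ u : ℂ, ‖u‖ ≤ 1 → y + u • w ∈ S) →
  ENNReal.ofReal (Real.log ‖f y‖) * ∫⁻ w, κ w ≤
    ∫⁻ w, κ w * ENNReal.ofReal (Real.log ‖f (y + w)‖)

/-- The logarithm is locally integrable. -/
def St_LI : Prop := ∀ (g k : ℕ) (y₀ : E g) (R : ℝ) (G : Set (E k)) (f : E g × E k → ℂ) (s₀ : E k),
  IsOpen G → s₀ ∈ G → DifferentiableOn ℂ f (ball y₀ R ×ˢ G) → (∃ y ∈ ball y₀ R, f (y, s₀) ≠ 0) →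
  ∃ ε > 0, ball s₀ ε ⊆ G ∧
    ∫⁻ w in ball y₀ (R / 2) ×ˢ ball s₀ ε, ENNReal.ofReal (-Real.log ‖f w‖) ≠ ⊤

/-- Division on a slice. -/
def St_DV1 : Prop := ∀ (g : ℕ) (y₀ : E g) (R : ℝ) (f f' : E g → ℂ) (m : ℕ),
  DifferentiableOn ℂ f (ball y₀ R) → DifferentiableOn ℂ f' (ball y₀ R) →
  (∃ y ∈ ball y₀ R, f y ≠ 0) →
  (∀ j₀ : ℕ, ∃ j, j₀ ≤ j ∧ ∃ A : ℝ, ∀ y ∈ ball y₀ R, f y ≠ 0 →
    ‖f' y‖ ^ j * ‖f y‖ ^ m ≤ A * ‖f y‖ ^ j) →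
  ∃ u, DifferentiableOn ℂ u (ball y₀ R) ∧ ∀ y ∈ ball y₀ R, f' y = u y * f y

/-- Division with parameters. -/
def St_DV2 : Prop := ∀ (g k : ℕ) (y₀ : E g) (R : ℝ) (G : Set (E k)) (f f' : E g × E k → ℂ),
  IsOpen G → DifferentiableOn ℂ f (ball y₀ R ×ˢ G) → DifferentiableOn ℂ f' (ball y₀ R ×ˢ G) →
  (∀ s ∈ G, ∃ y ∈ ball y₀ R, f (y, s) ≠ 0) →
  (∀ᵐ s, s ∈ G → ∃ u, DifferentiableOn ℂ u (ball y₀ R) ∧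
    ∀ y ∈ ball y₀ R, f' (y, s) = u y * f (y, s)) →
  ∃ u, DifferentiableOn ℂ u (ball y₀ R ×ˢ G) ∧ ∀ w ∈ ball y₀ R ×ˢ G, f' w = u w * f w

/-- Interpolation at the roots, and their growth. -/
def St_LGR : Prop := ∀ (k : ℕ) (m : Pz k), m.Monic →
  (∃ (d : ℕ) (Λ : Fin d → Pz k), ∀ y s s', ev m y s = 0 → ev m y s' = 0 →
    ∑ i, ev (Λ i) y s * s' ^ (i : ℕ) = if s' = s then ev (Polynomial.derivative m) y s else 0) ∧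
  (∀ Q : Pz k, ∃ (b : ℕ) (c : ℝ), 0 ≤ c ∧ ∀ y s, ev m y s = 0 → ‖ev Q y s‖ ≤ c * (1 + nsq y) ^ b) ∧
  (∀ y, {s | ev m y s = 0}.Finite) ∧
  (∀ Q : Pz k, Differentiable ℂ fun w : E k × ℂ => ev Q w.1 w.2) ∧
  ∀ y₀ s₀, ev m y₀ s₀ = 0 → ev (Polynomial.derivative m) y₀ s₀ ≠ 0 → ∃ A : ℝ,
    ∀ᶠ w : E k × ℂ in 𝓝 (y₀, s₀), ev m w.1 w.2 = 0 → ‖w.2 - s₀‖ ≤ A * ‖w.1 - y₀‖

/-- A finite net for bounded holomorphic functions. -/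
def St_NET : Prop := ∀ (g : ℕ) (y₀ : E g) (R η : ℝ), 0 < R → 0 < η →
  ∃ (N : ℕ) (y : Fin N → E g), (∀ i, y i ∈ ball y₀ (R / 2)) ∧ ∀ (f : E g → ℂ) (A : ℝ),
    DifferentiableOn ℂ f (ball y₀ R) → (∀ w ∈ ball y₀ R, ‖f w‖ ≤ A) →
    ∀ w ∈ ball y₀ (R / 2), ∃ i, ‖f w - f (y i)‖ ≤ η * A

/-- From a small ball to a large ball. -/
def St_PSM : Prop := ∀ (k : ℕ) (y₀ : E k) (ε R : ℝ), 0 < ε → ∃ c ρ : ℝ, 0 ≤ c ∧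
  ∀ (u : E k → ℝ) (A B : ℝ), ContDiff ℝ ∞ u → (∀ y, (hr u y).PosSemidef) → 0 ≤ A → 0 ≤ B →
    (∀ y ∈ ball y₀ ρ, u y ≤ B) → -A ≤ ∫ y in ball y₀ ε, u y →
    -(c * (A + B)) ≤ ∫ y in {y | nsq y ≤ R}, u y

/-! ### The fibres -/

/-- The standing hypotheses. -/
structure Cx {n k : ℕ} {M : Mf n} (H : M.Fam (Mat n)) (p : M.X → ℝ) (z : M.X → E k) (C V : ℝ)
    (r Ψ : E k → ℝ) : Prop where
  fb : Fb H p z C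
  vol : Vol H p z V
  rad : Rad r Ψ
  jc : Jc H p z p C
  v0 : 0 < V

/-- Good points. -/
def St_GDO : Prop := ∀ (n k : ℕ) (M : Mf n) [M.Cpt] (H : M.Fam (Mat n)) (p : M.X → ℝ)
  (z : M.X → E k) (C V : ℝ) (r Ψ : E k → ℝ), Cx H p z C V r Ψ →
  (∀ s, Good H p z r p V s → ∃ x, 0 < p x ∧ z x = s) ∧
  ∀ (S : Set (E k)) (b : Box H p z S), IsOpen S →
    IsOpen b.G ∧ ∀ s ∈ S, Good H p z r p V s → s ∈ b.G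

/-- Null sets upstairs and downstairs. -/
def St_NUL : Prop := ∀ (n k : ℕ) (M : Mf n) [M.Cpt] (H : M.Fam (Mat n)) (p : M.X → ℝ)
  (z : M.X → E k) (C V : ℝ) (r Ψ : E k → ℝ), Cx H p z C V r Ψ →
  (∀ P : E k → Prop, (∀ᵐ s, P s) → ∀ᵐ x ∂M.mu H, 0 < p x → P (z x)) ∧
  ∀ (S : Set (E k)) (b : Box H p z S) (Z : Set M.X), IsOpen S → M.mu H Z = 0 →
    ∀ᵐ s, s ∈ S → ∀ᵐ y, y ∈ ball b.y0 b.R → ∀ j, b.a y s j ∉ Z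

/-- Almost all points have all their sheets in the open set. -/
def St_DNS : Prop := ∀ (n k : ℕ) (M : Mf n) [M.Cpt] (H : M.Fam (Mat n)) (p : M.X → ℝ) (z : M.X → E k)
  (θ : M.X → ℂ) (T : M.X → ℝ) (S : Set (E k)) (b : Box H p z S) (L : Loc p θ T b.W b.B),
  (∀ x, 0 ≤ p x) →
  (∀ lam : Fin L.N → ℂ, DifferentiableOn ℂ
      (fun w : E b.g × E k => ∏ j, ∑ i, lam i * L.q i (b.a w.1 w.2 j)) (ball b.y0 b.R ×ˢ S) ∧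
    ∀ y ∈ ball b.y0 b.R, ∀ s ∈ S, ∏ j, ∑ i, lam i * L.q i (b.a y s j) ≠ 0 →
      ∀ j, 0 < p (b.a y s j)) ∧
  ∀ s ∈ b.G, (∃ lam : Fin L.N → ℂ, ∃ y ∈ ball b.y0 b.R, ∏ j, ∑ i, lam i * L.q i (b.a y s j) ≠ 0) ∧
    ∀ᵐ y, y ∈ ball b.y0 b.R → ∀ j, 0 < p (b.a y s j)

/-- The traces are holomorphic. -/
def St_EIL : Prop := ∀ (n k : ℕ) (M : Mf n) [M.Cpt] (H : M.Fam (Mat n)) (p : M.X → ℝ)
  (z : M.X → E k) (θ : M.X → ℂ) (T : M.X → ℝ) (m : Pz k) (D : MvPolynomial (Fin k) ℂ)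
  (S : Set (E k)) (b : Box H p z S) (L : Loc p θ T b.W b.B) (i l : ℕ), Continuous p →
  (∀ x, 0 ≤ p x) → Al p z θ T m D → IsOpen S → IsOpen b.G →
  ∃ u : E b.g × E k → ℂ, DifferentiableOn ℂ u (ball b.y0 b.R ×ˢ b.G) ∧
    ∀ y ∈ ball b.y0 b.R, ∀ s ∈ b.G, (∀ j, 0 < p (b.a y s j)) →
      u (y, s) = ∑ j, θ (b.a y s j) ^ i * L.t (b.a y s j) ^ l

/-- The mean of `-log p` over the sheets. -/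
def St_HB : Prop := ∀ (n k : ℕ) (M : Mf n) [M.Cpt] (H : M.Fam (Mat n)) (p : M.X → ℝ)
  (z : M.X → E k) (C V : ℝ) (r Ψ : E k → ℝ) (D : MvPolynomial (Fin k) ℂ) (U : ℝ → E k → ℝ)
  (c₁ c₂ : ℝ) (S : Set (E k)) (b : Box H p z S), Cx H p z C V r Ψ → Up U c₁ →
  Dm H p z r V D U c₂ → IsOpen S → ∃ c : ℝ, 0 ≤ c ∧
  (∀ s ∈ S, ∀ A : ℝ, (∀ e, 0 < e → A ≤ U e s) →
    ∫⁻ y in ball b.y0 b.R, ∑ j, ENNReal.ofReal (-Real.log (p (b.a y s j))) ≤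
      ENNReal.ofReal (c * (1 - A))) ∧
  ∀ e ∈ Ioc (0 : ℝ) 1, ∀ s₀, ∫⁻ w in ball b.y0 b.R ×ˢ S, ENNReal.ofReal (sc r e (s₀ - w.2)) *
    ∑ j, ENNReal.ofReal (-Real.log (p (b.a w.1 w.2 j))) ≤ ENNReal.ofReal (c * (1 - U e s₀))

/-- Integrability near one point. -/
def St_LOG : Prop := ∀ (n k : ℕ) (M : Mf n) [M.Cpt] (H : M.Fam (Mat n)) (p : M.X → ℝ)
  (z : M.X → E k) (C V : ℝ) (r Ψ : E k → ℝ) (θ : M.X → ℂ) (T : M.X → ℝ) (S : Set (E k))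
  (c : Cov H p z S) (L : ∀ i, Loc p θ T (c.b i).W (c.b i).B) (s₀ : E k), Cx H p z C V r Ψ →
  s₀ ∈ S → (∀ i, s₀ ∈ (c.b i).G) → ∃ ε > 0,
  ∫⁻ x in {x | 0 < p x ∧ z x ∈ ball s₀ ε},
    ENNReal.ofReal (-Real.log (p x) * dn H z x) ∂M.mu H ≠ ⊤

/-- Integrability over all balls. -/
def St_GLO : Prop := ∀ (n k : ℕ) (M : Mf n) [M.Cpt] (H : M.Fam (Mat n)) (p : M.X → ℝ)
  (z : M.X → E k) (C V : ℝ) (r Ψ : E k → ℝ) (s₀ : E k) (ε : ℝ), Cx H p z C V r Ψ → 0 < ε →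
  ∫⁻ x in {x | 0 < p x ∧ z x ∈ ball s₀ ε},
    ENNReal.ofReal (-Real.log (p x) * dn H z x) ∂M.mu H ≠ ⊤ →
  ∀ R : ℝ, IntegrableOn (fun x => Real.log (p x) * dn H z x) {x | 0 < p x ∧ nsq (z x) ≤ R} (M.mu H)

/-- The potential without regularisation. -/
def St_U0 : Prop := ∀ (n k : ℕ) (M : Mf n) [M.Cpt] (H : M.Fam (Mat n)) (p : M.X → ℝ)
  (z : M.X → E k) (C V : ℝ) (r Ψ : E k → ℝ), Cx H p z C V r Ψ →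
  (∀ R : ℝ,
    IntegrableOn (fun x => Real.log (p x) * dn H z x) {x | 0 < p x ∧ nsq (z x) ≤ R} (M.mu H)) →
  ∃ (U : ℝ → E k → ℝ) (c : ℝ), 0 ≤ c ∧
    (∀ e, 0 < e → ContDiff ℝ ∞ (U e) ∧ ∀ y, (hr (U e) y).PosSemidef) ∧
    (∀ e e' y, 0 < e → e ≤ e' → U e y ≤ U e' y) ∧ (∀ y, U 1 y ≤ c * Real.log (2 + nsq y)) ∧
    (∀ᵐ y, Fin' U y) ∧ (∀ y, Fin' U y → Good H p z r p V y) ∧
    ∀ e ∈ Ioc (0 : ℝ) 1, ∀ y, ∫⁻ x in {x | 0 < p x},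
      ENNReal.ofReal (sc r e (y - z x) * -Real.log (p x) * dn H z x) ∂M.mu H ≤
        ENNReal.ofReal (c * Real.log (2 + nsq y) - U e y)

/-- The normalised potential. -/
def St_UP : Prop := ∀ (n k : ℕ) (M : Mf n) [M.Cpt] (H : M.Fam (Mat n)) (p : M.X → ℝ)
  (z : M.X → E k) (C V : ℝ) (r Ψ : E k → ℝ) (D : MvPolynomial (Fin k) ℂ), Cx H p z C V r Ψ →
  D ≠ 0 → (∀ R : ℝ,
    IntegrableOn (fun x => Real.log (p x) * dn H z x) {x | 0 < p x ∧ nsq (z x) ≤ R} (M.mu H)) →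
  ∃ (U : ℝ → E k → ℝ) (c₁ c₂ : ℝ), Up U c₁ ∧ Dm H p z r V D U c₂

/-- The bound from the sheets. -/
def St_SUB : Prop := ∀ (n k : ℕ) (M : Mf n) [M.Cpt] (H : M.Fam (Mat n)) (p : M.X → ℝ)
  (z : M.X → E k) (C V : ℝ) (r Ψ : E k → ℝ) (D : MvPolynomial (Fin k) ℂ) (U : ℝ → E k → ℝ)
  (c₁ c₂ : ℝ) (θ : M.X → ℂ) (T : M.X → ℝ) (S : Set (E k)) (b : Box H p z S)
  (L : Loc p θ T b.W b.B), Cx H p z C V r Ψ → Up U c₁ → Dm H p z r V D U c₂ → IsOpen S →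
  IsOpen b.G → ∃ c : ℝ, 0 ≤ c ∧
  (∀ s ∈ b.G, ∀ (f : E b.g → ℂ) (a : ℕ) (A₀ A : ℝ), DifferentiableOn ℂ f (ball b.y0 b.R) →
    1 ≤ A₀ → (∀ y ∈ ball b.y0 b.R, (∀ j, 0 < p (b.a y s j)) → f y ≠ 0 →
      ∃ j, ‖f y‖ * p (b.a y s j) ^ a ≤ A₀) → (∀ e, 0 < e → A ≤ U e s) →
    ∀ y ∈ ball b.y0 (b.R / 2), ‖f y‖ ≤ A₀ * Real.exp (a * c * (1 - A))) ∧
  ∀ (u : E b.g × E k → ℂ) (a β : ℕ) (A₀ : ℝ), DifferentiableOn ℂ u (ball b.y0 b.R ×ˢ b.G) →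
    1 ≤ A₀ → (∀ y ∈ ball b.y0 b.R, ∀ s ∈ b.G, (∀ j, 0 < p (b.a y s j)) → u (y, s) ≠ 0 →
      ∃ j, ‖u (y, s)‖ * p (b.a y s j) ^ a ≤ A₀ * (1 + nsq s) ^ β) →
    ∃ A₁ : ℝ, 0 ≤ A₁ ∧ ∀ K, IsCompact K → K ⊆ b.G → ∀ᶠ e in 𝓝[>] (0 : ℝ), ∀ s ∈ K,
      ∀ y ∈ ball b.y0 (b.R / 2), ‖u (y, s)‖ ≤ Real.exp (A₁ * (1 - U e s))

/-- The power sums over the sheets with a given value of `θ`. -/
structure Ps {n k : ℕ} {M : Mf n} {H : M.Fam (Mat n)} {p : M.X → ℝ} {z : M.X → E k}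
    {S : Set (E k)} (b : Box H p z S) (θ t : M.X → ℂ) (U : ℝ → E k → ℝ) (G : Set (E k)) (l : ℕ)
    (u : E b.g → M.X → ℂ) : Prop where
  hx : ∀ y ∈ ball b.y0 b.R, HoK M {x | 0 < p x ∧ z x ∈ G} (u y)
  hy : ∀ x, 0 < p x → z x ∈ G → DifferentiableOn ℂ (fun y => u y x) (ball b.y0 b.R)
  val : ∀ x, 0 < p x → z x ∈ G → ∀ y ∈ ball b.y0 b.R, (∀ j, 0 < p (b.a y (z x) j)) →
    u y x = ∑ j, if θ (b.a y (z x) j) = θ x then t (b.a y (z x) j) ^ l else 0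
  fn : ∀ x x', z x' = z x → θ x' = θ x → ∀ y, u y x' = u y x
  lip : ∀ y ∈ ball b.y0 b.R, ∀ x₀, 0 < p x₀ → z x₀ ∈ G → ∃ A : ℝ,
    ∀ᶠ x in 𝓝 x₀, ‖u y x - u y x₀‖ ≤ A * ‖z x - z x₀‖
  bd : ∃ A : ℝ, 0 ≤ A ∧ ∀ K, IsCompact K → K ⊆ G → ∀ᶠ e in 𝓝[>] (0 : ℝ), ∀ x, 0 < p x → z x ∈ K →
    ∀ y ∈ ball b.y0 (b.R / 2), ‖u y x‖ ≤ Real.exp (A * (1 - U e (z x)))

/-- They exist. -/
def St_EL : Prop := ∀ (n k : ℕ) (M : Mf n) [M.Cpt] (H : M.Fam (Mat n)) (p : M.X → ℝ)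
  (z : M.X → E k) (C V : ℝ) (r Ψ : E k → ℝ) (θ : M.X → ℂ) (T : M.X → ℝ) (m : Pz k)
  (D : MvPolynomial (Fin k) ℂ) (U : ℝ → E k → ℝ) (c₁ c₂ : ℝ) (S G : Set (E k)) (b : Box H p z S)
  (L : Loc p θ T b.W b.B) (l : ℕ), Cx H p z C V r Ψ → Al p z θ T m D → Up U c₁ →
  Dm H p z r V D U c₂ → IsOpen S → IsOpen b.G → IsOpen G → G ⊆ b.G →
  (∀ s ∈ G, MvPolynomial.eval s D ≠ 0) → ∃ u, Ps b θ L.t U G l u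

/-- A sheet is bounded by the power sums, and conversely. -/
def St_SHT : Prop := ∀ (n k : ℕ) (M : Mf n) [M.Cpt] (H : M.Fam (Mat n)) (p : M.X → ℝ)
  (z : M.X → E k) (θ : M.X → ℂ) (T : M.X → ℝ) (m : Pz k) (D : MvPolynomial (Fin k) ℂ)
  (U : ℝ → E k → ℝ) (S G : Set (E k)) (b : Box H p z S) (L : Loc p θ T b.W b.B)
  (u : ℕ → E b.g → M.X → ℂ), Continuous p → (∀ x, 0 ≤ p x) → Al p z θ T m D → G ⊆ b.G →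
  (∀ l, Ps b θ L.t U G l (u l)) → ∃ c : ℝ, 1 ≤ c ∧ ∀ x, 0 < p x → z x ∈ G → ∀ A : ℝ, 0 ≤ A →
    (∀ Z : Set M.X, (∀ᵐ y, y ∈ ball b.y0 b.R → ∀ j, b.a y (z x) j ∉ Z) →
      (∀ x' ∈ Fi p z θ x, x' ∉ Z → T x' ≤ A ^ 2) →
      ∀ l, 1 ≤ l → ∀ y ∈ ball b.y0 b.R, ‖u l y x‖ ≤ (c * A) ^ l) ∧
    ∀ y ∈ ball b.y0 b.R, (∀ l, 1 ≤ l → l ≤ b.r → ‖u l y x‖ ≤ A ^ l) →
      ∀ j, b.a y (z x) j ∈ Fi p z θ x → T (b.a y (z x) j) ≤ (c * A) ^ 2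

/-- The family. -/
def St_FAM : Prop := ∀ (n k : ℕ) (M : Mf n) [M.Cpt] (H : M.Fam (Mat n)) (p : M.X → ℝ)
  (z : M.X → E k) (C V : ℝ) (r Ψ : E k → ℝ) (θ : M.X → ℂ) (T : M.X → ℝ) (m : Pz k)
  (D : MvPolynomial (Fin k) ℂ) (U : ℝ → E k → ℝ) (c₁ c₂ : ℝ) (S : Set (E k)) (c : Cov H p z S)
  (L : ∀ i, Loc p θ T (c.b i).W (c.b i).B) (N : ℕ), Cx H p z C V r Ψ → Al p z θ T m D →
  Up U c₁ → Dm H p z r V D U c₂ → 0 < N → (∀ i l, 1 ≤ l → l ≤ (c.b i).r → l ∣ N) →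
  ∃ G : Set (E k), IsOpen G ∧ G ⊆ S ∧ (∀ s ∈ S, Good H p z r p V s → s ∈ G) ∧
    ∃ (d : ℕ) (F : M.X → Fin d → ℂ) (A : ℝ), Fm p z θ T U G N F A ∧ Fa H p z θ T G N F A

/-- The potential exists as soon as one good point has a covering. -/
def St_T9U : Prop := ∀ (n k : ℕ) (M : Mf n) [M.Cpt] (H : M.Fam (Mat n)) (p : M.X → ℝ)
  (z : M.X → E k) (C V : ℝ) (r Ψ : E k → ℝ) (θ : M.X → ℂ) (T : M.X → ℝ) (m : Pz k)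
  (D : MvPolynomial (Fin k) ℂ) (S : Set (E k)) (c : Cov H p z S)
  (L : ∀ i, Loc p θ T (c.b i).W (c.b i).B) (s₀ : E k), Cx H p z C V r Ψ → Al p z θ T m D →
  s₀ ∈ S → Good H p z r p V s₀ → ∃ (U : ℝ → E k → ℝ) (c₁ c₂ : ℝ), Up U c₁ ∧ Dm H p z r V D U c₂

/-! ### The theorem of Hörmander -/

/-- A weak inequality holds up to a small error after smoothing. -/
def St_MOL : Prop := ∀ (n k : ℕ) (M : Mf n) [M.Cpt] (H : M.Fam (Mat n)) (p : M.X → ℝ)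
  (z : M.X → E k) (C V : ℝ) (r Ψ : E k → ℝ) (Ω : Set (E k)) (A : E k → Mat k) (c : ℝ),
  Cx H p z C V r Ψ → IsOpen Ω → ContinuousOn A Ω → (∀ y ∈ Ω, (A y).IsHermitian) → 0 ≤ c →
  (∀ ϑ : E k → ℝ, Tst ϑ → (∀ y, 0 ≤ ϑ y) → tsupport ϑ ⊆ Ω → ∀ ξ : E k,
    ∫ y, ϑ y * nq (A y) ξ ≤
      c * ∫ x in {x | 0 < p x}, ϑ (z x) * nq (hz H z x).adjugate ξ ∂M.mu H) →
  ∀ K, IsCompact K → K ⊆ Ω → ∀ η : ℝ, 0 < η → ∀ᶠ e in 𝓝[>] (0 : ℝ), ∀ y ∈ K,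
    (c • ft H p z r e y + η • (1 : Mat k) - A y).PosSemidef

/-- Functions of one variable. -/
def St_CVX : Prop := ∃ (g q χ ζ : ℝ → ℝ) (S : ℝ), 0 ≤ S ∧ ContDiff ℝ ∞ g ∧ ContDiff ℝ ∞ q ∧
  ContDiff ℝ ∞ χ ∧ ContDiff ℝ ∞ ζ ∧ ∀ t,
    ((t ≤ -3 → g t = 0) ∧ (-2 ≤ t → g t = t + 5 / 2) ∧ deriv g t ∈ Icc (0 : ℝ) 1 ∧
      0 ≤ deriv (deriv g) t) ∧
    ((t ≤ -1 → χ t = 0) ∧ (1 ≤ t → χ t = t) ∧ χ t ≤ max t 0 + 1 ∧ deriv χ t ∈ Icc (0 : ℝ) 1 ∧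
      0 ≤ deriv (deriv χ) t) ∧
    ((t ≤ -7 / 4 → ζ t = 0) ∧ (-5 / 4 ≤ t → ζ t = 1) ∧ ζ t ∈ Icc (0 : ℝ) 1) ∧
    (0 ≤ q t ∧ deriv q t ∈ Icc (0 : ℝ) S ∧ deriv ζ t ^ 2 ≤ deriv (deriv q) t)

/-- The global weight. -/
def St_WGT : Prop := ∀ (n k : ℕ) (M : Mf n) [M.Cpt] (H : M.Fam (Mat n)) (O : Set M.X)
  (ν : Measure M.X) (z : M.X → E k) (Ω : Set (E k)) (U v : ℝ → E k → ℝ) (c₁ : ℝ) (κ : M.X → ℝ) (Θ : M.Fam (Mat n))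
  (m m₁ C l c : ℝ) (q : ℝ → ℝ) (S : ℝ), Wd H O ν z Ω U v c₁ κ Θ m m₁ C → 5 * m₁ + 1 ≤ l →
  l * c₁ + 2 ≤ c → ContDiff ℝ ∞ q → (∀ t, deriv q t ∈ Icc (0 : ℝ) S ∧ 0 ≤ deriv (deriv q) t) →
  ∃ A B : ℝ, 0 ≤ B ∧ ∀ᶠ L in atTop, ∀ᶠ e in 𝓝[>] (0 : ℝ), {y | -(2 * L) ≤ U e y} ⊆ Ω ∧
    ∃ ph : M.X → ℝ, SmK M O ph ∧ (OnK M O fun d w => (M.hs ph d w).PosSemidef) ∧
      (∀ x ∈ O, ph x ≤ A + B * Real.log (1 + nsq (z x))) ∧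
      (∀ x ∈ O, -(2 * L) ≤ U e (z x) → ph x = wt z κ U v m l c e x + q (U e (z x) / L)) ∧
      OnK M (O ∩ {x | -(2 * L) < U e (z x)}) fun d w => (M.hs ph d w - Θ d w -
        (deriv (deriv q) (U e (z (d.symm w)) / L) / L ^ 2) •
          M.ds (fun x => U e (z x)) (fun x => U e (z x)) d w).PosSemidef

/-- One step: the solution for the data with a cut-off. -/
def St_ONE : Prop := ∀ (n k : ℕ) (M : Mf n) [M.Cpt] (H : M.Fam (Mat n)) (O : Set M.X)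
  (ν : Measure M.X) (z : M.X → E k) (Ω : Set (E k)) (U v : ℝ → E k → ℝ) (c₁ : ℝ) (κ : M.X → ℝ) (Θ : M.Fam (Mat n))
  (m m₁ C l c : ℝ), Wd H O ν z Ω U v c₁ κ Θ m m₁ C → 5 * m₁ + 1 ≤ l → l * c₁ + 2 ≤ c →
  ∃ (q ζ : ℝ → ℝ) (A B : ℝ), Continuous q ∧ Monotone q ∧ (∀ t, 0 ≤ q t) ∧ 0 ≤ B ∧
    (∀ t, ζ t ∈ Icc (0 : ℝ) 1 ∧ (-1 ≤ t → ζ t = 1)) ∧ Continuous ζ ∧
  ∀ (β : M.X → ℝ) (Γ : M.X → ℂ), AEMeasurable β ν → SmK M (O ∩ z ⁻¹' Ω) Γ →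
    (∀ x ∈ O ∩ z ⁻¹' Ω, 0 ≤ β x) →
    (OnK M (O ∩ z ⁻¹' Ω) fun d w => ∀ ξ, normSq (dbv (Γ ∘ d.symm) w ξ) ≤
      β (d.symm w) * nq (Θ d w) ξ) →
    ∫⁻ x, ENNReal.ofReal (normSq (Γ x)) * den z κ U v m l c x ∂ν ≠ ⊤ →
    ∀ᶠ L in atTop, ∀ᶠ e in 𝓝[>] (0 : ℝ), ∃ (F : M.X → ℂ) (ph : M.X → ℝ), HoK M O F ∧
      ContinuousOn ph O ∧ (∀ x ∈ O, ph x ≤ A + B * Real.log (1 + nsq (z x))) ∧
      (∀ x ∈ O, -(2 * L) ≤ U e (z x) → ph x = wt z κ U v m l c e x + q (U e (z x) / L)) ∧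
      ∫⁻ x, ENNReal.ofReal (normSq (ζ (U e (z x) / L) * Γ x - F x) * Real.exp (-ph x)) ∂ν ≤
        ∫⁻ x, ENNReal.ofReal ((β x + {x | U e (z x) ≤ -L}.indicator (fun x => normSq (Γ x)) x) *
          Real.exp (-(wt z κ U v m l c e x + q (U e (z x) / L)))) ∂ν

/-- The theorem of Montel on the open set. -/
def St_MTL : Prop := ∀ (n : ℕ) (M : Mf n) [M.Cpt] (H : M.Fam (Mat n)) (O : Set M.X)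
  (ν : Measure M.X) (F : ℕ → M.X → ℂ) (w : M.X → ℝ) (B : ℝ≥0∞), M.Met H → IsOpen O →
  (∀ x ∈ O, ∃ c : ℝ≥0∞, c ≠ ⊤ ∧ ∃ N ∈ 𝓝 x, (M.mu H).restrict N ≤ c • ν) → ContinuousOn w O →
  (∀ x ∈ O, 0 < w x) → B ≠ ⊤ → (∀ i, HoK M O (F i)) →
  (∀ i, ∫⁻ x in O, ENNReal.ofReal (normSq (F i x) * w x) ∂ν ≤ B) →
  ∃ (G : M.X → ℂ) (s : ℕ → ℕ), StrictMono s ∧ HoK M O G ∧
    ∀ x ∈ O, Tendsto (fun i => F (s i) x) atTop (𝓝 (G x))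

/-- The theorem. -/
def St_T10 : Prop := ∀ (n k : ℕ) (M : Mf n) [M.Cpt] (H : M.Fam (Mat n)) (O : Set M.X)
  (ν : Measure M.X) (z : M.X → E k) (Ω : Set (E k)) (U v : ℝ → E k → ℝ) (c₁ : ℝ) (κ : M.X → ℝ)
  (Θ : M.Fam (Mat n)) (m m₁ C l c : ℝ) (β : M.X → ℝ) (Γ : M.X → ℂ),
  Wd H O ν z Ω U v c₁ κ Θ m m₁ C → 5 * m₁ + 1 ≤ l → l * c₁ + 2 ≤ c → AEMeasurable β ν →
  SmK M (O ∩ z ⁻¹' Ω) Γ → (∀ x ∈ O ∩ z ⁻¹' Ω, 0 ≤ β x) →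
  (OnK M (O ∩ z ⁻¹' Ω) fun d w => ∀ ξ, normSq (dbv (Γ ∘ d.symm) w ξ) ≤
    β (d.symm w) * nq (Θ d w) ξ) →
  ∫⁻ x, ENNReal.ofReal (normSq (Γ x)) * den z κ U v m l c x ∂ν ≠ ⊤ →
  ∃ F, HoK M O F ∧ ∫⁻ x, ENNReal.ofReal (normSq (Γ x - F x)) * den z κ U v m l c x ∂ν ≤
    ∫⁻ x, ENNReal.ofReal (β x) * den z κ U v m l c x ∂ν

end Pool.Agent.Lib.RB9
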