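import Pool.Agent.Lib.FI.Blue
import Pool.Agent.Lib.KH.Blue

/-! Project rb9: scales, coverings, algebraic data and potentials. -/

open scoped Classical Topology ContDiff ComplexOrder Matrix ENNReal
open Set MeasureTheory Complex Metric Filter

noncomputable section

namespace Pool.Agent.Lib.RB9

open Pool.Agent.Lib.SV (E nsq)
open Pool.Agent.Lib.HS32 Pool.Agent.Lib.FI Pool.Agent.Lib.KH

variable {n k : ℕ} {M : Mf n}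

/-- Polynomials in one variable over the coordinate ring of the base. -/
abbrev Pz (k : ℕ) : Type := Polynomial (MvPolynomial (Fin k) ℂ)

/-- The value at `(y, s)`. -/
def ev (Q : Pz k) (y : E k) (s : ℂ) : ℂ := Q.eval₂ (MvPolynomial.eval y) s

/-- The algebraic data on the open set where `p` is positive. -/
structure Al (p : M.X → ℝ) (z : M.X → E k) (θ : M.X → ℂ) (T : M.X → ℝ) (m : Pz k)
    (D : MvPolynomial (Fin k) ℂ) : Prop where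
  hol : HoK M {x | 0 < p x} θ
  mon : m.Monic
  rt : ∀ x, 0 < p x → ev m (z x) (θ x) = 0
  bez : ∃ A B : Pz k, Polynomial.C D = A * m + B * Polynomial.derivative m
  d0 : ∀ x, 0 < p x → MvPolynomial.eval (z x) D ≠ 0
  t0 : ∀ x, 0 ≤ T x
  tc : ContinuousOn T {x | 0 < p x}
  tb : ∃ (a : ℕ) (c : ℝ), ∀ x, 0 < p x → T x * p x ^ a ≤ c
  ai : ∃ a : ℕ, ∀ j0 : ℕ, ∃ j, j0 ≤ j ∧ ∃ (P : MvPolynomial (Fin k) ℂ) (b : ℕ) (c : ℝ), P ≠ 0 ∧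
    ∀ x, 0 < p x → T x ^ j * normSq (MvPolynomial.eval (z x) P) * p x ^ a ≤ c * (1 + nsq (z x)) ^ b

/-- One scale: the fibres over `V`, inside a chart, are branched coverings of a polydisc. -/
structure Box (H : M.Fam (Mat n)) (p : M.X → ℝ) (z : M.X → E k) (V : Set (E k)) where
  g : ℕ
  r : ℕ
  W : Set M.X
  B : Set M.X
  y0 : E g
  R : ℝ
  a : E g → E k → Fin r → M.X
  c : ℝ
  R0 : 0 < R
  c0 : 0 ≤ c
  oW : IsOpen W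
  cB : IsCompact B
  BW : B ⊆ W
  hol : ∀ φ, HoK M W φ →
    DifferentiableOn ℂ (fun w : E g × E k => ∑ j, φ (a w.1 w.2 j)) (ball y0 R ×ˢ V)
  con : ∀ φ : M.X → ℝ, Continuous φ →
    ContinuousOn (fun w : E g × E k => ∑ j, φ (a w.1 w.2 j)) (ball y0 R ×ˢ V)
  fib : ∀ y ∈ ball y0 R, ∀ s ∈ V, ∀ j, a y s j ∈ B ∧ (0 < p (a y s j) → z (a y s j) = s)
  up : ∀ (φ : M.X → ℝ) (ϑ : E k → ℝ), Continuous φ → (∀ x, 0 ≤ φ x) → Continuous ϑ →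
    (∀ s, 0 ≤ ϑ s) →
    ∫⁻ w in ball y0 R ×ˢ V, ENNReal.ofReal (ϑ w.2 * ∑ j, φ (a w.1 w.2 j)) ≤ ENNReal.ofReal c *
      ∫⁻ x in {x | 0 < p x}, ENNReal.ofReal (ϑ (z x) * φ x * dn H z x) ∂M.mu H

/-- The data of the chart of a scale: local equations `q` of the zero set of `p`, and the local
expression `t` of the meromorphic section. -/
structure Loc (p : M.X → ℝ) (θ : M.X → ℂ) (T : M.X → ℝ) (W B : Set M.X) where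
  N : ℕ
  q : Fin N → M.X → ℂ
  qθ : Fin N → M.X → ℂ
  qt : Fin N → M.X → ℂ
  t : M.X → ℂ
  c : ℝ
  κ : ℕ
  c0 : 0 ≤ c
  hol : ∀ i, HoK M W (q i) ∧ HoK M W (qθ i) ∧ HoK M W (qt i)
  eq : ∀ i, ∀ x ∈ W, 0 < p x → qθ i x = q i x * θ x ∧ qt i x = q i x * t x
  le : ∀ i, ∀ x ∈ B, normSq (q i x) ^ κ ≤ c * p x
  ne : ∀ x ∈ B, 0 < p x → ∃ i, q i x ≠ 0
  cmp : ∀ x ∈ B, 0 < p x → normSq (t x) ≤ c * T x ∧ T x ≤ c * normSq (t x)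
  k0 : 0 < κ

/-- Finitely many scales that cover the fibres over `V`. -/
structure Cov (H : M.Fam (Mat n)) (p : M.X → ℝ) (z : M.X → E k) (V : Set (E k)) where
  N : ℕ
  b : Fin N → Box H p z V
  c : ℝ
  c0 : 0 ≤ c
  oV : IsOpen V
  cov : ∀ x, 0 < p x → z x ∈ V → ∃ i, ∃ y ∈ ball (b i).y0 ((b i).R / 2), ∃ j, (b i).a y (z x) j = x
  lo : ∀ (φ : M.X → ℝ) (S : Set (E k)), Continuous φ → (∀ x, 0 ≤ φ x) → IsOpen S → S ⊆ V →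
    ∫⁻ x in {x | 0 < p x ∧ z x ∈ S}, ENNReal.ofReal (φ x * dn H z x) ∂M.mu H ≤ ENNReal.ofReal c *
      ∑ i, ∫⁻ w in ball (b i).y0 ((b i).R / 2) ×ˢ S, ENNReal.ofReal (∑ j, φ ((b i).a w.1 w.2 j))

/-- The points over which all sheets of some point lie in the open set. -/
def Box.G {H : M.Fam (Mat n)} {p : M.X → ℝ} {z : M.X → E k} {V : Set (E k)} (b : Box H p z V) :
    Set (E k) := {s | s ∈ V ∧ ∃ y ∈ ball b.y0 b.R, ∀ j, 0 < p (b.a y s j)}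

/-- The decreasing family is bounded below at `y`. -/
def Fin' (U : ℝ → E k → ℝ) (y : E k) : Prop := ∃ A : ℝ, ∀ e, 0 < e → A ≤ U e y

/-- A decreasing family of almost plurisubharmonic functions that tend to `-∞` at infinity. -/
structure Up (U : ℝ → E k → ℝ) (c₁ : ℝ) : Prop where
  c0 : 0 ≤ c₁
  sm : ∀ e, 0 < e → ContDiff ℝ ∞ (U e)
  psh : ∀ e, 0 < e → ∀ y, (hr (fun w => U e w + c₁ * Real.log (1 + nsq w)) y).PosSemidef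
  mono : ∀ e e' y, 0 < e → e ≤ e' → U e y ≤ U e' y
  up : ∀ y, U 1 y ≤ -Real.log (1 + nsq y)
  fin : ∀ᵐ y, Fin' U y

/-- The family controls the fibre integrals of `-log p` and the discriminant. -/
structure Dm (H : M.Fam (Mat n)) (p : M.X → ℝ) (z : M.X → E k) (r : E k → ℝ) (V : ℝ)
    (D : MvPolynomial (Fin k) ℂ) (U : ℝ → E k → ℝ) (c : ℝ) : Prop where
  c0 : 0 ≤ c
  fib : ∀ e ∈ Ioc (0 : ℝ) 1, ∀ y, ∫⁻ x in {x | 0 < p x},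
    ENNReal.ofReal (sc r e (y - z x) * -Real.log (p x) * dn H z x) ∂M.mu H ≤
      ENNReal.ofReal (c - U e y)
  dis : ∀ e ∈ Ioc (0 : ℝ) 1, ∀ y, -Real.log (normSq (MvPolynomial.eval y D) + e) ≤ c - U e y
  good : ∀ y, Fin' U y → Good H p z r p V y

/-- The points with the same image in the normalised base. -/
def Fi (p : M.X → ℝ) (z : M.X → E k) (θ : M.X → ℂ) (x : M.X) : Set M.X :=
  {x' | 0 < p x' ∧ z x' = z x ∧ θ x' = θ x}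

/-- A family whose norm is comparable with the supremum of `T ^ N` on the fibres over `G`. -/
structure Fm (p : M.X → ℝ) (z : M.X → E k) (θ : M.X → ℂ) (T : M.X → ℝ) (U : ℝ → E k → ℝ)
    (G : Set (E k)) (N : ℕ) {ι : Type} [Fintype ι] (F : M.X → ι → ℂ) (c : ℝ) : Prop where
  c0 : 0 ≤ c
  hol : ∀ i, HoK M {x | 0 < p x ∧ z x ∈ G} fun x => F x i
  fn : ∀ x, 0 < p x → z x ∈ G → ∀ x' ∈ Fi p z θ x, F x' = F x
  lo : ∀ x, 0 < p x → z x ∈ G → ∀ x' ∈ Fi p z θ x, T x' ^ N ≤ c * nsq (F x)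
  up : ∀ x, 0 < p x → z x ∈ G → ∀ A : ℝ, (∀ x' ∈ Fi p z θ x, T x' ^ N ≤ A) → nsq (F x) ≤ c * A
  lip : ∀ x₀, 0 < p x₀ → z x₀ ∈ G → ∃ A : ℝ, ∀ᶠ x in 𝓝 x₀, ‖F x - F x₀‖ ≤ A * ‖z x - z x₀‖
  bd : ∀ K, IsCompact K → K ⊆ G → ∀ᶠ e in 𝓝[>] (0 : ℝ), ∀ x, 0 < p x → z x ∈ K →
    nsq (F x) * Real.exp (c * U e (z x)) ≤ c
  r2 : ∀ (γ : M.X → ℂ) (Q s : ℕ) (A₀ : ℝ), 0 < Q →
    (∀ x, 0 < p x → normSq (γ x) * T x ^ (N * Q) * p x ^ s ≤ A₀) → ∃ A₁ : ℝ,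
    ∀ x, 0 < p x → z x ∈ G → (∀ x' ∈ Fi p z θ x, γ x' = γ x) → ∀ A : ℝ,
      (∀ e, 0 < e → A ≤ U e (z x)) → normSq (γ x) * nsq (F x) ^ Q * Real.exp (s * c * A) ≤ A₁

/-- The upper bound of the family only needs a bound for `T` off a null set. -/
def Fa (H : M.Fam (Mat n)) (p : M.X → ℝ) (z : M.X → E k) (θ : M.X → ℂ) (T : M.X → ℝ)
    (G : Set (E k)) (N : ℕ) {ι : Type} [Fintype ι] (F : M.X → ι → ℂ) (c : ℝ) : Prop :=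
  ∀ Z : Set M.X, M.mu H Z = 0 → ∀ᵐ x ∂M.mu H, 0 < p x → z x ∈ G → ∀ A : ℝ, 0 ≤ A →
    (∀ x' ∈ Fi p z θ x, x' ∉ Z → T x' ^ N ≤ A) → nsq (F x) ≤ c * A

/-- The weight at the scale `e`. -/
def wt (z : M.X → E k) (κ : M.X → ℝ) (U v : ℝ → E k → ℝ) (m l c e : ℝ) (x : M.X) : ℝ :=
  κ x + m * v e (z x) + l * U e (z x) + c * Real.log (1 + nsq (z x))

/-- The limit density. -/
def den (z : M.X → E k) (κ : M.X → ℝ) (U v : ℝ → E k → ℝ) (m l c : ℝ) (x : M.X) : ℝ≥0∞ :=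
  ⨆ i : ℕ, ENNReal.ofReal (Real.exp (-wt z κ U v m l c (1 / ((i : ℝ) + 1)) x))

/-- The pull-back of a matrix field on the base. -/
def pb (z : M.X → E k) (A : E k → Mat k) : M.Fam (Mat n) :=
  fun e w => (jr (z ∘ e.symm) w)ᴴ * A (z (e.symm w)) * jr (z ∘ e.symm) w

/-- The data of the theorem of Hörmander over `Ω`. -/
structure Wd (H : M.Fam (Mat n)) (O : Set M.X) (ν : Measure M.X) (z : M.X → E k) (Ω : Set (E k))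
    (U v : ℝ → E k → ℝ) (c₁ : ℝ) (κ : M.X → ℝ) (Θ : M.Fam (Mat n)) (m m₁ C : ℝ) : Prop where
  met : M.Met H
  oO : IsOpen O
  hq : HqB M O ν
  ae : ∀ᵐ x ∂ν, x ∈ O ∧ Fin' U (z x)
  low : ∀ x ∈ O, ∃ c : ℝ≥0∞, c ≠ ⊤ ∧ ∃ N ∈ 𝓝 x, (M.mu H).restrict N ≤ c • ν
  hz : OnK M O fun e w => HolN (z ∘ e.symm) w
  oΩ : IsOpen Ω
  up : Up U c₁
  sub : ∀ y, Fin' U y → y ∈ Ω
  vs : ∀ e, 0 < e → ContDiff ℝ ∞ (v e) ∧ ∀ y, (hr (v e) y).PosSemidef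
  vm : ∀ e e' y, 0 < e → e ≤ e' → v e y ≤ v e' y
  vu : ∃ c : ℝ, ∀ y, v 1 y ≤ c * Real.log (2 + nsq y)
  m0 : 0 ≤ m ∧ 0 ≤ m₁ ∧ 0 ≤ C
  sk : SmK M (O ∩ z ⁻¹' Ω) κ
  lb : ∀ x ∈ O ∩ z ⁻¹' Ω, -C ≤ κ x
  pos : OnK M (O ∩ z ⁻¹' Ω) fun e w => (Θ e w).PosSemidef
  cur : ∀ K, IsCompact K → K ⊆ Ω → ∀ η : ℝ, 0 < η → ∀ᶠ e in 𝓝[>] (0 : ℝ),
    OnK M (O ∩ z ⁻¹' K) fun d w =>
      (M.hs κ d w + pb z (fun y => m • hr (v e) y + η • (1 : Mat k)) d w - Θ d w).PosSemidef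
  ub : ∀ K, IsCompact K → K ⊆ Ω → ∀ᶠ e in 𝓝[>] (0 : ℝ), ∀ x ∈ O ∩ z ⁻¹' K,
    κ x + m₁ * U e (z x) ≤ C

end Pool.Agent.Lib.RB9
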