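import Pool.Agent.Lib.RB9.All
import Pool.Agent.Lib.KQ.Blue

/-! Project rb9: the theorem of Hörmander over the good open set, weights not bounded below. -/

open scoped Classical Topology ContDiff ComplexOrder Matrix ENNReal
open Set MeasureTheory Complex Metric Filter

set_option linter.unusedVariables false

noncomputable section

namespace Pool.Agent.Lib.RB9

open Pool.Agent.Lib.SV (E nsq nsq_nonneg)
open Pool.Agent.Lib.HS32 Pool.Agent.Lib.FI Pool.Agent.Lib.KH

/-- The bridge. -/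
def St_HQS : Prop := ∀ (n k : ℕ) (M : Mf n) [M.Cpt] (H : M.Fam (Mat n)) (O : Set M.X)
  (ν : Measure M.X) (z : M.X → E k) (Ω : Set (E k)) (U v : ℝ → E k → ℝ) (c₁ m m₁ l c : ℝ)
  (S : M.Fam (Mat n)) (u : M.X → ℝ) (C : ℝ), Wd H O ν z Ω U v c₁ (fun _ => 0) 0 m m₁ 0 →
  (OnK M (O ∩ z ⁻¹' Ω) fun d w => (S d w).PosSemidef) →
  (∀ K, IsCompact K → K ⊆ Ω → ∀ η : ℝ, 0 < η → ∀ᶠ e in 𝓝[>] (0 : ℝ), OnK M (O ∩ z ⁻¹' K)
    fun d w => (pb z (fun y => m • hr (v e) y + η • (1 : Mat k)) d w - S d w).PosSemidef) →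
  (∀ K, IsCompact K → K ⊆ Ω → ∀ᶠ e in 𝓝[>] (0 : ℝ), ∀ x ∈ O ∩ z ⁻¹' K,
    u x + m₁ * U e (z x) ≤ C) → 5 * m₁ + 1 ≤ l → l * c₁ + 2 ≤ c →
  KQ.HqS M O (O ∩ z ⁻¹' Ω) (ν.withDensity (den z (fun _ => 0) U v m l c)) S u 1

namespace HQS

theorem sp {a : ℝ} (ha : 0 < a) : ContDiff ℝ ∞ (fun t => Real.log (Real.exp t + a)) ∧
    (deriv (fun t => Real.log (Real.exp t + a)) = fun t => Real.exp t / (Real.exp t + a)) ∧
    ∀ t, 0 ≤ deriv (deriv fun t => Real.log (Real.exp t + a)) t := by
  have p : ∀ t, Real.exp t + a ≠ 0 := fun t => by positivity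
  have d : deriv (fun t => Real.log (Real.exp t + a)) = fun t => Real.exp t / (Real.exp t + a) :=
    funext fun t => (((Real.hasDerivAt_exp t).add_const a).log (p t)).deriv
  refine ⟨(Real.contDiff_exp.add contDiff_const).log p, d, fun t => ?_⟩
  rw [d, ((Real.hasDerivAt_exp t).fun_div ((Real.hasDerivAt_exp t).add_const a) (p t)).deriv]
  have := Real.exp_pos t
  exact div_nonneg (by nlinarith) (sq_nonneg _)

variable {n k : ℕ} {M : Mf n}

theorem den_eq (z : M.X → E k) (κ : M.X → ℝ) (U v : ℝ → E k → ℝ) (m l c : ℝ) (x : M.X) :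
    den z κ U v m l c x = ENNReal.ofReal (Real.exp (-κ x)) * den z (fun _ => 0) U v m l c x := by
  simp only [den, ENNReal.mul_iSup, ← ENNReal.ofReal_mul (Real.exp_pos _).le, ← Real.exp_add, wt]
  refine iSup_congr fun i => ?_
  congr 2
  ring

theorem nq_smul (t : ℝ) (A : Mat n) (ξ : E n) : nq (t • A) ξ = t * nq A ξ := by
  simp [nq, Matrix.smul_mulVec]

end HQS

open HQS T10 in
theorem aHQS : St_HQS := by
  intro n k M _ H O ν z Ω U v c₁ m m₁ l c S u C W hS cur ub hl hc κ β Γ cβ ds ⟨C', hu⟩ fin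
  by_cases hI : ∫⁻ x, ENNReal.ofReal (β x * Real.exp (-κ x))
      ∂ν.withDensity (den z (fun _ => 0) U v m l c) = ⊤
  · exact ⟨fun _ => 0, fun e _ w _ _ => .of_forall fun _ => differentiableAt_const _, by
      rw [hI, one_mul]; exact le_top⟩
  obtain ⟨m0, m1, -⟩ := W.m0
  have aO : ∀ᵐ x ∂ν, x ∈ O := W.ae.mono fun _ h => h.1
  have aΩ : ∀ᵐ x ∂ν, x ∈ O ∩ z ⁻¹' Ω := W.ae.mono fun _ h => ⟨h.1, W.sub _ h.2⟩
  have cz : ContinuousOn z O := cont fun d hd w hw ho => (W.hz d hd w hw ho).self_of_nhds.continuousAt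
  have oΩ := cz.isOpen_inter_preimage W.oO W.oΩ
  have mz := meas W.oO aO cz
  have mκ := meas oΩ aΩ (cont (f := κ) fun d hd w hw ho => (ds.sf d hd w hw ho).continuousAt)
  have mΓ := meas oΩ aΩ (cont (f := Γ) fun d hd w hw ho => (ds.sg d hd w hw ho).continuousAt)
  have mβ := meas oΩ aΩ cβ
  have mD : AEMeasurable (den z (fun _ => 0) U v m l c) ν := .iSup fun i =>
    (((aemeasurable_const.add (((W.vs _ (by positivity)).1.continuous.measurable.comp_aemeasurable
      mz).const_mul m)).add (((W.up.sm _ (by positivity)).continuous.measurable.comp_aemeasurable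
      mz).const_mul l)).add
      (((c_nsq.measurable.comp_aemeasurable mz).const_add 1).log.const_mul c)).neg.exp.ennreal_ofReal
  have cv : ∀ f g : M.X → ℝ, AEMeasurable f ν → AEMeasurable g ν →
      ∫⁻ x, ENNReal.ofReal (f x) * den z g U v m l c x ∂ν =
      ∫⁻ x, ENNReal.ofReal (f x * Real.exp (-g x)) ∂ν.withDensity (den z (fun _ => 0) U v m l c) :=
    fun f g hf hg => by
      rw [lintegral_withDensity_eq_lintegral_mul₀ mD (g := fun x => ENNReal.ofReal
        (f x * Real.exp (-g x))) (hf.mul hg.neg.exp).ennreal_ofReal]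
      refine lintegral_congr fun x => ?_
      simp only [Pi.mul_apply]
      rw [den_eq, ENNReal.ofReal_mul' (Real.exp_pos _).le]
      ring
  have U0 : ∀ t y, 0 < t → t ≤ 1 → U t y ≤ 0 := fun t y h0 h1 =>
    (W.up.mono _ _ y h0 h1).trans ((W.up.up y).trans
      (neg_nonpos.2 (Real.log_nonneg (le_add_of_nonneg_right (nsq_nonneg y)))))
  set a : ℕ → ℝ := fun j => 1 / ((j : ℝ) + 1) with ha
  have a0 : ∀ j, 0 < a j := fun j => by positivity
  have a1 : ∀ j, a j ≤ 1 := fun j =>
    (div_le_one (by positivity)).2 (le_add_of_nonneg_left (Nat.cast_nonneg j))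
  set q : ℕ → M.X → ℝ := fun j x => Real.log (Real.exp (κ x) + a j) with hq
  have p : ∀ j x, 0 < Real.exp (κ x) + a j := fun j x => add_pos (Real.exp_pos _) (a0 j)
  have kq : ∀ j x, κ x ≤ q j x := fun j x =>
    (Real.le_log_iff_exp_le (p j x)).2 (le_add_of_nonneg_right (a0 j).le)
  have mq : ∀ j, AEMeasurable (q j) ν := fun j => (mκ.exp.add_const _).log
  have uq : ∀ K, IsCompact K → K ⊆ Ω → ∀ᶠ e in 𝓝[>] (0 : ℝ), (0 < e ∧ e ≤ 1) ∧ ∀ j,
      ∀ x ∈ O ∩ z ⁻¹' K, q j x + m₁ * U e (z x) ≤ 1 + |C + C'| := fun K hK sK => by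
    filter_upwards [ub K hK sK, Ioc_mem_nhdsGT one_pos] with e he e1
    refine ⟨e1, fun j x hx => ?_⟩
    have b1 := he x hx
    have b2 := hu x ⟨hx.1, sK hx.2⟩
    have b3 := mul_nonneg m1 (neg_nonneg.2 (U0 e (z x) e1.1 e1.2))
    have b4 := le_abs_self (C + C')
    have b5 := abs_nonneg (C + C')
    have b6 : Real.exp (κ x) ≤ Real.exp (|C + C'| - m₁ * U e (z x)) :=
      Real.exp_le_exp.2 (by linarith)
    have b7 : 1 ≤ Real.exp (|C + C'| - m₁ * U e (z x)) := Real.one_le_exp (by linarith)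
    have b8 := Real.add_one_le_exp 1
    have : q j x ≤ 1 + (|C + C'| - m₁ * U e (z x)) := by
      refine (Real.log_le_iff_le_exp (p j x)).2 ?_
      rw [Real.exp_add]
      nlinarith [a1 j]
    linarith
  have mN : ∀ F : M.X → ℂ, AEMeasurable F ν → AEMeasurable (fun x => normSq (F x)) ν :=
    fun F h => continuous_normSq.measurable.comp_aemeasurable h
  have mF : ∀ F, HoK M O F → AEMeasurable F ν := fun F h => meas W.oO aO
    (cont (f := F) fun d hd w hw ho => (h d hd w hw ho).self_of_nhds.continuousAt)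
  have f1 : ∀ j, ∫⁻ x, ENNReal.ofReal (normSq (Γ x)) * den z (q j) U v m l c x ∂ν ≤
      KQ.Nm (ν.withDensity (den z (fun _ => 0) U v m l c)) κ Γ := fun j => by
    rw [cv _ _ (mN _ mΓ) (mq j)]
    exact lintegral_mono fun x => ENNReal.ofReal_le_ofReal (mul_le_mul_of_nonneg_left
      (Real.exp_le_exp.2 (neg_le_neg (kq j x))) (normSq_nonneg _))
  have key : ∀ j, ∃ F, HoK M O F ∧
      ∫⁻ x, ENNReal.ofReal (normSq (Γ x - F x)) * den z (q j) U v m l c x ∂ν ≤
      ∫⁻ x, ENNReal.ofReal (β x * Real.exp (-κ x))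
        ∂ν.withDensity (den z (fun _ => 0) U v m l c) := fun j => by
    obtain ⟨s1, s2, s3⟩ := sp (a0 j)
    have t0 : ∀ x, 0 < Real.exp (κ x) / (Real.exp (κ x) + a j) := fun x =>
      div_pos (Real.exp_pos _) (p j x)
    have t1 : ∀ x, Real.exp (κ x) / (Real.exp (κ x) + a j) ≤ 1 := fun x =>
      (div_le_one (p j x)).2 (le_add_of_nonneg_right (a0 j).le)
    have mb : AEMeasurable (fun x => β x * ((Real.exp (κ x) + a j) / Real.exp (κ x))) ν :=
      mβ.mul ((mκ.exp.add_const _).div mκ.exp)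
    have l0 : 0 ≤ -Real.log (a j) := neg_nonneg.2 (Real.log_nonpos (a0 j).le (a1 j))
    obtain ⟨F, hF, est⟩ := aT10 n k M H O ν z Ω U v c₁ (q j)
      (fun d w => (Real.exp (κ (d.symm w)) / (Real.exp (κ (d.symm w)) + a j)) • (M.hs κ d w + S d w))
      m m₁ (1 + |C + C'| + -Real.log (a j)) l c
      (fun x => β x * ((Real.exp (κ x) + a j) / Real.exp (κ x))) Γ
      { W with
        m0 := ⟨m0, m1, by positivity⟩
        sk := fun d hd w hw ho => s1.contDiffAt.comp w (ds.sf d hd w hw ho)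
        lb := fun x _ => by
          have := Real.log_le_log (a0 j) (le_add_of_nonneg_left (Real.exp_pos (κ x)).le)
          have := abs_nonneg (C + C')
          simp only [hq]; linarith
        pos := fun d hd w hw ho => (ds.pos d hd w hw ho).smul (t0 _).le
        cur := fun K hK sK η hη => (cur K hK sK η hη).mono fun e he d hd w hw ho => by
          have b1 := ds.sf d hd w hw ⟨ho.1, sK ho.2⟩
          have b2 : M.hs (q j) d w = deriv (fun t => Real.log (Real.exp t + a j)) (κ (d.symm w)) •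
              M.hs κ d w + deriv (deriv fun t => Real.log (Real.exp t + a j)) (κ (d.symm w)) •
              WGT.dr (κ ∘ d.symm) w :=
            WGT.hr_comp (φ := fun t => Real.log (Real.exp t + a j)) b1 s1
          beta_reduce
          rw [b2, s2]
          have b3 := (((WGT.dr_psd b1).smul (s3 (κ (d.symm w)))).add (he d hd w hw ho)).add
            ((hS d hd w hw ⟨ho.1, sK ho.2⟩).smul (sub_nonneg.2 (t1 (d.symm w))))
          rw [s2] at b3
          beta_reduce at b3 ⊢
          refine (congrArg Matrix.PosSemidef ?_).mp b3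
          module
        ub := fun K hK sK => (uq K hK sK).mono fun e he x hx => by linarith [he.2 j x hx] }
      hl hc mb ds.sg (fun x hx => mul_nonneg (ds.b0 x hx) (div_pos (p j x) (Real.exp_pos _)).le)
      (fun d hd w hw ho ξ => by
        have b1 := (p j (d.symm w)).ne'
        have b2 := (Real.exp_pos (κ (d.symm w))).ne'
        refine (ds.dom d hd w hw ho ξ).trans (le_of_eq ?_)
        rw [nq_smul]
        field_simp) (ne_top_of_le_ne_top fin (f1 j))
    refine ⟨F, hF, est.trans (le_of_eq ?_)⟩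
    rw [cv _ _ mb (mq j)]
    refine lintegral_congr fun x => congrArg _ ?_
    have b1 := (p j x).ne'
    have b2 := (Real.exp_pos (κ x)).ne'
    simp only [hq]
    rw [Real.exp_neg, Real.exp_neg, Real.exp_log (p j x)]
    field_simp
  choose F hF est using key
  have t2 : (2 : ℝ≥0∞) ≠ ⊤ := ENNReal.ofNat_ne_top
  have mw : ∀ j x t t', 0 < t → t ≤ t' → wt z (q j) U v m l c t x ≤ wt z (q j) U v m l c t' x :=
    fun j x t t' h0 h1 => by
      have a := mul_le_mul_of_nonneg_left (W.vm t t' (z x) h0 h1) m0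
      have b := mul_le_mul_of_nonneg_left (W.up.mono t t' (z x) h0 h1) (show 0 ≤ l by linarith)
      unfold wt
      linarith
  have mE : ∀ j, AEMeasurable (den z (q j) U v m l c) ν := fun j => by
    rw [show den z (q j) U v m l c = _ from funext (den_eq z (q j) U v m l c)]
    exact (mq j).neg.exp.ennreal_ofReal.mul mD
  obtain ⟨G, s, hs, hG, tG⟩ := bMTL n M H O ν F (fun x => Real.exp (-(1 + |C + C'| +
      m * v 1 (z x) + c * Real.log (1 + nsq (z x))))) _ W.met W.oO W.low
    (((continuousOn_const.add (continuousOn_const.mul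
      ((W.vs 1 one_pos).1.continuous.comp_continuousOn cz))).add (continuousOn_const.mul
      ((continuousOn_const.add (c_nsq.comp_continuousOn cz)).log fun x _ =>
        (add_pos_of_pos_of_nonneg one_pos (nsq_nonneg _)).ne'))).neg.rexp)
    (fun _ _ => Real.exp_pos _)
    (ENNReal.add_ne_top.2 ⟨ENNReal.mul_ne_top t2 hI, ENNReal.mul_ne_top t2 fin⟩) hF fun i => by
      refine (setLIntegral_le_lintegral _ _).trans (le_trans ?_ (add_le_add (mul_le_mul_right
        (est i) 2) (mul_le_mul_right (f1 i) 2)))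
      rw [← lintegral_const_mul' _ _ t2, ← lintegral_const_mul' _ _ t2,
        ← lintegral_add_right' _ (g := fun x => 2 * (ENNReal.ofReal (normSq (Γ x)) *
          den z (q i) U v m l c x)) (((mN _ mΓ).ennreal_ofReal.mul (mE i)).const_mul 2)]
      refine lintegral_mono_ae (aΩ.mono fun x hx => ?_)
      obtain ⟨t, t3, t1⟩ := (uq {z x} isCompact_singleton (singleton_subset_iff.2 hx.2)).exists
      have b1 := t1 i x ⟨hx.1, rfl⟩
      have b2 := mul_le_mul_of_nonneg_left (W.vm t 1 (z x) t3.1 t3.2) m0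
      have b3 := mul_nonneg (show 0 ≤ l - m₁ by linarith) (neg_nonneg.2 (U0 t (z x) t3.1 t3.2))
      have b4 : ENNReal.ofReal (Real.exp (-(1 + |C + C'| + m * v 1 (z x) +
          c * Real.log (1 + nsq (z x))))) ≤ den z (q i) U v m l c x :=
        le_trans (ENNReal.ofReal_le_ofReal (Real.exp_le_exp.2 (neg_le_neg (by
          unfold wt; linarith)))) (le_den (mw i x) t3.1)
      have b5 := sq_le (Γ x) (F i x) (t := 1) ⟨zero_le_one, le_rfl⟩
      rw [ofReal_one, one_mul] at b5
      beta_reduce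
      rw [ENNReal.ofReal_mul (normSq_nonneg _), ← mul_assoc, ← mul_assoc, ← add_mul]
      refine mul_le_mul' ((ENNReal.ofReal_le_ofReal b5).trans (ENNReal.ofReal_add_le.trans ?_)) b4
      rw [ENNReal.ofReal_mul zero_le_two, ENNReal.ofReal_mul zero_le_two, ENNReal.ofReal_ofNat]
  have ac := withDensity_absolutelyContinuous ν (den z (fun _ => 0) U v m l c)
  refine ⟨G, hG, ?_⟩
  rw [one_mul]
  refine le_trans (le_trans (lintegral_mono_ae ((aO.filter_mono ac.ae_le).mono fun x hx => ?_))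
    (lintegral_liminf_le' (u := atTop) (f := fun i x => ENNReal.ofReal (normSq (Γ x - F (s i) x) *
      Real.exp (-q (s i) x))) fun i => (((mN _ (mΓ.sub (mF _ (hF _)))).mul
        (mq _).neg.exp).ennreal_ofReal).mono_ac ac))
    (liminf_le_of_frequently_le' (.of_forall fun i => ?_))
  · have t1 : Tendsto (fun i => q (s i) x) atTop (𝓝 (κ x)) := by
      have := ((tendsto_one_div_add_atTop_nhds_zero_nat.comp hs.tendsto_atTop).const_add
        (Real.exp (κ x))).log (by rw [add_zero]; exact (Real.exp_pos _).ne')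
      rw [add_zero, Real.log_exp] at this
      exact this
    exact (ENNReal.tendsto_ofReal (((continuous_normSq.tendsto _).comp
      ((tG x hx).const_sub (Γ x))).mul t1.neg.rexp)).liminf_eq.ge
  · exact (cv _ _ (mN _ (mΓ.sub (mF _ (hF _)))) (mq _)).ge.trans (est _)

end Pool.Agent.Lib.RB9
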